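import Pool.Agent.N305.GL.Stm

/-!
# The Bellman function: derivatives and the inequality
-/

set_option autoImplicit false

namespace Pool.Agent.N305.GL

namespace AlgAux

theorem bu_ge {v w : ℝ} (hv : 0 < v) (hw : 0 < w) (h : 1 ≤ v * w) : v ≤ bu v w := by
  unfold bu
  have h1 : 1 / (v * w ^ 2) ≤ v := by
    rw [div_le_iff₀ (by positivity)]
    nlinarith
  linarith

theorem bu_le {v w : ℝ} (hv : 0 < v) (hw : 0 < w) : bu v w ≤ 2 * v := by
  unfold bu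
  have h1 : 0 ≤ 1 / (v * w ^ 2) := by positivity
  linarith

theorem d_bu {v w : ℝ → ℝ} {b c s : ℝ} (hv0 : 0 < v s) (hw0 : 0 < w s) (hv : HasDerivAt v b s)
    (hw : HasDerivAt w c s) :
    HasDerivAt (fun t => bu (v t) (w t)) (buv (v s) (w s) * b + buw (v s) (w s) * c) s := by
  have hne : v s * w s ^ 2 ≠ 0 := by positivity
  have h1 := (hv.const_mul 2).sub ((hasDerivAt_const s (1 : ℝ)).div (hv.mul (hw.pow 2)) hne)
  unfold bu
  refine HasDerivAt.congr_deriv h1 ?_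
  unfold buv buw
  simp only [Pi.mul_apply, Pi.pow_apply]
  field_simp
  ring

theorem d_buv {v w : ℝ → ℝ} {b c s : ℝ} (hv0 : 0 < v s) (hw0 : 0 < w s) (hv : HasDerivAt v b s)
    (hw : HasDerivAt w c s) :
    HasDerivAt (fun t => buv (v t) (w t))
      (-(2 * b / (v s ^ 3 * w s ^ 2)) - 2 * c / (v s ^ 2 * w s ^ 3)) s := by
  have hne : v s ^ 2 * w s ^ 2 ≠ 0 := by positivity
  have h1 := (hasDerivAt_const s (2 : ℝ)).add
    ((hasDerivAt_const s (1 : ℝ)).div ((hv.pow 2).mul (hw.pow 2)) hne)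
  unfold buv
  refine HasDerivAt.congr_deriv h1 ?_
  simp only [Pi.mul_apply, Pi.pow_apply]
  field_simp
  ring

theorem d_buw {v w : ℝ → ℝ} {b c s : ℝ} (hv0 : 0 < v s) (hw0 : 0 < w s) (hv : HasDerivAt v b s)
    (hw : HasDerivAt w c s) :
    HasDerivAt (fun t => buw (v t) (w t))
      (-(2 * b / (v s ^ 2 * w s ^ 3)) - 6 * c / (v s * w s ^ 4)) s := by
  have hne : v s * w s ^ 3 ≠ 0 := by positivity
  have h1 := (hasDerivAt_const s (2 : ℝ)).div (hv.mul (hw.pow 3)) hne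
  unfold buw
  refine HasDerivAt.congr_deriv h1 ?_
  simp only [Pi.mul_apply, Pi.pow_apply]
  field_simp
  ring

theorem ineq {Q x v w a b c : ℝ} (hv : 0 < v) (hw : 0 < w) (h1 : 1 ≤ v * w) (hQ : v * w ≤ Q) :
    w * a ^ 2 ≤ 26 * Q ^ 3 * bH x v w a b c := by
  have hu1 := bu_ge hv hw h1
  have hu2 := bu_le hv hw
  obtain ⟨u, hu⟩ : ∃ u, u = bu v w := ⟨_, rfl⟩
  rw [← hu] at hu1 hu2
  have hu0 : 0 < u := by linarith
  have hQ1 : 1 ≤ Q := h1.trans hQ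
  obtain ⟨β, hβ⟩ : ∃ β, b = v * β := ⟨b / v, by field_simp⟩
  obtain ⟨γ, hγ⟩ : ∃ γ, c = w * γ := ⟨c / w, by field_simp⟩
  obtain ⟨k, hk⟩ : ∃ k, k = 1 / (v * w) ^ 2 := ⟨_, rfl⟩
  have hk0 : 0 ≤ k := by rw [hk]; positivity
  have hk1 : k ≤ 1 := by
    rw [hk, div_le_one (by positivity)]
    nlinarith
  obtain ⟨P, hP⟩ : ∃ P, P = buv v w * b + buw v w * c := ⟨_, rfl⟩
  have hP1 : P = v * ((2 + k) * β + 2 * k * γ) := by
    rw [hP, hk, hβ, hγ]
    unfold buv buw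
    field_simp
  have hP2 : P ^ 2 ≤ 13 * v ^ 2 * (β ^ 2 + γ ^ 2) := by
    have e1 : ((2 + k) * β + 2 * k * γ) ^ 2 ≤ ((2 + k) ^ 2 + (2 * k) ^ 2) * (β ^ 2 + γ ^ 2) := by
      nlinarith [sq_nonneg ((2 + k) * γ - 2 * k * β)]
    have e2 : (2 + k) ^ 2 + (2 * k) ^ 2 ≤ 13 := by nlinarith
    have e3 : ((2 + k) * β + 2 * k * γ) ^ 2 ≤ 13 * (β ^ 2 + γ ^ 2) :=
      e1.trans (mul_le_mul_of_nonneg_right e2 (by positivity))
    rw [hP1, mul_pow]
    have := mul_le_mul_of_nonneg_left e3 (sq_nonneg v)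
    linarith
  obtain ⟨S, hS⟩ : ∃ S, S = 2 * b ^ 2 / (v ^ 3 * w ^ 2) + 4 * b * c / (v ^ 2 * w ^ 3) +
      6 * c ^ 2 / (v * w ^ 4) := ⟨_, rfl⟩
  have hS1 : v * w ^ 2 * S = 2 * β ^ 2 + 4 * β * γ + 6 * γ ^ 2 := by
    rw [hS, hβ, hγ]
    field_simp
  have hS2 : β ^ 2 + γ ^ 2 ≤ v * w ^ 2 * S := by
    rw [hS1]
    nlinarith [sq_nonneg (β + 2 * γ), sq_nonneg γ]
  have hS0 : 0 ≤ S := by
    have h2 : 0 ≤ v * w ^ 2 * S := le_trans (by positivity) hS2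
    exact nonneg_of_mul_nonneg_right h2 (by positivity)
  have hQ3 : (v * w) ^ 3 ≤ Q ^ 3 := pow_le_pow_left₀ (by positivity) hQ 3
  have k2 : 2 * w * P ^ 2 ≤ 26 * Q ^ 3 * S := by
    calc 2 * w * P ^ 2 ≤ 2 * w * (13 * v ^ 2 * (β ^ 2 + γ ^ 2)) := by
          exact mul_le_mul_of_nonneg_left hP2 (by positivity)
      _ ≤ 2 * w * (13 * v ^ 2 * (v * w ^ 2 * S)) := by
          exact mul_le_mul_of_nonneg_left (mul_le_mul_of_nonneg_left hS2 (by positivity))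
            (by positivity)
      _ = 26 * (v * w) ^ 3 * S := by ring
      _ ≤ 26 * Q ^ 3 * S := by
          exact mul_le_mul_of_nonneg_right (mul_le_mul_of_nonneg_left hQ3 (by norm_num)) hS0
  obtain ⟨T, hT⟩ : ∃ T, T = a - x / u * P := ⟨_, rfl⟩
  have hbH : bH x v w a b c = 2 / u * T ^ 2 + x ^ 2 / u ^ 2 * S := by
    unfold bH
    rw [← hu, ← hP, ← hS, hT]
  have k1 : 2 * w * T ^ 2 ≤ 26 * Q ^ 3 * (2 / u * T ^ 2) := by
    have e1 : w ≤ Q * (2 / u) := by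
      rw [mul_div_assoc', le_div_iff₀ hu0]
      nlinarith
    have e2 : 2 * Q ≤ 26 * Q ^ 3 := by nlinarith [sq_nonneg Q, mul_pos (lt_of_lt_of_le one_pos hQ1) (lt_of_lt_of_le one_pos hQ1)]
    calc 2 * w * T ^ 2 ≤ 2 * (Q * (2 / u)) * T ^ 2 := by
          exact mul_le_mul_of_nonneg_right (by linarith) (sq_nonneg _)
      _ = (2 * Q) * (2 / u * T ^ 2) := by ring
      _ ≤ 26 * Q ^ 3 * (2 / u * T ^ 2) := mul_le_mul_of_nonneg_right e2 (by positivity)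
  have ha : a = T + x / u * P := by rw [hT]; ring
  have ha2 : a ^ 2 ≤ 2 * T ^ 2 + 2 * (x ^ 2 / u ^ 2 * P ^ 2) := by
    have e : x ^ 2 / u ^ 2 * P ^ 2 = (x / u * P) ^ 2 := by ring
    rw [e, ha]
    nlinarith [sq_nonneg (T - x / u * P)]
  calc w * a ^ 2 ≤ w * (2 * T ^ 2 + 2 * (x ^ 2 / u ^ 2 * P ^ 2)) :=
        mul_le_mul_of_nonneg_left ha2 hw.le
    _ = 2 * w * T ^ 2 + x ^ 2 / u ^ 2 * (2 * w * P ^ 2) := by ring
    _ ≤ 26 * Q ^ 3 * (2 / u * T ^ 2) + x ^ 2 / u ^ 2 * (26 * Q ^ 3 * S) :=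
        add_le_add k1 (mul_le_mul_of_nonneg_left k2 (by positivity))
    _ = 26 * Q ^ 3 * bH x v w a b c := by rw [hbH]; ring

end AlgAux

open AlgAux in
/-- GL/ALG -/
theorem alg : S_ALG := by
  refine ⟨?_, fun v w hv hw h => ⟨bu_ge hv hw h, bu_le hv hw⟩,
    fun Q x v w a b c hv hw h1 hQ => ineq hv hw h1 hQ⟩
  intro x v w x1 v1 w1 s hv0 hw0 h1 hx hv hw
  have hu0 : bu (v s) (w s) ≠ 0 := by
    have := bu_ge hv0 hw0 h1
    linarith
  have hU := d_bu hv0 hw0 hv hw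
  constructor
  · have h2 := (hx.pow 2).div hU hu0
    unfold bG
    refine HasDerivAt.congr_deriv h2 ?_
    unfold bD
    simp only [Pi.pow_apply]
    field_simp
    ring
  · intro x2 v2 w2 hx1 hv1 hw1
    have hV := d_buv hv0 hw0 hv hw
    have hW := d_buw hv0 hw0 hv hw
    have h3 := (((hx.const_mul 2).div hU hu0).mul hx1).sub
      (((hx.pow 2).div (hU.pow 2) (pow_ne_zero 2 hu0)).mul ((hV.mul hv1).add (hW.mul hw1)))
    unfold bD
    refine HasDerivAt.congr_deriv h3 ?_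
    unfold bH
    simp only [Pi.pow_apply, Pi.mul_apply, Pi.div_apply, Pi.add_apply]
    generalize bu (v s) (w s) = U at *
    generalize buv (v s) (w s) = A at *
    generalize buw (v s) (w s) = B at *
    field_simp
    ring

end Pool.Agent.N305.GL
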