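import Pool.Agent.N305.GL.Stm

/-!
# Change of aperture in `L^q` of a doubling weight, `q < 1`
-/

set_option autoImplicit false

open MeasureTheory Set Filter Topology
open scoped ENNReal NNReal

namespace Pool.Agent.N305.GL

namespace Ape

/-! ### layer cake -/

lemma lint_rpow_Ioo {q m : ℝ} (hq : 0 < q) (hm : 0 ≤ m) :
    ∫⁻ t in Ioo (0:ℝ) m, ENNReal.ofReal (q * t ^ (q - 1)) = ENNReal.ofReal (m ^ q) := by
  have hint : IntervalIntegrable (fun t : ℝ => t ^ (q - 1)) volume 0 m :=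
    intervalIntegral.intervalIntegrable_rpow' (by linarith)
  have hint2 : IntegrableOn (fun t : ℝ => q * t ^ (q - 1)) (Ioo 0 m) := by
    have := (intervalIntegrable_iff_integrableOn_Ioo_of_le hm).1 hint
    exact this.const_mul q
  rw [← ofReal_integral_eq_lintegral_ofReal hint2]
  · congr 1
    rw [← integral_Ioc_eq_integral_Ioo, ← intervalIntegral.integral_of_le hm,
      intervalIntegral.integral_const_mul, integral_rpow (Or.inl (by linarith))]
    rw [show q - 1 + 1 = q by ring, Real.zero_rpow hq.ne']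
    field_simp
    ring
  · filter_upwards [ae_restrict_mem measurableSet_Ioo] with t ht
    exact mul_nonneg hq.le (Real.rpow_nonneg ht.1.le _)

/-- layer cake formula for numbers in `[0,∞]` -/
lemma layer_pt {q : ℝ} (hq : 0 < q) (M : ℝ≥0∞) :
    ∫⁻ t in Ioi (0:ℝ), (if ENNReal.ofReal t < M then ENNReal.ofReal (q * t ^ (q - 1)) else 0) =
      M ^ q := by
  have hfin : ∀ m : ℝ, 0 ≤ m → ∫⁻ t in Ioi (0:ℝ),
      (if ENNReal.ofReal t < ENNReal.ofReal m then ENNReal.ofReal (q * t ^ (q - 1)) else 0) =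
        ENNReal.ofReal (m ^ q) := by
    intro m hm
    rw [← lint_rpow_Ioo hq hm, ← lintegral_indicator measurableSet_Ioi,
      ← lintegral_indicator measurableSet_Ioo]
    refine lintegral_congr fun t => ?_
    by_cases ht : t ∈ Ioo 0 m
    · rw [indicator_of_mem ht, indicator_of_mem (mem_Ioi.2 ht.1),
        if_pos ((ENNReal.ofReal_lt_ofReal_iff (ht.1.trans ht.2)).2 ht.2)]
    · rw [indicator_of_notMem ht]
      by_cases h0 : t ∈ Ioi (0:ℝ)
      · rw [indicator_of_mem h0, if_neg]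
        intro hlt
        exact ht ⟨h0, (ENNReal.ofReal_lt_ofReal_iff'.1 hlt).1⟩
      · rw [indicator_of_notMem h0]
  rcases eq_or_ne M ∞ with rfl | hM
  · rw [ENNReal.top_rpow_of_pos hq]
    refine ENNReal.eq_top_of_forall_nnreal_le fun r => ?_
    have hr : (0:ℝ) ≤ r := NNReal.coe_nonneg r
    have h1 := hfin ((r : ℝ) ^ (1 / q)) (Real.rpow_nonneg hr _)
    rw [← Real.rpow_mul hr, one_div, inv_mul_cancel₀ hq.ne', Real.rpow_one,
      ENNReal.ofReal_coe_nnreal] at h1
    rw [← h1]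
    refine lintegral_mono fun t => ?_
    split_ifs with h2 h3
    · exact le_rfl
    · exact absurd ENNReal.ofReal_lt_top h3
    · exact zero_le
    · exact le_rfl
  · have h1 := hfin M.toReal ENNReal.toReal_nonneg
    rw [ENNReal.ofReal_toReal hM, ← ENNReal.ofReal_rpow_of_nonneg ENNReal.toReal_nonneg hq.le,
      ENNReal.ofReal_toReal hM] at h1
    exact h1

/-- the complementary integral -/
lemma layer_pt2 {q : ℝ} (hq : 0 < q) (hq1 : q < 1) (M : ℝ≥0∞) :
    M * ∫⁻ t in Ioi (0:ℝ), (if M ≤ ENNReal.ofReal t then ENNReal.ofReal (q * t ^ (q - 2)) else 0) ≤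
      ENNReal.ofReal (q / (1 - q)) * M ^ q := by
  rcases eq_or_ne M 0 with rfl | h0
  · rw [zero_mul]; exact zero_le
  rcases eq_or_ne M ∞ with rfl | hM
  · have h0 : ∀ t : ℝ, (if (∞ : ℝ≥0∞) ≤ ENNReal.ofReal t then
        ENNReal.ofReal (q * t ^ (q - 2)) else 0) = 0 := fun t => if_neg (by
      rw [top_le_iff]
      exact ENNReal.ofReal_ne_top)
    simp only [h0, lintegral_zero, mul_zero]
    exact zero_le
  · have hm : 0 < M.toReal := ENNReal.toReal_pos h0 hM
    set m := M.toReal with hmdef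
    have hMm : M = ENNReal.ofReal m := (ENNReal.ofReal_toReal hM).symm
    have hint : IntegrableOn (fun t : ℝ => t ^ (q - 2)) (Ioi m) :=
      integrableOn_Ioi_rpow_of_lt (by linarith) hm
    have h1 : ∫⁻ t in Ioi (0:ℝ), (if M ≤ ENNReal.ofReal t then
        ENNReal.ofReal (q * t ^ (q - 2)) else 0) = ENNReal.ofReal (q / (1 - q) * m ^ (q - 1)) := by
      have h2 : ∫⁻ t in Ioi (0:ℝ), (if M ≤ ENNReal.ofReal t then
          ENNReal.ofReal (q * t ^ (q - 2)) else 0) =
            ∫⁻ t in Ici m, ENNReal.ofReal (q * t ^ (q - 2)) := by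
        rw [← lintegral_indicator measurableSet_Ioi, ← lintegral_indicator measurableSet_Ici]
        refine lintegral_congr fun t => ?_
        by_cases ht : t ∈ Ici m
        · have h0t : 0 < t := hm.trans_le ht
          rw [indicator_of_mem ht, indicator_of_mem (mem_Ioi.2 h0t), if_pos]
          rw [hMm]
          exact ENNReal.ofReal_le_ofReal ht
        · rw [indicator_of_notMem ht]
          by_cases h0t : t ∈ Ioi (0:ℝ)
          · rw [indicator_of_mem h0t, if_neg]
            rw [hMm, ENNReal.ofReal_le_ofReal_iff (le_of_lt h0t)]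
            exact ht
          · rw [indicator_of_notMem h0t]
      rw [h2, setLIntegral_congr Ioi_ae_eq_Ici.symm,
        ← ofReal_integral_eq_lintegral_ofReal (hint.const_mul q)]
      · congr 1
        rw [integral_const_mul, integral_Ioi_rpow_of_lt (by linarith) hm]
        rw [show q - 2 + 1 = q - 1 by ring]
        have h3 : q - 1 ≠ 0 := by linarith
        have h4 : 1 - q ≠ 0 := by linarith
        field_simp
        ring
      · filter_upwards [ae_restrict_mem measurableSet_Ioi] with t ht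
        exact mul_nonneg hq.le (Real.rpow_nonneg (hm.trans ht).le _)
    rw [h1, hMm, ENNReal.ofReal_rpow_of_nonneg hm.le hq.le, ← ENNReal.ofReal_mul hm.le,
      ← ENNReal.ofReal_mul (div_nonneg hq.le (by linarith))]
    refine ENNReal.ofReal_le_ofReal (le_of_eq ?_)
    have h5 : m * m ^ (q - 1) = m ^ q := by
      have := Real.rpow_add hm 1 (q - 1)
      rw [Real.rpow_one] at this
      rw [← this]
      congr 1
      ring
    calc m * (q / (1 - q) * m ^ (q - 1)) = q / (1 - q) * (m * m ^ (q - 1)) := by ring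
      _ = _ := by rw [h5]

/-- layer cake formula -/
lemma layer {q : ℝ} (hq : 0 < q) (μ : Measure ℝ) [SFinite μ] {M : ℝ → ℝ≥0∞}
    (hM : Measurable M) :
    ∫⁻ x, M x ^ q ∂μ =
      ∫⁻ t in Ioi (0:ℝ), ENNReal.ofReal (q * t ^ (q - 1)) * μ {x | ENNReal.ofReal t < M x} := by
  simp only [← layer_pt hq]
  rw [lintegral_lintegral_swap]
  · refine lintegral_congr fun t => ?_
    have hs : MeasurableSet {x | ENNReal.ofReal t < M x} := measurableSet_lt measurable_const hM
    rw [← setLIntegral_const, ← lintegral_indicator hs]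
    refine lintegral_congr fun x => ?_
    rw [indicator_apply]
    rfl
  · refine Measurable.aemeasurable ?_
    refine Measurable.ite (measurableSet_lt ?_ ?_) ?_ measurable_const
    · exact ENNReal.measurable_ofReal.comp measurable_snd
    · exact hM.comp measurable_fst
    · exact ENNReal.measurable_ofReal.comp ((measurable_snd.pow_const _).const_mul _)

/-- the complementary formula -/
lemma layer2 {q : ℝ} (hq : 0 < q) (hq1 : q < 1) (μ : Measure ℝ) [SFinite μ] {M : ℝ → ℝ≥0∞}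
    (hM : Measurable M) :
    ∫⁻ t in Ioi (0:ℝ), ENNReal.ofReal (q * t ^ (q - 2)) *
      ∫⁻ x, (if M x ≤ ENNReal.ofReal t then M x else 0) ∂μ ≤
        ENNReal.ofReal (q / (1 - q)) * ∫⁻ x, M x ^ q ∂μ := by
  have hset : MeasurableSet {p : ℝ × ℝ | M p.2 ≤ ENNReal.ofReal p.1} :=
    measurableSet_le (hM.comp measurable_snd) (ENNReal.measurable_ofReal.comp measurable_fst)
  calc ∫⁻ t in Ioi (0:ℝ), ENNReal.ofReal (q * t ^ (q - 2)) *
      ∫⁻ x, (if M x ≤ ENNReal.ofReal t then M x else 0) ∂μ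
      = ∫⁻ t in Ioi (0:ℝ), ∫⁻ x, (ENNReal.ofReal (q * t ^ (q - 2)) *
        (if M x ≤ ENNReal.ofReal t then M x else 0)) ∂μ := by
        refine lintegral_congr fun t => ?_
        rw [lintegral_const_mul]
        exact Measurable.ite (measurableSet_le hM measurable_const) hM measurable_const
    _ = ∫⁻ x, (∫⁻ t in Ioi (0:ℝ), (ENNReal.ofReal (q * t ^ (q - 2)) *
        (if M x ≤ ENNReal.ofReal t then M x else 0))) ∂μ := by
        rw [lintegral_lintegral_swap]
        refine Measurable.aemeasurable ?_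
        refine Measurable.mul ?_ ?_
        · exact ENNReal.measurable_ofReal.comp ((measurable_fst.pow_const _).const_mul _)
        · exact Measurable.ite hset (hM.comp measurable_snd) measurable_const
    _ ≤ ∫⁻ x, ENNReal.ofReal (q / (1 - q)) * M x ^ q ∂μ := by
        refine lintegral_mono fun x => ?_
        refine le_trans (le_of_eq ?_) (layer_pt2 hq hq1 (M x))
        rw [← lintegral_const_mul]
        · refine lintegral_congr fun t => ?_
          split_ifs
          · rw [mul_comm]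
          · simp
        · refine Measurable.ite ?_ ?_ measurable_const
          · exact measurableSet_le measurable_const ENNReal.measurable_ofReal
          · exact ENNReal.measurable_ofReal.comp ((measurable_id.pow_const _).const_mul _)
    _ = _ := by rw [lintegral_const_mul _ (hM.pow_const q)]

/-! ### Tonelli -/

/-- the measure on the upper half plane -/
noncomputable def nu : Measure (ℝ × ℝ) := (volume : Measure ℝ).prod (volume.restrict (Ioi 0))

instance : SFinite nu := by unfold nu; infer_instance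

/-- the kernel -/
noncomputable def Kf (a : ℝ) (F : ℝ → ℝ → ℝ≥0∞) (x : ℝ) (p : ℝ × ℝ) : ℝ≥0∞ :=
  if |x - p.1| < a * p.2 then F p.1 p.2 else 0

lemma Kf_meas (a : ℝ) {F : ℝ → ℝ → ℝ≥0∞} (hF : Measurable (Function.uncurry F)) :
    Measurable (Function.uncurry (Kf a F)) := by
  refine Measurable.ite (measurableSet_lt ?_ ?_) ?_ measurable_const
  · exact (measurable_fst.sub (measurable_fst.comp measurable_snd)).abs
  · exact (measurable_snd.comp measurable_snd).const_mul a
  · exact hF.comp measurable_snd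

lemma Aa_eq (a : ℝ) {F : ℝ → ℝ → ℝ≥0∞} (hF : Measurable (Function.uncurry F)) (x : ℝ) :
    Aa a F x = ∫⁻ p, Kf a F x p ∂nu := by
  unfold nu
  have h1 : Measurable (Kf a F x) := (Kf_meas a hF).comp (measurable_const.prodMk measurable_id)
  rw [lintegral_prod _ h1.aemeasurable]
  rfl

lemma Aa_meas (a : ℝ) {F : ℝ → ℝ → ℝ≥0∞} (hF : Measurable (Function.uncurry F)) :
    Measurable (Aa a F) := by
  have : Aa a F = fun x => ∫⁻ p, Kf a F x p ∂nu := funext (Aa_eq a hF)
  rw [this]
  exact (Kf_meas a hF).lintegral_prod_right'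

/-- the interval -/
def In (a : ℝ) (p : ℝ × ℝ) : Set ℝ := {x | |x - p.1| < a * p.2}

lemma In_meas (a : ℝ) (p : ℝ × ℝ) : MeasurableSet (In a p) :=
  measurableSet_lt ((measurable_id.sub measurable_const).abs) measurable_const

lemma In_eq (a : ℝ) (p : ℝ × ℝ) : In a p = Ioo (p.1 - a * p.2) (p.1 + a * p.2) := by
  ext x
  simp only [In, mem_ofPred_eq, mem_Ioo, abs_lt]
  constructor <;> rintro ⟨h1, h2⟩ <;> constructor <;> linarith

lemma ton (μ : Measure ℝ) [SFinite μ] (a : ℝ) {F : ℝ → ℝ → ℝ≥0∞}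
    (hF : Measurable (Function.uncurry F)) (S : Set ℝ) :
    ∫⁻ x in S, Aa a F x ∂μ = ∫⁻ p, F p.1 p.2 * μ (In a p ∩ S) ∂nu := by
  simp only [Aa_eq a hF]
  rw [lintegral_lintegral_swap (Kf_meas a hF).aemeasurable]
  refine lintegral_congr fun p => ?_
  rw [← Measure.restrict_apply (In_meas a p), ← setLIntegral_const,
    ← lintegral_indicator (In_meas a p)]
  refine lintegral_congr fun x => ?_
  unfold Kf
  by_cases hx : x ∈ In a p
  · rw [indicator_of_mem hx]
    exact if_pos hx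
  · rw [indicator_of_notMem hx]
    exact if_neg hx

/-! ### the distribution inequality -/

lemma main_set (μ : Measure ℝ) (hfin : ∀ a b : ℝ, μ (Ioo a b) ≠ ∞) {a : ℝ} (ha : 1 ≤ a)
    {L : ℝ≥0} (hL : 1 ≤ L)
    (hdbl : ∀ z y : ℝ, 0 < y → μ (Ioo (z - a * y) (z + a * y)) ≤ L * μ (Ioo (z - y) (z + y)))
    {O : Set ℝ} (hO : MeasurableSet O) (p : ℝ × ℝ) :
    μ (In a p ∩ {x | MX μ (O.indicator 1) x ≤ (2 * (L : ℝ≥0∞))⁻¹}) ≤
      2 * L * μ (In 1 p ∩ Oᶜ) := by
  have hL0 : (L : ℝ≥0∞) ≠ 0 := by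
    have : (1 : ℝ≥0∞) ≤ L := by exact_mod_cast hL
    intro h
    rw [h] at this
    exact absurd this (by simp)
  rcases (In a p ∩ {x | MX μ (O.indicator 1) x ≤ (2 * (L : ℝ≥0∞))⁻¹}).eq_empty_or_nonempty with
    he | ⟨x, hx1, hx2⟩
  · rw [he, measure_empty]; exact zero_le
  · have hy : 0 < p.2 := by
      have h1 : 0 < a * p.2 := (abs_nonneg _).trans_lt hx1
      by_contra h
      rw [not_lt] at h
      nlinarith
    have hd := hdbl p.1 p.2 hy
    rw [← In_eq] at hd
    have e1 : Ioo (p.1 - p.2) (p.1 + p.2) = In 1 p := by rw [In_eq, one_mul]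
    rw [e1] at hd
    have hfa : μ (In a p) ≠ ∞ := by rw [In_eq]; exact hfin _ _
    have hf1 : μ (In 1 p) ≠ ∞ := by rw [In_eq]; exact hfin _ _
    -- the maximal function
    have h2 : (μ (In a p))⁻¹ * μ (O ∩ In a p) ≤ (2 * (L : ℝ≥0∞))⁻¹ := by
      refine le_trans ?_ hx2
      have hx3 : x ∈ Ioo (p.1 - a * p.2) (p.1 + a * p.2) := by rw [← In_eq]; exact hx1
      unfold MX
      refine le_trans ?_ (le_iSup_of_le (p.1 - a * p.2) (le_iSup_of_le (p.1 + a * p.2)
        (le_iSup_of_le ⟨hx3.1, hx3.2⟩ le_rfl)))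
      rw [← In_eq, lintegral_indicator_one hO, Measure.restrict_apply hO]
    have h3 : μ (O ∩ In a p) ≤ (2 * (L : ℝ≥0∞))⁻¹ * μ (In a p) := by
      rcases eq_or_ne (μ (In a p)) 0 with h0 | h0
      · have : μ (O ∩ In a p) = 0 := measure_mono_null inter_subset_right h0
        rw [this]; exact zero_le
      · calc μ (O ∩ In a p) = ((μ (In a p))⁻¹ * μ (O ∩ In a p)) * μ (In a p) := by
              rw [mul_comm (μ (In a p))⁻¹, mul_assoc, ENNReal.inv_mul_cancel h0 hfa, mul_one]
          _ ≤ _ := mul_le_mul_left h2 _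
    have h4 : μ (O ∩ In 1 p) ≤ 2⁻¹ * μ (In 1 p) := by
      have hsub : In 1 p ⊆ In a p := by
        intro y hy1
        show |y - p.1| < a * p.2
        have : |y - p.1| < 1 * p.2 := hy1
        nlinarith
      calc μ (O ∩ In 1 p) ≤ μ (O ∩ In a p) := measure_mono (inter_subset_inter_right _ hsub)
        _ ≤ (2 * (L : ℝ≥0∞))⁻¹ * μ (In a p) := h3
        _ ≤ (2 * (L : ℝ≥0∞))⁻¹ * (L * μ (In 1 p)) := mul_le_mul_right hd _
        _ = 2⁻¹ * ((L : ℝ≥0∞)⁻¹ * L) * μ (In 1 p) := by
            rw [ENNReal.mul_inv (Or.inl (by norm_num)) (Or.inl (by norm_num))]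
            ring
        _ = _ := by rw [ENNReal.inv_mul_cancel hL0 ENNReal.coe_ne_top, mul_one]
    have h5 : μ (In 1 p) ≤ 2 * μ (In 1 p ∩ Oᶜ) := by
      have h6 : μ (In 1 p) = μ (O ∩ In 1 p) + μ (In 1 p ∩ Oᶜ) := by
        rw [inter_comm O, ← measure_inter_add_sdiff (In 1 p) hO, sdiff_eq]
      have h7 : μ (In 1 p) ≤ 2⁻¹ * μ (In 1 p) + μ (In 1 p ∩ Oᶜ) := by
        conv_lhs => rw [h6]
        gcongr
      have h8 : 2⁻¹ * μ (In 1 p) + 2⁻¹ * μ (In 1 p) ≤ 2⁻¹ * μ (In 1 p) + μ (In 1 p ∩ Oᶜ) := by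
        refine le_trans (le_of_eq ?_) h7
        rw [← add_mul, ENNReal.inv_two_add_inv_two, one_mul]
      have h9 : 2⁻¹ * μ (In 1 p) ≤ μ (In 1 p ∩ Oᶜ) :=
        (ENNReal.add_le_add_iff_left (ENNReal.mul_ne_top (by norm_num) hf1)).1 h8
      calc μ (In 1 p) = 2 * (2⁻¹ * μ (In 1 p)) := by
            rw [← mul_assoc, ENNReal.mul_inv_cancel (by norm_num) (by norm_num), one_mul]
        _ ≤ _ := mul_le_mul_right h9 _
    calc μ (In a p ∩ {x | MX μ (O.indicator 1) x ≤ (2 * (L : ℝ≥0∞))⁻¹}) ≤ μ (In a p) :=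
          measure_mono inter_subset_left
      _ ≤ L * μ (In 1 p) := hd
      _ ≤ L * (2 * μ (In 1 p ∩ Oᶜ)) := mul_le_mul_right h5 _
      _ = _ := by ring

lemma distr (h : S_WT) (μ : Measure ℝ) [SFinite μ] (hfin : ∀ a b : ℝ, μ (Ioo a b) ≠ ∞) {a : ℝ}
    (ha : 1 ≤ a) {L : ℝ≥0} (hL : 1 ≤ L)
    (hdbl : ∀ z y : ℝ, 0 < y → μ (Ioo (z - a * y) (z + a * y)) ≤ L * μ (Ioo (z - y) (z + y)))
    {F : ℝ → ℝ → ℝ≥0∞} (hF : Measurable (Function.uncurry F)) {t : ℝ} (ht : 0 < t) :
    μ {x | ENNReal.ofReal t < Aa a F x} ≤ 4 * L * μ {x | ENNReal.ofReal t < Aa 1 F x} +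
      2 * L * ((ENNReal.ofReal t)⁻¹ *
        ∫⁻ x, (if Aa 1 F x ≤ ENNReal.ofReal t then Aa 1 F x else 0) ∂μ) := by
  set O : Set ℝ := {x | ENNReal.ofReal t < Aa 1 F x} with hOdef
  have hO : MeasurableSet O := measurableSet_lt measurable_const (Aa_meas 1 hF)
  set S : Set ℝ := {x | MX μ (O.indicator 1) x ≤ (2 * (L : ℝ≥0∞))⁻¹} with hSdef
  have hS : MeasurableSet S := measurableSet_le (h.1 μ _) measurable_const
  have hL0 : (L : ℝ≥0∞) ≠ 0 := by
    have : (1 : ℝ≥0∞) ≤ L := by exact_mod_cast hL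
    intro h
    rw [h] at this
    exact absurd this (by simp)
  have h2L0 : 2 * (L : ℝ≥0∞) ≠ 0 := mul_ne_zero (by norm_num) hL0
  have h2LT : 2 * (L : ℝ≥0∞) ≠ ∞ := ENNReal.mul_ne_top (by norm_num) ENNReal.coe_ne_top
  -- the weak type inequality
  have hw : μ Sᶜ ≤ 4 * L * μ O := by
    have h1 := h.2 μ (O.indicator 1) (measurable_one.indicator hO) (2 * (L : ℝ≥0∞))⁻¹
    rw [lintegral_indicator_one hO] at h1
    have e : {x | (2 * (L : ℝ≥0∞))⁻¹ < MX μ (O.indicator 1) x} = Sᶜ := by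
      ext x
      exact (not_le (a := MX μ (O.indicator 1) x) (b := (2 * (L : ℝ≥0∞))⁻¹)).symm
    rw [e] at h1
    calc μ Sᶜ = (2 * (L : ℝ≥0∞)) * ((2 * (L : ℝ≥0∞))⁻¹ * μ Sᶜ) := by
          rw [← mul_assoc, ENNReal.mul_inv_cancel h2L0 h2LT, one_mul]
      _ ≤ (2 * (L : ℝ≥0∞)) * (2 * μ O) := mul_le_mul_right h1 _
      _ = _ := by ring
  -- Tonelli
  have ht2 : ∫⁻ x in S, Aa a F x ∂μ ≤ 2 * L * ∫⁻ x in Oᶜ, Aa 1 F x ∂μ := by
    rw [ton μ a hF S, ton μ 1 hF Oᶜ, ← lintegral_const_mul']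
    · refine lintegral_mono fun p => ?_
      calc F p.1 p.2 * μ (In a p ∩ S) ≤ F p.1 p.2 * (2 * L * μ (In 1 p ∩ Oᶜ)) :=
            mul_le_mul_right (main_set μ hfin ha hL hdbl hO p) _
        _ = _ := by ring
    · exact h2LT
  have hOc : ∫⁻ x in Oᶜ, Aa 1 F x ∂μ =
      ∫⁻ x, (if Aa 1 F x ≤ ENNReal.ofReal t then Aa 1 F x else 0) ∂μ := by
    rw [← lintegral_indicator hO.compl]
    refine lintegral_congr fun x => ?_
    rw [indicator_apply]
    congr 1
    simp [hOdef]
  -- Markov's inequality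
  have ht0 : ENNReal.ofReal t ≠ 0 := (ENNReal.ofReal_pos.2 ht).ne'
  have hM : μ ({x | ENNReal.ofReal t < Aa a F x} ∩ S) ≤
      (ENNReal.ofReal t)⁻¹ * ∫⁻ x in S, Aa a F x ∂μ := by
    have h1 := mul_meas_ge_le_lintegral (μ := μ.restrict S) (Aa_meas a hF) (ENNReal.ofReal t)
    calc μ ({x | ENNReal.ofReal t < Aa a F x} ∩ S) ≤
          μ ({x | ENNReal.ofReal t ≤ Aa a F x} ∩ S) :=
          measure_mono (inter_subset_inter_left _ fun x hx =>
            le_of_lt (show ENNReal.ofReal t < Aa a F x from hx))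
      _ = (μ.restrict S) {x | ENNReal.ofReal t ≤ Aa a F x} :=
          (Measure.restrict_apply (measurableSet_le measurable_const (Aa_meas a hF))).symm
      _ = (ENNReal.ofReal t)⁻¹ * (ENNReal.ofReal t *
          (μ.restrict S) {x | ENNReal.ofReal t ≤ Aa a F x}) := by
          rw [← mul_assoc, ENNReal.inv_mul_cancel ht0 ENNReal.ofReal_ne_top, one_mul]
      _ ≤ _ := mul_le_mul_right h1 _
  calc μ {x | ENNReal.ofReal t < Aa a F x} ≤
        μ Sᶜ + μ ({x | ENNReal.ofReal t < Aa a F x} ∩ S) := by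
        refine (measure_mono ?_).trans (measure_union_le _ _)
        intro x hx
        by_cases hxS : x ∈ S
        · exact Or.inr ⟨hx, hxS⟩
        · exact Or.inl hxS
    _ ≤ 4 * L * μ O + (ENNReal.ofReal t)⁻¹ * (2 * L * ∫⁻ x in Oᶜ, Aa 1 F x ∂μ) :=
        add_le_add hw (hM.trans (mul_le_mul_right ht2 _))
    _ = _ := by
        rw [hOc]
        ring

end Ape

theorem ape (h : S_WT) : S_APE := by
  intro q hq hq1 u hu hloc a ha L hL hdbl F hF
  set μ : Measure ℝ := volume.withDensity u with hμ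
  have hμI : ∀ a b : ℝ, μ (Ioo a b) = ∫⁻ x in Ioo a b, u x := fun a b =>
    withDensity_apply _ measurableSet_Ioo
  have hfin : ∀ a b : ℝ, μ (Ioo a b) ≠ ∞ := fun a b => by rw [hμI]; exact hloc a b
  have hdbl' : ∀ z y : ℝ, 0 < y →
      μ (Ioo (z - a * y) (z + a * y)) ≤ L * μ (Ioo (z - y) (z + y)) := fun z y hy => by
    rw [hμI, hμI]; exact hdbl z y hy
  have hconv : ∀ G : ℝ → ℝ≥0∞, Measurable G → ∫⁻ x, G x * u x = ∫⁻ x, G x ∂μ := by
    intro G hG
    rw [hμ, lintegral_withDensity_eq_lintegral_mul _ hu hG]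
    refine lintegral_congr fun x => ?_
    rw [Pi.mul_apply, mul_comm]
  have hA := Ape.Aa_meas 1 hF
  have hB := Ape.Aa_meas a hF
  rw [hconv _ (hB.pow_const q), hconv _ (hA.pow_const q)]
  have h1q : (0:ℝ) < 1 - q := by linarith
  calc ∫⁻ x, Aa a F x ^ q ∂μ
      = ∫⁻ t in Ioi (0:ℝ), ENNReal.ofReal (q * t ^ (q - 1)) *
          μ {x | ENNReal.ofReal t < Aa a F x} := Ape.layer hq μ hB
    _ ≤ ∫⁻ t in Ioi (0:ℝ), (4 * L * (ENNReal.ofReal (q * t ^ (q - 1)) *
          μ {x | ENNReal.ofReal t < Aa 1 F x}) + 2 * L * (ENNReal.ofReal (q * t ^ (q - 2)) *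
        ∫⁻ x, (if Aa 1 F x ≤ ENNReal.ofReal t then Aa 1 F x else 0) ∂μ)) := by
        refine setLIntegral_mono' measurableSet_Ioi fun t ht => ?_
        have ht' : (0:ℝ) < t := ht
        have h1 := Ape.distr h μ hfin ha hL hdbl' hF ht'
        have h2 : ENNReal.ofReal (q * t ^ (q - 2)) =
            ENNReal.ofReal (q * t ^ (q - 1)) * (ENNReal.ofReal t)⁻¹ := by
          rw [← ENNReal.ofReal_inv_of_pos ht',
            ← ENNReal.ofReal_mul (mul_nonneg hq.le (Real.rpow_nonneg ht'.le _))]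
          congr 1
          have : t ^ (q - 1) = t ^ (q - 2) * t := by
            rw [← Real.rpow_add_one ht'.ne']
            congr 1
            ring
          rw [this]
          field_simp
        calc _ ≤ ENNReal.ofReal (q * t ^ (q - 1)) *
              (4 * L * μ {x | ENNReal.ofReal t < Aa 1 F x} + 2 * L * ((ENNReal.ofReal t)⁻¹ *
              ∫⁻ x, (if Aa 1 F x ≤ ENNReal.ofReal t then Aa 1 F x else 0) ∂μ)) :=
              mul_le_mul_right h1 _
          _ = _ := by
              rw [h2]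
              ring
    _ = 4 * L * (∫⁻ t in Ioi (0:ℝ), ENNReal.ofReal (q * t ^ (q - 1)) *
          μ {x | ENNReal.ofReal t < Aa 1 F x}) + 2 * L * ∫⁻ t in Ioi (0:ℝ),
          ENNReal.ofReal (q * t ^ (q - 2)) *
        ∫⁻ x, (if Aa 1 F x ≤ ENNReal.ofReal t then Aa 1 F x else 0) ∂μ := by
        rw [lintegral_add_left', lintegral_const_mul', lintegral_const_mul']
        · exact ENNReal.mul_ne_top (by norm_num) ENNReal.coe_ne_top
        · exact ENNReal.mul_ne_top (by norm_num) ENNReal.coe_ne_top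
        · refine AEMeasurable.const_mul (Measurable.aemeasurable ?_) _
          refine Measurable.mul ?_ ?_
          · exact ENNReal.measurable_ofReal.comp ((measurable_id.pow_const _).const_mul _)
          · have hset : MeasurableSet {p : ℝ × ℝ | ENNReal.ofReal p.1 < Aa 1 F p.2} :=
              measurableSet_lt (ENNReal.measurable_ofReal.comp measurable_fst)
                (hA.comp measurable_snd)
            exact measurable_measure_prodMk_left hset
    _ ≤ 4 * L * (∫⁻ x, Aa 1 F x ^ q ∂μ) + 2 * L * (ENNReal.ofReal (q / (1 - q)) *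
          ∫⁻ x, Aa 1 F x ^ q ∂μ) := by
        rw [← Ape.layer hq μ hA]
        gcongr
        exact Ape.layer2 hq hq1 μ hA
    _ = _ := by
        have e : ENNReal.ofReal (4 + 2 * q / (1 - q)) =
            4 + 2 * ENNReal.ofReal (q / (1 - q)) := by
          rw [ENNReal.ofReal_add (by norm_num) (by positivity), mul_div_assoc,
            ENNReal.ofReal_mul (by norm_num)]
          norm_num
        rw [e]
        ring

end Pool.Agent.N305.GL
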