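import Pool.Agent.N305.GL.Stm

/-!
# Project GL (helper305), task AREA: three Poisson facts (helper519)
-/

set_option autoImplicit false

open MeasureTheory Set Filter Topology
open scoped ENNReal NNReal

namespace Pool.Agent.N305.GL

namespace Area

theorem one (u : ℝ → ℝ≥0∞) (hu : Measurable u) (z y : ℝ) (hy : 0 < y) :
    ∫⁻ x in Ioo (z - y) (z + y), u x ≤ ENNReal.ofReal (2 * Real.pi * y) * PE u z y := by
  unfold PE
  have hpi := Real.pi_pos
  rw [← lintegral_const_mul' _ _ ENNReal.ofReal_ne_top]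
  refine le_trans ?_ (setLIntegral_le_lintegral (Ioo (z - y) (z + y)) _)
  refine setLIntegral_mono' measurableSet_Ioo fun t ht => ?_
  rw [← mul_assoc, ← ENNReal.ofReal_mul (by positivity)]
  have h1 : (1 : ℝ) ≤ 2 * Real.pi * y * (1 / Real.pi * (y / ((z - t) ^ 2 + y ^ 2))) := by
    have h2 : (z - t) ^ 2 < y ^ 2 := sq_lt_sq' (by linarith [ht.2]) (by linarith [ht.1])
    have h3 : 2 * Real.pi * y * (1 / Real.pi * (y / ((z - t) ^ 2 + y ^ 2))) =
        2 * y ^ 2 / ((z - t) ^ 2 + y ^ 2) := by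
      field_simp
    have h4 : 0 < (z - t) ^ 2 + y ^ 2 := by positivity
    rw [h3, one_le_div h4]
    linarith
  have h5 : (1 : ℝ≥0∞) ≤
      ENNReal.ofReal (2 * Real.pi * y * (1 / Real.pi * (y / ((z - t) ^ 2 + y ^ 2)))) := by
    rw [← ENNReal.ofReal_one]
    exact ENNReal.ofReal_le_ofReal h1
  calc u t = 1 * u t := (one_mul _).symm
    _ ≤ _ := mul_le_mul_left h5 _

/-- the integrand -/
noncomputable def H (F : ℝ → ℝ → ℝ≥0∞) (x z y : ℝ) : ℝ≥0∞ := if |x - z| < 1 * y then F z y else 0

theorem meas_H (F : ℝ → ℝ → ℝ≥0∞) (hF : Measurable (Function.uncurry F)) :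
    Measurable fun p : ℝ × ℝ × ℝ => H F p.1 p.2.1 p.2.2 := by
  unfold H
  refine Measurable.ite ?_ ?_ measurable_const
  · exact measurableSet_lt (by fun_prop) (by fun_prop)
  · exact hF.comp measurable_snd

theorem two (u : ℝ → ℝ≥0∞) (hu : Measurable u) (F : ℝ → ℝ → ℝ≥0∞)
    (hF : Measurable (Function.uncurry F)) :
    ∫⁻ x, Aa 1 F x * u x ≤
      ∫⁻ z : ℝ, ∫⁻ y in Ioi (0:ℝ), F z y * (ENNReal.ofReal (2 * Real.pi * y) * PE u z y) := by
  have hH := meas_H F hF
  have h1 : ∀ x, Aa 1 F x * u x = ∫⁻ z : ℝ, ∫⁻ y in Ioi (0:ℝ), H F x z y * u x := by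
    intro x
    have h2 : Measurable fun p : ℝ × ℝ => H F x p.1 p.2 :=
      hH.comp (measurable_const.prodMk measurable_id)
    have h3 : Measurable fun z : ℝ => ∫⁻ y in Ioi (0:ℝ), H F x z y :=
      Measurable.lintegral_prod_right' (f := fun p : ℝ × ℝ => H F x p.1 p.2) h2
    have h4 : Aa 1 F x = ∫⁻ z : ℝ, ∫⁻ y in Ioi (0:ℝ), H F x z y := rfl
    rw [h4, ← lintegral_mul_const _ h3]
    refine lintegral_congr fun z => ?_
    rw [lintegral_mul_const]
    exact h2.comp (measurable_const.prodMk measurable_id)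
  simp only [h1]
  have hK : Measurable fun p : (ℝ × ℝ) × ℝ => H F p.1.1 p.1.2 p.2 * u p.1.1 := by
    refine Measurable.mul ?_ (hu.comp (measurable_fst.comp measurable_fst))
    exact hH.comp ((measurable_fst.comp measurable_fst).prodMk
      ((measurable_snd.comp measurable_fst).prodMk measurable_snd))
  rw [lintegral_lintegral_swap (f := fun x z => ∫⁻ y in Ioi (0:ℝ), H F x z y * u x)
    (Measurable.aemeasurable (Measurable.lintegral_prod_right' hK))]
  refine lintegral_mono fun z => ?_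
  have hL : Measurable fun p : ℝ × ℝ => H F p.1 z p.2 * u p.1 := by
    refine Measurable.mul ?_ (hu.comp measurable_fst)
    exact hH.comp (measurable_fst.prodMk (measurable_const.prodMk measurable_snd))
  have hsw := lintegral_lintegral_swap (μ := (volume : Measure ℝ))
    (ν := (volume : Measure ℝ).restrict (Ioi 0)) (f := fun x y => H F x z y * u x)
    (Measurable.aemeasurable hL)
  show ∫⁻ x, ∫⁻ y in Ioi (0:ℝ), H F x z y * u x ≤ _
  rw [hsw]
  refine setLIntegral_mono' measurableSet_Ioi fun y hy => ?_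
  have hy' : (0 : ℝ) < y := hy
  have h5 : ∀ x, H F x z y * u x = F z y * (Ioo (z - y) (z + y)).indicator u x := by
    intro x
    unfold H
    rw [one_mul]
    by_cases hx : |x - z| < y
    · rw [if_pos hx, indicator_of_mem]
      rw [abs_lt] at hx
      exact ⟨by linarith [hx.1], by linarith [hx.2]⟩
    · rw [if_neg hx, indicator_of_notMem, zero_mul, mul_zero]
      intro h
      apply hx
      rw [abs_lt]
      exact ⟨by linarith [h.1], by linarith [h.2]⟩
  calc ∫⁻ x, H F x z y * u x = ∫⁻ x, F z y * (Ioo (z - y) (z + y)).indicator u x :=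
        lintegral_congr h5
    _ = F z y * ∫⁻ x, (Ioo (z - y) (z + y)).indicator u x :=
        lintegral_const_mul _ (hu.indicator measurableSet_Ioo)
    _ = F z y * ∫⁻ x in Ioo (z - y) (z + y), u x := by
        rw [lintegral_indicator measurableSet_Ioo]
    _ ≤ _ := mul_le_mul_right (one u hu z y hy') _

theorem three (W : ℝ → ℝ) (hW : Measurable W) (h0 : ∀ x, 0 ≤ W x) (hM : ∃ M, ∀ x, W x ≤ M)
    (z y : ℝ) (hy : 0 < y) :
    ENNReal.ofReal (Po W z y) = PE (fun x => ENNReal.ofReal (W x)) z y := by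
  obtain ⟨M, hM⟩ := hM
  have hpi := Real.pi_pos
  have h1 : Po W z y = ∫ t, 1 / Real.pi * (y / ((z - t) ^ 2 + y ^ 2)) * W t := by
    rw [← integral_sub_left_eq_self (fun t => 1 / Real.pi * (y / ((z - t) ^ 2 + y ^ 2)) * W t)
      volume z]
    unfold Po
    rw [← integral_const_mul]
    refine integral_congr_ae (Filter.Eventually.of_forall fun x => ?_)
    simp only [sub_sub_cancel]
    ring
  have h2 : Integrable fun t : ℝ => 1 / Real.pi * (y / ((z - t) ^ 2 + y ^ 2)) := by
    have h3 : Integrable fun t : ℝ => (1 + ((z - t) / y) ^ 2)⁻¹ :=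
      (integrable_inv_one_add_sq.comp_div hy.ne').comp_sub_left z
    have h4 := h3.const_mul (1 / (Real.pi * y))
    refine h4.congr (Filter.Eventually.of_forall fun t => ?_)
    simp only
    field_simp
    ring
  have h3 : Integrable fun t : ℝ => 1 / Real.pi * (y / ((z - t) ^ 2 + y ^ 2)) * W t := by
    refine h2.mul_bdd (c := M) hW.aestronglyMeasurable (Filter.Eventually.of_forall fun t => ?_)
    rw [Real.norm_eq_abs, abs_of_nonneg (h0 t)]
    exact hM t
  rw [h1, ofReal_integral_eq_lintegral_ofReal h3 (Filter.Eventually.of_forall fun t => by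
    have := h0 t
    show 0 ≤ 1 / Real.pi * (y / ((z - t) ^ 2 + y ^ 2)) * W t
    positivity)]
  unfold PE
  refine lintegral_congr fun t => ?_
  rw [ENNReal.ofReal_mul (by positivity)]

end Area

theorem area : S_AREA := ⟨Area.one, Area.two, Area.three⟩

end Pool.Agent.N305.GL
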