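import Pool.Agent.N305.GL.Stm

/-!
# GL/BR: self-improvement of the condition `B_r`
-/

set_option autoImplicit false

open MeasureTheory Set Filter Topology
open scoped ENNReal NNReal

namespace Pool.Agent.N305.GL

/-- pointwise bound for the dyadic sum -/
theorem br_point {r : ℝ} (hr : 0 < r) {s : ℝ} (hs : 0 ≤ s) (N : ℕ) : ∀ y : ℝ, 0 < y →
    (∑ j ∈ Finset.range N, (((2:ℝ) ^ r)⁻¹) ^ j * (if s < 2 ^ j * y then (1:ℝ) else 0))
      ≤ 1 / (1 - ((2:ℝ) ^ r)⁻¹) ∧
    (∑ j ∈ Finset.range N, (((2:ℝ) ^ r)⁻¹) ^ j * (if s < 2 ^ j * y then (1:ℝ) else 0)) * s ^ r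
      ≤ 1 / (1 - ((2:ℝ) ^ r)⁻¹) * y ^ r := by
  have h2r : (1:ℝ) < (2:ℝ) ^ r := Real.one_lt_rpow (by norm_num) hr
  have hρ0 : 0 < ((2:ℝ) ^ r)⁻¹ := by positivity
  have hρ1 : ((2:ℝ) ^ r)⁻¹ < 1 := inv_lt_one_of_one_lt₀ h2r
  have hc0 : 0 < 1 / (1 - ((2:ℝ) ^ r)⁻¹) := by
    apply div_pos one_pos; linarith
  induction N with
  | zero =>
    intro y hy
    simp only [Finset.range_zero, Finset.sum_empty, zero_mul]
    have : 0 < y ^ r := Real.rpow_pos_of_pos hy r
    exact ⟨hc0.le, by positivity⟩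
  | succ N ih =>
    intro y hy
    obtain ⟨h1, h2⟩ := ih (2 * y) (by positivity)
    have hstep : (∑ j ∈ Finset.range (N + 1), (((2:ℝ) ^ r)⁻¹) ^ j *
        (if s < 2 ^ j * y then (1:ℝ) else 0)) =
        (if s < y then (1:ℝ) else 0) + ((2:ℝ) ^ r)⁻¹ *
        ∑ j ∈ Finset.range N, (((2:ℝ) ^ r)⁻¹) ^ j *
          (if s < 2 ^ j * (2 * y) then (1:ℝ) else 0) := by
      rw [Finset.sum_range_succ', Finset.mul_sum, add_comm]
      congr 1
      · simp
      · apply Finset.sum_congr rfl
        intro j _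
        have : (2:ℝ) ^ (j + 1) * y = 2 ^ j * (2 * y) := by ring
        rw [this, pow_succ]
        ring
    rw [hstep]
    set σ := ∑ j ∈ Finset.range N, (((2:ℝ) ^ r)⁻¹) ^ j *
          (if s < 2 ^ j * (2 * y) then (1:ℝ) else 0) with hσ
    set ρ := ((2:ℝ) ^ r)⁻¹ with hρ
    have hσ0 : 0 ≤ σ := by
      rw [hσ]
      apply Finset.sum_nonneg
      intro j _
      apply mul_nonneg (by positivity)
      split_ifs <;> norm_num
    have hce : 1 + ρ * (1 / (1 - ρ)) = 1 / (1 - ρ) := by
      have : 1 - ρ ≠ 0 := by linarith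
      field_simp
      ring
    have hfirst : (if s < y then (1:ℝ) else 0) + ρ * σ ≤ 1 / (1 - ρ) := by
      have : (if s < y then (1:ℝ) else 0) ≤ 1 := by split_ifs <;> norm_num
      have h3 : ρ * σ ≤ ρ * (1 / (1 - ρ)) := mul_le_mul_of_nonneg_left h1 hρ0.le
      linarith
    refine ⟨hfirst, ?_⟩
    by_cases hsy : s < y
    · have h4 : s ^ r ≤ y ^ r := Real.rpow_le_rpow hs hsy.le hr.le
      calc ((if s < y then (1:ℝ) else 0) + ρ * σ) * s ^ r
          ≤ 1 / (1 - ρ) * s ^ r := mul_le_mul_of_nonneg_right hfirst (Real.rpow_nonneg hs r)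
        _ ≤ 1 / (1 - ρ) * y ^ r := mul_le_mul_of_nonneg_left h4 hc0.le
    · rw [if_neg hsy, zero_add]
      have h5 : (2 * y) ^ r = 2 ^ r * y ^ r := Real.mul_rpow (by norm_num) hy.le
      rw [h5] at h2
      calc ρ * σ * s ^ r = ρ * (σ * s ^ r) := by ring
        _ ≤ ρ * (1 / (1 - ρ) * (2 ^ r * y ^ r)) := mul_le_mul_of_nonneg_left h2 hρ0.le
        _ = (ρ * 2 ^ r) * (1 / (1 - ρ) * y ^ r) := by ring
        _ = 1 / (1 - ρ) * y ^ r := by
            rw [hρ, inv_mul_cancel₀ (by positivity), one_mul]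

/-- the abstract geometric decay -/
theorem br_decay {a : ℕ → ℝ} {A : ℝ} (hA : 1 ≤ A)
    (h : ∀ N m, ∑ j ∈ Finset.range N, a (j + m) ≤ A * a m) (N : ℕ) :
    ∀ m, a (N + m) ≤ (1 - 1 / A) ^ N * ∑ j ∈ Finset.range (N + 1), a (j + m) := by
  have hA0 : 0 < A := by linarith
  have hθ : 0 ≤ 1 - 1 / A := by
    have : 1 / A ≤ 1 := by
      rw [div_le_one hA0]; exact hA
    linarith
  induction N with
  | zero => intro m; simp
  | succ N ih =>
    intro m
    have h1 := ih (m + 1)
    have h2 : a (N + 1 + m) = a (N + (m + 1)) := by congr 1; ring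
    rw [h2]
    refine h1.trans ?_
    rw [pow_succ, mul_assoc]
    apply mul_le_mul_of_nonneg_left _ (pow_nonneg hθ N)
    have h3 : ∑ j ∈ Finset.range (N + 1 + 1), a (j + m) =
        ∑ j ∈ Finset.range (N + 1), a (j + (m + 1)) + a m := by
      rw [Finset.sum_range_succ']
      simp only [zero_add]
      congr 1
      apply Finset.sum_congr rfl
      intro j _
      congr 1
      ring
    have h4 := h (N + 1 + 1) m
    rw [h3] at h4 ⊢
    set S := ∑ j ∈ Finset.range (N + 1), a (j + (m + 1)) with hS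
    have h5 : (1 / A) * (S + a m) ≤ a m := by
      rw [one_div, inv_mul_le_iff₀ hA0]
      exact h4
    linarith [h5]

theorem br : S_BR := by
  intro r hr u hu hloc C hC
  have h2r : (1:ℝ) < (2:ℝ) ^ r := Real.one_lt_rpow (by norm_num) hr
  set ρ : ℝ := ((2:ℝ) ^ r)⁻¹ with hρ
  have hρ0 : 0 < ρ := by positivity
  have hρ1 : ρ < 1 := inv_lt_one_of_one_lt₀ h2r
  have hc0 : 0 < 1 / (1 - ρ) := by
    apply div_pos one_pos; linarith
  set M : ℝ → ℝ → ℝ := fun z h => (∫⁻ x in Ioo (z - h) (z + h), u x).toReal with hM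
  have hMe : ∀ z h, ENNReal.ofReal (M z h) = ∫⁻ x in Ioo (z - h) (z + h), u x := fun z h =>
    ENNReal.ofReal_toReal (hloc _ _)
  have hM0 : ∀ z h, 0 ≤ M z h := fun z h => ENNReal.toReal_nonneg
  have hMmono : ∀ z h k, h ≤ k → M z h ≤ M z k := by
    intro z h k hk
    apply ENNReal.toReal_mono (hloc _ _)
    apply lintegral_mono_set
    apply Ioo_subset_Ioo <;> linarith
  set A : ℝ := max 2 (2 * (1 / (1 - ρ)) * C) with hA
  have hA2 : 2 ≤ A := le_max_left _ _
  -- step (1)
  have hstep1 : ∀ (N : ℕ) (z y : ℝ), 0 < y →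
      ∑ j ∈ Finset.range N, ρ ^ j * M z (2 ^ j * y) ≤ A * M z y := by
    intro N z y hy
    have hnn : 0 ≤ A * M z y := mul_nonneg (by linarith) (hM0 _ _)
    rw [← ENNReal.ofReal_le_ofReal_iff hnn, ENNReal.ofReal_sum_of_nonneg
      (fun j _ => mul_nonneg (by positivity) (hM0 _ _)), ENNReal.ofReal_mul (by linarith), hMe]
    have e1 : ∀ j ∈ Finset.range N, ENNReal.ofReal (ρ ^ j * M z (2 ^ j * y)) =
        ∫⁻ x, ENNReal.ofReal (ρ ^ j * (if |x - z| < 2 ^ j * y then (1:ℝ) else 0)) * u x := by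
      intro j _
      rw [ENNReal.ofReal_mul (by positivity), hMe, ← lintegral_indicator measurableSet_Ioo,
        ← lintegral_const_mul _ (hu.indicator measurableSet_Ioo)]
      apply lintegral_congr
      intro x
      rw [ENNReal.ofReal_mul (by positivity), mul_assoc]
      congr 1
      by_cases hx : |x - z| < 2 ^ j * y
      · rw [if_pos hx, indicator_of_mem, ENNReal.ofReal_one, one_mul]
        rw [abs_lt] at hx
        exact ⟨by linarith [hx.1], by linarith [hx.2]⟩
      · rw [if_neg hx, indicator_of_notMem, ENNReal.ofReal_zero, zero_mul]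
        intro hx2
        apply hx
        rw [abs_lt]
        exact ⟨by linarith [hx2.1], by linarith [hx2.2]⟩
    rw [Finset.sum_congr rfl e1, ← lintegral_finsetSum]
    swap
    · intro j _
      apply Measurable.mul _ hu
      apply Measurable.ennreal_ofReal
      apply Measurable.mul measurable_const
      apply Measurable.ite _ measurable_const measurable_const
      exact measurableSet_lt (by fun_prop) measurable_const
    calc ∫⁻ x, ∑ j ∈ Finset.range N,
          ENNReal.ofReal (ρ ^ j * (if |x - z| < 2 ^ j * y then (1:ℝ) else 0)) * u x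
        ≤ ∫⁻ x, ENNReal.ofReal (2 * (1 / (1 - ρ))) *
          (ENNReal.ofReal ((2 * y) ^ r / ((2 * y) ^ r + |x - z| ^ r)) * u x) := by
          apply lintegral_mono
          intro x
          show ∑ j ∈ Finset.range N,
            ENNReal.ofReal (ρ ^ j * (if |x - z| < 2 ^ j * y then (1:ℝ) else 0)) * u x ≤
            ENNReal.ofReal (2 * (1 / (1 - ρ))) *
              (ENNReal.ofReal ((2 * y) ^ r / ((2 * y) ^ r + |x - z| ^ r)) * u x)
          rw [← Finset.sum_mul, ← mul_assoc]
          gcongr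
          rw [← ENNReal.ofReal_sum_of_nonneg, ← ENNReal.ofReal_mul (by positivity)]
          · apply ENNReal.ofReal_le_ofReal
            obtain ⟨h1, h2⟩ := br_point hr (abs_nonneg (x - z)) N y hy
            set σ := ∑ j ∈ Finset.range N, (((2:ℝ) ^ r)⁻¹) ^ j *
              (if |x - z| < 2 ^ j * y then (1:ℝ) else 0) with hσ
            have hσ0 : 0 ≤ σ := by
              rw [hσ]
              apply Finset.sum_nonneg
              intro j _
              apply mul_nonneg (by positivity)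
              split_ifs <;> norm_num
            set t := |x - z| ^ r with ht
            have ht0 : 0 ≤ t := Real.rpow_nonneg (abs_nonneg _) r
            have hy0 : 0 < y ^ r := Real.rpow_pos_of_pos hy r
            have hyy : (2 * y) ^ r = 2 ^ r * y ^ r := Real.mul_rpow (by norm_num) hy.le
            rw [hyy]
            rw [mul_div_assoc', le_div_iff₀ (by positivity)]
            have h3 : σ * (y ^ r + t) ≤ 2 * (1 / (1 - ρ)) * y ^ r := by
              have : σ * y ^ r ≤ 1 / (1 - ρ) * y ^ r := mul_le_mul_of_nonneg_right h1 hy0.le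
              nlinarith [this, h2]
            calc σ * (2 ^ r * y ^ r + t) ≤ σ * (2 ^ r * (y ^ r + t)) := by
                  apply mul_le_mul_of_nonneg_left _ hσ0
                  nlinarith
              _ = 2 ^ r * (σ * (y ^ r + t)) := by ring
              _ ≤ 2 ^ r * (2 * (1 / (1 - ρ)) * y ^ r) := by
                  apply mul_le_mul_of_nonneg_left h3 (by positivity)
              _ = 2 * (1 / (1 - ρ)) * (2 ^ r * y ^ r) := by ring
          · intro j _
            apply mul_nonneg (by positivity)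
            split_ifs <;> norm_num
      _ = ENNReal.ofReal (2 * (1 / (1 - ρ))) *
          ∫⁻ x, (ENNReal.ofReal ((2 * y) ^ r / ((2 * y) ^ r + |x - z| ^ r)) * u x) := by
          rw [lintegral_const_mul']
          exact ENNReal.ofReal_ne_top
      _ ≤ ENNReal.ofReal (2 * (1 / (1 - ρ))) *
          (C * ∫⁻ x in Ioo (z - y) (z + y), u x) := by
          gcongr
          have := hC z (2 * y) (by positivity)
          have e : 2 * y / 2 = y := by ring
          rwa [e] at this
      _ ≤ ENNReal.ofReal A * ∫⁻ x in Ioo (z - y) (z + y), u x := by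
          rw [← mul_assoc]
          gcongr
          rw [← ENNReal.ofReal_coe_nnreal, ← ENNReal.ofReal_mul (by positivity)]
          exact ENNReal.ofReal_le_ofReal (le_max_right _ _)
  -- step (2)
  set θ₀ : ℝ := 1 - 1 / A with hθ₀
  have hAinv : 0 < 1 / A ∧ 1 / A ≤ 1 / 2 := by
    constructor
    · positivity
    · exact one_div_le_one_div_of_le (by norm_num) hA2
  have hθ₀0 : 0 ≤ θ₀ := by rw [hθ₀]; linarith [hAinv.2]
  have hθ₀1 : θ₀ < 1 := by rw [hθ₀]; linarith [hAinv.1]
  have hstep2 : ∀ (N : ℕ) (z y : ℝ), 0 < y → ρ ^ N * M z (2 ^ N * y) ≤ A * θ₀ ^ N * M z y := by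
    intro N z y hy
    have hh : ∀ N m, ∑ j ∈ Finset.range N, (ρ ^ (j + m) * M z (2 ^ (j + m) * y)) ≤
        A * (ρ ^ m * M z (2 ^ m * y)) := by
      intro N m
      have h1 := hstep1 N z (2 ^ m * y) (by positivity)
      calc ∑ j ∈ Finset.range N, (ρ ^ (j + m) * M z (2 ^ (j + m) * y))
          = ρ ^ m * ∑ j ∈ Finset.range N, ρ ^ j * M z (2 ^ j * (2 ^ m * y)) := by
            rw [Finset.mul_sum]
            apply Finset.sum_congr rfl
            intro j _
            have : (2:ℝ) ^ (j + m) * y = 2 ^ j * (2 ^ m * y) := by ring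
            rw [this]
            ring
        _ ≤ ρ ^ m * (A * M z (2 ^ m * y)) := mul_le_mul_of_nonneg_left h1 (by positivity)
        _ = A * (ρ ^ m * M z (2 ^ m * y)) := by ring
    have h1 := br_decay (a := fun j => ρ ^ j * M z (2 ^ j * y)) (A := A) (by linarith)
      hh N 0
    have h2 := hh (N + 1) 0
    simp only [add_zero, pow_zero, one_mul] at h1 h2
    calc ρ ^ N * M z (2 ^ N * y)
        ≤ θ₀ ^ N * ∑ j ∈ Finset.range (N + 1), ρ ^ j * M z (2 ^ j * y) := h1
      _ ≤ θ₀ ^ N * (A * M z y) := mul_le_mul_of_nonneg_left h2 (by positivity)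
      _ = A * θ₀ ^ N * M z y := by ring
  -- step (3)
  set θ : ℝ := max θ₀ ρ with hθ
  have hθ1 : θ < 1 := max_lt hθ₀1 hρ1
  have hθρ : ρ ≤ θ := le_max_right _ _
  have hq1 : 1 ≤ θ / ρ := by rw [le_div_iff₀ hρ0]; linarith
  have hq0 : 0 < θ / ρ := by linarith
  have h2D : (2:ℝ) ^ (Real.logb 2 (θ / ρ)) = θ / ρ :=
    Real.rpow_logb (by norm_num) (by norm_num) hq0
  set D := Real.logb 2 (θ / ρ) with hD
  have hD0 : 0 ≤ D := Real.logb_nonneg (by norm_num) hq1
  have hDr : D < r := by
    rw [hD, Real.logb_lt_iff_lt_rpow (by norm_num) hq0, div_lt_iff₀ hρ0, hρ,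
      mul_inv_cancel₀ (by positivity)]
    exact hθ1
  have hK : 1 ≤ A * (2:ℝ) ^ D := by
    rw [h2D]
    nlinarith
  refine ⟨D, (A * (2:ℝ) ^ D).toNNReal, hD0, hDr, ?_, ?_⟩
  · rw [Real.one_le_toNNReal]; exact hK
  intro z y a hy ha
  obtain ⟨n, hn1, hn2⟩ := exists_nat_pow_near ha (by norm_num : (1:ℝ) < 2)
  have hkey : M z (a * y) ≤ (A * (2:ℝ) ^ D) * a ^ D * M z y := by
    have h1 : M z (a * y) ≤ M z (2 ^ (n + 1) * y) := by
      apply hMmono
      apply mul_le_mul_of_nonneg_right hn2.le hy.le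
    have h2 := hstep2 (n + 1) z y hy
    have h3 : M z (2 ^ (n + 1) * y) ≤ A * (θ / ρ) ^ (n + 1) * M z y := by
      have h4 : A * θ₀ ^ (n + 1) * M z y ≤ A * θ ^ (n + 1) * M z y := by
        apply mul_le_mul_of_nonneg_right _ (hM0 _ _)
        apply mul_le_mul_of_nonneg_left _ (by linarith)
        exact pow_le_pow_left₀ hθ₀0 (le_max_left _ _) _
      have h5 : 0 < ρ ^ (n + 1) := by positivity
      rw [div_pow]
      have h6 : A * (θ ^ (n + 1) / ρ ^ (n + 1)) * M z y =
          (A * θ ^ (n + 1) * M z y) / ρ ^ (n + 1) := by ring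
      rw [h6, le_div_iff₀ h5]
      linarith
    have h7 : (θ / ρ) ^ (n + 1) ≤ 2 ^ D * a ^ D := by
      rw [pow_succ, mul_comm, ← h2D]
      apply mul_le_mul_of_nonneg_left _ (by positivity)
      rw [← Real.rpow_natCast, ← Real.rpow_mul (by norm_num), mul_comm, Real.rpow_mul (by norm_num),
        Real.rpow_natCast]
      exact Real.rpow_le_rpow (by positivity) hn1 hD0
    calc M z (a * y) ≤ A * (θ / ρ) ^ (n + 1) * M z y := h1.trans h3
      _ ≤ A * (2 ^ D * a ^ D) * M z y := by
          apply mul_le_mul_of_nonneg_right _ (hM0 _ _)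
          apply mul_le_mul_of_nonneg_left h7 (by linarith)
      _ = (A * (2:ℝ) ^ D) * a ^ D * M z y := by ring
  rw [← hMe, ← hMe]
  have hc : (((A * (2:ℝ) ^ D).toNNReal : ℝ≥0) : ℝ≥0∞) = ENNReal.ofReal (A * (2:ℝ) ^ D) := rfl
  rw [hc, ← ENNReal.ofReal_mul (by linarith), ← ENNReal.ofReal_mul
    (mul_nonneg (by linarith) (Real.rpow_nonneg (by linarith) _))]
  exact ENNReal.ofReal_le_ofReal hkey

end Pool.Agent.N305.GL
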