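import Mathlib

/-!
# Weights for the Littlewood-Paley function `g_λ^*`: definitions

Everything is on the real line.
-/

set_option autoImplicit false

open MeasureTheory Set Filter Topology
open scoped ENNReal NNReal

namespace Pool.Agent.N305.GL

/-! ### The problem -/

/-- The Poisson integral `f(z,y) = (1/π) ∫ y f(z-x) / (x²+y²) dx`. -/
noncomputable def Po (f : ℝ → ℝ) (z y : ℝ) : ℝ :=
  1 / Real.pi * ∫ x, y * f (z - x) / (x ^ 2 + y ^ 2)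

/-- `|∇f(z,y)|²`, the squared length of the gradient of the Poisson integral in `(z,y)`. -/
noncomputable def gradSq (f : ℝ → ℝ) (z y : ℝ) : ℝ :=
  (deriv (fun z' => Po f z' y) z) ^ 2 + (deriv (fun y' => Po f z y') y) ^ 2

/-- `g_λ^*(x) = [∫∫ (y/(|x-z|+y))^λ |∇f(z,y)|² dy dz]^{1/2}`. -/
noncomputable def gStar (lam : ℝ) (f : ℝ → ℝ) (x : ℝ) : ℝ≥0∞ :=
  (∫⁻ z : ℝ, ∫⁻ y in Ioi (0:ℝ), ENNReal.ofReal ((y / (|x - z| + y)) ^ lam * gradSq f z y))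
    ^ (1 / 2 : ℝ)

/-- A weight: nonnegative, (Borel) measurable and locally integrable. -/
structure IsWeight (U : ℝ → ℝ) : Prop where
  meas : Measurable U
  nonneg : ∀ x, 0 ≤ U x
  loc : LocallyIntegrable U

/-- The condition `A_r` (in `[0,∞]`, with `0 · ∞ = 0`). -/
def IsA (r : ℝ) (U : ℝ → ℝ) : Prop :=
  ∃ C : ℝ≥0, ∀ a b : ℝ, a < b →
    (∫⁻ x in Ioo a b, ENNReal.ofReal (U x)) / ENNReal.ofReal (b - a) *
      ((∫⁻ x in Ioo a b, ENNReal.ofReal (U x) ^ (-1 / (r - 1))) / ENNReal.ofReal (b - a))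
        ^ (r - 1) ≤ C

/-- The condition `B_r`; the centre of `I = (a,b)` is `(a+b)/2`. -/
def IsB (r : ℝ) (U : ℝ → ℝ) : Prop :=
  ∃ C : ℝ≥0, ∀ a b : ℝ, a < b →
    ∫⁻ x, ENNReal.ofReal ((b - a) ^ (r - 1) * U x / ((b - a) ^ r + |x - (a + b) / 2| ^ r)) ≤
      C * ((∫⁻ x in Ioo a b, ENNReal.ofReal (U x)) / ENNReal.ofReal (b - a))

/-- `∫ |f|^p U`. -/
noncomputable def nrm (p : ℝ) (U f : ℝ → ℝ) : ℝ≥0∞ :=
  ∫⁻ x, ENNReal.ofReal (|f x|) ^ p * ENNReal.ofReal (U x)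

/-- The inequality (∗): for all (measurable, real) `f` with `∫ |f|^p U < ∞` the Poisson integral
of `f` converges absolutely and `∫ (g_λ^*)^p U ≤ C ∫ |f|^p U`. -/
def Star (lam p : ℝ) (U : ℝ → ℝ) : Prop :=
  ∃ C : ℝ≥0, ∀ f : ℝ → ℝ, Measurable f → nrm p U f < ∞ →
    Integrable (fun x => f x / (1 + x ^ 2)) ∧
    ∫⁻ x, gStar lam f x ^ p * ENNReal.ofReal (U x) ≤ C * nrm p U f

/-- The inequality (∗) for bounded functions of bounded support only. -/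
def StarB (lam p : ℝ) (U : ℝ → ℝ) : Prop :=
  ∃ C : ℝ≥0, ∀ f : ℝ → ℝ, Measurable f → (∃ R : ℝ, ∀ x, |f x| ≤ R ∧ (R < |x| → f x = 0)) →
    ∫⁻ x, gStar lam f x ^ p * ENNReal.ofReal (U x) ≤ C * nrm p U f

/-! ### Auxiliary notions -/

/-- positive finite measurable weights with values in `[0,∞]` -/
structure Wt (u : ℝ → ℝ≥0∞) : Prop where
  meas : Measurable u
  ne0 : ∀ x, u x ≠ 0
  neT : ∀ x, u x ≠ ∞

/-- the `A_p` condition with constant `Q` -/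
def APc (p : ℝ) (Q : ℝ≥0∞) (u : ℝ → ℝ≥0∞) : Prop :=
  ∀ a b : ℝ, a < b → (∫⁻ x in Ioo a b, u x) * (∫⁻ x in Ioo a b, u x ^ (-1 / (p - 1))) ^ (p - 1) ≤
    Q * ENNReal.ofReal (b - a) ^ p

/-- the uncentered maximal function with respect to a measure -/
noncomputable def MX (μ : Measure ℝ) (g : ℝ → ℝ≥0∞) (x : ℝ) : ℝ≥0∞ :=
  ⨆ a : ℝ, ⨆ b : ℝ, ⨆ (_ : a < x ∧ x < b), (μ (Ioo a b))⁻¹ * ∫⁻ y in Ioo a b, g y ∂μ

/-- Poisson integral of a nonnegative function, with values in `[0,∞]` -/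
noncomputable def PE (u : ℝ → ℝ≥0∞) (z y : ℝ) : ℝ≥0∞ :=
  ∫⁻ t, ENNReal.ofReal (1 / Real.pi * (y / ((z - t) ^ 2 + y ^ 2))) * u t

/-- `∫∫_{|x-z| < a y} F(z,y) dy dz` -/
noncomputable def Aa (a : ℝ) (F : ℝ → ℝ → ℝ≥0∞) (x : ℝ) : ℝ≥0∞ :=
  ∫⁻ z : ℝ, ∫⁻ y in Ioi (0:ℝ), if |x - z| < a * y then F z y else 0

/-- bounded measurable function of bounded support -/
structure BS (f : ℝ → ℝ) : Prop where
  meas : Measurable f
  bd : ∃ R : ℝ, ∀ x, |f x| ≤ R ∧ (R < |x| → f x = 0)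

/-- the (absolute) convergence of the Poisson integral -/
def PInt (f : ℝ → ℝ) : Prop := Integrable (fun x => f x / (1 + x ^ 2))

/-- `H(ζ) = (1/π) ∫ f(t) / (ζ-t)² dt`; `∂_z f = Im H`, `∂_y f = Re H`. -/
noncomputable def Hh (f : ℝ → ℝ) (ζ : ℂ) : ℂ :=
  1 / (Real.pi : ℂ) * ∫ t : ℝ, (f t : ℂ) / (ζ - t) ^ 2

/-- `|∇f|²` on the upper half-plane, as a function with values in `[0,∞]` -/
noncomputable def Fg (f : ℝ → ℝ) (z y : ℝ) : ℝ≥0∞ :=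
  if 0 < y then ENNReal.ofReal (gradSq f z y) else 0

/-- doubling of order `D`: `u(I(z,ay)) ≤ K a^D u(I(z,y))` -/
def Dbl (D : ℝ) (K : ℝ≥0) (u : ℝ → ℝ≥0∞) : Prop :=
  ∀ z y a : ℝ, 0 < y → 1 ≤ a → ∫⁻ x in Ioo (z - a * y) (z + a * y), u x ≤
    K * ENNReal.ofReal (a ^ D) * ∫⁻ x in Ioo (z - y) (z + y), u x

/-- locally integrable -/
def Loc (u : ℝ → ℝ≥0∞) : Prop := ∀ a b : ℝ, ∫⁻ x in Ioo a b, u x ≠ ∞

/-- the weight `u R^{p-2}` (modified on the null set `R = ∞`) -/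
noncomputable def WR (p : ℝ) (u R : ℝ → ℝ≥0∞) (x : ℝ) : ℝ≥0∞ :=
  if R x = ∞ then 1 else u x * R x ^ (p - 2)

/-! ### the Bellman function `x²/u`, `u = 2v - 1/(v w²)` -/

/-- `u = 2v - 1/(v w²)` -/
noncomputable def bu (v w : ℝ) : ℝ := 2 * v - 1 / (v * w ^ 2)
/-- `∂u/∂v` -/
noncomputable def buv (v w : ℝ) : ℝ := 2 + 1 / (v ^ 2 * w ^ 2)
/-- `∂u/∂w` -/
noncomputable def buw (v w : ℝ) : ℝ := 2 / (v * w ^ 3)
/-- `G = x²/u` -/
noncomputable def bG (x v w : ℝ) : ℝ := x ^ 2 / bu v w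
/-- the differential of `G` at `(x,v,w)` applied to `(a,b,c)` -/
noncomputable def bD (x v w a b c : ℝ) : ℝ :=
  2 * x / bu v w * a - x ^ 2 / bu v w ^ 2 * (buv v w * b + buw v w * c)
/-- the second differential of `G` at `(x,v,w)` on the vector `(a,b,c)` -/
noncomputable def bH (x v w a b c : ℝ) : ℝ :=
  2 / bu v w * (a - x / bu v w * (buv v w * b + buw v w * c)) ^ 2 +
    x ^ 2 / bu v w ^ 2 *
      (2 * b ^ 2 / (v ^ 3 * w ^ 2) + 4 * b * c / (v ^ 2 * w ^ 3) + 6 * c ^ 2 / (v * w ^ 4))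

/-! ### first facts -/

theorem Wt.lint_pos {u : ℝ → ℝ≥0∞} (hu : Wt u) {a b : ℝ} (hab : a < b) :
    ∫⁻ x in Ioo a b, u x ≠ 0 := by
  intro h
  rw [lintegral_eq_zero_iff hu.meas] at h
  have h2 : volume.restrict (Ioo a b) univ = 0 := by
    have h3 : ∀ᵐ x ∂(volume.restrict (Ioo a b)), False := by
      filter_upwards [h] with x hx
      exact hu.ne0 x hx
    rw [ae_iff] at h3
    simpa using h3
  rw [Measure.restrict_apply_univ, Real.volume_Ioo] at h2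
  have : 0 < ENNReal.ofReal (b - a) := ENNReal.ofReal_pos.2 (sub_pos.2 hab)
  exact absurd h2 this.ne'

theorem Wt.rpow {u : ℝ → ℝ≥0∞} (hu : Wt u) (s : ℝ) : Wt (fun x => u x ^ s) where
  meas := hu.meas.pow_const s
  ne0 := fun x => by
    have := ENNReal.rpow_pos (p := s) (pos_iff_ne_zero.2 (hu.ne0 x)) (hu.neT x)
    exact this.ne'
  neT := fun x => ENNReal.rpow_ne_top_of_ne_zero (hu.ne0 x) (hu.neT x)

theorem Wt.inv {u : ℝ → ℝ≥0∞} (hu : Wt u) : Wt (fun x => (u x)⁻¹) where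
  meas := hu.meas.inv
  ne0 := fun x => ENNReal.inv_ne_zero.2 (hu.neT x)
  neT := fun x => ENNReal.inv_ne_top.2 (hu.ne0 x)

theorem APc.fin_left {p : ℝ} {Q : ℝ≥0∞} {u : ℝ → ℝ≥0∞} (hp : 1 < p) (hQ : Q ≠ ∞) (hu : Wt u)
    (h : APc p Q u) {a b : ℝ} (hab : a < b) : ∫⁻ x in Ioo a b, u x ≠ ∞ := by
  intro ht
  have h1 := h a b hab
  have hs := (hu.rpow (-1 / (p - 1))).lint_pos hab
  have h2 : (∫⁻ x in Ioo a b, u x ^ (-1 / (p - 1))) ^ (p - 1) ≠ 0 := by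
    intro h0
    rw [ENNReal.rpow_eq_zero_iff] at h0
    rcases h0 with h0 | h0
    · exact hs h0.1
    · linarith [h0.2]
  rw [ht, ENNReal.top_mul h2, top_le_iff] at h1
  exact (ENNReal.mul_ne_top hQ (ENNReal.rpow_ne_top_of_nonneg (by linarith)
    ENNReal.ofReal_ne_top)) h1

theorem APc.fin_right {p : ℝ} {Q : ℝ≥0∞} {u : ℝ → ℝ≥0∞} (hp : 1 < p) (hQ : Q ≠ ∞) (hu : Wt u)
    (h : APc p Q u) {a b : ℝ} (hab : a < b) :
    ∫⁻ x in Ioo a b, u x ^ (-1 / (p - 1)) ≠ ∞ := by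
  intro ht
  have h1 := h a b hab
  rw [ht, ENNReal.top_rpow_of_pos (by linarith), ENNReal.mul_top (hu.lint_pos hab),
    top_le_iff] at h1
  exact (ENNReal.mul_ne_top hQ (ENNReal.rpow_ne_top_of_nonneg (by linarith)
    ENNReal.ofReal_ne_top)) h1

theorem APc.loc {p : ℝ} {Q : ℝ≥0∞} {u : ℝ → ℝ≥0∞} (hp : 1 < p) (hQ : Q ≠ ∞) (hu : Wt u)
    (h : APc p Q u) : Loc u := by
  intro a b
  rcases lt_or_ge a b with hab | hab
  · exact h.fin_left hp hQ hu hab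
  · rw [Ioo_eq_empty (not_lt.2 hab)]; simp

end Pool.Agent.N305.GL
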