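import Pool.Agent.N305.GL.Stm

/-!
# GL/BEL: the area integral inequality for bounded `A_2` weights
-/

set_option autoImplicit false
set_option linter.all false

open MeasureTheory Set Filter Topology
open scoped ENNReal NNReal

namespace Pool.Agent.N305.GL

namespace Bel

/-- the half-plane -/
def hp : Set (ℝ × ℝ) := {w : ℝ × ℝ | 0 < w.2}

theorem cont_mk : Continuous (fun w : ℝ × ℝ => (⟨w.1, w.2⟩ : ℂ)) :=
  Complex.equivRealProdCLM.symm.continuous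

theorem isOpen_up : IsOpen {ζ : ℂ | 0 < ζ.im} := isOpen_lt continuous_const Complex.continuous_im

theorem isOpen_hp : IsOpen hp := isOpen_lt continuous_const continuous_snd

theorem cont_H (h2 : S_HOL) {g : ℝ → ℝ} (hg : PInt g) :
    ContinuousOn (fun w : ℝ × ℝ => Hh g ⟨w.1, w.2⟩) hp :=
  (h2 g hg).continuousOn.comp cont_mk.continuousOn (fun w hw => hw)

theorem cont_H' (h2 : S_HOL) {g : ℝ → ℝ} (hg : PInt g) :
    ContinuousOn (fun w : ℝ × ℝ => deriv (Hh g) ⟨w.1, w.2⟩) hp :=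
  ((h2 g hg).deriv isOpen_up).continuousOn.comp cont_mk.continuousOn (fun w hw => hw)

/-- joint continuity of the Poisson integral -/
theorem cont_Po (h1 : S_GRAD) (h2 : S_HOL) {g : ℝ → ℝ} (hg : PInt g) :
    ContinuousOn (fun w : ℝ × ℝ => Po g w.1 w.2) hp := by
  rintro ⟨z0, y0⟩ hy0
  have hy0' : 0 < y0 := hy0
  apply ContinuousAt.continuousWithinAt
  have hH : ContinuousAt (fun w : ℝ × ℝ => Hh g ⟨w.1, w.2⟩) (z0, y0) :=
    (cont_H h2 hg).continuousAt (isOpen_hp.mem_nhds hy0)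
  set M : ℝ := ‖Hh g ⟨z0, y0⟩‖ + 1 with hM
  have hev : ∀ᶠ w : ℝ × ℝ in 𝓝 (z0, y0), ‖Hh g ⟨w.1, w.2⟩‖ < M ∧ 0 < w.2 :=
    (hH.norm.eventually_lt_const (by rw [hM]; linarith)).and (isOpen_hp.mem_nhds hy0)
  rw [Metric.eventually_nhds_iff] at hev
  obtain ⟨δ, hδ, hb⟩ := hev
  have hbox : ∀ z y : ℝ, |z - z0| < δ → |y - y0| < δ → ‖Hh g ⟨z, y⟩‖ < M ∧ 0 < y := by
    intro z y hz hy
    apply hb (y := (z, y))
    rw [Prod.dist_eq, max_lt_iff]
    exact ⟨hz, hy⟩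
  have hlip : ∀ z y : ℝ, |z - z0| < δ → |y - y0| < δ → |Po g z y - Po g z0 y| ≤ M * |z - z0| := by
    intro z y hz hy
    have := Convex.norm_image_sub_le_of_norm_hasDerivWithin_le (𝕜 := ℝ)
      (f := fun s => Po g s y) (f' := fun s => (Hh g ⟨s, y⟩).im) (C := M) (s := Metric.ball z0 δ)
      (x := z0) (y := z)
      (fun s hs => ((h1 g hg s y (hbox s y hs hy).2).1).hasDerivWithinAt)
      (fun s hs => (Complex.abs_im_le_norm _).trans (hbox s y hs hy).1.le)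
      (convex_ball _ _) (Metric.mem_ball_self hδ) hz
    simpa using this
  have hy : ContinuousAt (fun w : ℝ × ℝ => Po g z0 w.2) (z0, y0) :=
    ContinuousAt.comp (g := fun s => Po g z0 s) (f := fun w : ℝ × ℝ => w.2)
      ((h1 g hg z0 y0 hy0').2.continuousAt) continuousAt_snd
  have hz : Tendsto (fun w : ℝ × ℝ => Po g w.1 w.2 - Po g z0 w.2) (𝓝 (z0, y0)) (𝓝 0) := by
    have hm : Tendsto (fun w : ℝ × ℝ => M * |w.1 - z0|) (𝓝 (z0, y0)) (𝓝 0) := by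
      have : Continuous (fun w : ℝ × ℝ => M * |w.1 - z0|) := by fun_prop
      have h := this.tendsto (z0, y0)
      simpa using h
    refine squeeze_zero_norm' ?_ hm
    have : ∀ᶠ w : ℝ × ℝ in 𝓝 (z0, y0), dist w (z0, y0) < δ := Metric.ball_mem_nhds _ hδ
    filter_upwards [this] with w hw
    rw [Prod.dist_eq, max_lt_iff] at hw
    exact hlip w.1 w.2 hw.1 hw.2
  have := hz.add hy
  simp only [zero_add, sub_add_cancel] at this
  exact this

/-- the derivative of `H` along horizontal lines -/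
theorem deriv_z (h2 : S_HOL) {g : ℝ → ℝ} (hg : PInt g) (z y : ℝ) (hy : 0 < y) :
    HasDerivAt (fun s => (Hh g ⟨s, y⟩).im) (deriv (Hh g) ⟨z, y⟩).im z := by
  have hd : HasDerivAt (Hh g) (deriv (Hh g) ⟨z, y⟩) ⟨z, y⟩ :=
    ((h2 g hg).differentiableAt (isOpen_up.mem_nhds hy)).hasDerivAt
  have hl : HasDerivAt (fun s : ℝ => (⟨s, y⟩ : ℂ)) 1 z := by
    have h : HasDerivAt (fun s : ℝ => (s : ℂ) + (y : ℂ) * Complex.I) 1 z :=
      (Complex.ofRealCLM.hasDerivAt (x := z)).add_const _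
    convert h using 2 with s
    apply Complex.ext <;> simp
  have hc : HasDerivAt (fun s : ℝ => Hh g ⟨s, y⟩) (deriv (Hh g) ⟨z, y⟩ * 1) z :=
    HasDerivAt.comp (h₂ := Hh g) (h := fun s : ℝ => (⟨s, y⟩ : ℂ)) z hd hl
  rw [mul_one] at hc
  exact Complex.imCLM.hasFDerivAt.comp_hasDerivAt z hc

theorem deriv_y (h2 : S_HOL) {g : ℝ → ℝ} (hg : PInt g) (z y : ℝ) (hy : 0 < y) :
    HasDerivAt (fun s => (Hh g ⟨z, s⟩).re) (-(deriv (Hh g) ⟨z, y⟩).im) y := by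
  have hd : HasDerivAt (Hh g) (deriv (Hh g) ⟨z, y⟩) ⟨z, y⟩ :=
    ((h2 g hg).differentiableAt (isOpen_up.mem_nhds hy)).hasDerivAt
  have hl : HasDerivAt (fun s : ℝ => (⟨z, s⟩ : ℂ)) Complex.I y := by
    have h : HasDerivAt (fun s : ℝ => (z : ℂ) + (s : ℂ) * Complex.I) (1 * Complex.I) y :=
      ((Complex.ofRealCLM.hasDerivAt (x := y)).mul_const _).const_add _
    rw [one_mul] at h
    convert h using 2 with s
    apply Complex.ext <;> simp
  have hc : HasDerivAt (fun s : ℝ => Hh g ⟨z, s⟩) (deriv (Hh g) ⟨z, y⟩ * Complex.I) y :=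
    HasDerivAt.comp (h₂ := Hh g) (h := fun s : ℝ => (⟨z, s⟩ : ℂ)) y hd hl
  have := Complex.reCLM.hasFDerivAt.comp_hasDerivAt y hc
  have e : Complex.reCLM (deriv (Hh g) ⟨z, y⟩ * Complex.I) = -(deriv (Hh g) ⟨z, y⟩).im := by
    rw [Complex.reCLM_apply, Complex.mul_re, Complex.I_re, Complex.I_im]
    ring
  rw [e] at this
  exact this

/-- continuity of `bD` and `bH` -/
theorem cont_bD {S : Set (ℝ × ℝ)} {x v w a b c : ℝ × ℝ → ℝ} (hx : ContinuousOn x S)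
    (hv : ContinuousOn v S) (hw : ContinuousOn w S) (ha : ContinuousOn a S)
    (hb : ContinuousOn b S) (hc : ContinuousOn c S) (v0 : ∀ p ∈ S, v p ≠ 0)
    (w0 : ∀ p ∈ S, w p ≠ 0) (u0 : ∀ p ∈ S, bu (v p) (w p) ≠ 0) :
    ContinuousOn (fun p => bD (x p) (v p) (w p) (a p) (b p) (c p)) S := by
  have hvi : ContinuousOn (fun p => (v p)⁻¹) S := hv.inv₀ v0
  have hwi : ContinuousOn (fun p => (w p)⁻¹) S := hw.inv₀ w0
  have hu : ContinuousOn (fun p => bu (v p) (w p)) S := by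
    have e : (fun p => bu (v p) (w p)) = fun p => 2 * v p - (v p)⁻¹ * (w p)⁻¹ ^ 2 := by
      funext p; simp [bu, div_eq_mul_inv, mul_inv]; ring
    rw [e]
    exact (continuousOn_const.mul hv).sub (hvi.mul (hwi.pow 2))
  have hui : ContinuousOn (fun p => (bu (v p) (w p))⁻¹) S := hu.inv₀ u0
  have e : (fun p => bD (x p) (v p) (w p) (a p) (b p) (c p)) = fun p =>
      2 * x p * (bu (v p) (w p))⁻¹ * a p - x p ^ 2 * (bu (v p) (w p))⁻¹ ^ 2 *
        ((2 + (v p)⁻¹ ^ 2 * (w p)⁻¹ ^ 2) * b p + 2 * (v p)⁻¹ * (w p)⁻¹ ^ 3 * c p) := by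
    funext p
    simp only [bD, buv, buw, div_eq_mul_inv, mul_inv, inv_pow]
    ring
  rw [e]
  exact (((continuousOn_const.mul hx).mul hui).mul ha).sub (((hx.pow 2).mul (hui.pow 2)).mul
    (((continuousOn_const.add ((hvi.pow 2).mul (hwi.pow 2))).mul hb).add
      (((continuousOn_const.mul hvi).mul (hwi.pow 3)).mul hc)))

theorem cont_bH {S : Set (ℝ × ℝ)} {x v w a b c : ℝ × ℝ → ℝ} (hx : ContinuousOn x S)
    (hv : ContinuousOn v S) (hw : ContinuousOn w S) (ha : ContinuousOn a S)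
    (hb : ContinuousOn b S) (hc : ContinuousOn c S) (v0 : ∀ p ∈ S, v p ≠ 0)
    (w0 : ∀ p ∈ S, w p ≠ 0) (u0 : ∀ p ∈ S, bu (v p) (w p) ≠ 0) :
    ContinuousOn (fun p => bH (x p) (v p) (w p) (a p) (b p) (c p)) S := by
  have hvi : ContinuousOn (fun p => (v p)⁻¹) S := hv.inv₀ v0
  have hwi : ContinuousOn (fun p => (w p)⁻¹) S := hw.inv₀ w0
  have hu : ContinuousOn (fun p => bu (v p) (w p)) S := by
    have e : (fun p => bu (v p) (w p)) = fun p => 2 * v p - (v p)⁻¹ * (w p)⁻¹ ^ 2 := by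
      funext p; simp [bu, div_eq_mul_inv, mul_inv]; ring
    rw [e]
    exact (continuousOn_const.mul hv).sub (hvi.mul (hwi.pow 2))
  have hui : ContinuousOn (fun p => (bu (v p) (w p))⁻¹) S := hu.inv₀ u0
  have e : (fun p => bH (x p) (v p) (w p) (a p) (b p) (c p)) = fun p =>
      2 * (bu (v p) (w p))⁻¹ * (a p - x p * (bu (v p) (w p))⁻¹ *
        ((2 + (v p)⁻¹ ^ 2 * (w p)⁻¹ ^ 2) * b p + 2 * (v p)⁻¹ * (w p)⁻¹ ^ 3 * c p)) ^ 2 +
      x p ^ 2 * (bu (v p) (w p))⁻¹ ^ 2 * (2 * b p ^ 2 * (v p)⁻¹ ^ 3 * (w p)⁻¹ ^ 2 +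
        4 * b p * c p * (v p)⁻¹ ^ 2 * (w p)⁻¹ ^ 3 + 6 * c p ^ 2 * (v p)⁻¹ * (w p)⁻¹ ^ 4) := by
    funext p
    simp only [bH, buv, buw, div_eq_mul_inv, mul_inv, inv_pow]
    ring
  rw [e]
  have hL : ContinuousOn (fun p => (2 + (v p)⁻¹ ^ 2 * (w p)⁻¹ ^ 2) * b p +
      2 * (v p)⁻¹ * (w p)⁻¹ ^ 3 * c p) S :=
    ((continuousOn_const.add ((hvi.pow 2).mul (hwi.pow 2))).mul hb).add
      (((continuousOn_const.mul hvi).mul (hwi.pow 3)).mul hc)
  exact ((continuousOn_const.mul hui).mul ((ha.sub ((hx.mul hui).mul hL)).pow 2)).add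
    (((hx.pow 2).mul (hui.pow 2)).mul
      (((((continuousOn_const.mul (hb.pow 2)).mul (hvi.pow 3)).mul (hwi.pow 2)).add
        ((((continuousOn_const.mul hb).mul hc).mul (hvi.pow 2)).mul (hwi.pow 3))).add
        (((continuousOn_const.mul (hc.pow 2)).mul hvi).mul (hwi.pow 4))))

theorem bD_neg (x v w a b c : ℝ) : bD x v w (-a) (-b) (-c) = -bD x v w a b c := by
  unfold bD; ring

end Bel

open Bel in
theorem bel (h1 : S_GRAD) (h2 : S_HOL) (h3 : S_MEAS) (h4 : S_GREEN) (h5 : S_ALG)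
    (h6 : S_CS) : S_BEL := by
  intro W c Q hWm hc hW hQ f hf
  obtain ⟨hpt, ⟨B, hB⟩, hN, pf, pW, pI, hfin⟩ := h6 W c hWm hc hW f hf
  obtain ⟨a1, a2, a3⟩ := h5
  set I : ℝ → ℝ := fun x => 1 / W x with hI
  set N0 : ℝ≥0∞ := ∫⁻ x, ENNReal.ofReal (f x ^ 2 * W x) with hN0
  have hv : ∀ z y : ℝ, 0 < y → 0 < Po I z y := fun z y hy => lt_of_lt_of_le hc (hpt z y hy).2.1.1
  have hw : ∀ z y : ℝ, 0 < y → 0 < Po W z y := fun z y hy => lt_of_lt_of_le hc (hpt z y hy).1.1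
  have hvw : ∀ z y : ℝ, 0 < y → 1 ≤ Po I z y * Po W z y := fun z y hy => (hpt z y hy).2.2.1
  have hu : ∀ z y : ℝ, 0 < y → Po I z y ≤ bu (Po I z y) (Po W z y) := fun z y hy =>
    (a2 _ _ (hv z y hy) (hw z y hy) (hvw z y hy)).1
  have hu0 : ∀ z y : ℝ, 0 < y → 0 < bu (Po I z y) (Po W z y) := fun z y hy =>
    lt_of_lt_of_le (hv z y hy) (hu z y hy)
  have hQ1 : 1 ≤ Q := (hvw 0 1 one_pos).trans (hQ 0 1 one_pos)
  have hQ3 : 0 < 26 * Q ^ 3 := by positivity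
  let Gzz : ℝ → ℝ → ℝ := fun z y =>
    bH (Po f z y) (Po I z y) (Po W z y) (Hh f ⟨z, y⟩).im (Hh I ⟨z, y⟩).im (Hh W ⟨z, y⟩).im +
      bD (Po f z y) (Po I z y) (Po W z y) (deriv (Hh f) ⟨z, y⟩).im (deriv (Hh I) ⟨z, y⟩).im
        (deriv (Hh W) ⟨z, y⟩).im
  let Gyy : ℝ → ℝ → ℝ := fun z y =>
    bH (Po f z y) (Po I z y) (Po W z y) (Hh f ⟨z, y⟩).re (Hh I ⟨z, y⟩).re (Hh W ⟨z, y⟩).re +
      bD (Po f z y) (Po I z y) (Po W z y) (-(deriv (Hh f) ⟨z, y⟩).im)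
        (-(deriv (Hh I) ⟨z, y⟩).im) (-(deriv (Hh W) ⟨z, y⟩).im)
  have hsum : ∀ z y : ℝ, Gzz z y + Gyy z y =
      bH (Po f z y) (Po I z y) (Po W z y) (Hh f ⟨z, y⟩).im (Hh I ⟨z, y⟩).im (Hh W ⟨z, y⟩).im +
      bH (Po f z y) (Po I z y) (Po W z y) (Hh f ⟨z, y⟩).re (Hh I ⟨z, y⟩).re
        (Hh W ⟨z, y⟩).re := by
    intro z y
    simp only [Gzz, Gyy, bD_neg]
    ring
  have hlow : ∀ z y : ℝ, 0 < y → Po W z y * gradSq f z y ≤ 26 * Q ^ 3 * (Gzz z y + Gyy z y) := by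
    intro z y hy
    rw [hsum, h3 f pf |>.2 z y hy, Complex.sq_norm, Complex.normSq_apply]
    have b1 := a3 Q (Po f z y) (Po I z y) (Po W z y) (Hh f ⟨z, y⟩).im (Hh I ⟨z, y⟩).im
      (Hh W ⟨z, y⟩).im (hv z y hy) (hw z y hy) (hvw z y hy) (hQ z y hy)
    have b2 := a3 Q (Po f z y) (Po I z y) (Po W z y) (Hh f ⟨z, y⟩).re (Hh I ⟨z, y⟩).re
      (Hh W ⟨z, y⟩).re (hv z y hy) (hw z y hy) (hvw z y hy) (hQ z y hy)
    nlinarith [b1, b2]
  have hgrad0 : ∀ z y : ℝ, 0 ≤ gradSq f z y := fun z y => by unfold gradSq; positivity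
  have hnn : ∀ z y : ℝ, 0 < y → 0 ≤ Gzz z y + Gyy z y := by
    intro z y hy
    have := (mul_nonneg (hw z y hy).le (hgrad0 z y)).trans (hlow z y hy)
    exact nonneg_of_mul_nonneg_right this hQ3
  have hcf := cont_Po h1 h2 pf
  have hcI := cont_Po h1 h2 pI
  have hcW := cont_Po h1 h2 pW
  have im_c : ∀ {F : ℝ × ℝ → ℂ}, ContinuousOn F hp → ContinuousOn (fun w => (F w).im) hp :=
    fun h => Complex.continuous_im.comp_continuousOn h
  have re_c : ∀ {F : ℝ × ℝ → ℂ}, ContinuousOn F hp → ContinuousOn (fun w => (F w).re) hp :=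
    fun h => Complex.continuous_re.comp_continuousOn h
  have key := h4 (fun z y => bG (Po f z y) (Po I z y) (Po W z y))
    (fun z y => bD (Po f z y) (Po I z y) (Po W z y) (Hh f ⟨z, y⟩).im (Hh I ⟨z, y⟩).im
      (Hh W ⟨z, y⟩).im) Gzz
    (fun z y => bD (Po f z y) (Po I z y) (Po W z y) (Hh f ⟨z, y⟩).re (Hh I ⟨z, y⟩).re
      (Hh W ⟨z, y⟩).re) Gyy (B ^ 2 / c) N0.toNNReal ?_ ?_ ?_ ?_ ?_ ?_ ?_ ?_ hnn
  · rw [ENNReal.coe_toNNReal hfin] at key
    calc ∫⁻ z : ℝ, ∫⁻ y in Ioi (0:ℝ), ENNReal.ofReal (y * Po W z y * gradSq f z y)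
        ≤ ∫⁻ z : ℝ, ∫⁻ y in Ioi (0:ℝ), ENNReal.ofReal (26 * Q ^ 3) *
            ENNReal.ofReal (y * (Gzz z y + Gyy z y)) := by
          refine lintegral_mono fun z => ?_
          refine setLIntegral_mono' measurableSet_Ioi fun y hy => ?_
          have hy' : 0 < y := hy
          rw [← ENNReal.ofReal_mul hQ3.le]
          apply ENNReal.ofReal_le_ofReal
          have := mul_le_mul_of_nonneg_left (hlow z y hy') hy'.le
          nlinarith [this]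
      _ = ENNReal.ofReal (26 * Q ^ 3) * ∫⁻ z : ℝ, ∫⁻ y in Ioi (0:ℝ),
            ENNReal.ofReal (y * (Gzz z y + Gyy z y)) := by
          simp_rw [lintegral_const_mul' _ _ ENNReal.ofReal_ne_top]
      _ ≤ ENNReal.ofReal (26 * Q ^ 3) * (2 * N0) := mul_le_mul_right key _
      _ = ENNReal.ofReal (52 * Q ^ 3) * N0 := by
          rw [← mul_assoc]
          congr 1
          rw [show (2 : ℝ≥0∞) = ENNReal.ofReal 2 by simp, ← ENNReal.ofReal_mul hQ3.le]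
          congr 1
          ring
  · intro z y hy
    exact (a1 (fun s => Po f s y) (fun s => Po I s y) (fun s => Po W s y)
      (fun s => (Hh f ⟨s, y⟩).im) (fun s => (Hh I ⟨s, y⟩).im) (fun s => (Hh W ⟨s, y⟩).im) z
      (hv z y hy) (hw z y hy) (hvw z y hy) (h1 f pf z y hy).1 (h1 I pI z y hy).1
      (h1 W pW z y hy).1).1
  · intro z y hy
    exact (a1 (fun s => Po f s y) (fun s => Po I s y) (fun s => Po W s y)
      (fun s => (Hh f ⟨s, y⟩).im) (fun s => (Hh I ⟨s, y⟩).im) (fun s => (Hh W ⟨s, y⟩).im) z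
      (hv z y hy) (hw z y hy) (hvw z y hy) (h1 f pf z y hy).1 (h1 I pI z y hy).1
      (h1 W pW z y hy).1).2 _ _ _ (deriv_z h2 pf z y hy) (deriv_z h2 pI z y hy)
      (deriv_z h2 pW z y hy)
  · intro z y hy
    exact (a1 (fun s => Po f z s) (fun s => Po I z s) (fun s => Po W z s)
      (fun s => (Hh f ⟨z, s⟩).re) (fun s => (Hh I ⟨z, s⟩).re) (fun s => (Hh W ⟨z, s⟩).re) y
      (hv z y hy) (hw z y hy) (hvw z y hy) (h1 f pf z y hy).2 (h1 I pI z y hy).2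
      (h1 W pW z y hy).2).1
  · intro z y hy
    exact (a1 (fun s => Po f z s) (fun s => Po I z s) (fun s => Po W z s)
      (fun s => (Hh f ⟨z, s⟩).re) (fun s => (Hh I ⟨z, s⟩).re) (fun s => (Hh W ⟨z, s⟩).re) y
      (hv z y hy) (hw z y hy) (hvw z y hy) (h1 f pf z y hy).2 (h1 I pI z y hy).2
      (h1 W pW z y hy).2).2 _ _ _ (deriv_y h2 pf z y hy) (deriv_y h2 pI z y hy)
      (deriv_y h2 pW z y hy)
  · exact (cont_bH (S := hp) hcf hcI hcW (im_c (cont_H h2 pf)) (im_c (cont_H h2 pI))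
      (im_c (cont_H h2 pW)) (fun p hp => (hv _ _ hp).ne') (fun p hp => (hw _ _ hp).ne')
      (fun p hp => (hu0 _ _ hp).ne')).add
      (cont_bD (S := hp) hcf hcI hcW (im_c (cont_H' h2 pf)) (im_c (cont_H' h2 pI))
      (im_c (cont_H' h2 pW)) (fun p hp => (hv _ _ hp).ne') (fun p hp => (hw _ _ hp).ne')
      (fun p hp => (hu0 _ _ hp).ne'))
  · exact (cont_bH (S := hp) hcf hcI hcW (re_c (cont_H h2 pf)) (re_c (cont_H h2 pI))
      (re_c (cont_H h2 pW)) (fun p hp => (hv _ _ hp).ne') (fun p hp => (hw _ _ hp).ne')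
      (fun p hp => (hu0 _ _ hp).ne')).add
      (cont_bD (S := hp) hcf hcI hcW (im_c (cont_H' h2 pf)).neg (im_c (cont_H' h2 pI)).neg
      (im_c (cont_H' h2 pW)).neg (fun p hp => (hv _ _ hp).ne') (fun p hp => (hw _ _ hp).ne')
      (fun p hp => (hu0 _ _ hp).ne'))
  · intro z y hy
    have hx2 : Po f z y ^ 2 ≤ B ^ 2 := by
      rw [← sq_abs (Po f z y)]
      exact pow_le_pow_left₀ (abs_nonneg _) (hB z y hy) 2
    refine ⟨div_nonneg (sq_nonneg _) (hu0 z y hy).le, ?_⟩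
    unfold bG
    exact div_le_div₀ (sq_nonneg _) hx2 hc (((hpt z y hy).2.1.1).trans (hu z y hy))
  · intro y hy
    rw [ENNReal.coe_toNNReal hfin]
    refine le_trans (lintegral_mono fun z => ?_) (hN y hy)
    apply ENNReal.ofReal_le_ofReal
    have h := (hpt z y hy).2.2.2.1
    have h0 := (hpt z y hy).2.2.2.2
    show Po f z y ^ 2 / bu (Po I z y) (Po W z y) ≤ _
    rw [div_le_iff₀ (hu0 z y hy)]
    exact h.trans (mul_le_mul_of_nonneg_left (hu z y hy) h0)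

end Pool.Agent.N305.GL
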