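import Pool.Agent.N305.GL.Stm

/-!
# Cauchy-Schwarz facts for Poisson integrals of bounded weights
-/

set_option autoImplicit false

open MeasureTheory Set Filter Topology
open scoped ENNReal NNReal

namespace Pool.Agent.N305.GL

namespace CSAux

/-- the Poisson kernel -/
noncomputable def ker (y x : ℝ) : ℝ := 1 / Real.pi * (y / (x ^ 2 + y ^ 2))

theorem ker_eq {y : ℝ} (hy : 0 < y) (x : ℝ) :
    ker y x = 1 / Real.pi * (y⁻¹ * (1 + (x / y) ^ 2)⁻¹) := by
  unfold ker
  have h1 : x ^ 2 + y ^ 2 ≠ 0 := by positivity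
  have h2 : 1 + (x / y) ^ 2 ≠ 0 := by positivity
  congr 1
  rw [← mul_inv, ← one_div, div_eq_div_iff h1 (by positivity)]
  field_simp
  ring

theorem ker_nonneg {y : ℝ} (hy : 0 < y) (x : ℝ) : 0 ≤ ker y x := by
  unfold ker
  have := Real.pi_pos
  positivity

theorem ker_int {y : ℝ} (hy : 0 < y) : Integrable (ker y) := by
  have h1 : Integrable (fun x : ℝ => (1 + (x / y) ^ 2)⁻¹) :=
    integrable_inv_one_add_sq.comp_div hy.ne'
  have h2 := (h1.const_mul y⁻¹).const_mul (1 / Real.pi)
  refine h2.congr (Filter.Eventually.of_forall fun x => ?_)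
  simp only
  rw [ker_eq hy]

theorem ker_one {y : ℝ} (hy : 0 < y) : ∫ x, ker y x = 1 := by
  have h1 : ∫ x, ker y x = ∫ x, 1 / Real.pi * (y⁻¹ * (1 + (x / y) ^ 2)⁻¹) :=
    integral_congr_ae (Filter.Eventually.of_forall fun x => ker_eq hy x)
  rw [h1, integral_const_mul, integral_const_mul,
    Measure.integral_comp_div (fun x => (1 + x ^ 2)⁻¹) y, integral_univ_inv_one_add_sq,
    smul_eq_mul, abs_of_pos hy]
  have := Real.pi_ne_zero
  field_simp

theorem ker_meas (y : ℝ) : Measurable (ker y) := by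
  unfold ker
  fun_prop

/-- bounded measurable functions -/
def Bd (g : ℝ → ℝ) : Prop := Measurable g ∧ ∃ B : ℝ, ∀ x, |g x| ≤ B

theorem po_eq (g : ℝ → ℝ) (z y : ℝ) : Po g z y = ∫ x, ker y x * g (z - x) := by
  unfold Po ker
  rw [← integral_const_mul]
  refine integral_congr_ae (Filter.Eventually.of_forall fun x => ?_)
  simp only
  ring

theorem int_mul {y : ℝ} (hy : 0 < y) {g : ℝ → ℝ} (hg : Bd g) (z : ℝ) :
    Integrable (fun x => ker y x * g (z - x)) := by
  obtain ⟨hm, B, hB⟩ := hg
  refine (ker_int hy).mul_bdd (c := B) ?_ (Filter.Eventually.of_forall fun x => ?_)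
  · exact (hm.comp (measurable_const.sub measurable_id)).aestronglyMeasurable
  · rw [Real.norm_eq_abs]
    exact hB _

theorem po_ge {y : ℝ} (hy : 0 < y) {g : ℝ → ℝ} (hg : Bd g) {a : ℝ} (h : ∀ x, a ≤ g x) (z : ℝ) :
    a ≤ Po g z y := by
  rw [po_eq]
  have h1 : a = ∫ x, ker y x * a := by rw [integral_mul_const, ker_one hy, one_mul]
  conv_lhs => rw [h1]
  exact integral_mono ((ker_int hy).mul_const a) (int_mul hy hg z)
    fun x => mul_le_mul_of_nonneg_left (h _) (ker_nonneg hy x)

theorem po_le {y : ℝ} (hy : 0 < y) {g : ℝ → ℝ} (hg : Bd g) {a : ℝ} (h : ∀ x, g x ≤ a) (z : ℝ) :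
    Po g z y ≤ a := by
  rw [po_eq]
  have h1 : a = ∫ x, ker y x * a := by rw [integral_mul_const, ker_one hy, one_mul]
  conv_rhs => rw [h1]
  exact integral_mono (int_mul hy hg z) ((ker_int hy).mul_const a)
    fun x => mul_le_mul_of_nonneg_left (h _) (ker_nonneg hy x)

/-- the inequality of Cauchy and Schwarz -/
theorem cauchy {y : ℝ} (hy : 0 < y) {V f g : ℝ → ℝ} (hV : Bd V) (hf : Bd f) (hg : Bd g)
    (h : ∀ l x : ℝ, 0 ≤ V x * (l * l) + (-2 * f x) * l + g x) (z : ℝ) :
    (Po f z y) ^ 2 ≤ Po g z y * Po V z y := by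
  have h1 : ∀ l : ℝ, 0 ≤ Po V z y * (l * l) + (-2 * Po f z y) * l + Po g z y := by
    intro l
    have e1 : Po V z y * (l * l) + (-2 * Po f z y) * l + Po g z y =
        ∫ x, ker y x * (V (z - x) * (l * l) + (-2 * f (z - x)) * l + g (z - x)) := by
      have i1 := (int_mul hy hV z).mul_const (l * l)
      have i2 := (int_mul hy hf z).mul_const (-2 * l)
      have i3 := int_mul hy hg z
      rw [po_eq, po_eq, po_eq]
      have e2 : ∀ x, ker y x * (V (z - x) * (l * l) + (-2 * f (z - x)) * l + g (z - x)) =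
          ker y x * V (z - x) * (l * l) + ker y x * f (z - x) * (-2 * l) +
            ker y x * g (z - x) := fun x => by ring
      have i12 : Integrable (fun x => ker y x * V (z - x) * (l * l) +
          ker y x * f (z - x) * (-2 * l)) := i1.add i2
      rw [integral_congr_ae (Filter.Eventually.of_forall e2), integral_add i12 i3,
        integral_add i1 i2, integral_mul_const, integral_mul_const]
      ring
    rw [e1]
    exact integral_nonneg fun x => mul_nonneg (ker_nonneg hy x) (h l _)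
  have h2 := discrim_le_zero h1
  unfold discrim at h2
  nlinarith

theorem pint {g : ℝ → ℝ} (hg : Bd g) : PInt g := by
  obtain ⟨hm, B, hB⟩ := hg
  have h1 : Integrable (fun x : ℝ => (1 + x ^ 2)⁻¹ * g x) := by
    refine integrable_inv_one_add_sq.mul_bdd (c := B) hm.aestronglyMeasurable
      (Filter.Eventually.of_forall fun x => ?_)
    rw [Real.norm_eq_abs]
    exact hB _
  refine h1.congr (Filter.Eventually.of_forall fun x => ?_)
  simp only
  rw [div_eq_mul_inv, mul_comm]

end CSAux

open CSAux in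
/-- Cauchy-Schwarz facts for Poisson integrals of bounded weights -/
theorem cs : S_CS := by
  intro W c hW hc hWc f hf
  obtain ⟨hfm, R, hR⟩ := hf
  have hW0 : ∀ x, 0 < W x := fun x => hc.trans_le (hWc x).1
  have hW1 : Bd W := ⟨hW, 1 / c, fun x => by rw [abs_of_pos (hW0 x)]; exact (hWc x).2⟩
  have hI : ∀ x, c ≤ 1 / W x ∧ 1 / W x ≤ 1 / c := by
    intro x
    constructor
    · rw [le_div_iff₀ (hW0 x)]
      have := (hWc x).2
      rw [le_div_iff₀ hc] at this
      linarith
    · exact one_div_le_one_div_of_le hc (hWc x).1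
  have hI1 : Bd (fun x => 1 / W x) := ⟨measurable_const.div hW, 1 / c, fun x => by
    rw [abs_of_pos (one_div_pos.2 (hW0 x))]; exact (hI x).2⟩
  have hf1 : Bd f := ⟨hfm, R, fun x => (hR x).1⟩
  have hR0 : 0 ≤ R := (abs_nonneg _).trans (hR 0).1
  have hg0 : ∀ x, 0 ≤ f x ^ 2 * W x := fun x => mul_nonneg (sq_nonneg _) (hW0 x).le
  have hgB : ∀ x, f x ^ 2 * W x ≤ R ^ 2 * (1 / c) := by
    intro x
    have h1 : f x ^ 2 ≤ R ^ 2 := sq_le_sq.2 (by rw [abs_of_nonneg hR0]; exact (hR x).1)
    exact mul_le_mul h1 (hWc x).2 (hW0 x).le (sq_nonneg _)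
  have hg1 : Bd (fun x => f x ^ 2 * W x) := ⟨(hfm.pow_const 2).mul hW, R ^ 2 * (1 / c), fun x => by
    rw [abs_of_nonneg (hg0 x)]; exact hgB x⟩
  refine ⟨?_, ?_, ?_, ?_, ?_, ?_, ?_⟩
  · intro z y hy
    refine ⟨⟨po_ge hy hW1 (fun x => (hWc x).1) z, po_le hy hW1 (fun x => (hWc x).2) z⟩,
      ⟨po_ge hy hI1 (fun x => (hI x).1) z, po_le hy hI1 (fun x => (hI x).2) z⟩, ?_, ?_,
      po_ge hy hg1 hg0 z⟩
    · have h1 : Bd (fun _ : ℝ => (1 : ℝ)) := ⟨measurable_const, 1, fun x => by simp⟩
      have h2 := cauchy hy hW1 h1 hI1 (fun l x => ?_) z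
      · have h3 : (1 : ℝ) ≤ Po (fun _ : ℝ => (1 : ℝ)) z y := po_ge hy h1 (fun _ => le_rfl) z
        nlinarith
      · have h4 := hW0 x
        have h5 : W x * (l * l) + (-2 * 1) * l + 1 / W x = W x * (l - 1 / W x) ^ 2 := by
          field_simp
          ring
        rw [h5]
        positivity
    · refine cauchy hy hI1 hf1 hg1 (fun l x => ?_) z
      have h4 := hW0 x
      have h5 : 1 / W x * (l * l) + (-2 * f x) * l + f x ^ 2 * W x =
          W x * (l / W x - f x) ^ 2 := by
        field_simp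
        ring
      rw [h5]
      positivity
  · refine ⟨R, fun z y hy => abs_le.2 ⟨po_ge hy hf1 (fun x => ?_) z,
      po_le hy hf1 (fun x => ?_) z⟩⟩
    · exact (abs_le.1 (hR x).1).1
    · exact (abs_le.1 (hR x).1).2
  · intro y hy
    have h1 : ∀ z, ENNReal.ofReal (Po (fun x => f x ^ 2 * W x) z y) =
        ∫⁻ x, ENNReal.ofReal (ker y x) * ENNReal.ofReal (f (z - x) ^ 2 * W (z - x)) := by
      intro z
      rw [po_eq, ofReal_integral_eq_lintegral_ofReal (int_mul hy hg1 z)
        (Filter.Eventually.of_forall fun x => mul_nonneg (ker_nonneg hy x) (hg0 _))]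
      refine lintegral_congr fun x => ?_
      rw [ENNReal.ofReal_mul (ker_nonneg hy x)]
    have hgm : Measurable fun x => ENNReal.ofReal (f x ^ 2 * W x) := hg1.1.ennreal_ofReal
    have hm : Measurable (Function.uncurry fun z x : ℝ =>
        ENNReal.ofReal (ker y x) * ENNReal.ofReal (f (z - x) ^ 2 * W (z - x))) := by
      have m1 : Measurable (fun q : ℝ × ℝ => ENNReal.ofReal (ker y q.2)) :=
        (ker_meas y).ennreal_ofReal.comp measurable_snd
      have m2 : Measurable (fun q : ℝ × ℝ =>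
          ENNReal.ofReal (f (q.1 - q.2) ^ 2 * W (q.1 - q.2))) :=
        hgm.comp (measurable_fst.sub measurable_snd)
      exact m1.mul m2
    rw [lintegral_congr h1, lintegral_lintegral_swap hm.aemeasurable]
    have h2 : ∀ x, ∫⁻ z, ENNReal.ofReal (ker y x) * ENNReal.ofReal (f (z - x) ^ 2 * W (z - x)) =
        ENNReal.ofReal (ker y x) * ∫⁻ z, ENNReal.ofReal (f z ^ 2 * W z) := by
      intro x
      have m3 : Measurable (fun z => ENNReal.ofReal (f (z - x) ^ 2 * W (z - x))) :=
        hgm.comp (measurable_id.sub measurable_const)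
      rw [lintegral_const_mul _ m3,
        lintegral_sub_right_eq_self (fun z => ENNReal.ofReal (f z ^ 2 * W z)) x]
    rw [lintegral_congr h2, lintegral_mul_const _ (ker_meas y).ennreal_ofReal,
      ← ofReal_integral_eq_lintegral_ofReal (ker_int hy)
        (Filter.Eventually.of_forall fun x => ker_nonneg hy x), ker_one hy, ENNReal.ofReal_one,
      one_mul]
  · exact pint hf1
  · exact pint hW1
  · exact pint hI1
  · have h1 : ∀ x, ENNReal.ofReal (f x ^ 2 * W x) ≤
        (Icc (-R) R).indicator (fun _ => ENNReal.ofReal (R ^ 2 * (1 / c))) x := by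
      intro x
      by_cases hx : x ∈ Icc (-R) R
      · rw [indicator_of_mem hx]
        exact ENNReal.ofReal_le_ofReal (hgB x)
      · have h2 : R < |x| := by
          by_contra h3
          push Not at h3
          exact hx (abs_le.1 h3)
        rw [(hR x).2 h2]
        simp
    refine ne_top_of_le_ne_top ?_ (lintegral_mono h1)
    rw [lintegral_indicator measurableSet_Icc, lintegral_const, Measure.restrict_apply_univ,
      Real.volume_Icc]
    exact ENNReal.mul_ne_top ENNReal.ofReal_ne_top ENNReal.ofReal_ne_top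

end Pool.Agent.N305.GL
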