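import Pool.Agent.N305.GL.Stm

/-!
# Weights for `g_λ^*`, part COMB: sum over the apertures (helper216)
-/

set_option autoImplicit false

open MeasureTheory Set Filter Topology
open scoped ENNReal NNReal

namespace Pool.Agent.N305.GL

namespace Comb

theorem rpow_sum_le {q : ℝ} (hq0 : 0 < q) (hq1 : q ≤ 1) (f : ℕ → ℝ≥0∞) (n : ℕ) :
    (∑ i ∈ Finset.range n, f i) ^ q ≤ ∑ i ∈ Finset.range n, f i ^ q := by
  induction n with
  | zero => simp [hq0]
  | succ n ih =>
    rw [Finset.sum_range_succ, Finset.sum_range_succ]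
    exact (ENNReal.rpow_add_le_add_rpow _ _ hq0.le hq1).trans (add_le_add ih le_rfl)

theorem rpow_tsum_le {q : ℝ} (hq0 : 0 < q) (hq1 : q ≤ 1) (f : ℕ → ℝ≥0∞) :
    (∑' i, f i) ^ q ≤ ∑' i, f i ^ q := by
  have h1 : Tendsto (fun n => (∑ i ∈ Finset.range n, f i) ^ q) atTop (𝓝 ((∑' i, f i) ^ q)) :=
    ((ENNReal.continuous_rpow_const (y := q)).tendsto _).comp (ENNReal.tendsto_nat_tsum f)
  refine le_of_tendsto' h1 fun n => ?_
  exact (rpow_sum_le hq0 hq1 f n).trans (ENNReal.sum_le_tsum _)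

theorem measurable_Aa (a : ℝ) {F : ℝ → ℝ → ℝ≥0∞} (hF : Measurable (Function.uncurry F)) :
    Measurable (Aa a F) := by
  have h1 : Measurable fun p : (ℝ × ℝ) × ℝ =>
      if |p.1.1 - p.1.2| < a * p.2 then F p.1.2 p.2 else 0 := by
    refine Measurable.ite (measurableSet_lt (by fun_prop) (by fun_prop)) ?_ measurable_const
    exact hF.comp ((measurable_snd.comp measurable_fst).prodMk measurable_snd)
  have h2 : Measurable fun p : ℝ × ℝ => ∫⁻ y in Ioi (0:ℝ),
      (if |p.1 - p.2| < a * y then F p.2 y else 0) :=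
    Measurable.lintegral_prod_right' (ν := volume.restrict (Ioi (0:ℝ))) h1
  exact Measurable.lintegral_prod_right' (ν := volume) h2

end Comb

open Comb in
theorem comb (h1 : S_APE) (h2 : S_SUM) : S_COMB := by
  intro q lam D hq0 hq1 hlam hD hDlam K hK
  set c : ℕ → ℝ≥0∞ := fun k => ENNReal.ofReal (2 ^ lam * 2 ^ (-((k:ℝ) * lam))) with hc
  set w : ℕ → ℝ≥0∞ := fun k => ENNReal.ofReal (((2:ℝ) ^ k) ^ D) with hw
  set S : ℝ≥0∞ := ∑' k, c k ^ q * w k with hS
  have hStop : S ≠ ∞ := by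
    have h3 : ∀ k, c k ^ q * w k =
        ENNReal.ofReal ((2:ℝ) ^ (lam * q)) * ENNReal.ofReal ((2:ℝ) ^ (D - lam * q)) ^ k := by
      intro k
      rw [hc, hw]
      simp only
      rw [ENNReal.ofReal_rpow_of_nonneg (by positivity) hq0.le,
        ← ENNReal.ofReal_mul (by positivity), ← ENNReal.ofReal_pow (by positivity),
        ← ENNReal.ofReal_mul (by positivity)]
      congr 1
      have h4 : ((2:ℝ) ^ k) ^ D = 2 ^ ((k:ℝ) * D) := by
        rw [← Real.rpow_natCast, ← Real.rpow_mul (by norm_num)]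
      have h5 : ((2:ℝ) ^ (D - lam * q)) ^ k = 2 ^ ((D - lam * q) * k) := by
        rw [← Real.rpow_natCast, ← Real.rpow_mul (by norm_num)]
      rw [h4, h5, ← Real.rpow_add (by norm_num), ← Real.rpow_mul (by norm_num),
        ← Real.rpow_add (by norm_num), ← Real.rpow_add (by norm_num)]
      congr 1
      ring
    rw [hS, tsum_congr h3, ENNReal.tsum_mul_left, ENNReal.tsum_geometric]
    refine ENNReal.mul_ne_top ENNReal.ofReal_ne_top (ENNReal.inv_ne_top.2 ?_)
    have h6 : ENNReal.ofReal ((2:ℝ) ^ (D - lam * q)) < 1 := by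
      rw [ENNReal.ofReal_lt_one]
      exact Real.rpow_lt_one_of_one_lt_of_neg (by norm_num) (by linarith)
    exact (tsub_pos_of_lt h6).ne'
  have hCtop : S * (ENNReal.ofReal (4 + 2 * q / (1 - q)) * K) ≠ ∞ :=
    ENNReal.mul_ne_top hStop (ENNReal.mul_ne_top ENNReal.ofReal_ne_top ENNReal.coe_ne_top)
  refine ⟨(S * (ENNReal.ofReal (4 + 2 * q / (1 - q)) * K)).toNNReal, fun u hu hloc hdbl F hF => ?_⟩
  rw [ENNReal.coe_toNNReal hCtop]
  set I : ℝ≥0∞ := ∫⁻ x, Aa 1 F x ^ q * u x with hI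
  have hk : ∀ k : ℕ, ∫⁻ x, Aa (2 ^ k) F x ^ q * u x ≤
      w k * (ENNReal.ofReal (4 + 2 * q / (1 - q)) * K * I) := by
    intro k
    have ha : (1:ℝ) ≤ 2 ^ k := one_le_pow₀ (by norm_num)
    have h3 := h1 q hq0 hq1 u hu hloc (2 ^ k) ha (K * Real.toNNReal (((2:ℝ) ^ k) ^ D)) (by
      refine one_le_mul_of_one_le_of_one_le hK ?_
      rw [Real.one_le_toNNReal]
      exact Real.one_le_rpow ha hD) (by
        intro z y hy
        have := hdbl z y (2 ^ k) hy ha
        rw [ENNReal.coe_mul]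
        exact this) F hF
    refine h3.trans (le_of_eq ?_)
    rw [ENNReal.coe_mul, hw]
    change ENNReal.ofReal (4 + 2 * q / (1 - q)) * (↑K * ENNReal.ofReal (((2:ℝ) ^ k) ^ D)) * I = _
    simp only
    ring
  calc ∫⁻ x, (∫⁻ z : ℝ, ∫⁻ y in Ioi (0:ℝ),
      ENNReal.ofReal ((y / (|x - z| + y)) ^ lam) * F z y) ^ q * u x
      ≤ ∫⁻ x, ∑' k, c k ^ q * (Aa (2 ^ k) F x ^ q * u x) := by
        refine lintegral_mono fun x => ?_
        have h3 := ENNReal.rpow_le_rpow (h2 lam hlam F hF x) hq0.le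
        have h4 := h3.trans (rpow_tsum_le hq0 hq1.le _)
        refine (mul_le_mul_left h4 (u x)).trans (le_of_eq ?_)
        rw [← ENNReal.tsum_mul_right]
        refine tsum_congr fun k => ?_
        rw [ENNReal.mul_rpow_of_nonneg _ _ hq0.le, mul_assoc]
    _ = ∑' k, ∫⁻ x, c k ^ q * (Aa (2 ^ k) F x ^ q * u x) := by
        refine lintegral_tsum fun k => ?_
        exact ((((measurable_Aa _ hF).pow_const q).mul hu).const_mul _).aemeasurable
    _ = ∑' k, c k ^ q * ∫⁻ x, Aa (2 ^ k) F x ^ q * u x := by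
        refine tsum_congr fun k => ?_
        exact lintegral_const_mul _ (((measurable_Aa _ hF).pow_const q).mul hu)
    _ ≤ ∑' k, c k ^ q * (w k * (ENNReal.ofReal (4 + 2 * q / (1 - q)) * K * I)) :=
        ENNReal.tsum_le_tsum fun k => by gcongr; exact hk k
    _ = S * (ENNReal.ofReal (4 + 2 * q / (1 - q)) * K) * I := by
        simp only [← mul_assoc]
        rw [ENNReal.tsum_mul_right, ENNReal.tsum_mul_right, ENNReal.tsum_mul_right]

end Pool.Agent.N305.GL
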