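import Pool.Agent.N305.GL.Stm

/-!
# GL/EXT: the area integral on `L^p(A_p)`, `1 < p < 2`
-/

set_option autoImplicit false

open MeasureTheory Set Filter Topology
open scoped ENNReal NNReal

namespace Pool.Agent.N305.GL

namespace Ext

theorem fin_nrm {p : ℝ} (hp : 1 < p) {Q : ℝ≥0} {u : ℝ → ℝ≥0∞} (hu : Wt u) (h : APc p Q u)
    {f : ℝ → ℝ} (hf : BS f) : ∫⁻ x, ENNReal.ofReal |f x| ^ p * u x ≠ ∞ := by
  obtain ⟨R, hR⟩ := hf.bd
  have hloc := APc.loc hp ENNReal.coe_ne_top hu h (-R - 1) (R + 1)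
  have h1 : ∫⁻ x, ENNReal.ofReal |f x| ^ p * u x ≤
      ENNReal.ofReal R ^ p * ∫⁻ x in Ioo (-R - 1) (R + 1), u x := by
    rw [← lintegral_const_mul _ hu.meas, ← lintegral_indicator measurableSet_Ioo]
    refine lintegral_mono fun x => ?_
    by_cases hx : x ∈ Ioo (-R - 1) (R + 1)
    · rw [indicator_of_mem hx]
      gcongr
      exact (hR x).1
    · rw [indicator_of_notMem hx]
      have h2 : R < |x| := by
        by_contra hcon
        push Not at hcon
        apply hx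
        rw [abs_le] at hcon
        constructor <;> linarith
      rw [(hR x).2 h2, abs_zero, ENNReal.ofReal_zero, ENNReal.zero_rpow_of_pos (by linarith),
        zero_mul]
  exact ne_top_of_le_ne_top (ENNReal.mul_ne_top
    (ENNReal.rpow_ne_top_of_nonneg (by linarith) ENNReal.ofReal_ne_top) hloc) h1

theorem pint {f : ℝ → ℝ} (hf : BS f) : PInt f := by
  obtain ⟨R, hR⟩ := hf.bd
  have hint : Integrable f := by
    have h1 : IntegrableOn f (Icc (-R) R) :=
      Measure.integrableOn_of_bounded (M := R) (by simp) hf.meas.aestronglyMeasurable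
        (Eventually.of_forall fun x => (hR x).1)
    refine (integrableOn_iff_integrable_of_support_subset ?_).1 h1
    intro x hx
    by_contra hcon
    apply hx
    apply (hR x).2
    by_contra h2
    push Not at h2
    exact hcon (abs_le.1 h2)
  refine hint.norm.mono' ?_ (Eventually.of_forall fun x => ?_)
  · exact (hf.meas.div (measurable_const.add (measurable_id.pow_const 2))).aestronglyMeasurable
  · rw [norm_div]
    apply div_le_self (norm_nonneg _)
    rw [Real.norm_eq_abs]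
    have : (1 : ℝ) ≤ 1 + x ^ 2 := by nlinarith [sq_nonneg x]
    exact this.trans (le_abs_self _)

theorem meas_Aa {F : ℝ → ℝ → ℝ≥0∞} (hF : Measurable (Function.uncurry F)) (a : ℝ) :
    Measurable (Aa a F) := by
  have hG : Measurable fun q : (ℝ × ℝ) × ℝ =>
      if |q.1.1 - q.1.2| < a * q.2 then F q.1.2 q.2 else 0 := by
    refine Measurable.ite ?_ ?_ measurable_const
    · exact measurableSet_lt (by fun_prop) (by fun_prop)
    · exact hF.comp (f := fun q : (ℝ × ℝ) × ℝ => (q.1.2, q.2)) (by fun_prop)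
  have h1 : Measurable fun q : ℝ × ℝ => ∫⁻ y in Ioi (0:ℝ),
      if |q.1 - q.2| < a * y then F q.2 y else 0 :=
    Measurable.lintegral_prod_right (f := fun (q : ℝ × ℝ) (y : ℝ) =>
      if |q.1 - q.2| < a * y then F q.2 y else 0) hG
  exact Measurable.lintegral_prod_right (f := fun (x z : ℝ) => ∫⁻ y in Ioi (0:ℝ),
      if |x - z| < a * y then F z y else 0) h1

theorem Po_zero {f : ℝ → ℝ} (hf : ∀ᵐ x, f x = 0) (z y : ℝ) : Po f z y = 0 := by
  unfold Po
  have h1 : ∀ᵐ x : ℝ, f (z - x) = 0 :=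
    (MeasureTheory.quasiMeasurePreserving_sub_left (volume : Measure ℝ) z).ae hf
  rw [integral_eq_zero_of_ae, mul_zero]
  filter_upwards [h1] with x hx
  rw [hx, mul_zero, zero_div]
  rfl

end Ext

open Ext

theorem ext (_h0 : S_WT) (h1 : S_MUCK) (h2 : S_MEAS) (h3 : S_RDF) (h4 : S_A2W) (h5 : S_HOLD)
    (h6 : S_A2) : S_EXT := by
  intro p hp1 hp2 Q
  obtain ⟨C1, hC1, hM⟩ := h1 p hp1 Q
  obtain ⟨K, hK, hR⟩ := h3 p C1 hp1 hC1
  obtain ⟨C2, hA2⟩ := h6 (K ^ (2 - p) * Q)
  refine ⟨C2 ^ (p / 2) * ((2 : ℝ≥0) ^ p) ^ (1 - p / 2), fun u hu hAp f hf => ?_⟩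
  have hfin := fin_nrm hp1 hu hAp hf
  have hpi := pint hf
  have hAm := meas_Aa (h2 f hpi).1 1
  have hhm : Measurable fun x => ENNReal.ofReal |f x| :=
    ENNReal.measurable_ofReal.comp (continuous_abs.measurable.comp hf.meas)
  by_cases hz : (fun x => ENNReal.ofReal |f x|) =ᵐ[volume] 0
  · have hf0 : ∀ᵐ x, f x = 0 := by
      filter_upwards [hz] with x hx
      have h7 : ENNReal.ofReal |f x| = 0 := hx
      rw [ENNReal.ofReal_eq_zero] at h7
      exact abs_eq_zero.1 (le_antisymm h7 (abs_nonneg _))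
    have hF : ∀ z y, Fg f z y = 0 := by
      intro z y
      unfold Fg gradSq
      have h7 : (fun z' => Po f z' y) = fun _ => 0 := funext fun z' => Po_zero hf0 z' y
      have h8 : (fun y' => Po f z y') = fun _ => 0 := funext fun y' => Po_zero hf0 z y'
      rw [h7, h8]
      simp
    have hA : ∀ x, Aa 1 (Fg f) x = 0 := by
      intro x
      unfold Aa
      simp [hF]
    simp only [hA, ENNReal.zero_rpow_of_pos (show 0 < p / 2 by linarith), zero_mul,
      lintegral_zero]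
    simp
  obtain ⟨R, hRm, hRh, hR0, hRM, hRi⟩ := hR u hu (hM u hu hAp) _ hhm hfin hz
  have hRfin : ∫⁻ x, R x ^ p * u x ≠ ∞ := by
    refine ne_top_of_le_ne_top (ENNReal.mul_ne_top ?_ hfin) hRi
    exact ENNReal.rpow_ne_top_of_nonneg (by linarith) (by simp)
  have hRT : ∀ᵐ x, R x ≠ ∞ := by
    have h7 := ae_lt_top ((hRm.pow_const p).mul hu.meas) hRfin
    filter_upwards [h7] with x hx hRx
    rw [Pi.mul_apply, hRx, ENNReal.top_rpow_of_pos (by linarith), ENNReal.top_mul (hu.ne0 x)] at hx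
    exact lt_irrefl _ hx
  obtain ⟨hW1, hW2⟩ := h4 p Q K hp1 hp2 u hu hAp R hRm hR0 hRT hRM
  have hcoe : ((K ^ (2 - p) * Q : ℝ≥0) : ℝ≥0∞) = (K:ℝ≥0∞) ^ (2 - p) * Q := by
    rw [ENNReal.coe_mul, ENNReal.coe_rpow_of_nonneg _ (by linarith)]
  have h7 := hA2 (WR p u R) hW1 (by rw [hcoe]; exact hW2) f hf
  obtain ⟨h8, h9⟩ := h5 p hp1 hp2 u R (Aa 1 (Fg f)) (fun x => ENNReal.ofReal |f x|) hu hRm hAm hhm
    hR0 hRT hRh
  set I := ∫⁻ x, ENNReal.ofReal |f x| ^ p * u x with hI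
  have hp2' : 0 ≤ p / 2 := by linarith
  have hp3 : 0 ≤ 1 - p / 2 := by linarith
  calc ∫⁻ x, Aa 1 (Fg f) x ^ (p / 2) * u x
      ≤ (∫⁻ x, Aa 1 (Fg f) x * WR p u R x) ^ (p / 2) *
        (∫⁻ x, R x ^ p * u x) ^ (1 - p / 2) := h8
    _ ≤ (C2 * I) ^ (p / 2) * (2 ^ p * I) ^ (1 - p / 2) := by
        gcongr
        exact h7.trans (by gcongr)
    _ = ((C2 ^ (p / 2) * ((2 : ℝ≥0) ^ p) ^ (1 - p / 2) : ℝ≥0) : ℝ≥0∞) * I := by
        rw [ENNReal.mul_rpow_of_nonneg _ _ hp2', ENNReal.mul_rpow_of_nonneg _ _ hp3,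
          ENNReal.coe_mul, ENNReal.coe_rpow_of_nonneg _ hp2', ENNReal.coe_rpow_of_nonneg _ hp3,
          ENNReal.coe_rpow_of_nonneg _ (by linarith)]
        have h10 : I = I ^ (p / 2) * I ^ (1 - p / 2) := by
          rw [← ENNReal.rpow_add_of_nonneg _ _ hp2' hp3]
          have : p / 2 + (1 - p / 2) = 1 := by ring
          rw [this, ENNReal.rpow_one]
        conv_rhs => rw [h10]
        push_cast
        ring

end Pool.Agent.N305.GL
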