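import Pool.Agent.N305.GL.Stm

/-!
# Passage from bounded functions of bounded support to general functions
-/

set_option autoImplicit false

open MeasureTheory Set Filter Topology
open scoped ENNReal NNReal

namespace Pool.Agent.N305.GL

namespace FatAux

/-- truncation -/
noncomputable def tr (f : ℝ → ℝ) (n : ℕ) (x : ℝ) : ℝ := if |x| ≤ n ∧ |f x| ≤ n then f x else 0

theorem tr_le (f : ℝ → ℝ) (n : ℕ) (x : ℝ) : |tr f n x| ≤ |f x| := by
  unfold tr
  split_ifs
  · exact le_rfl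
  · simp

theorem tr_meas {f : ℝ → ℝ} (hf : Measurable f) (n : ℕ) : Measurable (tr f n) := by
  unfold tr
  refine Measurable.ite ?_ hf measurable_const
  exact (measurableSet_le measurable_id.abs measurable_const).inter
    (measurableSet_le hf.abs measurable_const)

theorem tr_bs {f : ℝ → ℝ} (hf : Measurable f) (n : ℕ) : BS (tr f n) := by
  refine ⟨tr_meas hf n, n, fun x => ⟨?_, fun hx => ?_⟩⟩
  · unfold tr
    split_ifs with h
    · exact h.2
    · simp
  · unfold tr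
    rw [if_neg]
    intro h
    exact absurd h.1 (not_le.2 hx)

theorem tr_pint {f : ℝ → ℝ} (hf : Measurable f) (hp : PInt f) (n : ℕ) : PInt (tr f n) := by
  refine Integrable.mono hp ?_ (Eventually.of_forall fun x => ?_)
  · exact ((tr_meas hf n).div (by fun_prop)).aestronglyMeasurable
  · rw [norm_div, norm_div]
    exact div_le_div_of_nonneg_right (tr_le f n x) (norm_nonneg _)

theorem tr_tendsto (f : ℝ → ℝ) (x : ℝ) : Tendsto (fun n => tr f n x) atTop (𝓝 (f x)) := by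
  obtain ⟨N, hN⟩ := exists_nat_ge (max |x| |f x|)
  refine tendsto_const_nhds.congr' ?_
  filter_upwards [eventually_ge_atTop N] with n hn
  have h1 : (N : ℝ) ≤ n := by exact_mod_cast hn
  unfold tr
  rw [if_pos ⟨((le_max_left _ _).trans hN).trans h1, ((le_max_right _ _).trans hN).trans h1⟩]

/-- the domination -/
theorem dom {z y : ℝ} (hy : 0 < y) (t : ℝ) :
    1 / ‖(((⟨z, y⟩ : ℂ) - t) ^ 2 : ℂ)‖ ≤ (2 + (2 * z ^ 2 + 1) / y ^ 2) / (1 + t ^ 2) := by
  have h1 : ‖(((⟨z, y⟩ : ℂ) - t) ^ 2 : ℂ)‖ = (z - t) ^ 2 + y ^ 2 := by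
    rw [norm_pow, ← Complex.normSq_eq_norm_sq, Complex.normSq_apply]
    simp
    ring
  rw [h1, div_le_div_iff₀ (by positivity) (by positivity), one_mul]
  have h2 : (2 * z ^ 2 + 1) / y ^ 2 * y ^ 2 = 2 * z ^ 2 + 1 := by field_simp
  have h3 : 0 ≤ (2 * z ^ 2 + 1) / y ^ 2 * (z - t) ^ 2 := by positivity
  nlinarith [sq_nonneg (t - 2 * z), sq_nonneg y]

theorem hh_tendsto {f : ℝ → ℝ} (hf : Measurable f) (hp : PInt f) {z y : ℝ} (hy : 0 < y) :
    Tendsto (fun n => Hh (tr f n) ⟨z, y⟩) atTop (𝓝 (Hh f ⟨z, y⟩)) := by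
  unfold Hh
  refine Tendsto.const_mul _ ?_
  refine tendsto_integral_of_dominated_convergence
    (fun t => (2 + (2 * z ^ 2 + 1) / y ^ 2) * ‖f t / (1 + t ^ 2)‖) ?_ ?_ ?_ ?_
  · intro n
    have h1 := tr_meas hf n
    refine Measurable.aestronglyMeasurable ?_
    fun_prop
  · exact (hp.norm).const_mul _
  · intro n
    refine Eventually.of_forall fun t => ?_
    rw [norm_div, Complex.norm_real, norm_div, Real.norm_of_nonneg (by positivity : 0 ≤ 1 + t ^ 2)]
    have h1 := dom (z := z) hy t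
    have h2 : ‖tr f n t‖ ≤ ‖f t‖ := tr_le f n t
    calc ‖tr f n t‖ / ‖(((⟨z, y⟩ : ℂ) - t) ^ 2 : ℂ)‖ =
          ‖tr f n t‖ * (1 / ‖(((⟨z, y⟩ : ℂ) - t) ^ 2 : ℂ)‖) := by ring
      _ ≤ ‖f t‖ * ((2 + (2 * z ^ 2 + 1) / y ^ 2) / (1 + t ^ 2)) :=
          mul_le_mul h2 h1 (by positivity) (norm_nonneg _)
      _ = _ := by ring
  · refine Eventually.of_forall fun t => ?_
    have h1 : Tendsto (fun n => ((tr f n t : ℝ) : ℂ)) atTop (𝓝 ((f t : ℝ) : ℂ)) :=
      (Complex.continuous_ofReal.tendsto _).comp (tr_tendsto f t)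
    exact h1.div_const _

theorem grad_tendsto (h3 : S_MEAS) {f : ℝ → ℝ} (hf : Measurable f) (hp : PInt f) {z y : ℝ}
    (hy : 0 < y) : Tendsto (fun n => gradSq (tr f n) z y) atTop (𝓝 (gradSq f z y)) := by
  rw [(h3 f hp).2 z y hy]
  have h1 : (fun n => gradSq (tr f n) z y) = fun n => ‖Hh (tr f n) ⟨z, y⟩‖ ^ 2 := by
    funext n
    exact (h3 (tr f n) (tr_pint hf hp n)).2 z y hy
  rw [h1]
  exact ((hh_tendsto hf hp hy).norm).pow 2

/-- the kernel -/
noncomputable def K (lam x z y : ℝ) : ℝ≥0∞ := ENNReal.ofReal ((y / (|x - z| + y)) ^ lam)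

/-- the double integral -/
noncomputable def I (lam : ℝ) (f : ℝ → ℝ) (x : ℝ) : ℝ≥0∞ :=
  ∫⁻ z : ℝ, ∫⁻ y in Ioi (0:ℝ), K lam x z y * Fg f z y

theorem gStar_eq (lam p : ℝ) (f : ℝ → ℝ) (x : ℝ) : gStar lam f x ^ p = I lam f x ^ (p / 2) := by
  unfold gStar
  rw [← ENNReal.rpow_mul]
  have e : 1 / 2 * p = p / 2 := by ring
  rw [e]
  congr 1
  refine lintegral_congr fun z => ?_
  refine setLIntegral_congr_fun measurableSet_Ioi fun y hy => ?_
  have hy' : 0 < y := hy
  unfold K Fg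
  rw [if_pos hy', ← ENNReal.ofReal_mul]
  exact Real.rpow_nonneg (div_nonneg hy'.le (add_nonneg (abs_nonneg _) hy'.le)) _

theorem K_meas (lam : ℝ) : Measurable fun w : (ℝ × ℝ) × ℝ => K lam w.1.1 w.1.2 w.2 := by
  unfold K
  refine Measurable.ennreal_ofReal ?_
  refine Measurable.pow_const ?_ lam
  fun_prop

theorem KF_meas (h3 : S_MEAS) (lam : ℝ) {f : ℝ → ℝ} (hp : PInt f) :
    Measurable fun w : (ℝ × ℝ) × ℝ => K lam w.1.1 w.1.2 w.2 * Fg f w.1.2 w.2 := by
  refine (K_meas lam).mul ?_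
  have h1 := (h3 f hp).1
  exact h1.comp (g := Function.uncurry (Fg f)) (f := fun w : (ℝ × ℝ) × ℝ => (w.1.2, w.2))
    (by fun_prop)

theorem inner_meas (h3 : S_MEAS) (lam : ℝ) {f : ℝ → ℝ} (hp : PInt f) :
    Measurable fun w : ℝ × ℝ => ∫⁻ y in Ioi (0:ℝ), K lam w.1 w.2 y * Fg f w.2 y :=
  (KF_meas h3 lam hp).lintegral_prod_right'

theorem I_meas (h3 : S_MEAS) (lam : ℝ) {f : ℝ → ℝ} (hp : PInt f) : Measurable (I lam f) :=
  (inner_meas h3 lam hp).lintegral_prod_right'

theorem I_le (h3 : S_MEAS) (lam : ℝ) {f : ℝ → ℝ} (hf : Measurable f) (hp : PInt f) (x : ℝ) :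
    I lam f x ≤ liminf (fun n => I lam (tr f n) x) atTop := by
  have h1 : ∀ z : ℝ, ∫⁻ y in Ioi (0:ℝ), K lam x z y * Fg f z y ≤
      liminf (fun n => ∫⁻ y in Ioi (0:ℝ), K lam x z y * Fg (tr f n) z y) atTop := by
    intro z
    have h2 : ∫⁻ y in Ioi (0:ℝ), K lam x z y * Fg f z y =
        ∫⁻ y in Ioi (0:ℝ), liminf (fun n => K lam x z y * Fg (tr f n) z y) atTop := by
      refine setLIntegral_congr_fun measurableSet_Ioi fun y hy => ?_
      have hy' : 0 < y := hy
      have h4 : Tendsto (fun n => K lam x z y * Fg (tr f n) z y) atTop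
          (𝓝 (K lam x z y * Fg f z y)) := by
        refine ENNReal.Tendsto.const_mul ?_ (Or.inr ENNReal.ofReal_ne_top)
        unfold Fg
        simp only [if_pos hy']
        exact ENNReal.tendsto_ofReal (grad_tendsto h3 hf hp hy')
      exact h4.liminf_eq.symm
    rw [h2]
    refine lintegral_liminf_le fun n => ?_
    exact (KF_meas h3 lam (tr_pint hf hp n)).comp
      (f := fun y : ℝ => ((x, z), y)) (by fun_prop)
  refine (lintegral_mono h1).trans ?_
  refine lintegral_liminf_le fun n => ?_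
  exact (inner_meas h3 lam (tr_pint hf hp n)).comp (f := fun z : ℝ => (x, z)) (by fun_prop)

/-- a constant factor and the lower limit -/
theorem liminf_mul_le (c : ℕ → ℝ≥0∞) (u : ℝ≥0∞) :
    liminf c atTop * u ≤ liminf (fun n => c n * u) atTop := by
  rw [liminf_eq_iSup_iInf_of_nat, liminf_eq_iSup_iInf_of_nat, ENNReal.iSup_mul]
  refine iSup_mono fun n => ?_
  refine le_iInf₂ fun i hi => ?_
  gcongr
  exact iInf₂_le i hi

theorem rpow_liminf (c : ℕ → ℝ≥0∞) {q : ℝ} (hq : 0 < q) :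
    (liminf c atTop) ^ q = liminf (fun n => c n ^ q) atTop := by
  have h := (ENNReal.orderIsoRpow q hq).liminf_apply (f := atTop) (u := c)
  exact h

end FatAux

open FatAux in
/-- GL/FAT -/
theorem fat (_h1 : S_GRAD) (_h2 : S_HOL) (h3 : S_MEAS) : S_FAT := by
  intro lam p hlam hp0 u hu f hf hp N hN
  have hq : 0 < p / 2 := by linarith
  have h4 : ∀ x, gStar lam f x ^ p * u x ≤
      liminf (fun n => gStar lam (tr f n) x ^ p * u x) atTop := by
    intro x
    simp only [gStar_eq]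
    refine le_trans ?_ (liminf_mul_le _ _)
    gcongr
    rw [← rpow_liminf _ hq]
    exact ENNReal.rpow_le_rpow (I_le h3 lam hf hp x) hq.le
  refine (lintegral_mono h4).trans ?_
  refine (lintegral_liminf_le fun n => ?_).trans ?_
  · simp only [gStar_eq]
    exact ((I_meas h3 lam (tr_pint hf hp n)).pow_const _).mul hu
  · refine (liminf_le_liminf (Eventually.of_forall fun n =>
      hN (tr f n) (tr_bs hf n) (tr_le f n))).trans ?_
    exact (liminf_const N).le

end Pool.Agent.N305.GL
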