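import Pool.Agent.N305.GL.Stm

/-!
# Weights for `g_λ^*`: assembly
-/

set_option autoImplicit false

open MeasureTheory Set Filter Topology
open scoped ENNReal NNReal

namespace Pool.Agent.N305.GL

/-- the positive modification of a weight -/
noncomputable def mu (U : ℝ → ℝ) (x : ℝ) : ℝ≥0∞ := if U x = 0 then 1 else ENNReal.ofReal (U x)

theorem mu_wt {U : ℝ → ℝ} (hU : IsWeight U) : Wt (mu U) where
  meas := by
    unfold mu
    refine Measurable.ite ?_ measurable_const hU.meas.ennreal_ofReal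
    exact hU.meas (measurableSet_singleton 0)
  ne0 := fun x => by
    unfold mu
    split_ifs with h
    · exact one_ne_zero
    · exact (ENNReal.ofReal_pos.2 (lt_of_le_of_ne (hU.nonneg x) (Ne.symm h))).ne'
  neT := fun x => by
    unfold mu
    split_ifs with h
    · exact ENNReal.one_ne_top
    · exact ENNReal.ofReal_ne_top

theorem mu_ae {U : ℝ → ℝ} (h : ∀ᵐ x, U x ≠ 0) :
    mu U =ᵐ[volume] fun x => ENNReal.ofReal (U x) := by
  filter_upwards [h] with x hx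
  unfold mu
  rw [if_neg hx]

theorem pos_ae {p : ℝ} (hp : 1 < p) {U : ℝ → ℝ} (hU : IsWeight U) (hA : IsA p U)
    (hne : ¬ (U =ᵐ[volume] 0)) : ∀ᵐ x, U x ≠ 0 := by
  by_contra hcon
  obtain ⟨C, hC⟩ := hA
  -- the two sets have positive measure
  have h1 : volume {x | U x = 0} ≠ 0 := by
    intro h
    apply hcon
    rw [ae_iff]
    simpa using h
  have h2 : volume {x | U x ≠ 0} ≠ 0 := by
    intro h
    apply hne
    rw [Filter.EventuallyEq, ae_iff]
    simpa using h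
  have hm1 : MeasurableSet {x | U x = 0} := hU.meas (measurableSet_singleton 0)
  have hm2 : MeasurableSet {x | U x ≠ 0} := hm1.compl
  have hun : ∀ E : Set ℝ, E = ⋃ n : ℕ, E ∩ Ioo (-(n:ℝ)) n := by
    intro E
    rw [← inter_iUnion]
    have : ⋃ n : ℕ, Ioo (-(n:ℝ)) n = univ := by
      refine eq_univ_of_forall fun x => ?_
      obtain ⟨n, hn⟩ := exists_nat_gt |x|
      exact mem_iUnion.2 ⟨n, by rw [mem_Ioo]; exact abs_lt.1 hn⟩
    rw [this, inter_univ]
  have key : ∀ E : Set ℝ, volume E ≠ 0 → ∃ n : ℕ, volume (E ∩ Ioo (-(n:ℝ)) n) ≠ 0 := by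
    intro E hE
    by_contra hno
    push Not at hno
    apply hE
    rw [hun E]
    exact measure_iUnion_null hno
  obtain ⟨n1, hn1⟩ := key _ h1
  obtain ⟨n2, hn2⟩ := key _ h2
  set n := max (max n1 n2) 1 with hn
  have hsub : ∀ m : ℕ, m ≤ n → Ioo (-(m:ℝ)) m ⊆ Ioo (-(n:ℝ)) n := by
    intro m hm
    have : (m:ℝ) ≤ n := by exact_mod_cast hm
    exact Ioo_subset_Ioo (by linarith) this
  have g1 : volume ({x | U x = 0} ∩ Ioo (-(n:ℝ)) n) ≠ 0 := by
    intro h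
    exact hn1 (measure_mono_null (inter_subset_inter_right _ (hsub n1 (by omega))) h)
  have g2 : volume ({x | U x ≠ 0} ∩ Ioo (-(n:ℝ)) n) ≠ 0 := by
    intro h
    exact hn2 (measure_mono_null (inter_subset_inter_right _ (hsub n2 (by omega))) h)
  have hn0 : (1:ℝ) ≤ n := by
    have : 1 ≤ n := by omega
    exact_mod_cast this
  have hX : ∫⁻ x in Ioo (-(n:ℝ)) n, ENNReal.ofReal (U x) ≠ 0 := by
    intro h
    rw [lintegral_eq_zero_iff hU.meas.ennreal_ofReal] at h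
    apply g2
    have h3 := (ae_iff.1 h)
    rw [Measure.restrict_apply₀'] at h3
    · refine measure_mono_null ?_ h3
      rintro x ⟨hx, hx'⟩
      refine ⟨?_, hx'⟩
      show ¬ (ENNReal.ofReal (U x) = 0)
      rw [ENNReal.ofReal_eq_zero]
      push Not
      exact lt_of_le_of_ne (hU.nonneg x) (Ne.symm hx)
    · exact measurableSet_Ioo.nullMeasurableSet
  have hY : ∫⁻ x in Ioo (-(n:ℝ)) n, ENNReal.ofReal (U x) ^ (-1 / (p - 1)) = ∞ := by
    rw [eq_top_iff]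
    calc (∞ : ℝ≥0∞) = ∞ * volume ({x | U x = 0} ∩ Ioo (-(n:ℝ)) n) := (ENNReal.top_mul g1).symm
      _ = ∫⁻ x in {x | U x = 0} ∩ Ioo (-(n:ℝ)) n, ∞ := by rw [setLIntegral_const]
      _ = ∫⁻ x in {x | U x = 0} ∩ Ioo (-(n:ℝ)) n, ENNReal.ofReal (U x) ^ (-1 / (p - 1)) := by
          refine setLIntegral_congr_fun (hm1.inter measurableSet_Ioo) ?_
          rintro x ⟨hx, -⟩
          have hx' : U x = 0 := hx
          show (∞ : ℝ≥0∞) = ENNReal.ofReal (U x) ^ (-1 / (p - 1))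
          rw [hx', ENNReal.ofReal_zero, ENNReal.zero_rpow_of_neg]
          apply div_neg_of_neg_of_pos <;> linarith
      _ ≤ ∫⁻ x in Ioo (-(n:ℝ)) n, ENNReal.ofReal (U x) ^ (-1 / (p - 1)) :=
          lintegral_mono_set inter_subset_right
  have h := hC (-(n:ℝ)) n (by linarith)
  rw [hY] at h
  have hl : ENNReal.ofReal ((n:ℝ) - -(n:ℝ)) ≠ ∞ := ENNReal.ofReal_ne_top
  rw [ENNReal.top_div_of_ne_top hl, ENNReal.top_rpow_of_pos (by linarith), ENNReal.mul_top] at h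
  · exact absurd h (by simp)
  · exact (ENNReal.div_pos hX hl).ne'

theorem apc_of_isA {p : ℝ} (hp : 1 < p) {U : ℝ → ℝ} (hA : IsA p U)
    (hpos : ∀ᵐ x, U x ≠ 0) : ∃ Q : ℝ≥0, APc p Q (mu U) := by
  obtain ⟨C, hC⟩ := hA
  refine ⟨C, fun a b hab => ?_⟩
  have h := hC a b hab
  have e1 : ∫⁻ x in Ioo a b, mu U x = ∫⁻ x in Ioo a b, ENNReal.ofReal (U x) :=
    lintegral_congr_ae (ae_restrict_of_ae (mu_ae hpos))
  have e2 : ∫⁻ x in Ioo a b, mu U x ^ (-1 / (p - 1)) =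
      ∫⁻ x in Ioo a b, ENNReal.ofReal (U x) ^ (-1 / (p - 1)) := by
    refine lintegral_congr_ae (ae_restrict_of_ae ?_)
    filter_upwards [mu_ae hpos] with x hx
    rw [hx]
  rw [e1, e2]
  set X := ∫⁻ x in Ioo a b, ENNReal.ofReal (U x)
  set Y := ∫⁻ x in Ioo a b, ENNReal.ofReal (U x) ^ (-1 / (p - 1))
  set l := ENNReal.ofReal (b - a) with hl
  have hl0 : l ≠ 0 := (ENNReal.ofReal_pos.2 (sub_pos.2 hab)).ne'
  have hlT : l ≠ ∞ := ENNReal.ofReal_ne_top
  have e3 : X * Y ^ (p - 1) = (X / l * (Y / l) ^ (p - 1)) * l ^ p := by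
    have e4 : l ^ p = l * l ^ (p - 1) := by
      conv_lhs => rw [show p = 1 + (p - 1) by ring]
      rw [ENNReal.rpow_add _ _ hl0 hlT, ENNReal.rpow_one]
    rw [e4, ENNReal.div_rpow_of_nonneg _ _ (by linarith : (0:ℝ) ≤ p - 1)]
    have hl1 : l ^ (p - 1) ≠ 0 := (ENNReal.rpow_pos (pos_iff_ne_zero.2 hl0) hlT).ne'
    have hl2 : l ^ (p - 1) ≠ ∞ := ENNReal.rpow_ne_top_of_ne_zero hl0 hlT
    calc X * Y ^ (p - 1) = (X / l * l) * (Y ^ (p - 1) / l ^ (p - 1) * l ^ (p - 1)) := by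
          rw [ENNReal.div_mul_cancel hl0 hlT, ENNReal.div_mul_cancel hl1 hl2]
      _ = X / l * (Y ^ (p - 1) / l ^ (p - 1)) * (l * l ^ (p - 1)) := by ring
  rw [e3]
  gcongr

theorem dbl_of_isB (h : S_BR) {r : ℝ} (hr : 0 < r) {U : ℝ → ℝ} (hU : IsWeight U) (hB : IsB r U)
    (hpos : ∀ᵐ x, U x ≠ 0) (hloc : Loc (mu U)) :
    ∃ (D : ℝ) (K : ℝ≥0), 0 ≤ D ∧ D < r ∧ 1 ≤ K ∧ Dbl D K (mu U) := by
  obtain ⟨C, hC⟩ := hB
  refine h r hr (mu U) (mu_wt hU).meas hloc C fun z l hl => ?_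
  have h1 := hC (z - l / 2) (z + l / 2) (by linarith)
  have e0 : z + l / 2 - (z - l / 2) = l := by ring
  have e0' : (z - l / 2 + (z + l / 2)) / 2 = z := by ring
  rw [e0, e0'] at h1
  have e1 : ∫⁻ x in Ioo (z - l / 2) (z + l / 2), mu U x =
      ∫⁻ x in Ioo (z - l / 2) (z + l / 2), ENNReal.ofReal (U x) :=
    lintegral_congr_ae (ae_restrict_of_ae (mu_ae hpos))
  have hl0 : ENNReal.ofReal l ≠ 0 := (ENNReal.ofReal_pos.2 hl).ne'
  have hlT : ENNReal.ofReal l ≠ ∞ := ENNReal.ofReal_ne_top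
  have e2 : ∫⁻ x, ENNReal.ofReal (l ^ r / (l ^ r + |x - z| ^ r)) * mu U x =
      ENNReal.ofReal l * ∫⁻ x, ENNReal.ofReal (l ^ (r - 1) * U x / (l ^ r + |x - z| ^ r)) := by
    rw [← lintegral_const_mul' _ _ hlT]
    refine lintegral_congr_ae ?_
    filter_upwards [mu_ae hpos] with x hx
    rw [hx, ← ENNReal.ofReal_mul hl.le, ← ENNReal.ofReal_mul (by positivity)]
    congr 1
    have e3 : l ^ r = l * l ^ (r - 1) := by
      conv_lhs => rw [show r = 1 + (r - 1) by ring]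
      rw [Real.rpow_add hl, Real.rpow_one]
    rw [div_mul_eq_mul_div, mul_div_assoc', e3]
    ring_nf
  rw [e2, e1]
  calc ENNReal.ofReal l * ∫⁻ x, ENNReal.ofReal (l ^ (r - 1) * U x / (l ^ r + |x - z| ^ r))
      ≤ ENNReal.ofReal l * (C * ((∫⁻ x in Ioo (z - l / 2) (z + l / 2), ENNReal.ofReal (U x)) /
          ENNReal.ofReal l)) := by gcongr
    _ = C * ((∫⁻ x in Ioo (z - l / 2) (z + l / 2), ENNReal.ofReal (U x)) /
          ENNReal.ofReal l * ENNReal.ofReal l) := by ring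
    _ = _ := by rw [ENNReal.div_mul_cancel hl0 hlT]

theorem gStar_pow {lam p : ℝ} {f : ℝ → ℝ} {x : ℝ} :
    gStar lam f x ^ p = (∫⁻ z : ℝ, ∫⁻ y in Ioi (0:ℝ),
      ENNReal.ofReal ((y / (|x - z| + y)) ^ lam) * Fg f z y) ^ (p / 2) := by
  unfold gStar
  rw [← ENNReal.rpow_mul, show (1 / 2 : ℝ) * p = p / 2 by ring]
  congr 1
  refine lintegral_congr fun z => setLIntegral_congr_fun measurableSet_Ioi fun y hy => ?_
  have hy' : 0 < y := hy
  have h0 : 0 ≤ y / (|x - z| + y) := by positivity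
  show ENNReal.ofReal ((y / (|x - z| + y)) ^ lam * gradSq f z y) =
    ENNReal.ofReal ((y / (|x - z| + y)) ^ lam) * Fg f z y
  unfold Fg
  rw [if_pos hy', ENNReal.ofReal_mul (Real.rpow_nonneg h0 _)]

theorem BS.pint {f : ℝ → ℝ} (hf : BS f) : PInt f := by
  obtain ⟨R, hR⟩ := hf.bd
  unfold PInt
  have h1 : Integrable (fun x : ℝ => (1 + x ^ 2)⁻¹) := integrable_inv_one_add_sq
  refine (h1.const_mul |R|).mono' ?_ ?_
  · have : Measurable fun x : ℝ => f x / (1 + x ^ 2) := by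
      exact hf.meas.div (by fun_prop)
    exact this.aestronglyMeasurable
  · refine Eventually.of_forall fun x => ?_
    have h2 : 0 < 1 + x ^ 2 := by positivity
    rw [Real.norm_eq_abs, abs_div, abs_of_pos h2, div_eq_mul_inv]
    have h3 : |f x| ≤ |R| := (hR x).1.trans (le_abs_self R)
    gcongr

theorem BS.nrm_lt {p : ℝ} (hp : 0 < p) {f : ℝ → ℝ} (hf : BS f) {U : ℝ → ℝ} (hU : IsWeight U) :
    nrm p U f < ∞ := by
  obtain ⟨R, hR⟩ := hf.bd
  unfold nrm
  have hloc : ∫⁻ x in Icc (-R) R, ENNReal.ofReal (U x) < ∞ := by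
    have h1 : IntegrableOn U (Icc (-R) R) := hU.loc.integrableOn_isCompact isCompact_Icc
    have h2 := h1.2
    unfold HasFiniteIntegral at h2
    refine lt_of_le_of_lt (lintegral_mono fun x => ?_) h2
    rw [Real.enorm_eq_ofReal (hU.nonneg x)]
  have h3 : ∫⁻ x, ENNReal.ofReal |f x| ^ p * ENNReal.ofReal (U x) ≤
      ∫⁻ x in Icc (-R) R, ENNReal.ofReal R ^ p * ENNReal.ofReal (U x) := by
    rw [← lintegral_indicator measurableSet_Icc]
    refine lintegral_mono fun x => ?_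
    by_cases hx : x ∈ Icc (-R) R
    · rw [indicator_of_mem hx]
      have := (hR x).1
      gcongr
    · rw [indicator_of_notMem hx]
      have : R < |x| := by
        by_contra hcon
        exact hx (abs_le.1 (not_lt.1 hcon))
      rw [(hR x).2 this, abs_zero, ENNReal.ofReal_zero, ENNReal.zero_rpow_of_pos hp, zero_mul]
  refine lt_of_le_of_lt h3 ?_
  rw [lintegral_const_mul' _ _ (ENNReal.rpow_ne_top_of_nonneg hp.le ENNReal.ofReal_ne_top)]
  exact ENNReal.mul_lt_top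
    (ENNReal.rpow_lt_top_of_nonneg hp.le ENNReal.ofReal_ne_top) hloc

theorem suff (hBR : S_BR) (hCOMB : S_COMB) (hMEAS : S_MEAS) (hEXT : S_EXT) (hPC : S_PCONV)
    (hFAT : S_FAT) {lam p : ℝ} (hlam : 1 < lam) (hp : 1 < p) (hp2 : p < 2)
    {U : ℝ → ℝ} (hU : IsWeight U) (hne : ¬ (U =ᵐ[volume] 0)) (hA : IsA p U)
    (hB : IsB (lam * p / 2) U) : Star lam p U := by
  have hpos := pos_ae hp hU hA hne
  obtain ⟨Q, hQ⟩ := apc_of_isA hp hA hpos
  have hw := mu_wt hU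
  have hloc : Loc (mu U) := hQ.loc hp ENNReal.coe_ne_top hw
  obtain ⟨D, K, hD0, hD, hK, hdbl⟩ := dbl_of_isB hBR (by positivity) hU hB hpos hloc
  obtain ⟨C1, hC1⟩ := hCOMB (p / 2) lam D (by linarith) (by linarith) (by linarith) hD0
    (by rw [show lam * (p / 2) = lam * p / 2 by ring]; exact hD) K hK
  obtain ⟨C2, hC2⟩ := hEXT p hp hp2 Q
  have hmu := mu_ae hpos
  have hnrm : ∀ f : ℝ → ℝ, ∫⁻ x, ENNReal.ofReal |f x| ^ p * mu U x = nrm p U f := by
    intro f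
    refine lintegral_congr_ae ?_
    filter_upwards [hmu] with x hx
    rw [hx]
  -- bounded functions of bounded support
  have hBS : ∀ g : ℝ → ℝ, BS g → ∫⁻ x, gStar lam g x ^ p * mu U x ≤ C1 * (C2 * nrm p U g) := by
    intro g hg
    simp_rw [gStar_pow]
    refine (hC1 (mu U) hw.meas hloc hdbl (Fg g) (hMEAS g hg.pint).1).trans ?_
    gcongr
    rw [← hnrm]
    exact hC2 (mu U) hw hQ g hg
  refine ⟨C1 * C2, fun f hf hfin => ?_⟩
  have hPI : PInt f := hPC p hp Q (mu U) hw hQ f hf (by rw [hnrm]; exact hfin.ne)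
  refine ⟨hPI, ?_⟩
  obtain ⟨N, hN⟩ : ∃ N : ℝ≥0, (N : ℝ≥0∞) = C1 * (C2 * nrm p U f) :=
    ⟨C1 * C2 * (nrm p U f).toNNReal, by
      push_cast
      rw [ENNReal.coe_toNNReal hfin.ne, mul_assoc]⟩
  have h1 := hFAT lam p (by linarith) (by linarith) (mu U) hw.meas f hf hPI
    N (by
      intro g hg hgf
      rw [hN]
      refine (hBS g hg).trans ?_
      gcongr
      unfold nrm
      refine lintegral_mono fun x => ?_
      have := hgf x
      gcongr)
  rw [hN] at h1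
  calc ∫⁻ x, gStar lam f x ^ p * ENNReal.ofReal (U x)
      = ∫⁻ x, gStar lam f x ^ p * mu U x := by
        refine lintegral_congr_ae ?_
        filter_upwards [hmu] with x hx
        rw [hx]
    _ ≤ C1 * (C2 * nrm p U f) := h1
    _ = ((C1 * C2 : ℝ≥0) : ℝ≥0∞) * nrm p U f := by push_cast; ring

theorem starB_of_star {lam p : ℝ} (hp : 0 < p) {U : ℝ → ℝ} (hU : IsWeight U)
    (h : Star lam p U) : StarB lam p U := by
  obtain ⟨C, hC⟩ := h
  exact ⟨C, fun f hf hb => (hC f hf (BS.nrm_lt hp ⟨hf, hb⟩ hU)).2⟩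

theorem zero_case {lam p r : ℝ} {U : ℝ → ℝ} (h : U =ᵐ[volume] 0) :
    StarB lam p U ∧ IsA p U ∧ IsB r U := by
  refine ⟨⟨0, fun f _ _ => ?_⟩, ⟨0, fun a b _ => ?_⟩, ⟨0, fun a b _ => ?_⟩⟩
  · have : ∫⁻ x, gStar lam f x ^ p * ENNReal.ofReal (U x) = ∫⁻ x : ℝ, 0 := by
      refine lintegral_congr_ae ?_
      filter_upwards [h] with x hx
      rw [hx]; simp
    rw [this]; simp
  · have : ∫⁻ x in Ioo a b, ENNReal.ofReal (U x) = 0 := by
      have : ∫⁻ x in Ioo a b, ENNReal.ofReal (U x) = ∫⁻ x in Ioo a b, 0 := by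
        refine lintegral_congr_ae (ae_restrict_of_ae ?_)
        filter_upwards [h] with x hx
        rw [hx]; simp
      rw [this]; simp
    rw [this]; simp
  · have : ∫⁻ x, ENNReal.ofReal ((b - a) ^ (r - 1) * U x / ((b - a) ^ r + |x - (a + b) / 2| ^ r))
        = ∫⁻ x : ℝ, 0 := by
      refine lintegral_congr_ae ?_
      filter_upwards [h] with x hx
      rw [hx]; simp
    rw [this]; simp

theorem final (hBR : S_BR) (hCOMB : S_COMB) (hMEAS : S_MEAS) (hEXT : S_EXT) (hPC : S_PCONV)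
    (hFAT : S_FAT) (hNA : S_NA) (hNB : S_NB) : S_FINAL := by
  intro lam p hlam hlam2 hp hp2 U hU
  have hp1 : 1 < p := by
    have h1 : 1 ≤ 2 / lam := by rw [le_div_iff₀ (by linarith)]; linarith
    linarith
  have nec : StarB lam p U → IsA p U ∧ IsB (lam * p / 2) U := fun h =>
    ⟨hNA lam p (by linarith) hp1 U hU h, hNB lam p (by linarith) hp1 U hU h⟩
  have main : ¬ (U =ᵐ[volume] 0) → IsA p U ∧ IsB (lam * p / 2) U → Star lam p U := fun hne h =>
    suff hBR hCOMB hMEAS hEXT hPC hFAT hlam hp1 hp2 hU hne h.1 h.2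
  refine ⟨⟨nec, fun h => ?_⟩, fun hne => ⟨fun h => nec (starB_of_star (by linarith) hU h),
    fun h => main hne h⟩⟩
  by_cases hne : U =ᵐ[volume] 0
  · exact (zero_case (r := lam * p / 2) hne).1
  · exact starB_of_star (by linarith) hU (main hne h)

end Pool.Agent.N305.GL
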