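import Pool.Agent.N305.GL.Stm

/-!
# GL/GRAD: the partial derivatives of the Poisson integral
-/

set_option autoImplicit false

open MeasureTheory Set Filter Topology
open scoped ENNReal NNReal

namespace Pool.Agent.N305.GL

/-- comparison of `1 + t²` with the squared distance from a point of the half-plane -/
theorem kb_aux {z y ρ : ℝ} (hy : 0 < y) (_ : 0 ≤ ρ) {s y' : ℝ} (hs : |s - z| ≤ ρ) (hy' : y / 2 ≤ y') (t : ℝ) :
    1 + t ^ 2 ≤ (2 + 4 * (1 + 2 * (|z| + ρ) ^ 2) / y ^ 2) * ((s - t) ^ 2 + y' ^ 2) := by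
  have h1 : s ^ 2 ≤ (|z| + ρ) ^ 2 := by
    rw [← sq_abs s]
    have : |s| ≤ |z| + ρ := by
      calc |s| = |z + (s - z)| := by ring_nf
        _ ≤ |z| + |s - z| := abs_add_le _ _
        _ ≤ _ := by linarith
    gcongr
  have h2 : y ^ 2 / 4 ≤ y' ^ 2 := by nlinarith
  have h3 : y ^ 2 / 4 ≤ (s - t) ^ 2 + y' ^ 2 := by nlinarith [sq_nonneg (s - t)]
  have h4 : 1 + 2 * (|z| + ρ) ^ 2 ≤ 4 * (1 + 2 * (|z| + ρ) ^ 2) / y ^ 2 * ((s - t) ^ 2 + y' ^ 2) := by
    calc 1 + 2 * (|z| + ρ) ^ 2 = 4 * (1 + 2 * (|z| + ρ) ^ 2) / y ^ 2 * (y ^ 2 / 4) := by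
          field_simp
      _ ≤ _ := by gcongr
  nlinarith [sq_nonneg (s - t - (-t)), sq_nonneg (2 * s - t), sq_nonneg y']

theorem PInt.aesm {f : ℝ → ℝ} (hf : PInt f) : AEStronglyMeasurable f volume := by
  have h1 : AEStronglyMeasurable (fun x => f x / (1 + x ^ 2)) volume := hf.1
  have h2 : AEStronglyMeasurable (fun x : ℝ => (1 + x ^ 2)) volume := by
    apply Continuous.aestronglyMeasurable
    fun_prop
  have h3 := h1.mul h2
  have e : (fun x => f x / (1 + x ^ 2) * (1 + x ^ 2)) = f := by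
    ext x
    have : (1 + x ^ 2) ≠ 0 := by positivity
    field_simp
  rw [← e]
  exact h3

/-- integrability against a kernel bounded by `C/(1+t²)` -/
theorem PInt.mul_bdd {f : ℝ → ℝ} (hf : PInt f) {E : Type*} [NormedAddCommGroup E] {g : ℝ → E} {C : ℝ}
    (hm : AEStronglyMeasurable g volume) (hg : ∀ t, ‖g t‖ ≤ C * (|f t| / (1 + t ^ 2))) : Integrable g := by
  have h1 : Integrable (fun t => C * (|f t| / (1 + t ^ 2))) := by
    have h2 := hf.norm.const_mul C
    refine h2.congr (ae_of_all _ fun t => ?_)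
    simp only [norm_div, Real.norm_eq_abs]
    rw [abs_of_pos (show (0:ℝ) < 1 + t ^ 2 by positivity)]
  exact h1.mono' hm (ae_of_all _ hg)

theorem Po_eq (f : ℝ → ℝ) (s y : ℝ) : Po f s y = 1 / Real.pi * ∫ t, y * f t / ((s - t) ^ 2 + y ^ 2) := by
  unfold Po
  congr 1
  have := integral_sub_left_eq_self (fun t => y * f t / ((s - t) ^ 2 + y ^ 2)) volume s
  rw [← this]
  congr 1
  ext x
  simp

theorem im_pos_ne {z y : ℝ} (hy : 0 < y) (t : ℝ) : ((⟨z, y⟩ : ℂ) - (t : ℂ)) ≠ 0 := by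
  intro h
  have := congrArg Complex.im h
  simp at this
  linarith

theorem inv_sq_re {z y : ℝ} (a t : ℝ) : ((a : ℂ) / ((⟨z, y⟩ : ℂ) - (t : ℂ)) ^ 2).re =
    a * ((z - t) ^ 2 - y ^ 2) / ((z - t) ^ 2 + y ^ 2) ^ 2 := by
  rw [Complex.div_re]
  have e1 : (((⟨z, y⟩ : ℂ) - (t : ℂ)) ^ 2).re = (z - t) ^ 2 - y ^ 2 := by
    rw [sq, Complex.mul_re]
    simp
    ring
  have e2 : Complex.normSq (((⟨z, y⟩ : ℂ) - (t : ℂ)) ^ 2) = ((z - t) ^ 2 + y ^ 2) ^ 2 := by
    rw [map_pow, Complex.normSq_apply]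
    simp
    ring
  rw [e1, e2]
  simp

theorem inv_sq_im {z y : ℝ} (a t : ℝ) : ((a : ℂ) / ((⟨z, y⟩ : ℂ) - (t : ℂ)) ^ 2).im =
    a * (-(2 * y * (z - t))) / ((z - t) ^ 2 + y ^ 2) ^ 2 := by
  rw [Complex.div_im]
  have e1 : (((⟨z, y⟩ : ℂ) - (t : ℂ)) ^ 2).im = 2 * y * (z - t) := by
    rw [sq, Complex.mul_im]
    simp
    ring
  have e2 : Complex.normSq (((⟨z, y⟩ : ℂ) - (t : ℂ)) ^ 2) = ((z - t) ^ 2 + y ^ 2) ^ 2 := by
    rw [map_pow, Complex.normSq_apply]
    simp
    ring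
  rw [e1, e2]
  simp
  ring

theorem norm_sub_sq {z y : ℝ} (t : ℝ) : ‖((⟨z, y⟩ : ℂ) - (t : ℂ))‖ ^ 2 = (z - t) ^ 2 + y ^ 2 := by
  rw [Complex.sq_norm, Complex.normSq_apply]
  simp
  ring

theorem Hh_integrable {f : ℝ → ℝ} (hf : PInt f) {z y : ℝ} (hy : 0 < y) :
    Integrable (fun t : ℝ => (f t : ℂ) / ((⟨z, y⟩ : ℂ) - (t : ℂ)) ^ 2) := by
  refine hf.mul_bdd (C := 2 + 4 * (1 + 2 * (|z| + 0) ^ 2) / y ^ 2) ?_ ?_
  · have h1 : AEStronglyMeasurable (fun t : ℝ => (f t : ℂ)) volume :=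
      Complex.continuous_ofReal.comp_aestronglyMeasurable hf.aesm
    have h2 : AEStronglyMeasurable (fun t : ℝ => (((⟨z, y⟩ : ℂ) - (t : ℂ)) ^ 2)⁻¹) volume := by
      apply Continuous.aestronglyMeasurable
      apply Continuous.inv₀
      · fun_prop
      · intro t
        exact pow_ne_zero _ (im_pos_ne hy t)
    refine (h1.mul h2).congr (ae_of_all _ fun t => ?_)
    simp only [Pi.mul_apply, div_eq_mul_inv]
  · intro t
    have h1 := kb_aux (z := z) hy le_rfl (s := z) (y' := y) (by simp) (by linarith) t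
    rw [norm_div, norm_pow, norm_sub_sq, Complex.norm_real, Real.norm_eq_abs]
    have h2 : 0 < (z - t) ^ 2 + y ^ 2 := by positivity
    rw [div_le_iff₀ h2]
    have h3 : 0 < 1 + t ^ 2 := by positivity
    calc |f t| = |f t| / (1 + t ^ 2) * (1 + t ^ 2) := by field_simp
      _ ≤ |f t| / (1 + t ^ 2) * ((2 + 4 * (1 + 2 * (|z| + 0) ^ 2) / y ^ 2) * ((z - t) ^ 2 + y ^ 2)) := by
          gcongr
      _ = _ := by ring

theorem Hh_re {f : ℝ → ℝ} (hf : PInt f) {z y : ℝ} (hy : 0 < y) : (Hh f ⟨z, y⟩).re =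
    1 / Real.pi * ∫ t, f t * ((z - t) ^ 2 - y ^ 2) / ((z - t) ^ 2 + y ^ 2) ^ 2 := by
  unfold Hh
  have e : (1 / (Real.pi : ℂ)) = ((1 / Real.pi : ℝ) : ℂ) := by push_cast; rfl
  rw [e, Complex.re_ofReal_mul]
  congr 1
  have := integral_re (𝕜 := ℂ) (Hh_integrable hf (z := z) hy)
  simp only [RCLike.re_eq_complex_re] at this
  rw [← this]
  congr 1
  ext t
  exact inv_sq_re _ _

theorem Hh_im {f : ℝ → ℝ} (hf : PInt f) {z y : ℝ} (hy : 0 < y) : (Hh f ⟨z, y⟩).im =
    1 / Real.pi * ∫ t, f t * (-(2 * y * (z - t))) / ((z - t) ^ 2 + y ^ 2) ^ 2 := by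
  unfold Hh
  have e : (1 / (Real.pi : ℂ)) = ((1 / Real.pi : ℝ) : ℂ) := by push_cast; rfl
  rw [e, Complex.im_ofReal_mul]
  congr 1
  have := integral_im (𝕜 := ℂ) (Hh_integrable hf (z := z) hy)
  simp only [RCLike.im_eq_complex_im] at this
  rw [← this]
  congr 1
  ext t
  exact inv_sq_im _ _

theorem grad : S_GRAD := by
  intro f hf z y hy
  have hfm := hf.aesm
  constructor
  · rw [Hh_im hf hy]
    have e : (fun s => Po f s y) = fun s => 1 / Real.pi * ∫ t, y * f t / ((s - t) ^ 2 + y ^ 2) := by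
      ext s
      exact Po_eq f s y
    rw [e]
    apply HasDerivAt.const_mul
    have hmeas : ∀ s : ℝ, AEStronglyMeasurable (fun t => y * f t / ((s - t) ^ 2 + y ^ 2)) volume := by
      intro s
      have h2 : AEStronglyMeasurable (fun t : ℝ => y * ((s - t) ^ 2 + y ^ 2)⁻¹) volume := by
        apply Continuous.aestronglyMeasurable
        apply Continuous.mul continuous_const
        apply Continuous.inv₀
        · fun_prop
        · intro t
          positivity
      have h3 := hfm.mul h2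
      refine h3.congr (ae_of_all _ fun t => ?_)
      simp only [Pi.mul_apply]
      ring
    refine (hasDerivAt_integral_of_dominated_loc_of_deriv_le (𝕜 := ℝ) (s := Metric.closedBall z 1)
      (bound := fun t => (2 + 4 * (1 + 2 * (|z| + 1) ^ 2) / y ^ 2) * (|f t| / (1 + t ^ 2)))
      (F' := fun s t => f t * (-(2 * y * (s - t))) / ((s - t) ^ 2 + y ^ 2) ^ 2)
      (Metric.closedBall_mem_nhds z one_pos) (Eventually.of_forall hmeas) ?_ ?_ ?_ ?_ ?_).2
    · refine hf.mul_bdd (C := y * (2 + 4 * (1 + 2 * (|z| + 0) ^ 2) / y ^ 2)) (hmeas z) ?_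
      intro t
      have h1 := kb_aux (z := z) hy le_rfl (s := z) (y' := y) (by simp) (by linarith) t
      have h2 : 0 < (z - t) ^ 2 + y ^ 2 := by positivity
      rw [norm_div, norm_mul, Real.norm_eq_abs, Real.norm_eq_abs, Real.norm_eq_abs, abs_of_pos hy,
        abs_of_pos h2, div_le_iff₀ h2]
      have h3 : 0 < 1 + t ^ 2 := by positivity
      calc y * |f t| = y * (|f t| / (1 + t ^ 2) * (1 + t ^ 2)) := by field_simp
        _ ≤ y * (|f t| / (1 + t ^ 2) * ((2 + 4 * (1 + 2 * (|z| + 0) ^ 2) / y ^ 2) * ((z - t) ^ 2 + y ^ 2))) := by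
            gcongr
        _ = _ := by ring
    · have h2 : AEStronglyMeasurable (fun t : ℝ => (-(2 * y * (z - t))) * (((z - t) ^ 2 + y ^ 2) ^ 2)⁻¹) volume := by
        apply Continuous.aestronglyMeasurable
        apply Continuous.mul (by fun_prop)
        apply Continuous.inv₀
        · fun_prop
        · intro t
          positivity
      have h3 := hfm.mul h2
      refine h3.congr (ae_of_all _ fun t => ?_)
      simp only [Pi.mul_apply]
      ring
    · refine ae_of_all _ fun t s hs => ?_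
      rw [Metric.mem_closedBall, Real.dist_eq] at hs
      have h1 := kb_aux (z := z) hy zero_le_one (s := s) (y' := y) hs (by linarith) t
      have h2 : 0 < (s - t) ^ 2 + y ^ 2 := by positivity
      rw [norm_div, norm_mul, Real.norm_eq_abs, Real.norm_eq_abs, Real.norm_eq_abs, abs_neg,
        abs_of_pos (pow_pos h2 2), div_le_iff₀ (pow_pos h2 2)]
      have h3 : 0 < 1 + t ^ 2 := by positivity
      have h4 : |2 * y * (s - t)| ≤ (s - t) ^ 2 + y ^ 2 := by
        rw [abs_le]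
        constructor <;> nlinarith [sq_nonneg (s - t + y), sq_nonneg (s - t - y)]
      calc |f t| * |2 * y * (s - t)| ≤ |f t| * ((s - t) ^ 2 + y ^ 2) := by gcongr
        _ = |f t| / (1 + t ^ 2) * (1 + t ^ 2) * ((s - t) ^ 2 + y ^ 2) := by field_simp
        _ ≤ |f t| / (1 + t ^ 2) * ((2 + 4 * (1 + 2 * (|z| + 1) ^ 2) / y ^ 2) * ((s - t) ^ 2 + y ^ 2)) *
            ((s - t) ^ 2 + y ^ 2) := by gcongr
        _ = _ := by ring
    · have := hf.norm.const_mul (2 + 4 * (1 + 2 * (|z| + 1) ^ 2) / y ^ 2)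
      refine this.congr (ae_of_all _ fun t => ?_)
      simp only [norm_div, Real.norm_eq_abs]
      rw [abs_of_pos (show (0:ℝ) < 1 + t ^ 2 by positivity)]
    · refine ae_of_all _ fun t s _ => ?_
      have h2 : (s - t) ^ 2 + y ^ 2 ≠ 0 := by positivity
      have d1 : HasDerivAt (fun s : ℝ => (s - t) ^ 2 + y ^ 2) (2 * (s - t)) s := by
        have := (((hasDerivAt_id s).sub_const t).pow 2).add_const (y ^ 2)
        simpa using this
      have d2 := (hasDerivAt_const s (y * f t)).fun_div d1 h2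
      exact d2.congr_deriv (by ring)
  · rw [Hh_re hf hy]
    have e : (fun s => Po f z s) = fun s => 1 / Real.pi * ∫ t, s * f t / ((z - t) ^ 2 + s ^ 2) := by
      ext s
      exact Po_eq f z s
    rw [e]
    apply HasDerivAt.const_mul
    have hmeas : ∀ s : ℝ, AEStronglyMeasurable (fun t => s * f t / ((z - t) ^ 2 + s ^ 2)) volume := by
      intro s
      have h2 : AEStronglyMeasurable (fun t : ℝ => s * ((z - t) ^ 2 + s ^ 2)⁻¹) volume := by
        apply Measurable.aestronglyMeasurable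
        fun_prop
      have h3 := hfm.mul h2
      refine h3.congr (ae_of_all _ fun t => ?_)
      simp only [Pi.mul_apply]
      ring
    refine (hasDerivAt_integral_of_dominated_loc_of_deriv_le (𝕜 := ℝ) (s := Metric.closedBall y (y / 2))
      (bound := fun t => (2 + 4 * (1 + 2 * (|z| + 0) ^ 2) / y ^ 2) * (|f t| / (1 + t ^ 2)))
      (F' := fun s t => f t * ((z - t) ^ 2 - s ^ 2) / ((z - t) ^ 2 + s ^ 2) ^ 2)
      (Metric.closedBall_mem_nhds y (by positivity)) (Eventually.of_forall hmeas) ?_ ?_ ?_ ?_ ?_).2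
    · refine hf.mul_bdd (C := y * (2 + 4 * (1 + 2 * (|z| + 0) ^ 2) / y ^ 2)) (hmeas y) ?_
      intro t
      have h1 := kb_aux (z := z) hy le_rfl (s := z) (y' := y) (by simp) (by linarith) t
      have h2 : 0 < (z - t) ^ 2 + y ^ 2 := by positivity
      rw [norm_div, norm_mul, Real.norm_eq_abs, Real.norm_eq_abs, Real.norm_eq_abs, abs_of_pos hy,
        abs_of_pos h2, div_le_iff₀ h2]
      have h3 : 0 < 1 + t ^ 2 := by positivity
      calc y * |f t| = y * (|f t| / (1 + t ^ 2) * (1 + t ^ 2)) := by field_simp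
        _ ≤ y * (|f t| / (1 + t ^ 2) * ((2 + 4 * (1 + 2 * (|z| + 0) ^ 2) / y ^ 2) * ((z - t) ^ 2 + y ^ 2))) := by
            gcongr
        _ = _ := by ring
    · have h2 : AEStronglyMeasurable (fun t : ℝ => ((z - t) ^ 2 - y ^ 2) * (((z - t) ^ 2 + y ^ 2) ^ 2)⁻¹) volume := by
        apply Measurable.aestronglyMeasurable
        fun_prop
      have h3 := hfm.mul h2
      refine h3.congr (ae_of_all _ fun t => ?_)
      simp only [Pi.mul_apply]
      ring
    · refine ae_of_all _ fun t s hs => ?_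
      rw [Metric.mem_closedBall, Real.dist_eq] at hs
      have hs' := abs_le.1 hs
      have hs0 : 0 < s := by linarith
      have h1 := kb_aux (z := z) hy le_rfl (s := z) (y' := s) (by simp) (by linarith) t
      have h2 : 0 < (z - t) ^ 2 + s ^ 2 := by positivity
      rw [norm_div, norm_mul, Real.norm_eq_abs, Real.norm_eq_abs, Real.norm_eq_abs,
        abs_of_pos (pow_pos h2 2), div_le_iff₀ (pow_pos h2 2)]
      have h3 : 0 < 1 + t ^ 2 := by positivity
      have h4 : |(z - t) ^ 2 - s ^ 2| ≤ (z - t) ^ 2 + s ^ 2 := by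
        rw [abs_le]
        constructor <;> nlinarith [sq_nonneg (z - t), sq_nonneg s]
      calc |f t| * |(z - t) ^ 2 - s ^ 2| ≤ |f t| * ((z - t) ^ 2 + s ^ 2) := by gcongr
        _ = |f t| / (1 + t ^ 2) * (1 + t ^ 2) * ((z - t) ^ 2 + s ^ 2) := by field_simp
        _ ≤ |f t| / (1 + t ^ 2) * ((2 + 4 * (1 + 2 * (|z| + 0) ^ 2) / y ^ 2) * ((z - t) ^ 2 + s ^ 2)) *
            ((z - t) ^ 2 + s ^ 2) := by gcongr
        _ = _ := by ring
    · have := hf.norm.const_mul (2 + 4 * (1 + 2 * (|z| + 0) ^ 2) / y ^ 2)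
      refine this.congr (ae_of_all _ fun t => ?_)
      simp only [norm_div, Real.norm_eq_abs]
      rw [abs_of_pos (show (0:ℝ) < 1 + t ^ 2 by positivity)]
    · refine ae_of_all _ fun t s hs => ?_
      rw [Metric.mem_closedBall, Real.dist_eq] at hs
      have hs' := abs_le.1 hs
      have hs0 : 0 < s := by linarith
      have h2 : (z - t) ^ 2 + s ^ 2 ≠ 0 := by positivity
      have d1 : HasDerivAt (fun s : ℝ => (z - t) ^ 2 + s ^ 2) (2 * s) s := by
        have := ((hasDerivAt_id s).pow 2).const_add ((z - t) ^ 2)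
        simpa using this
      have d0 : HasDerivAt (fun s : ℝ => s * f t) (f t) s := by
        simpa using (hasDerivAt_id s).mul_const (f t)
      have d2 := d0.fun_div d1 h2
      exact d2.congr_deriv (by ring)

end Pool.Agent.N305.GL
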