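import Pool.Agent.N305.GL.Stm

/-!
# GL/GREEN: the Green identity with tent functions for a bounded subharmonic function
-/

set_option autoImplicit false

open MeasureTheory Set Filter Topology
open scoped ENNReal NNReal

namespace Pool.Agent.N305.GL

namespace Green

/-- tent in `y` -/
noncomputable def et (e R y : ℝ) : ℝ := max 0 (min (y - e) (2 * R - e - y))

/-- tent in `z` -/
noncomputable def ph (S z : ℝ) : ℝ := max 0 (min 1 (2 - |z| / S))

theorem et_cont (e R : ℝ) : Continuous (et e R) := by
  unfold et; fun_prop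

theorem ph_cont (S : ℝ) : Continuous (ph S) := by
  unfold ph; fun_prop

theorem et_nonneg (e R y : ℝ) : 0 ≤ et e R y := le_max_left _ _

theorem ph_nonneg (S z : ℝ) : 0 ≤ ph S z := le_max_left _ _

theorem ph_le_one (S z : ℝ) : ph S z ≤ 1 := by
  unfold ph
  exact max_le zero_le_one (min_le_left _ _)

theorem et_le {e R y : ℝ} (he : e ≤ R) : et e R y ≤ R - e := by
  unfold et
  refine max_le (by linarith) ?_
  rcases le_total y R with h | h
  · exact (min_le_left _ _).trans (by linarith)
  · exact (min_le_right _ _).trans (by linarith)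

theorem et_eq_zero {e R y : ℝ} (h : y ≤ e ∨ 2 * R - e ≤ y) : et e R y = 0 := by
  unfold et
  apply max_eq_left
  rcases h with h | h
  · exact (min_le_left _ _).trans (by linarith)
  · exact (min_le_right _ _).trans (by linarith)

theorem ph_eq_zero {S z : ℝ} (hS : 0 < S) (h : z ≤ -(2 * S) ∨ 2 * S ≤ z) : ph S z = 0 := by
  unfold ph
  apply max_eq_left
  refine (min_le_right _ _).trans ?_
  have h1 : 2 * S ≤ |z| := by
    rcases h with h | h
    · exact (by linarith : 2 * S ≤ -z).trans (neg_le_abs z)
    · exact h.trans (le_abs_self z)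
  have h2 : 2 ≤ |z| / S := by
    rw [le_div_iff₀ hS]; exact h1
  linarith

/-- the `y`-direction -/
theorem tentY (g g1 g2 : ℝ → ℝ) (e R : ℝ) (he : 0 < e) (hR : e < R)
    (h1 : ∀ y, 0 < y → HasDerivAt g (g1 y) y) (h2 : ∀ y, 0 < y → HasDerivAt g1 (g2 y) y)
    (hc : ContinuousOn g2 (Ioi 0)) :
    ∫ y in e..(2 * R - e), et e R y * g2 y = g e + g (2 * R - e) - 2 * g R := by
  have hs1 : uIcc e R ⊆ Ioi 0 := by
    rw [uIcc_of_le hR.le]
    intro x hx
    exact lt_of_lt_of_le he hx.1
  have hs2 : uIcc R (2 * R - e) ⊆ Ioi 0 := by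
    rw [uIcc_of_le (by linarith)]
    intro x hx
    exact lt_of_lt_of_le (he.trans hR) hx.1
  have hi1 : IntervalIntegrable (fun y => et e R y * g2 y) volume e R :=
    ((et_cont e R).continuousOn.mul (hc.mono hs1)).intervalIntegrable
  have hi2 : IntervalIntegrable (fun y => et e R y * g2 y) volume R (2 * R - e) :=
    ((et_cont e R).continuousOn.mul (hc.mono hs2)).intervalIntegrable
  rw [← intervalIntegral.integral_add_adjacent_intervals hi1 hi2]
  have e1 : ∫ y in e..R, et e R y * g2 y = ((R - e) * g1 R - g R) - ((e - e) * g1 e - g e) := by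
    have hcg : ∫ y in e..R, et e R y * g2 y = ∫ y in e..R, (y - e) * g2 y := by
      apply intervalIntegral.integral_congr
      intro y hy
      rw [uIcc_of_le hR.le] at hy
      have : et e R y = y - e := by
        unfold et
        rw [min_eq_left (by linarith [hy.2]), max_eq_right (by linarith [hy.1])]
      simp only [this]
    rw [hcg]
    apply intervalIntegral.integral_eq_sub_of_hasDerivAt
      (f := fun y => (y - e) * g1 y - g y)
    · intro y hy
      have hy0 : 0 < y := hs1 hy
      have := (((hasDerivAt_id y).sub_const e).mul (h2 y hy0)).sub (h1 y hy0)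
      refine HasDerivAt.congr_deriv this ?_
      simp only [id]
      ring
    · exact ((continuous_id.sub continuous_const).continuousOn.mul (hc.mono hs1)).intervalIntegrable
  have e2 : ∫ y in R..(2 * R - e), et e R y * g2 y =
      ((2 * R - e - (2 * R - e)) * g1 (2 * R - e) + g (2 * R - e)) -
        ((2 * R - e - R) * g1 R + g R) := by
    have hcg : ∫ y in R..(2 * R - e), et e R y * g2 y =
        ∫ y in R..(2 * R - e), (2 * R - e - y) * g2 y := by
      apply intervalIntegral.integral_congr
      intro y hy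
      rw [uIcc_of_le (by linarith)] at hy
      have : et e R y = 2 * R - e - y := by
        unfold et
        rw [min_eq_right (by linarith [hy.1]), max_eq_right (by linarith [hy.2])]
      simp only [this]
    rw [hcg]
    apply intervalIntegral.integral_eq_sub_of_hasDerivAt
      (f := fun y => (2 * R - e - y) * g1 y + g y)
    · intro y hy
      have hy0 : 0 < y := hs2 hy
      have := (((hasDerivAt_id y).const_sub (2 * R - e)).mul (h2 y hy0)).add (h1 y hy0)
      refine HasDerivAt.congr_deriv this ?_
      simp only [id]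
      ring
    · exact ((continuous_const.sub continuous_id).continuousOn.mul (hc.mono hs2)).intervalIntegrable
  rw [e1, e2]
  ring

/-- the `z`-direction -/
theorem tentZ (g g1 g2 : ℝ → ℝ) (S : ℝ) (hS : 0 < S)
    (h1 : ∀ y, HasDerivAt g (g1 y) y) (h2 : ∀ y, HasDerivAt g1 (g2 y) y)
    (hc : Continuous g2) :
    ∫ z in (-(2 * S))..(2 * S), ph S z * g2 z =
      (g (2 * S) - g S - g (-S) + g (-(2 * S))) / S := by
  have hi : ∀ a b : ℝ, IntervalIntegrable (fun z => ph S z * g2 z) volume a b := fun a b =>
    ((ph_cont S).mul hc).intervalIntegrable a b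
  rw [← intervalIntegral.integral_add_adjacent_intervals (hi (-(2 * S)) (-S)) (hi (-S) (2 * S)),
    ← intervalIntegral.integral_add_adjacent_intervals (hi (-S) S) (hi S (2 * S))]
  have e1 : ∫ z in (-(2 * S))..(-S), ph S z * g2 z =
      ((2 * S + -S) * g1 (-S) - g (-S)) / S -
        ((2 * S + -(2 * S)) * g1 (-(2 * S)) - g (-(2 * S))) / S := by
    have hcg : ∫ z in (-(2 * S))..(-S), ph S z * g2 z =
        ∫ z in (-(2 * S))..(-S), (2 * S + z) * g2 z / S := by
      apply intervalIntegral.integral_congr
      intro z hz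
      rw [uIcc_of_le (by linarith)] at hz
      have hz2 : |z| = -z := abs_of_nonpos (by linarith [hz.2])
      have h3 : 1 ≤ -z / S := by rw [le_div_iff₀ hS]; linarith [hz.2]
      have h4 : -z / S ≤ 2 := by rw [div_le_iff₀ hS]; linarith [hz.1]
      have : ph S z = (2 * S + z) / S := by
        unfold ph
        rw [hz2, min_eq_right (by linarith), max_eq_right (by linarith)]
        field_simp
        ring
      simp only [this]
      ring
    rw [hcg]
    apply intervalIntegral.integral_eq_sub_of_hasDerivAt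
      (f := fun z => ((2 * S + z) * g1 z - g z) / S)
    · intro z _
      have := ((((hasDerivAt_id z).const_add (2 * S)).mul (h2 z)).sub (h1 z)).div_const S
      refine HasDerivAt.congr_deriv this ?_
      simp only [id]
      ring
    · apply Continuous.intervalIntegrable; fun_prop
  have e2 : ∫ z in (-S)..S, ph S z * g2 z = g1 S - g1 (-S) := by
    have hcg : ∫ z in (-S)..S, ph S z * g2 z = ∫ z in (-S)..S, g2 z := by
      apply intervalIntegral.integral_congr
      intro z hz
      rw [uIcc_of_le (by linarith)] at hz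
      have h3 : |z| / S ≤ 1 := by rw [div_le_iff₀ hS, one_mul]; exact abs_le.2 hz
      have : ph S z = 1 := by
        unfold ph
        rw [min_eq_left (by linarith), max_eq_right (by norm_num)]
      simp only [this, one_mul]
    rw [hcg]
    exact intervalIntegral.integral_eq_sub_of_hasDerivAt (fun z _ => h2 z)
      (hc.intervalIntegrable _ _)
  have e3 : ∫ z in S..(2 * S), ph S z * g2 z =
      ((2 * S - 2 * S) * g1 (2 * S) + g (2 * S)) / S - ((2 * S - S) * g1 S + g S) / S := by
    have hcg : ∫ z in S..(2 * S), ph S z * g2 z = ∫ z in S..(2 * S), (2 * S - z) * g2 z / S := by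
      apply intervalIntegral.integral_congr
      intro z hz
      rw [uIcc_of_le (by linarith)] at hz
      have hz2 : |z| = z := abs_of_nonneg (by linarith [hz.1])
      have h3 : 1 ≤ z / S := by rw [le_div_iff₀ hS]; linarith [hz.1]
      have h4 : z / S ≤ 2 := by rw [div_le_iff₀ hS]; linarith [hz.2]
      have : ph S z = (2 * S - z) / S := by
        unfold ph
        rw [hz2, min_eq_right (by linarith), max_eq_right (by linarith)]
        field_simp
      simp only [this]
      ring
    rw [hcg]
    apply intervalIntegral.integral_eq_sub_of_hasDerivAt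
      (f := fun z => ((2 * S - z) * g1 z + g z) / S)
    · intro z _
      have := ((((hasDerivAt_id z).const_sub (2 * S)).mul (h2 z)).add (h1 z)).div_const S
      refine HasDerivAt.congr_deriv this ?_
      simp only [id]
      ring
    · apply Continuous.intervalIntegrable; fun_prop
  rw [e1, e2, e3]
  field_simp
  ring

theorem lint_shrink {f : ℝ → ℝ≥0∞} {s t : Set ℝ} (hs : MeasurableSet s) (ht : MeasurableSet t)
    (hst : s ⊆ t) (h0 : ∀ x ∈ t, x ∉ s → f x = 0) : ∫⁻ x in t, f x = ∫⁻ x in s, f x := by
  rw [← lintegral_indicator ht, ← lintegral_indicator hs]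
  apply lintegral_congr
  intro x
  by_cases h1 : x ∈ s
  · rw [indicator_of_mem (hst h1), indicator_of_mem h1]
  · rw [indicator_of_notMem h1]
    by_cases h2 : x ∈ t
    · rw [indicator_of_mem h2, h0 x h2 h1]
    · rw [indicator_of_notMem h2]

theorem key (G Gz Gzz Gy Gyy : ℝ → ℝ → ℝ) (B : ℝ) (N : ℝ≥0)
    (h1 : ∀ z y, 0 < y → HasDerivAt (fun s => G s y) (Gz z y) z)
    (h2 : ∀ z y, 0 < y → HasDerivAt (fun s => Gz s y) (Gzz z y) z)
    (h3 : ∀ z y, 0 < y → HasDerivAt (fun s => G z s) (Gy z y) y)
    (h4 : ∀ z y, 0 < y → HasDerivAt (fun s => Gy z s) (Gyy z y) y)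
    (cz : ContinuousOn (Function.uncurry Gzz) {w : ℝ × ℝ | 0 < w.2})
    (cy : ContinuousOn (Function.uncurry Gyy) {w : ℝ × ℝ | 0 < w.2})
    (hb : ∀ z y, 0 < y → 0 ≤ G z y ∧ G z y ≤ B)
    (hN : ∀ y, 0 < y → ∫⁻ z, ENNReal.ofReal (G z y) ≤ N)
    (hL : ∀ z y, 0 < y → 0 ≤ Gzz z y + Gyy z y)
    (e R S : ℝ) (he : 0 < e) (hR : e < R) (hS : 0 < S) :
    ∫⁻ z : ℝ, ∫⁻ y in Ioi (0:ℝ), ENNReal.ofReal (ph S z * et e R y * (Gzz z y + Gyy z y)) ≤
      2 * N + ENNReal.ofReal (4 * B * R ^ 2 / S) := by
  have hB : 0 ≤ B := (hb 0 1 one_pos).1.trans (hb 0 1 one_pos).2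
  have hR0 : 0 < R := he.trans hR
  have hcd : e ≤ 2 * R - e := by linarith
  have hab : -(2 * S) ≤ 2 * S := by linarith
  -- continuity
  have hsub : Icc (-(2 * S)) (2 * S) ×ˢ Icc e (2 * R - e) ⊆ {w : ℝ × ℝ | 0 < w.2} := by
    rintro ⟨z, y⟩ ⟨_, hy⟩
    exact lt_of_lt_of_le he hy.1
  have hint : ∀ H : ℝ → ℝ → ℝ, ContinuousOn (Function.uncurry H) {w : ℝ × ℝ | 0 < w.2} →
      IntegrableOn (Function.uncurry fun z y => ph S z * (et e R y * H z y))
        (Ioc (-(2 * S)) (2 * S) ×ˢ Ioc e (2 * R - e)) := by
    intro H hH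
    have hc : ContinuousOn (Function.uncurry fun z y => ph S z * (et e R y * H z y))
        (Icc (-(2 * S)) (2 * S) ×ˢ Icc e (2 * R - e)) := by
      have hH' := hH.mono hsub
      have := (((ph_cont S).comp continuous_fst).continuousOn
        (s := Icc (-(2 * S)) (2 * S) ×ˢ Icc e (2 * R - e))).mul
        ((((et_cont e R).comp continuous_snd).continuousOn
        (s := Icc (-(2 * S)) (2 * S) ×ˢ Icc e (2 * R - e))).mul hH')
      exact this
    have hi := hc.integrableOn_compact (μ := volume) (isCompact_Icc.prod isCompact_Icc)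
    exact hi.mono_set (prod_mono Ioc_subset_Icc_self Ioc_subset_Icc_self)
  have hslice : ∀ H : ℝ → ℝ → ℝ, ContinuousOn (Function.uncurry H) {w : ℝ × ℝ | 0 < w.2} →
      ∀ z, ContinuousOn (H z) (Ioi 0) := by
    intro H hH z
    exact hH.comp (f := fun y : ℝ => (z, y)) (by fun_prop) (fun y hy => hy)
  have hslice2 : ∀ H : ℝ → ℝ → ℝ, ContinuousOn (Function.uncurry H) {w : ℝ × ℝ | 0 < w.2} →
      ∀ y, 0 < y → Continuous (fun z => H z y) := by
    intro H hH y hy
    rw [← continuousOn_univ]
    exact hH.comp (f := fun z : ℝ => (z, y)) (by fun_prop) (fun z _ => hy)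
  have hiy : ∀ H : ℝ → ℝ → ℝ, ContinuousOn (Function.uncurry H) {w : ℝ × ℝ | 0 < w.2} →
      ∀ z, IntervalIntegrable (fun y => ph S z * (et e R y * H z y)) volume e (2 * R - e) := by
    intro H hH z
    apply ContinuousOn.intervalIntegrable
    rw [uIcc_of_le hcd]
    refine continuousOn_const.mul ((et_cont e R).continuousOn.mul ((hslice H hH z).mono ?_))
    intro y hy
    exact lt_of_lt_of_le he hy.1
  have hout : ∀ H : ℝ → ℝ → ℝ, ContinuousOn (Function.uncurry H) {w : ℝ × ℝ | 0 < w.2} →
      IntervalIntegrable (fun z => ∫ y in e..(2 * R - e), ph S z * (et e R y * H z y)) volume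
        (-(2 * S)) (2 * S) := by
    intro H hH
    rw [intervalIntegrable_iff_integrableOn_Ioc_of_le hab]
    have hi := hint H hH
    rw [IntegrableOn, Measure.volume_eq_prod, ← Measure.prod_restrict] at hi
    have := hi.integral_prod_left
    refine Integrable.congr this (Eventually.of_forall fun z => ?_)
    simp only [intervalIntegral.integral_of_le hcd, Function.uncurry]
  -- the function I
  set I : ℝ → ℝ := fun z => (∫ y in e..(2 * R - e), ph S z * (et e R y * Gzz z y)) +
    ∫ y in e..(2 * R - e), ph S z * (et e R y * Gyy z y) with hI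
  have inner : ∀ z, ∫⁻ y in Ioi (0:ℝ), ENNReal.ofReal (ph S z * et e R y * (Gzz z y + Gyy z y)) =
      ENNReal.ofReal (I z) := by
    intro z
    rw [lint_shrink (s := Ioc e (2 * R - e)) measurableSet_Ioc measurableSet_Ioi
      (fun y hy => lt_trans he hy.1)]
    · rw [hI]
      simp only
      rw [← intervalIntegral.integral_add (hiy Gzz cz z) (hiy Gyy cy z),
        intervalIntegral.integral_of_le hcd, ofReal_integral_eq_lintegral_ofReal]
      · apply lintegral_congr
        intro y
        congr 1
        ring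
      · exact ((hiy Gzz cz z).add (hiy Gyy cy z)).1
      · refine (ae_restrict_iff' measurableSet_Ioc).2 (Eventually.of_forall fun y hy => ?_)
        have := hL z y (he.trans hy.1)
        have h5 := mul_nonneg (mul_nonneg (ph_nonneg S z) (et_nonneg e R y)) this
        calc (0:ℝ) ≤ _ := h5
          _ = _ := by simp only; ring
    · intro y hy0 hy
      have : et e R y = 0 := by
        apply et_eq_zero
        by_contra hcon
        push Not at hcon
        exact hy ⟨hcon.1, hcon.2.le⟩
      rw [this]; simp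
  have hI0 : ∀ z, z ∉ Ioc (-(2 * S)) (2 * S) → I z = 0 := by
    intro z hz
    have : ph S z = 0 := by
      apply ph_eq_zero hS
      by_contra hcon
      push Not at hcon
      exact hz ⟨hcon.1, hcon.2.le⟩
    rw [hI]
    simp [this]
  have hInn : ∀ z, 0 ≤ I z := by
    intro z
    rw [hI]
    simp only
    rw [← intervalIntegral.integral_add (hiy Gzz cz z) (hiy Gyy cy z)]
    apply intervalIntegral.integral_nonneg hcd
    intro y hy
    have := hL z y (lt_of_lt_of_le he hy.1)
    have h5 := mul_nonneg (mul_nonneg (ph_nonneg S z) (et_nonneg e R y)) this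
    calc (0:ℝ) ≤ _ := h5
      _ = _ := by ring
  have hIi : IntervalIntegrable I volume (-(2 * S)) (2 * S) := (hout Gzz cz).add (hout Gyy cy)
  have outer : ∫⁻ z, ENNReal.ofReal (I z) = ENNReal.ofReal (∫ z in (-(2 * S))..(2 * S), I z) := by
    rw [← setLIntegral_univ, lint_shrink (s := Ioc (-(2 * S)) (2 * S)) measurableSet_Ioc
      MeasurableSet.univ (subset_univ _), intervalIntegral.integral_of_le hab,
      ofReal_integral_eq_lintegral_ofReal hIi.1 (Eventually.of_forall hInn)]
    intro z _ hz
    rw [hI0 z hz, ENNReal.ofReal_zero]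
  rw [lintegral_congr inner, outer]
  -- splitting
  have hsplit : ∫ z in (-(2 * S))..(2 * S), I z =
      (∫ z in (-(2 * S))..(2 * S), ∫ y in e..(2 * R - e), ph S z * (et e R y * Gzz z y)) +
      ∫ z in (-(2 * S))..(2 * S), ∫ y in e..(2 * R - e), ph S z * (et e R y * Gyy z y) := by
    rw [hI, intervalIntegral.integral_add (hout Gzz cz) (hout Gyy cy)]
  -- first term
  have hfirst : (∫ z in (-(2 * S))..(2 * S), ∫ y in e..(2 * R - e),
      ph S z * (et e R y * Gzz z y)) ≤ 4 * B * R ^ 2 / S := by
    rw [intervalIntegral_intervalIntegral_swap]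
    · refine (le_abs_self _).trans ?_
      rw [← Real.norm_eq_abs]
      have hbd : ∀ y ∈ uIoc e (2 * R - e),
          ‖∫ z in (-(2 * S))..(2 * S), ph S z * (et e R y * Gzz z y)‖ ≤ R * (2 * B / S) := by
        intro y hy
        rw [uIoc_of_le hcd] at hy
        have hy0 : 0 < y := he.trans hy.1
        have hc1 : ∫ z in (-(2 * S))..(2 * S), ph S z * (et e R y * Gzz z y) =
            et e R y * ∫ z in (-(2 * S))..(2 * S), ph S z * Gzz z y := by
          rw [← intervalIntegral.integral_const_mul]
          apply intervalIntegral.integral_congr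
          intro z _
          simp only
          ring
        rw [hc1, tentZ (fun z => G z y) (fun z => Gz z y) (fun z => Gzz z y) S hS
          (fun z => h1 z y hy0) (fun z => h2 z y hy0) (hslice2 Gzz cz y hy0), norm_mul,
          Real.norm_eq_abs, Real.norm_eq_abs, abs_of_nonneg (et_nonneg e R y), abs_div,
          abs_of_pos hS]
        apply mul_le_mul ((et_le hR.le).trans (by linarith)) _ (by positivity) hR0.le
        apply div_le_div_of_nonneg_right _ hS.le
        rw [abs_le]
        have g1 := hb (2 * S) y hy0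
        have g2 := hb S y hy0
        have g3 := hb (-S) y hy0
        have g4 := hb (-(2 * S)) y hy0
        constructor <;> linarith [g1.1, g1.2, g2.1, g2.2, g3.1, g3.2, g4.1, g4.2]
      refine (intervalIntegral.norm_integral_le_of_norm_le_const hbd).trans ?_
      rw [abs_of_nonneg (by linarith)]
      have h6 : 0 ≤ R * (2 * B / S) := by positivity
      calc R * (2 * B / S) * (2 * R - e - e) ≤ R * (2 * B / S) * (2 * R) :=
            mul_le_mul_of_nonneg_left (by linarith) h6
        _ = 4 * B * R ^ 2 / S := by ring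
    · rw [uIoc_of_le hab, uIoc_of_le hcd]
      exact hint Gzz cz
  -- second term
  have hGc : ∀ y, 0 < y → Continuous (fun z => G z y) := fun y hy =>
    continuous_iff_continuousAt.2 fun z => (h1 z y hy).continuousAt
  have hGN : ∀ y, 0 < y → ∫ z in (-(2 * S))..(2 * S), G z y ≤ N := by
    intro y hy
    rw [← ENNReal.ofReal_le_ofReal_iff N.coe_nonneg, ENNReal.ofReal_coe_nnreal,
      intervalIntegral.integral_of_le hab, ofReal_integral_eq_lintegral_ofReal
        ((hGc y hy).intervalIntegrable _ _).1 (Eventually.of_forall fun z => (hb z y hy).1)]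
    exact (setLIntegral_le_lintegral _ _).trans (hN y hy)
  have hsecond : (∫ z in (-(2 * S))..(2 * S), ∫ y in e..(2 * R - e),
      ph S z * (et e R y * Gyy z y)) ≤ 2 * N := by
    have hle : (∫ z in (-(2 * S))..(2 * S), ∫ y in e..(2 * R - e),
        ph S z * (et e R y * Gyy z y)) ≤
        ∫ z in (-(2 * S))..(2 * S), (G z e + G z (2 * R - e)) := by
      apply intervalIntegral.integral_mono_on hab (hout Gyy cy)
        (((hGc e he).add (hGc (2 * R - e) (by linarith))).intervalIntegrable _ _)
      intro z _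
      have hc1 : ∫ y in e..(2 * R - e), ph S z * (et e R y * Gyy z y) =
          ph S z * ∫ y in e..(2 * R - e), et e R y * Gyy z y := by
        rw [← intervalIntegral.integral_const_mul]
      rw [hc1, tentY (G z) (Gy z) (Gyy z) e R he hR (h3 z) (h4 z) (hslice Gyy cy z)]
      have g1 := (hb z e he).1
      have g2 := (hb z (2 * R - e) (by linarith)).1
      have g3 := (hb z R hR0).1
      calc ph S z * (G z e + G z (2 * R - e) - 2 * G z R)
          ≤ ph S z * (G z e + G z (2 * R - e)) :=
            mul_le_mul_of_nonneg_left (by linarith) (ph_nonneg S z)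
        _ ≤ 1 * (G z e + G z (2 * R - e)) :=
            mul_le_mul_of_nonneg_right (ph_le_one S z) (by linarith)
        _ = _ := one_mul _
    refine hle.trans ?_
    rw [intervalIntegral.integral_add ((hGc e he).intervalIntegrable _ _)
      ((hGc (2 * R - e) (by linarith)).intervalIntegrable _ _)]
    have a1 := hGN e he
    have a2 := hGN (2 * R - e) (by linarith)
    linarith
  have htot : ∫ z in (-(2 * S))..(2 * S), I z ≤ 2 * N + 4 * B * R ^ 2 / S := by
    rw [hsplit]; linarith
  refine (ENNReal.ofReal_le_ofReal htot).trans (ENNReal.ofReal_add_le.trans ?_)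
  gcongr
  rw [ENNReal.ofReal_mul (by norm_num), ENNReal.ofReal_coe_nnreal]
  simp

/-- parameters -/
noncomputable def eN (n : ℕ) : ℝ := 1 / ((n : ℝ) + 2)
/-- parameters -/
noncomputable def rN (n : ℕ) : ℝ := (n : ℝ) + 1
/-- parameters -/
noncomputable def sN (n : ℕ) : ℝ := ((n : ℝ) + 1) ^ 3

theorem eN_pos (n : ℕ) : 0 < eN n := by unfold eN; positivity
theorem sN_pos (n : ℕ) : 0 < sN n := by unfold sN; positivity
theorem eN_lt (n : ℕ) : eN n < rN n := by
  unfold eN rN
  rw [div_lt_iff₀ (by positivity)]
  have : (0:ℝ) ≤ n := Nat.cast_nonneg n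
  nlinarith

theorem ph_mono {S T z : ℝ} (hS : 0 < S) (hST : S ≤ T) : ph S z ≤ ph T z := by
  unfold ph
  refine max_le_max le_rfl (min_le_min le_rfl ?_)
  have : |z| / T ≤ |z| / S := div_le_div_of_nonneg_left (abs_nonneg z) hS hST
  linarith

theorem et_mono {e e' R R' y : ℝ} (he : e' ≤ e) (hR : R ≤ R') : et e R y ≤ et e' R' y := by
  unfold et
  exact max_le_max le_rfl (min_le_min (by linarith) (by linarith))

theorem sN_mono : Monotone sN := by
  intro m n h
  unfold sN
  have : (m:ℝ) ≤ n := Nat.cast_le.2 h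
  gcongr

theorem rN_mono : Monotone rN := by
  intro m n h
  unfold rN
  have : (m:ℝ) ≤ n := Nat.cast_le.2 h
  linarith

theorem eN_anti : Antitone eN := by
  intro m n h
  unfold eN
  have : (m:ℝ) ≤ n := Nat.cast_le.2 h
  apply div_le_div_of_nonneg_left zero_le_one (by positivity) (by linarith)

theorem tendsto_eN : Tendsto eN atTop (𝓝 0) := by
  have h := tendsto_one_div_add_atTop_nhds_zero_nat (𝕜 := ℝ)
  have h2 := (tendsto_add_atTop_iff_nat 1).2 h
  refine h2.congr fun n => ?_
  unfold eN
  push_cast
  ring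

theorem tendsto_rN : Tendsto rN atTop atTop := by
  unfold rN
  exact tendsto_atTop_add_const_right _ _ tendsto_natCast_atTop_atTop

theorem tendsto_ph (z : ℝ) : Tendsto (fun n => ph (sN n) z) atTop (𝓝 1) := by
  apply tendsto_const_nhds.congr'
  filter_upwards [tendsto_rN.eventually_ge_atTop |z|] with n hn
  have h1 : (1:ℝ) ≤ rN n := by unfold rN; linarith [Nat.cast_nonneg (α := ℝ) n]
  have h2 : |z| ≤ sN n := by
    have : rN n ≤ sN n := by
      show rN n ≤ rN n ^ 3
      calc rN n = rN n * 1 := (mul_one _).symm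
        _ ≤ rN n * rN n ^ 2 := by gcongr; exact one_le_pow₀ h1
        _ = rN n ^ 3 := by ring
    exact hn.trans this
  have h3 : |z| / sN n ≤ 1 := by rw [div_le_iff₀ (sN_pos n), one_mul]; exact h2
  unfold ph
  rw [min_eq_left (by linarith), max_eq_right (by norm_num)]

theorem tendsto_et (y : ℝ) (hy : 0 < y) : Tendsto (fun n => et (eN n) (rN n) y) atTop (𝓝 y) := by
  have h0 : Tendsto (fun n => y - eN n) atTop (𝓝 (y - 0)) := tendsto_const_nhds.sub tendsto_eN
  rw [sub_zero] at h0
  refine h0.congr' ?_
  filter_upwards [tendsto_rN.eventually_ge_atTop y, h0.eventually (lt_mem_nhds hy)] with n hn h2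
  unfold et
  rw [min_eq_left (by linarith), max_eq_right (le_of_lt h2)]

end Green

theorem green : S_GREEN := by
  intro G Gz Gzz Gy Gyy B N h1 h2 h3 h4 cz cy hb hN hL
  have hmeas : ∀ n : ℕ, AEMeasurable (fun w : ℝ × ℝ =>
      ENNReal.ofReal (Green.ph (Green.sN n) w.1 * Green.et (Green.eN n) (Green.rN n) w.2 *
        (Gzz w.1 w.2 + Gyy w.1 w.2))) ((volume : Measure ℝ).prod (volume.restrict (Ioi 0))) := by
    intro n
    have hμ : ((volume : Measure ℝ).prod (volume.restrict (Ioi (0:ℝ)))) =
        (volume : Measure (ℝ × ℝ)).restrict (univ ×ˢ Ioi 0) := by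
      rw [Measure.volume_eq_prod, ← Measure.prod_restrict, Measure.restrict_univ]
    rw [hμ]
    have hset : (univ ×ˢ Ioi (0:ℝ) : Set (ℝ × ℝ)) = {w : ℝ × ℝ | 0 < w.2} := by
      ext ⟨a, b⟩; simp
    rw [hset]
    have hms : MeasurableSet {w : ℝ × ℝ | 0 < w.2} := measurableSet_lt measurable_const measurable_snd
    have hc : ContinuousOn (fun w : ℝ × ℝ =>
      (Green.ph (Green.sN n) w.1 * Green.et (Green.eN n) (Green.rN n) w.2 *
        (Gzz w.1 w.2 + Gyy w.1 w.2))) {w : ℝ × ℝ | 0 < w.2} := by
      have a1 : ContinuousOn (fun w : ℝ × ℝ => Green.ph (Green.sN n) w.1) {w : ℝ × ℝ | 0 < w.2} :=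
        ((Green.ph_cont _).comp continuous_fst).continuousOn
      have a2 : ContinuousOn (fun w : ℝ × ℝ => Green.et (Green.eN n) (Green.rN n) w.2)
          {w : ℝ × ℝ | 0 < w.2} := ((Green.et_cont _ _).comp continuous_snd).continuousOn
      exact (a1.mul a2).mul (cz.add cy)
    exact (hc.aemeasurable hms).ennreal_ofReal
  have inner : ∀ z, Tendsto (fun n => ∫⁻ y in Ioi (0:ℝ), ENNReal.ofReal
      (Green.ph (Green.sN n) z * Green.et (Green.eN n) (Green.rN n) y *
        (Gzz z y + Gyy z y))) atTop
      (𝓝 (∫⁻ y in Ioi (0:ℝ), ENNReal.ofReal (y * (Gzz z y + Gyy z y)))) := by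
    intro z
    apply lintegral_tendsto_of_tendsto_of_monotone
    · intro n
      have hcz : ContinuousOn (fun y => Green.ph (Green.sN n) z *
          Green.et (Green.eN n) (Green.rN n) y * (Gzz z y + Gyy z y)) (Ioi 0) := by
        have b1 : ContinuousOn (fun y => Gzz z y) (Ioi 0) :=
          cz.comp (f := fun y : ℝ => (z, y)) (by fun_prop) (fun y hy => hy)
        have b2 : ContinuousOn (fun y => Gyy z y) (Ioi 0) :=
          cy.comp (f := fun y : ℝ => (z, y)) (by fun_prop) (fun y hy => hy)
        exact (continuousOn_const.mul (Green.et_cont _ _).continuousOn).mul (b1.add b2)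
      exact (hcz.aemeasurable measurableSet_Ioi).ennreal_ofReal
    · refine (ae_restrict_iff' measurableSet_Ioi).2 (Eventually.of_forall fun y hy => ?_)
      intro m n hmn
      apply ENNReal.ofReal_le_ofReal
      apply mul_le_mul_of_nonneg_right _ (hL z y hy)
      exact mul_le_mul (Green.ph_mono (Green.sN_pos m) (Green.sN_mono hmn))
        (Green.et_mono (Green.eN_anti hmn) (Green.rN_mono hmn)) (Green.et_nonneg _ _ _)
        (Green.ph_nonneg _ _)
    · refine (ae_restrict_iff' measurableSet_Ioi).2 (Eventually.of_forall fun y hy => ?_)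
      apply ENNReal.tendsto_ofReal
      apply Tendsto.mul_const
      have := (Green.tendsto_ph z).mul (Green.tendsto_et y hy)
      rwa [one_mul] at this
  have outer : Tendsto (fun n => ∫⁻ z : ℝ, ∫⁻ y in Ioi (0:ℝ), ENNReal.ofReal
      (Green.ph (Green.sN n) z * Green.et (Green.eN n) (Green.rN n) y *
        (Gzz z y + Gyy z y))) atTop
      (𝓝 (∫⁻ z : ℝ, ∫⁻ y in Ioi (0:ℝ), ENNReal.ofReal (y * (Gzz z y + Gyy z y)))) := by
    apply lintegral_tendsto_of_tendsto_of_monotone
    · intro n
      exact (hmeas n).lintegral_prod_right'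
    · refine Eventually.of_forall fun z => ?_
      intro m n hmn
      apply lintegral_mono_ae
      refine (ae_restrict_iff' measurableSet_Ioi).2 (Eventually.of_forall fun y hy => ?_)
      apply ENNReal.ofReal_le_ofReal
      apply mul_le_mul_of_nonneg_right _ (hL z y hy)
      exact mul_le_mul (Green.ph_mono (Green.sN_pos m) (Green.sN_mono hmn))
        (Green.et_mono (Green.eN_anti hmn) (Green.rN_mono hmn)) (Green.et_nonneg _ _ _)
        (Green.ph_nonneg _ _)
    · exact Eventually.of_forall inner
  have hbd : ∀ n : ℕ, ∫⁻ z : ℝ, ∫⁻ y in Ioi (0:ℝ), ENNReal.ofReal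
      (Green.ph (Green.sN n) z * Green.et (Green.eN n) (Green.rN n) y *
        (Gzz z y + Gyy z y)) ≤ 2 * N + ENNReal.ofReal (4 * B * (1 / ((n : ℝ) + 1))) := by
    intro n
    have := Green.key G Gz Gzz Gy Gyy B N h1 h2 h3 h4 cz cy hb hN hL (Green.eN n) (Green.rN n)
      (Green.sN n) (Green.eN_pos n) (Green.eN_lt n) (Green.sN_pos n)
    refine this.trans (le_of_eq ?_)
    congr 2
    unfold Green.rN Green.sN
    have : ((n : ℝ) + 1) ≠ 0 := by positivity
    field_simp
  have hlim : Tendsto (fun n : ℕ => 2 * (N : ℝ≥0∞) + ENNReal.ofReal (4 * B * (1 / ((n : ℝ) + 1))))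
      atTop (𝓝 (2 * (N : ℝ≥0∞) + ENNReal.ofReal (4 * B * 0))) := by
    apply Tendsto.const_add
    apply ENNReal.tendsto_ofReal
    exact (tendsto_one_div_add_atTop_nhds_zero_nat (𝕜 := ℝ)).const_mul _
  have := le_of_tendsto_of_tendsto' outer hlim hbd
  simpa using this

end Pool.Agent.N305.GL
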