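import Pool.Agent.N305.GL.Grad

/-!
# GL/HOL: `H` is holomorphic; measurability of the gradient
-/

set_option autoImplicit false

open MeasureTheory Set Filter Topology
open scoped ENNReal NNReal

namespace Pool.Agent.N305.GL

theorem hol : S_HOL := by
  intro f hf ζ₀ hζ₀
  have hy : 0 < ζ₀.im := hζ₀
  set y := ζ₀.im with hydef
  set z := ζ₀.re with hzdef
  set K : ℝ := 2 + 4 * (1 + 2 * (|z| + y / 2) ^ 2) / y ^ 2 with hK
  have hK0 : 0 < K := by positivity
  apply DifferentiableAt.differentiableWithinAt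
  have hball : ∀ ζ ∈ Metric.closedBall ζ₀ (y / 2), |ζ.re - z| ≤ y / 2 ∧ y / 2 ≤ ζ.im := by
    intro ζ hζ
    rw [Metric.mem_closedBall, dist_eq_norm] at hζ
    have h1 := (Complex.abs_re_le_norm (ζ - ζ₀)).trans hζ
    have h2 := (Complex.abs_im_le_norm (ζ - ζ₀)).trans hζ
    rw [Complex.sub_re] at h1
    rw [Complex.sub_im] at h2
    refine ⟨h1, ?_⟩
    have := (abs_le.1 h2).1
    linarith
  have hne : ∀ ζ : ℂ, 0 < ζ.im → ∀ t : ℝ, ζ - (t : ℂ) ≠ 0 := fun ζ h t => im_pos_ne (z := ζ.re) h t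
  have hfm : AEStronglyMeasurable (fun t : ℝ => (f t : ℂ)) volume :=
    Complex.continuous_ofReal.comp_aestronglyMeasurable hf.aesm
  have hmeas : ∀ ζ : ℂ, AEStronglyMeasurable (fun t : ℝ => (f t : ℂ) / (ζ - t) ^ 2) volume := by
    intro ζ
    have h2 : AEStronglyMeasurable (fun t : ℝ => ((ζ - (t : ℂ)) ^ 2)⁻¹) volume := by
      apply Measurable.aestronglyMeasurable
      fun_prop
    refine (hfm.mul h2).congr (ae_of_all _ fun t => ?_)
    simp only [Pi.mul_apply, div_eq_mul_inv]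
  have key := hasDerivAt_integral_of_dominated_loc_of_deriv_le (𝕜 := ℂ) (μ := (volume : Measure ℝ))
    (F := fun (ζ : ℂ) (t : ℝ) => (f t : ℂ) / (ζ - t) ^ 2)
    (F' := fun (ζ : ℂ) (t : ℝ) => (f t : ℂ) * (-2 / (ζ - t) ^ 3)) (x₀ := ζ₀)
    (s := Metric.closedBall ζ₀ (y / 2))
    (bound := fun t => (4 / y * K) * (|f t| / (1 + t ^ 2)))
    (Metric.closedBall_mem_nhds ζ₀ (by positivity)) (Eventually.of_forall hmeas)
    (Hh_integrable hf (z := z) hy) ?_ ?_ ?_ ?_
  · have h1 := key.2.differentiableAt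
    exact (h1.const_mul (1 / (Real.pi : ℂ)))
  · have h2 : AEStronglyMeasurable (fun t : ℝ => -2 / (ζ₀ - (t : ℂ)) ^ 3) volume := by
      apply Measurable.aestronglyMeasurable
      fun_prop
    exact hfm.mul h2
  · refine ae_of_all _ fun t ζ hζ => ?_
    obtain ⟨h1, h2⟩ := hball ζ hζ
    have him : 0 < ζ.im := by linarith
    have h3 := kb_aux (z := z) hy (ρ := y / 2) (by positivity) (s := ζ.re) (y' := ζ.im) h1 h2 t
    have h4 : ‖ζ - (t : ℂ)‖ ^ 2 = (ζ.re - t) ^ 2 + ζ.im ^ 2 := norm_sub_sq (z := ζ.re) (y := ζ.im) t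
    rw [← h4, ← hK] at h3
    have h5 : y / 2 ≤ ‖ζ - (t : ℂ)‖ := by
      refine le_trans h2 ((le_abs_self _).trans ?_)
      have := Complex.abs_im_le_norm (ζ - (t : ℂ))
      simpa using this
    have hn0 : 0 < ‖ζ - (t : ℂ)‖ := by linarith
    rw [norm_mul, norm_div, norm_neg, norm_pow, Complex.norm_real, Real.norm_eq_abs, Complex.norm_ofNat]
    have h6 : 0 < 1 + t ^ 2 := by positivity
    have h7 : (2 : ℝ) / ‖ζ - (t : ℂ)‖ ^ 3 ≤ 4 / y * K / (1 + t ^ 2) := by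
      rw [div_le_div_iff₀ (pow_pos hn0 3) h6]
      calc 2 * (1 + t ^ 2) ≤ 2 * (K * ‖ζ - (t : ℂ)‖ ^ 2) := by gcongr
        _ = 4 / y * K * (‖ζ - (t : ℂ)‖ ^ 2 * (y / 2)) := by field_simp; ring
        _ ≤ 4 / y * K * (‖ζ - (t : ℂ)‖ ^ 2 * ‖ζ - (t : ℂ)‖) := by gcongr
        _ = _ := by ring
    calc |f t| * (2 / ‖ζ - (t : ℂ)‖ ^ 3) ≤ |f t| * (4 / y * K / (1 + t ^ 2)) := by gcongr
      _ = _ := by ring
  · have := hf.norm.const_mul (4 / y * K)
    refine this.congr (ae_of_all _ fun t => ?_)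
    simp only [norm_div, Real.norm_eq_abs]
    rw [abs_of_pos (show (0:ℝ) < 1 + t ^ 2 by positivity)]
  · refine ae_of_all _ fun t ζ hζ => ?_
    obtain ⟨h1, h2⟩ := hball ζ hζ
    have him : 0 < ζ.im := by linarith
    have hn := hne ζ him t
    have d1 : HasDerivAt (fun w : ℂ => (w - (t : ℂ)) ^ 2) (2 * (ζ - t)) ζ := by
      have := ((hasDerivAt_id ζ).sub_const (t : ℂ)).fun_pow 2
      exact this.congr_deriv (by simp)
    have d2 := (hasDerivAt_const ζ (f t : ℂ)).fun_div d1 (pow_ne_zero 2 hn)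
    refine d2.congr_deriv ?_
    field_simp
    ring

theorem gradSq_eq (h1 : S_GRAD) {f : ℝ → ℝ} (hf : PInt f) {z y : ℝ} (hy : 0 < y) :
    gradSq f z y = ‖Hh f ⟨z, y⟩‖ ^ 2 := by
  obtain ⟨a, b⟩ := h1 f hf z y hy
  unfold gradSq
  rw [a.deriv, b.deriv, Complex.sq_norm, Complex.normSq_apply]
  ring

theorem meas (h1 : S_GRAD) (h2 : S_HOL) : S_MEAS := by
  intro f hf
  refine ⟨?_, fun z y hy => gradSq_eq h1 hf hy⟩
  classical
  have e : Function.uncurry (Fg f) = ({w : ℝ × ℝ | 0 < w.2} : Set (ℝ × ℝ)).piecewise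
      (fun w => ENNReal.ofReal (‖Hh f ⟨w.1, w.2⟩‖ ^ 2)) (fun _ => 0) := by
    ext w
    obtain ⟨z, y⟩ := w
    simp only [Function.uncurry, Fg, Set.piecewise, mem_ofPred_eq]
    split_ifs with h
    · rw [gradSq_eq h1 hf h]
    · rfl
  rw [e]
  apply ContinuousOn.measurable_piecewise
  · apply ENNReal.continuous_ofReal.comp_continuousOn
    apply ContinuousOn.pow
    apply ContinuousOn.norm
    have hc : Continuous (fun w : ℝ × ℝ => (⟨w.1, w.2⟩ : ℂ)) :=
      Complex.equivRealProdCLM.symm.continuous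
    exact (h2 f hf).continuousOn.comp hc.continuousOn (fun w hw => hw)
  · exact continuousOn_const
  · exact measurableSet_lt measurable_const measurable_snd

end Pool.Agent.N305.GL
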