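import Pool.Agent.N305.GL.Stm

/-!
# The two Hölder steps of the extrapolation
-/

set_option autoImplicit false

open MeasureTheory Set Filter Topology
open scoped ENNReal NNReal

namespace Pool.Agent.N305.GL

theorem HoldAux.measurable_WR {p : ℝ} {u R : ℝ → ℝ≥0∞} (hu : Measurable u) (hR : Measurable R) :
    Measurable (WR p u R) := by
  unfold WR
  exact Measurable.ite (hR (measurableSet_singleton ∞)) measurable_const
    (hu.mul (hR.pow_const _))

theorem HoldAux.pt1 {p : ℝ} (hp1 : 1 < p) (hp2 : p < 2) {A u R : ℝ≥0∞} (hu0 : u ≠ 0) (huT : u ≠ ∞)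
    (hR0 : R ≠ 0) (hRT : R ≠ ∞) :
    A ^ (p / 2) * u = (A * (u * R ^ (p - 2))) ^ (p / 2) * (R ^ p * u) ^ (1 - p / 2) := by
  have h1 : 0 ≤ p / 2 := by linarith
  have h2 : 0 ≤ 1 - p / 2 := by linarith
  rw [ENNReal.mul_rpow_of_nonneg _ _ h1, ENNReal.mul_rpow_of_nonneg _ _ h1,
    ENNReal.mul_rpow_of_nonneg _ _ h2, ← ENNReal.rpow_mul, ← ENNReal.rpow_mul]
  have h3 : u ^ (p / 2) * u ^ (1 - p / 2) = u := by
    rw [← ENNReal.rpow_add _ _ hu0 huT]
    have : p / 2 + (1 - p / 2) = 1 := by ring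
    rw [this, ENNReal.rpow_one]
  have h4 : R ^ ((p - 2) * (p / 2)) * R ^ (p * (1 - p / 2)) = 1 := by
    rw [← ENNReal.rpow_add _ _ hR0 hRT]
    have : (p - 2) * (p / 2) + p * (1 - p / 2) = 0 := by ring
    rw [this, ENNReal.rpow_zero]
  calc A ^ (p / 2) * u = A ^ (p / 2) * (u ^ (p / 2) * u ^ (1 - p / 2)) *
        (R ^ ((p - 2) * (p / 2)) * R ^ (p * (1 - p / 2))) := by rw [h3, h4, mul_one]
    _ = _ := by ring

theorem HoldAux.pt2 {p : ℝ} (hp1 : 1 < p) (hp2 : p < 2) {h u R : ℝ≥0∞} (hRT : R ≠ ∞)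
    (hhR : h ≤ R) : h ^ (2 : ℝ) * (u * R ^ (p - 2)) ≤ h ^ p * u := by
  rcases eq_or_ne h 0 with rfl | h0
  · rw [ENNReal.zero_rpow_of_pos two_pos, zero_mul]
    exact zero_le
  · have hT : h ≠ ∞ := fun hT => hRT (top_le_iff.1 (hT ▸ hhR))
    have h1 : R ^ (p - 2) ≤ h ^ (p - 2) := by
      have e1 : p - 2 = -(2 - p) := by ring
      rw [e1, ENNReal.rpow_neg, ENNReal.rpow_neg]
      exact ENNReal.inv_le_inv.2 (ENNReal.rpow_le_rpow hhR (by linarith))
    calc h ^ (2 : ℝ) * (u * R ^ (p - 2)) ≤ h ^ (2 : ℝ) * (u * h ^ (p - 2)) := by gcongr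
      _ = (h ^ (2 : ℝ) * h ^ (p - 2)) * u := by ring
      _ = h ^ p * u := by
        rw [← ENNReal.rpow_add _ _ h0 hT]
        congr 2
        ring

/-- the two Hölder steps of the extrapolation -/
theorem hold : S_HOLD := by
  intro p hp1 hp2 u R A h hu hR hA hh hR0 hRT hhR
  constructor
  · have h1 : ∫⁻ x, A x ^ (p / 2) * u x =
        ∫⁻ x, (A x * WR p u R x) ^ (p / 2) * (R x ^ p * u x) ^ (1 - p / 2) := by
      refine lintegral_congr_ae ?_
      filter_upwards [hRT] with x hx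
      have h2 : WR p u R x = u x * R x ^ (p - 2) := by
        unfold WR
        rw [if_neg hx]
      rw [h2]
      exact HoldAux.pt1 hp1 hp2 (hu.ne0 x) (hu.neT x) (hR0 x) hx
    rw [h1]
    exact ENNReal.lintegral_mul_norm_pow_le
      (hA.mul (HoldAux.measurable_WR hu.meas hR)).aemeasurable
      ((hR.pow_const p).mul hu.meas).aemeasurable (by linarith) (by linarith) (by ring)
  · refine lintegral_mono_ae ?_
    filter_upwards [hRT] with x hx
    have h2 : WR p u R x = u x * R x ^ (p - 2) := by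
      unfold WR
      rw [if_neg hx]
    rw [h2]
    exact HoldAux.pt2 hp1 hp2 hx (hhR x)

end Pool.Agent.N305.GL
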