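import Pool.Agent.N305.GL.Stm

/-!
# GL/MUCK: Muckenhoupt's theorem, by Lerner's proof (helper170 for helper305)
-/

set_option autoImplicit false

open MeasureTheory Set Filter Topology
open scoped ENNReal NNReal

namespace Pool.Agent.N305.GL

namespace Muck

/-- the average over an interval is at most the maximal function -/
lemma avg_le (μ : Measure ℝ) (g : ℝ → ℝ≥0∞) {a b x : ℝ} (h : a < x ∧ x < b) :
    (μ (Ioo a b))⁻¹ * ∫⁻ y in Ioo a b, g y ∂μ ≤ MX μ g x := by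
  unfold MX
  exact le_iSup_of_le a (le_iSup_of_le b (le_iSup_of_le h le_rfl))

/-- the pointwise inequality -/
lemma pointwise {p : ℝ} (hp : 1 < p) {Q : ℝ≥0∞} (hQ : Q ≠ ∞) {u : ℝ → ℝ≥0∞} (hu : Wt u)
    (hA : APc p Q u) {g : ℝ → ℝ≥0∞} (hg : Measurable g) {M1 : ℝ → ℝ≥0∞}
    (hM1 : M1 = MX (volume.withDensity fun x => u x ^ (-1 / (p - 1)))
      (fun t => g t * (u t ^ (-1 / (p - 1)))⁻¹)) (hm : Measurable M1) (x : ℝ) :
    MX volume g x ^ (p - 1) ≤
      Q * MX (volume.withDensity u) (fun y => M1 y ^ (p - 1) * (u y)⁻¹) x := by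
  have hp1 : 0 < p - 1 := by linarith
  set σ : ℝ → ℝ≥0∞ := fun x => u x ^ (-1 / (p - 1)) with hσ
  have Wσ : Wt σ := hu.rpow _
  set H : ℝ → ℝ≥0∞ := fun y => M1 y ^ (p - 1) * (u y)⁻¹ with hH
  have mH : Measurable H := (hm.pow_const _).mul hu.meas.inv
  rw [← ENNReal.le_rpow_inv_iff hp1]
  rw [show MX volume g x = ⨆ a : ℝ, ⨆ b : ℝ, ⨆ (_ : a < x ∧ x < b),
    (volume (Ioo a b))⁻¹ * ∫⁻ y in Ioo a b, g y from rfl]
  refine iSup_le fun a => iSup_le fun b => iSup_le fun hx => ?_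
  rw [ENNReal.le_rpow_inv_iff hp1]
  have hab : a < b := hx.1.trans hx.2
  have hle := avg_le (volume.withDensity u) H hx
  refine le_trans ?_ (show Q * ((volume.withDensity u (Ioo a b))⁻¹ *
    ∫⁻ y in Ioo a b, H y ∂(volume.withDensity u)) ≤ _ by gcongr)
  set V : ℝ≥0∞ := volume (Ioo a b) with hV
  have hV' : V = ENNReal.ofReal (b - a) := by rw [hV, Real.volume_Ioo]
  have V0 : V ≠ 0 := by
    rw [hV']
    exact (ENNReal.ofReal_pos.2 (sub_pos.2 hab)).ne'
  have VT : V ≠ ∞ := by rw [hV']; exact ENNReal.ofReal_ne_top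
  set U : ℝ≥0∞ := ∫⁻ y in Ioo a b, u y with hU
  set S : ℝ≥0∞ := ∫⁻ y in Ioo a b, σ y with hS
  have U0 : U ≠ 0 := hu.lint_pos hab
  have UT : U ≠ ∞ := hA.fin_left hp hQ hu hab
  have S0 : S ≠ 0 := Wσ.lint_pos hab
  have ST : S ≠ ∞ := hA.fin_right hp hQ hu hab
  have e1 : volume.withDensity u (Ioo a b) = U := by
    rw [withDensity_apply _ measurableSet_Ioo]
  have e2 : volume.withDensity σ (Ioo a b) = S := by
    rw [withDensity_apply _ measurableSet_Ioo]
  set N : ℝ≥0∞ := ∫⁻ y in Ioo a b, g y with hN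
  have mG : Measurable fun t => g t * (σ t)⁻¹ := hg.mul Wσ.meas.inv
  have e3 : ∫⁻ y in Ioo a b, g y * (σ y)⁻¹ ∂(volume.withDensity σ) = N := by
    rw [setLIntegral_withDensity_eq_setLIntegral_mul _ Wσ.meas mG measurableSet_Ioo]
    refine lintegral_congr fun y => ?_
    rw [Pi.mul_apply, mul_left_comm, ENNReal.mul_inv_cancel (Wσ.ne0 y) (Wσ.neT y), mul_one]
  set s : ℝ≥0∞ := S⁻¹ * N with hs
  have hsM : ∀ y ∈ Ioo a b, s ≤ M1 y := by
    intro y hy
    have := avg_le (volume.withDensity σ) (fun t => g t * (σ t)⁻¹) (a := a) (b := b) (x := y) hy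
    rw [e2, e3] at this
    rw [hM1]
    exact this
  have e4 : s ^ (p - 1) * V ≤ ∫⁻ y in Ioo a b, H y ∂(volume.withDensity u) := by
    rw [setLIntegral_withDensity_eq_setLIntegral_mul _ hu.meas mH measurableSet_Ioo]
    calc s ^ (p - 1) * V = ∫⁻ _ in Ioo a b, s ^ (p - 1) := by
          rw [setLIntegral_const]
      _ ≤ ∫⁻ y in Ioo a b, (u * H) y := by
          refine setLIntegral_mono' measurableSet_Ioo fun y hy => ?_
          rw [Pi.mul_apply, hH]
          simp only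
          rw [mul_left_comm, ENNReal.mul_inv_cancel (hu.ne0 y) (hu.neT y), mul_one]
          exact ENNReal.rpow_le_rpow (hsM y hy) hp1.le
  rw [e1]
  have hNs : N = S * s := by
    rw [hs, ← mul_assoc, ENNReal.mul_inv_cancel S0 ST, one_mul]
  have hAp := hA a b hab
  rw [← hV'] at hAp
  have hAp' : S ^ (p - 1) ≤ Q * V ^ p * U⁻¹ := by
    rw [← div_eq_mul_inv, ENNReal.le_div_iff_mul_le (Or.inl U0) (Or.inl UT), mul_comm]
    exact hAp
  have hVp : V⁻¹ ^ (p - 1) * V ^ p = V := by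
    rw [ENNReal.inv_rpow, ← ENNReal.rpow_neg, ← ENNReal.rpow_add _ _ V0 VT]
    rw [show -(p - 1) + p = 1 by ring, ENNReal.rpow_one]
  calc (V⁻¹ * N) ^ (p - 1) = V⁻¹ ^ (p - 1) * (S ^ (p - 1) * s ^ (p - 1)) := by
        rw [hNs, ENNReal.mul_rpow_of_nonneg _ _ hp1.le, ENNReal.mul_rpow_of_nonneg _ _ hp1.le]
    _ ≤ V⁻¹ ^ (p - 1) * ((Q * V ^ p * U⁻¹) * s ^ (p - 1)) := by gcongr
    _ = (V⁻¹ ^ (p - 1) * V ^ p) * (Q * (U⁻¹ * s ^ (p - 1))) := by ring
    _ = Q * (U⁻¹ * (s ^ (p - 1) * V)) := by rw [hVp]; ring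
    _ ≤ _ := by gcongr

end Muck

open Muck in
theorem muck (h1 : S_WT) (h2 : S_ST) : S_MUCK := by
  intro p hp Q
  have hp1 : 0 < p - 1 := by linarith
  set q : ℝ := p / (p - 1) with hq
  have hq1 : 1 < q := by
    rw [hq, one_lt_div hp1]
    linarith
  have hq0 : 0 < q := by linarith
  have hpq : (p - 1) * q = p := by rw [hq]; field_simp
  have h1q : 1 - q = -1 / (p - 1) := by rw [hq]; field_simp; ring
  obtain ⟨C1, hC1, H1⟩ := h2 p hp
  obtain ⟨C2, hC2, H2⟩ := h2 q hq1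
  refine ⟨max 1 (Q ^ q * C2 * C1), le_max_left _ _, fun u hu hA g hg => ?_⟩
  have hQT : (Q : ℝ≥0∞) ≠ ∞ := ENNReal.coe_ne_top
  set σ : ℝ → ℝ≥0∞ := fun x => u x ^ (-1 / (p - 1)) with hσ
  have Wσ : Wt σ := hu.rpow _
  have sf1 : SigmaFinite (volume.withDensity u) :=
    SigmaFinite.withDensity_of_ne_top (ae_of_all _ hu.neT)
  have sf2 : SigmaFinite (volume.withDensity σ) :=
    SigmaFinite.withDensity_of_ne_top (ae_of_all _ Wσ.neT)
  set G : ℝ → ℝ≥0∞ := fun t => g t * (σ t)⁻¹ with hG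
  have mG : Measurable G := hg.mul Wσ.meas.inv
  set M1 : ℝ → ℝ≥0∞ := MX (volume.withDensity σ) G with hM1
  have mM1 : Measurable M1 := h1.1 _ _
  set H : ℝ → ℝ≥0∞ := fun y => M1 y ^ (p - 1) * (u y)⁻¹ with hH
  have mH : Measurable H := (mM1.pow_const _).mul hu.meas.inv
  set M2 : ℝ → ℝ≥0∞ := MX (volume.withDensity u) H with hM2
  have mM2 : Measurable M2 := h1.1 _ _
  have mM : Measurable (MX volume g) := h1.1 _ _
  have pw : ∀ x, MX volume g x ^ (p - 1) ≤ Q * M2 x := fun x =>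
    pointwise hp hQT hu hA hg hM1 mM1 x
  have s1 : ∫⁻ x, MX volume g x ^ p * u x ≤ (Q : ℝ≥0∞) ^ q * ∫⁻ x, M2 x ^ q * u x := by
    rw [← lintegral_const_mul _ (show Measurable fun x => M2 x ^ q * u x from
      (mM2.pow_const _).mul hu.meas)]
    refine lintegral_mono fun x => ?_
    calc MX volume g x ^ p * u x = (MX volume g x ^ (p - 1)) ^ q * u x := by
          rw [← ENNReal.rpow_mul, hpq]
      _ ≤ (Q * M2 x) ^ q * u x := by
          gcongr
          exact pw x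
      _ = (Q : ℝ≥0∞) ^ q * (M2 x ^ q * u x) := by
          rw [ENNReal.mul_rpow_of_nonneg _ _ hq0.le, mul_assoc]
  have s2 : ∫⁻ x, M2 x ^ q * u x = ∫⁻ x, M2 x ^ q ∂(volume.withDensity u) := by
    rw [lintegral_withDensity_eq_lintegral_mul _ hu.meas (mM2.pow_const _)]
    exact lintegral_congr fun x => mul_comm _ _
  have s3 : ∫⁻ x, M2 x ^ q ∂(volume.withDensity u) ≤
      C2 * ∫⁻ x, H x ^ q ∂(volume.withDensity u) := H2 (volume.withDensity u) H mH
  have s4 : ∫⁻ x, H x ^ q ∂(volume.withDensity u) = ∫⁻ x, M1 x ^ p ∂(volume.withDensity σ) := by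
    rw [lintegral_withDensity_eq_lintegral_mul _ hu.meas (mH.pow_const _),
      lintegral_withDensity_eq_lintegral_mul _ Wσ.meas (mM1.pow_const _)]
    refine lintegral_congr fun x => ?_
    rw [Pi.mul_apply, Pi.mul_apply, hH]
    simp only
    rw [ENNReal.mul_rpow_of_nonneg _ _ hq0.le, ← ENNReal.rpow_mul, hpq, mul_left_comm]
    rw [mul_comm (σ x)]
    congr 1
    rw [hσ]
    simp only
    rw [ENNReal.inv_rpow, ← ENNReal.rpow_neg]
    nth_rewrite 1 [← ENNReal.rpow_one (u x)]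
    rw [← ENNReal.rpow_add _ _ (hu.ne0 x) (hu.neT x), ← h1q]
    congr 1
  have s5 : ∫⁻ x, M1 x ^ p ∂(volume.withDensity σ) ≤
      C1 * ∫⁻ x, G x ^ p ∂(volume.withDensity σ) := H1 (volume.withDensity σ) G mG
  have s6 : ∫⁻ x, G x ^ p ∂(volume.withDensity σ) = ∫⁻ x, g x ^ p * u x := by
    rw [lintegral_withDensity_eq_lintegral_mul _ Wσ.meas (mG.pow_const _)]
    refine lintegral_congr fun x => ?_
    rw [Pi.mul_apply, hG]
    simp only
    rw [ENNReal.mul_rpow_of_nonneg _ _ (by linarith : (0:ℝ) ≤ p), mul_left_comm]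
    congr 1
    rw [hσ]
    simp only
    rw [ENNReal.inv_rpow, ← ENNReal.rpow_mul, ← ENNReal.rpow_neg,
      ← ENNReal.rpow_add _ _ (hu.ne0 x) (hu.neT x)]
    nth_rewrite 2 [← ENNReal.rpow_one (u x)]
    congr 1
    field_simp
    ring
  calc ∫⁻ x, MX volume g x ^ p * u x ≤ (Q : ℝ≥0∞) ^ q * (C2 * (C1 * ∫⁻ x, g x ^ p * u x)) := by
        refine s1.trans ?_
        rw [s2]
        gcongr
        refine s3.trans ?_
        rw [s4]
        gcongr
        refine s5.trans ?_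
        rw [s6]
    _ = ((Q ^ q * C2 * C1 : ℝ≥0) : ℝ≥0∞) * ∫⁻ x, g x ^ p * u x := by
        rw [ENNReal.coe_mul, ENNReal.coe_mul, ← ENNReal.coe_rpow_of_nonneg _ hq0.le]
        ring
    _ ≤ _ := by
        gcongr
        exact le_max_right _ _

end Pool.Agent.N305.GL
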