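import Pool.Agent.N305.GL.Base

/-!
# Weights for `g_λ^*`: statements of the subtasks
-/

set_option autoImplicit false

open MeasureTheory Set Filter Topology
open scoped ENNReal NNReal

namespace Pool.Agent.N305.GL

/-- GL/BR: self-improvement of `B_r`. -/
def S_BR : Prop := ∀ r : ℝ, 0 < r → ∀ u : ℝ → ℝ≥0∞, Measurable u → Loc u → ∀ C : ℝ≥0,
  (∀ z l : ℝ, 0 < l → ∫⁻ x, ENNReal.ofReal (l ^ r / (l ^ r + |x - z| ^ r)) * u x ≤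
    C * ∫⁻ x in Ioo (z - l / 2) (z + l / 2), u x) →
  ∃ (D : ℝ) (K : ℝ≥0), 0 ≤ D ∧ D < r ∧ 1 ≤ K ∧ Dbl D K u

/-- GL/WT: measurability and weak type (1,1) of the maximal function. -/
def S_WT : Prop := (∀ (μ : Measure ℝ) (g : ℝ → ℝ≥0∞), Measurable (MX μ g)) ∧
  ∀ (μ : Measure ℝ) (g : ℝ → ℝ≥0∞), Measurable g → ∀ t : ℝ≥0∞,
    t * μ {x | t < MX μ g x} ≤ 2 * ∫⁻ x, g x ∂μ

/-- GL/ST: strong type. -/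
def S_ST : Prop := ∀ q : ℝ, 1 < q → ∃ C : ℝ≥0, 1 ≤ C ∧
  ∀ (μ : Measure ℝ) [SigmaFinite μ] (g : ℝ → ℝ≥0∞), Measurable g →
    ∫⁻ x, MX μ g x ^ q ∂μ ≤ C * ∫⁻ x, g x ^ q ∂μ

/-- GL/MUCK: Muckenhoupt's theorem (upper bound). -/
def S_MUCK : Prop := ∀ p : ℝ, 1 < p → ∀ Q : ℝ≥0, ∃ C : ℝ≥0, 1 ≤ C ∧
  ∀ u : ℝ → ℝ≥0∞, Wt u → APc p Q u → ∀ g : ℝ → ℝ≥0∞, Measurable g →
    ∫⁻ x, MX volume g x ^ p * u x ≤ C * ∫⁻ x, g x ^ p * u x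

/-- GL/APE: change of aperture in `L^q(u)`, `q < 1`. -/
def S_APE : Prop := ∀ q : ℝ, 0 < q → q < 1 → ∀ u : ℝ → ℝ≥0∞, Measurable u → Loc u →
  ∀ a : ℝ, 1 ≤ a → ∀ L : ℝ≥0, 1 ≤ L →
  (∀ z y : ℝ, 0 < y → ∫⁻ x in Ioo (z - a * y) (z + a * y), u x ≤
    L * ∫⁻ x in Ioo (z - y) (z + y), u x) →
  ∀ F : ℝ → ℝ → ℝ≥0∞, Measurable (Function.uncurry F) →
    ∫⁻ x, Aa a F x ^ q * u x ≤
      ENNReal.ofReal (4 + 2 * q / (1 - q)) * L * ∫⁻ x, Aa 1 F x ^ q * u x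

/-- GL/SUM: `g_λ^*` by apertures, pointwise. -/
def S_SUM : Prop := ∀ lam : ℝ, 0 < lam → ∀ F : ℝ → ℝ → ℝ≥0∞,
  Measurable (Function.uncurry F) → ∀ x : ℝ,
    ∫⁻ z : ℝ, ∫⁻ y in Ioi (0:ℝ), ENNReal.ofReal ((y / (|x - z| + y)) ^ lam) * F z y ≤
      ∑' k : ℕ, ENNReal.ofReal (2 ^ lam * 2 ^ (-((k:ℝ) * lam))) * Aa (2 ^ k) F x

/-- GL/COMB: `‖g_λ^*‖ ≤ C ‖area integral‖` for doubling weights of order `D < λ q`. -/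
def S_COMB : Prop := ∀ q lam D : ℝ, 0 < q → q < 1 → 0 < lam → 0 ≤ D → D < lam * q →
  ∀ K : ℝ≥0, 1 ≤ K →
  ∃ C : ℝ≥0, ∀ u : ℝ → ℝ≥0∞, Measurable u → Loc u → Dbl D K u →
  ∀ F : ℝ → ℝ → ℝ≥0∞, Measurable (Function.uncurry F) →
    ∫⁻ x, (∫⁻ z : ℝ, ∫⁻ y in Ioi (0:ℝ),
      ENNReal.ofReal ((y / (|x - z| + y)) ^ lam) * F z y) ^ q * u x ≤
      C * ∫⁻ x, Aa 1 F x ^ q * u x

/-- GL/P2: the Poisson form of `A_2`. -/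
def S_P2 : Prop := ∀ Q : ℝ≥0, ∃ Q' : ℝ≥0, 1 ≤ Q' ∧ ∀ u : ℝ → ℝ≥0∞, Wt u → APc 2 Q u →
  ∀ z y : ℝ, 0 < y → PE u z y * PE (fun x => (u x)⁻¹) z y ≤ Q'

/-- GL/AREA -/
def S_AREA : Prop := (∀ u : ℝ → ℝ≥0∞, Measurable u → ∀ z y : ℝ, 0 < y →
    ∫⁻ x in Ioo (z - y) (z + y), u x ≤ ENNReal.ofReal (2 * Real.pi * y) * PE u z y) ∧
  (∀ u : ℝ → ℝ≥0∞, Measurable u → ∀ F : ℝ → ℝ → ℝ≥0∞, Measurable (Function.uncurry F) →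
    ∫⁻ x, Aa 1 F x * u x ≤
      ∫⁻ z : ℝ, ∫⁻ y in Ioi (0:ℝ), F z y * (ENNReal.ofReal (2 * Real.pi * y) * PE u z y)) ∧
  (∀ W : ℝ → ℝ, Measurable W → (∀ x, 0 ≤ W x) → (∃ M, ∀ x, W x ≤ M) → ∀ z y : ℝ, 0 < y →
    ENNReal.ofReal (Po W z y) = PE (fun x => ENNReal.ofReal (W x)) z y)

/-- GL/GRAD: the partial derivatives of the Poisson integral. -/
def S_GRAD : Prop := ∀ f : ℝ → ℝ, PInt f → ∀ z y : ℝ, 0 < y →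
  HasDerivAt (fun s => Po f s y) (Hh f ⟨z, y⟩).im z ∧
  HasDerivAt (fun s => Po f z s) (Hh f ⟨z, y⟩).re y

/-- GL/HOL: `H` is holomorphic on the upper half-plane. -/
def S_HOL : Prop := ∀ f : ℝ → ℝ, PInt f → DifferentiableOn ℂ (Hh f) {ζ : ℂ | 0 < ζ.im}

/-- GL/GREEN -/
def S_GREEN : Prop := ∀ (G Gz Gzz Gy Gyy : ℝ → ℝ → ℝ) (B : ℝ) (N : ℝ≥0),
  (∀ z y, 0 < y → HasDerivAt (fun s => G s y) (Gz z y) z) →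
  (∀ z y, 0 < y → HasDerivAt (fun s => Gz s y) (Gzz z y) z) →
  (∀ z y, 0 < y → HasDerivAt (fun s => G z s) (Gy z y) y) →
  (∀ z y, 0 < y → HasDerivAt (fun s => Gy z s) (Gyy z y) y) →
  ContinuousOn (Function.uncurry Gzz) {w : ℝ × ℝ | 0 < w.2} →
  ContinuousOn (Function.uncurry Gyy) {w : ℝ × ℝ | 0 < w.2} →
  (∀ z y, 0 < y → 0 ≤ G z y ∧ G z y ≤ B) →
  (∀ y, 0 < y → ∫⁻ z, ENNReal.ofReal (G z y) ≤ N) →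
  (∀ z y, 0 < y → 0 ≤ Gzz z y + Gyy z y) →
  ∫⁻ z : ℝ, ∫⁻ y in Ioi (0:ℝ), ENNReal.ofReal (y * (Gzz z y + Gyy z y)) ≤ 2 * N

/-- GL/ALG: the Bellman function (derivatives and the inequality). -/
def S_ALG : Prop :=
  (∀ (x v w x1 v1 w1 : ℝ → ℝ) (s : ℝ), 0 < v s → 0 < w s → 1 ≤ v s * w s →
    HasDerivAt x (x1 s) s → HasDerivAt v (v1 s) s → HasDerivAt w (w1 s) s →
    HasDerivAt (fun t => bG (x t) (v t) (w t)) (bD (x s) (v s) (w s) (x1 s) (v1 s) (w1 s)) s ∧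
    ∀ x2 v2 w2 : ℝ, HasDerivAt x1 x2 s → HasDerivAt v1 v2 s → HasDerivAt w1 w2 s →
      HasDerivAt (fun t => bD (x t) (v t) (w t) (x1 t) (v1 t) (w1 t))
        (bH (x s) (v s) (w s) (x1 s) (v1 s) (w1 s) + bD (x s) (v s) (w s) x2 v2 w2) s) ∧
  (∀ v w : ℝ, 0 < v → 0 < w → 1 ≤ v * w → v ≤ bu v w ∧ bu v w ≤ 2 * v) ∧
  (∀ Q x v w a b c : ℝ, 0 < v → 0 < w → 1 ≤ v * w → v * w ≤ Q →
    w * a ^ 2 ≤ 26 * Q ^ 3 * bH x v w a b c)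

/-- GL/CS: Cauchy-Schwarz facts for Poisson integrals of bounded weights. -/
def S_CS : Prop := ∀ (W : ℝ → ℝ) (c : ℝ), Measurable W → 0 < c → (∀ x, c ≤ W x ∧ W x ≤ 1 / c) →
  ∀ f : ℝ → ℝ, BS f →
  (∀ z y : ℝ, 0 < y →
    (c ≤ Po W z y ∧ Po W z y ≤ 1 / c) ∧
    (c ≤ Po (fun x => 1 / W x) z y ∧ Po (fun x => 1 / W x) z y ≤ 1 / c) ∧
    1 ≤ Po (fun x => 1 / W x) z y * Po W z y ∧
    (Po f z y) ^ 2 ≤ Po (fun x => f x ^ 2 * W x) z y * Po (fun x => 1 / W x) z y ∧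
    0 ≤ Po (fun x => f x ^ 2 * W x) z y) ∧
  (∃ B : ℝ, ∀ z y : ℝ, 0 < y → |Po f z y| ≤ B) ∧
  (∀ y : ℝ, 0 < y → ∫⁻ z, ENNReal.ofReal (Po (fun x => f x ^ 2 * W x) z y) ≤
    ∫⁻ x, ENNReal.ofReal (f x ^ 2 * W x)) ∧
  PInt f ∧ PInt W ∧ PInt (fun x => 1 / W x) ∧
  ∫⁻ x, ENNReal.ofReal (f x ^ 2 * W x) ≠ ∞

/-- GL/BEL: the area integral inequality for bounded `A_2` weights. -/
def S_BEL : Prop := ∀ (W : ℝ → ℝ) (c Q : ℝ), Measurable W → 0 < c →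
  (∀ x, c ≤ W x ∧ W x ≤ 1 / c) →
  (∀ z y : ℝ, 0 < y → Po (fun x => 1 / W x) z y * Po W z y ≤ Q) → ∀ f : ℝ → ℝ, BS f →
    ∫⁻ z : ℝ, ∫⁻ y in Ioi (0:ℝ), ENNReal.ofReal (y * Po W z y * gradSq f z y) ≤
      ENNReal.ofReal (52 * Q ^ 3) * ∫⁻ x, ENNReal.ofReal (f x ^ 2 * W x)

/-- GL/MEAS -/
def S_MEAS : Prop := ∀ f : ℝ → ℝ, PInt f → Measurable (Function.uncurry (Fg f)) ∧
  ∀ z y : ℝ, 0 < y → gradSq f z y = ‖Hh f ⟨z, y⟩‖ ^ 2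

/-- GL/TRUNC: the area integral on `L²(A_2)`. -/
def S_A2 : Prop := ∀ Q : ℝ≥0, ∃ C : ℝ≥0, ∀ u : ℝ → ℝ≥0∞, Wt u → APc 2 Q u →
  ∀ f : ℝ → ℝ, BS f →
    ∫⁻ x, Aa 1 (Fg f) x * u x ≤ C * ∫⁻ x, ENNReal.ofReal |f x| ^ (2:ℝ) * u x

/-- GL/RDF: the Rubio de Francia algorithm. -/
def S_RDF : Prop := ∀ (p : ℝ) (C : ℝ≥0), 1 < p → 1 ≤ C → ∃ K : ℝ≥0, 1 ≤ K ∧
  ∀ u : ℝ → ℝ≥0∞, Wt u →
  (∀ g : ℝ → ℝ≥0∞, Measurable g → ∫⁻ x, MX volume g x ^ p * u x ≤ C * ∫⁻ x, g x ^ p * u x) →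
  ∀ h : ℝ → ℝ≥0∞, Measurable h → ∫⁻ x, h x ^ p * u x ≠ ∞ → ¬ (h =ᵐ[volume] 0) →
  ∃ R : ℝ → ℝ≥0∞, Measurable R ∧ (∀ x, h x ≤ R x) ∧ (∀ x, R x ≠ 0) ∧
    (∀ x, MX volume R x ≤ K * R x) ∧
    ∫⁻ x, R x ^ p * u x ≤ 2 ^ p * ∫⁻ x, h x ^ p * u x

/-- GL/A2W: `u R^{p-2}` is an `A_2` weight. -/
def S_A2W : Prop := ∀ (p : ℝ) (Q K : ℝ≥0), 1 < p → p < 2 → ∀ u : ℝ → ℝ≥0∞, Wt u →
  APc p Q u → ∀ R : ℝ → ℝ≥0∞, Measurable R → (∀ x, R x ≠ 0) → (∀ᵐ x, R x ≠ ∞) →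
  (∀ x, MX volume R x ≤ K * R x) →
  Wt (WR p u R) ∧ APc 2 ((K:ℝ≥0∞) ^ (2 - p) * Q) (WR p u R)

/-- GL/HOLD: the two Hoelder steps of the extrapolation. -/
def S_HOLD : Prop := ∀ p : ℝ, 1 < p → p < 2 → ∀ u R A h : ℝ → ℝ≥0∞, Wt u → Measurable R →
  Measurable A → Measurable h → (∀ x, R x ≠ 0) → (∀ᵐ x, R x ≠ ∞) → (∀ x, h x ≤ R x) →
  (∫⁻ x, A x ^ (p / 2) * u x ≤
    (∫⁻ x, A x * WR p u R x) ^ (p / 2) * (∫⁻ x, R x ^ p * u x) ^ (1 - p / 2)) ∧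
  ∫⁻ x, h x ^ (2:ℝ) * WR p u R x ≤ ∫⁻ x, h x ^ p * u x

/-- GL/EXT: the area integral on `L^p(A_p)`, `1 < p < 2`. -/
def S_EXT : Prop := ∀ p : ℝ, 1 < p → p < 2 → ∀ Q : ℝ≥0, ∃ C : ℝ≥0, ∀ u : ℝ → ℝ≥0∞, Wt u →
  APc p Q u → ∀ f : ℝ → ℝ, BS f →
    ∫⁻ x, Aa 1 (Fg f) x ^ (p / 2) * u x ≤ C * ∫⁻ x, ENNReal.ofReal |f x| ^ p * u x

/-- GL/PCONV: convergence of the Poisson integral on `L^p(A_p)`. -/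
def S_PCONV : Prop := ∀ p : ℝ, 1 < p → ∀ Q : ℝ≥0, ∀ u : ℝ → ℝ≥0∞, Wt u → APc p Q u →
  ∀ f : ℝ → ℝ, Measurable f → ∫⁻ x, ENNReal.ofReal |f x| ^ p * u x ≠ ∞ → PInt f

/-- GL/FAT: passage from bounded functions of bounded support to general functions. -/
def S_FAT : Prop := ∀ lam p : ℝ, 0 < lam → 0 < p → ∀ u : ℝ → ℝ≥0∞, Measurable u →
  ∀ f : ℝ → ℝ, Measurable f → PInt f → ∀ N : ℝ≥0∞,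
  (∀ g : ℝ → ℝ, BS g → (∀ x, |g x| ≤ |f x|) → ∫⁻ x, gStar lam g x ^ p * u x ≤ N) →
  ∫⁻ x, gStar lam f x ^ p * u x ≤ N

/-- GL/NG: pointwise lower bound of `g_λ^*` for nonnegative functions on an interval. -/
def S_NG : Prop := ∀ lam : ℝ, 0 < lam → ∃ c : ℝ, 0 < c ∧ ∀ a b : ℝ, a < b → ∀ f : ℝ → ℝ, BS f →
  (∀ x, 0 ≤ f x) → (∀ x, x ∉ Ioo a b → f x = 0) → ∀ x : ℝ,
    ENNReal.ofReal (c * ((b - a) / ((b - a) + |x - (a + b) / 2|)) ^ (lam / 2) *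
      ((b - a)⁻¹ * ∫ t, f t)) ≤ gStar lam f x

/-- GL/NA: necessity of `A_p`. -/
def S_NA : Prop := ∀ lam p : ℝ, 0 < lam → 1 < p → ∀ U : ℝ → ℝ, IsWeight U → StarB lam p U →
  IsA p U

/-- GL/NB: necessity of `B_{λp/2}`. -/
def S_NB : Prop := ∀ lam p : ℝ, 0 < lam → 1 < p → ∀ U : ℝ → ℝ, IsWeight U → StarB lam p U →
  IsB (lam * p / 2) U

/-- The final theorem. -/
def S_FINAL : Prop := ∀ lam p : ℝ, 1 < lam → lam ≤ 2 → 2 / lam < p → p < 2 → ∀ U : ℝ → ℝ,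
  IsWeight U → (StarB lam p U ↔ IsA p U ∧ IsB (lam * p / 2) U) ∧
    (¬ (U =ᵐ[volume] 0) → (Star lam p U ↔ IsA p U ∧ IsB (lam * p / 2) U))

end Pool.Agent.N305.GL
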