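import Mathlib
import Pool.Agent.N305.GL.Stm

set_option autoImplicit false

/-! GL/NA: necessity of `A_p`. -/

open MeasureTheory Set Filter Topology
open scoped ENNReal NNReal

namespace Pool.Agent.N305.GL

namespace Na_

/-- the test function -/
noncomputable def tf (U : ℝ → ℝ) (s ε a b : ℝ) (x : ℝ) : ℝ :=
  (Ioo a b).indicator (fun x => (U x + ε) ^ (-s)) x

variable {U : ℝ → ℝ} {s ε a b : ℝ}

lemma tf_nonneg (hU : IsWeight U) (hε : 0 < ε) (x : ℝ) : 0 ≤ tf U s ε a b x := by
  unfold tf
  refine indicator_nonneg (fun x _ => ?_) x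
  exact Real.rpow_nonneg (by have := hU.nonneg x; linarith) _

lemma tf_le (hU : IsWeight U) (hs : 0 < s) (hε : 0 < ε) (x : ℝ) :
    tf U s ε a b x ≤ ε ^ (-s) := by
  unfold tf
  refine indicator_apply_le' (fun _ => ?_) (fun _ => Real.rpow_nonneg hε.le _)
  exact Real.rpow_le_rpow_of_nonpos hε (by have := hU.nonneg x; linarith) (by linarith)

lemma tf_meas (hU : IsWeight U) : Measurable (tf U s ε a b) := by
  unfold tf
  exact ((hU.meas.add_const ε).pow_const (-s)).indicator measurableSet_Ioo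

lemma tf_out (x : ℝ) (hx : x ∉ Ioo a b) : tf U s ε a b x = 0 := by
  unfold tf
  exact indicator_of_notMem hx _

lemma tf_BS (hU : IsWeight U) (hs : 0 < s) (hε : 0 < ε) : BS (tf U s ε a b) where
  meas := tf_meas hU
  bd := by
    refine ⟨max (ε ^ (-s)) (max |a| |b|), fun x => ⟨?_, fun hx => ?_⟩⟩
    · rw [abs_of_nonneg (tf_nonneg hU hε x)]
      exact (tf_le hU hs hε x).trans (le_max_left _ _)
    · apply tf_out
      intro hxI
      have h1 : |x| ≤ max |a| |b| := abs_le_max_abs_abs hxI.1.le hxI.2.le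
      have h2 := le_max_right (ε ^ (-s)) (max |a| |b|)
      linarith

lemma tf_int (hU : IsWeight U) (hs : 0 < s) (hε : 0 < ε) : Integrable (tf U s ε a b) := by
  have h1 : Integrable ((Ioo a b).indicator (fun _ : ℝ => ε ^ (-s))) :=
    (integrable_indicator_iff measurableSet_Ioo).2 (integrableOn_const (by simp))
  refine h1.mono (tf_meas hU).aestronglyMeasurable (Filter.Eventually.of_forall fun x => ?_)
  rw [Real.norm_of_nonneg (tf_nonneg hU hε x)]
  by_cases hx : x ∈ Ioo a b
  · rw [indicator_of_mem hx, Real.norm_of_nonneg (Real.rpow_nonneg hε.le _)]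
    exact tf_le hU hs hε x
  · rw [tf_out x hx]
    exact norm_nonneg _

lemma tf_lint (hU : IsWeight U) (hs : 0 < s) (hε : 0 < ε) :
    ENNReal.ofReal (∫ x, tf U s ε a b x) =
      ∫⁻ x in Ioo a b, (ENNReal.ofReal (U x + ε)) ^ (-s) := by
  rw [ofReal_integral_eq_lintegral_ofReal (tf_int hU hs hε)
    (Filter.Eventually.of_forall (tf_nonneg hU hε)), ← lintegral_indicator measurableSet_Ioo]
  congr 1
  ext x
  unfold tf
  by_cases hx : x ∈ Ioo a b
  · rw [indicator_of_mem hx, indicator_of_mem hx, ENNReal.ofReal_rpow_of_pos]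
    have := hU.nonneg x
    linarith
  · rw [indicator_of_notMem hx, indicator_of_notMem hx, ENNReal.ofReal_zero]

end Na_

open Na_

theorem na (h : S_NG) : S_NA := by
  intro lam p hlam hp U hU hS
  obtain ⟨C, hC⟩ := hS
  obtain ⟨c, hc, hNG⟩ := h lam hlam
  set s : ℝ := 1 / (p - 1) with hs_def
  have hp1 : 0 < p - 1 := by linarith
  have hs : 0 < s := by positivity
  set c' : ℝ := c * (2 / 3) ^ (lam / 2) with hc'_def
  have hc' : 0 < c' := by positivity
  refine ⟨C / Real.toNNReal (c' ^ p), fun a b hab => ?_⟩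
  set l : ℝ := b - a with hl_def
  have hl : 0 < l := by simp only [hl_def]; linarith
  set V : ℝ≥0∞ := ∫⁻ x in Ioo a b, ENNReal.ofReal (U x) with hV_def
  have hVfin : V ≠ ∞ := by
    have h1 : IntegrableOn U (Icc a b) := hU.loc.integrableOn_isCompact isCompact_Icc
    have h2 : IntegrableOn U (Ioo a b) := h1.mono_set Ioo_subset_Icc_self
    have h3 := h2.hasFiniteIntegral
    rw [hasFiniteIntegral_iff_ofReal (Filter.Eventually.of_forall hU.nonneg)] at h3
    exact h3.ne
  have hl0 : ENNReal.ofReal l ≠ 0 := (ENNReal.ofReal_pos.2 hl).ne'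
  have hlT : ENNReal.ofReal l ≠ ∞ := ENNReal.ofReal_ne_top
  have hcp0 : ENNReal.ofReal (c' ^ p) ≠ 0 := (ENNReal.ofReal_pos.2 (by positivity)).ne'
  have hexp : -1 / (p - 1) = -s := by rw [hs_def]; ring
  rw [hexp]
  have hK : ((C / Real.toNNReal (c' ^ p) : ℝ≥0) : ℝ≥0∞) = C / ENNReal.ofReal (c' ^ p) := by
    rw [ENNReal.coe_div]
    · rfl
    · intro h0
      exact hcp0 (by rw [ENNReal.ofReal, h0]; rfl)
  rw [hK]
  -- the inequality for `ε > 0`
  have key : ∀ ε : ℝ, 0 < ε →
      V / ENNReal.ofReal l * ((∫⁻ x in Ioo a b, (ENNReal.ofReal (U x + ε)) ^ (-s)) /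
        ENNReal.ofReal l) ^ (p - 1) ≤ C / ENNReal.ofReal (c' ^ p) := by
    intro ε hε
    rw [← tf_lint hU hs hε]
    set J : ℝ := ∫ x, tf U s ε a b x with hJ_def
    have hJ0 : 0 ≤ J := integral_nonneg (tf_nonneg hU hε)
    have hBS := tf_BS (a := a) (b := b) hU hs hε
    have h1 := hC (tf U s ε a b) hBS.meas hBS.bd
    have h2 : nrm p U (tf U s ε a b) ≤ ENNReal.ofReal J := by
      rw [hJ_def, ofReal_integral_eq_lintegral_ofReal (tf_int hU hs hε)
        (Filter.Eventually.of_forall (tf_nonneg hU hε))]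
      refine lintegral_mono fun x => ?_
      rw [abs_of_nonneg (tf_nonneg hU hε x),
        ENNReal.ofReal_rpow_of_nonneg (tf_nonneg hU hε x) (by linarith),
        ← ENNReal.ofReal_mul (Real.rpow_nonneg (tf_nonneg hU hε x) _)]
      apply ENNReal.ofReal_le_ofReal
      by_cases hx : x ∈ Ioo a b
      · have hUx := hU.nonneg x
        have hpos : 0 < U x + ε := by linarith
        simp only [tf, indicator_of_mem hx]
        rw [← Real.rpow_mul hpos.le]
        calc (U x + ε) ^ (-s * p) * U x ≤ (U x + ε) ^ (-s * p) * (U x + ε) := by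
              apply mul_le_mul_of_nonneg_left (by linarith) (Real.rpow_nonneg hpos.le _)
          _ = (U x + ε) ^ (-s * p) * (U x + ε) ^ (1 : ℝ) := by rw [Real.rpow_one]
          _ = (U x + ε) ^ (-s * p + 1) := by rw [← Real.rpow_add hpos]
          _ = (U x + ε) ^ (-s) := by
              congr 1
              rw [hs_def]
              field_simp
              ring
      · rw [tf_out x hx, Real.zero_rpow (by linarith), zero_mul]
    have h3 : ENNReal.ofReal (c' * (l⁻¹ * J)) ^ p * V ≤
        ∫⁻ x, gStar lam (tf U s ε a b) x ^ p * ENNReal.ofReal (U x) := by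
      calc ENNReal.ofReal (c' * (l⁻¹ * J)) ^ p * V
          = ∫⁻ x in Ioo a b, ENNReal.ofReal (c' * (l⁻¹ * J)) ^ p * ENNReal.ofReal (U x) := by
            rw [lintegral_const_mul _ (hU.meas.ennreal_ofReal)]
        _ ≤ ∫⁻ x in Ioo a b, gStar lam (tf U s ε a b) x ^ p * ENNReal.ofReal (U x) := by
            refine setLIntegral_mono' measurableSet_Ioo fun x hx => ?_
            gcongr
            refine le_trans (ENNReal.ofReal_le_ofReal ?_)
              (hNG a b hab _ hBS (tf_nonneg hU hε) (fun x hx => tf_out x hx) x)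
            have habs : |x - (a + b) / 2| ≤ l / 2 := by
              rw [abs_le]
              constructor <;> [have := hx.1; have := hx.2] <;> simp only [hl_def] <;> linarith
            have hfrac : 2 / 3 ≤ (b - a) / ((b - a) + |x - (a + b) / 2|) := by
              rw [← hl_def, div_le_div_iff₀ (by norm_num) (by positivity)]
              linarith
            rw [hc'_def]
            have hJl : 0 ≤ (b - a)⁻¹ * ∫ t, tf U s ε a b t := by
              rw [← hl_def]
              positivity
            refine mul_le_mul_of_nonneg_right ?_ hJl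
            exact mul_le_mul_of_nonneg_left
              (Real.rpow_le_rpow (by norm_num) hfrac (by positivity)) hc.le
        _ ≤ _ := setLIntegral_le_lintegral _ _
    have h4 : ENNReal.ofReal (c' * (l⁻¹ * J)) ^ p * V ≤ C * ENNReal.ofReal J :=
      h3.trans (h1.trans (by gcongr))
    -- divide
    set j : ℝ≥0∞ := ENNReal.ofReal J with hj_def
    have hjT : j ≠ ∞ := ENNReal.ofReal_ne_top
    by_cases hj0 : j = 0
    · rw [hj0, ENNReal.zero_div, ENNReal.zero_rpow_of_pos hp1, mul_zero]
      exact zero_le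
    have h5 : ENNReal.ofReal (c' * (l⁻¹ * J)) = ENNReal.ofReal c' * (j / ENNReal.ofReal l) := by
      rw [ENNReal.ofReal_mul hc'.le, ENNReal.ofReal_mul (inv_nonneg.2 hl.le),
        ENNReal.ofReal_inv_of_pos hl, ENNReal.div_eq_inv_mul]
    rw [h5, ENNReal.mul_rpow_of_nonneg _ _ (by linarith)] at h4
    have h6 : ENNReal.ofReal c' ^ p = ENNReal.ofReal (c' ^ p) :=
      ENNReal.ofReal_rpow_of_pos hc'
    rw [h6] at h4
    set t : ℝ≥0∞ := j / ENNReal.ofReal l with ht_def
    have ht0 : t ≠ 0 := ENNReal.div_ne_zero.2 ⟨hj0, hlT⟩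
    have htT : t ≠ ∞ := ENNReal.div_ne_top hjT hl0
    have h7 : t ^ p = t ^ (p - 1) * t := by
      conv_rhs => rw [← ENNReal.rpow_one t]
      rw [← ENNReal.rpow_mul, one_mul, ← ENNReal.rpow_add _ _ ht0 htT]
      congr 1
      ring
    have h8 : j = t * ENNReal.ofReal l := by
      rw [ht_def, ENNReal.div_mul_cancel hl0 hlT]
    rw [h7] at h4
    have h9 : (V / ENNReal.ofReal l * t ^ (p - 1)) * ENNReal.ofReal (c' ^ p) *
        (t * ENNReal.ofReal l) ≤ C * (t * ENNReal.ofReal l) := by
      calc (V / ENNReal.ofReal l * t ^ (p - 1)) * ENNReal.ofReal (c' ^ p) *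
              (t * ENNReal.ofReal l)
          = (V / ENNReal.ofReal l * ENNReal.ofReal l) *
              (ENNReal.ofReal (c' ^ p) * (t ^ (p - 1) * t)) := by ring
        _ = ENNReal.ofReal (c' ^ p) * (t ^ (p - 1) * t) * V := by
            rw [ENNReal.div_mul_cancel hl0 hlT, mul_comm]
        _ ≤ C * j := h4
        _ = C * (t * ENNReal.ofReal l) := by rw [← h8]
    rw [ENNReal.le_div_iff_mul_le (Or.inl hcp0) (Or.inl ENNReal.ofReal_ne_top)]
    exact (ENNReal.mul_le_mul_iff_left (mul_ne_zero ht0 hl0) (ENNReal.mul_ne_top htT hlT)).1 h9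
  -- the limit
  have hlim : Tendsto (fun n : ℕ => ∫⁻ x in Ioo a b,
      (ENNReal.ofReal (U x + 1 / ((n : ℝ) + 1))) ^ (-s)) atTop
      (𝓝 (∫⁻ x in Ioo a b, ENNReal.ofReal (U x) ^ (-s))) := by
    refine lintegral_tendsto_of_tendsto_of_monotone (fun n => ?_) ?_ ?_
    · exact ((hU.meas.add_const _).ennreal_ofReal.pow_const _).aemeasurable
    · refine Filter.Eventually.of_forall fun x => ?_
      intro n m hnm
      simp only
      rw [ENNReal.rpow_neg, ENNReal.rpow_neg, ENNReal.inv_le_inv]
      refine ENNReal.rpow_le_rpow (ENNReal.ofReal_le_ofReal ?_) hs.le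
      have : 1 / ((m : ℝ) + 1) ≤ 1 / ((n : ℝ) + 1) := by
        apply one_div_le_one_div_of_le (by positivity)
        have : (n : ℝ) ≤ m := by exact_mod_cast hnm
        linarith
      linarith
    · refine Filter.Eventually.of_forall fun x => ?_
      have h1 : Tendsto (fun n : ℕ => U x + 1 / ((n : ℝ) + 1)) atTop (𝓝 (U x + 0)) :=
        tendsto_const_nhds.add tendsto_one_div_add_atTop_nhds_zero_nat
      rw [add_zero] at h1
      exact ((ENNReal.continuous_rpow_const (y := -s)).tendsto _).comp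
        ((ENNReal.continuous_ofReal.tendsto _).comp h1)
  have hlim2 : Tendsto (fun n : ℕ => V / ENNReal.ofReal l * ((∫⁻ x in Ioo a b,
      (ENNReal.ofReal (U x + 1 / ((n : ℝ) + 1))) ^ (-s)) / ENNReal.ofReal l) ^ (p - 1)) atTop
      (𝓝 (V / ENNReal.ofReal l * ((∫⁻ x in Ioo a b, ENNReal.ofReal (U x) ^ (-s)) /
        ENNReal.ofReal l) ^ (p - 1))) := by
    refine ENNReal.Tendsto.const_mul ?_ (Or.inr (ENNReal.div_ne_top hVfin hl0))
    refine ((ENNReal.continuous_rpow_const (y := p - 1)).tendsto _).comp ?_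
    exact ENNReal.Tendsto.div_const hlim (Or.inr hl0)
  exact le_of_tendsto' hlim2 fun n => key _ (by positivity)

end Pool.Agent.N305.GL
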