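import Pool.Agent.N305.GL.Stm

/-!
# Weights for `g_λ^*`: necessity of `B_{λp/2}` (GL/NB, helper768)
-/

set_option autoImplicit false

open MeasureTheory Set Filter Topology
open scoped ENNReal NNReal

namespace Pool.Agent.N305.GL

namespace Nb

theorem bs_ind (a b : ℝ) : BS (indicator (Ioo a b) (fun _ => (1:ℝ))) where
  meas := measurable_const.indicator measurableSet_Ioo
  bd := by
    refine ⟨1 + |a| + |b|, fun x => ⟨?_, fun h => ?_⟩⟩
    · by_cases hx : x ∈ Ioo a b
      · rw [indicator_of_mem hx, abs_one]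
        linarith [abs_nonneg a, abs_nonneg b]
      · rw [indicator_of_notMem hx, abs_zero]
        linarith [abs_nonneg a, abs_nonneg b]
    · refine indicator_of_notMem ?_ _
      rintro ⟨h1, h2⟩
      have h3 : |x| ≤ |a| + |b| := by
        rw [abs_le]
        constructor
        · linarith [neg_abs_le a, abs_nonneg b]
        · linarith [le_abs_self b, abs_nonneg a]
      linarith

theorem nrm_ind {p : ℝ} (hp : 0 < p) (U : ℝ → ℝ) (a b : ℝ) :
    nrm p U (indicator (Ioo a b) (fun _ => (1:ℝ))) = ∫⁻ x in Ioo a b, ENNReal.ofReal (U x) := by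
  rw [← lintegral_indicator measurableSet_Ioo]
  refine lintegral_congr fun x => ?_
  by_cases hx : x ∈ Ioo a b
  · rw [indicator_of_mem hx, indicator_of_mem hx, abs_one, ENNReal.ofReal_one, ENNReal.one_rpow,
      one_mul]
  · rw [indicator_of_notMem hx, indicator_of_notMem hx, abs_zero, ENNReal.ofReal_zero,
      ENNReal.zero_rpow_of_pos hp, zero_mul]

/-- comparison of the two kernels -/
theorem ker_le {r l s : ℝ} (hr : 0 < r) (hl : 0 < l) (hs : 0 ≤ s) :
    l ^ r / (l ^ r + s ^ r) ≤ 2 ^ r * (l / (l + s)) ^ r := by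
  have hls : 0 < l + s := by linarith
  have hlr : 0 < l ^ r := Real.rpow_pos_of_pos hl r
  have hsr : 0 ≤ s ^ r := Real.rpow_nonneg hs r
  have h1 : (l + s) ^ r ≤ 2 ^ r * (l ^ r + s ^ r) := by
    have h2 : l + s ≤ 2 * max l s := by
      linarith [le_max_left l s, le_max_right l s]
    have hm : 0 ≤ max l s := le_trans hl.le (le_max_left _ _)
    calc (l + s) ^ r ≤ (2 * max l s) ^ r := Real.rpow_le_rpow hls.le h2 hr.le
      _ = 2 ^ r * (max l s) ^ r := Real.mul_rpow (by norm_num) hm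
      _ ≤ 2 ^ r * (l ^ r + s ^ r) := by
        refine mul_le_mul_of_nonneg_left ?_ (Real.rpow_nonneg (by norm_num) r)
        rcases max_cases l s with ⟨h, -⟩ | ⟨h, -⟩
        · rw [h]
          linarith
        · rw [h]
          linarith
  rw [Real.div_rpow hl.le hls.le, ← mul_div_assoc, div_le_div_iff₀ (by linarith)
    (Real.rpow_pos_of_pos hls r)]
  calc l ^ r * (l + s) ^ r ≤ l ^ r * (2 ^ r * (l ^ r + s ^ r)) :=
        mul_le_mul_of_nonneg_left h1 hlr.le
    _ = 2 ^ r * l ^ r * (l ^ r + s ^ r) := by ring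

end Nb

open Nb in
theorem nb (h : S_NG) : S_NB := by
  intro lam p hlam hp U hU hS
  obtain ⟨c, hc, hng⟩ := h lam hlam
  obtain ⟨C, hC⟩ := hS
  have hp0 : 0 < p := by linarith
  have hr : 0 < lam * p / 2 := by positivity
  have hcp : 0 < c ^ p := Real.rpow_pos_of_pos hc p
  refine ⟨Real.toNNReal (2 ^ (lam * p / 2) / c ^ p) * C, fun a b hab => ?_⟩
  have hl : 0 < b - a := sub_pos.2 hab
  have hf := bs_ind a b
  have hint : (b - a)⁻¹ * ∫ t, indicator (Ioo a b) (fun _ => (1:ℝ)) t = 1 := by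
    rw [integral_indicator measurableSet_Ioo, setIntegral_const]
    simp only [Measure.real, Real.volume_Ioo, smul_eq_mul, mul_one]
    rw [ENNReal.toReal_ofReal hl.le, inv_mul_cancel₀ hl.ne']
  have hg := hng a b hab _ hf (fun x => indicator_nonneg (fun _ _ => zero_le_one) x)
    (fun x hx => indicator_of_notMem hx _)
  have hmain := hC _ hf.meas hf.bd
  rw [nrm_ind hp0] at hmain
  have hpt : ∀ x, ENNReal.ofReal ((b - a) ^ (lam * p / 2 - 1) * U x /
      ((b - a) ^ (lam * p / 2) + |x - (a + b) / 2| ^ (lam * p / 2))) ≤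
      (ENNReal.ofReal (b - a)⁻¹ * ENNReal.ofReal (2 ^ (lam * p / 2) / c ^ p)) *
        (gStar lam (indicator (Ioo a b) (fun _ => (1:ℝ))) x ^ p * ENNReal.ofReal (U x)) := by
    intro x
    have hs : 0 ≤ |x - (a + b) / 2| := abs_nonneg _
    have h1 := ker_le hr hl hs
    have h2 : 0 ≤ (b - a) / ((b - a) + |x - (a + b) / 2|) := by positivity
    have h3 : ENNReal.ofReal (c ^ p * ((b - a) / ((b - a) + |x - (a + b) / 2|)) ^ (lam * p / 2)) ≤
        gStar lam (indicator (Ioo a b) (fun _ => (1:ℝ))) x ^ p := by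
      have h4 := ENNReal.rpow_le_rpow (hg x) hp0.le
      rw [hint, mul_one, ENNReal.ofReal_rpow_of_nonneg (by positivity) hp0.le,
        Real.mul_rpow hc.le (by positivity), ← Real.rpow_mul h2] at h4
      have h5 : lam / 2 * p = lam * p / 2 := by ring
      rwa [h5] at h4
    calc ENNReal.ofReal ((b - a) ^ (lam * p / 2 - 1) * U x /
          ((b - a) ^ (lam * p / 2) + |x - (a + b) / 2| ^ (lam * p / 2)))
        ≤ ENNReal.ofReal ((b - a)⁻¹ * (2 ^ (lam * p / 2) / c ^ p) *
            (c ^ p * ((b - a) / ((b - a) + |x - (a + b) / 2|)) ^ (lam * p / 2)) * U x) := by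
          refine ENNReal.ofReal_le_ofReal ?_
          have e1 : (b - a) ^ (lam * p / 2 - 1) * U x /
              ((b - a) ^ (lam * p / 2) + |x - (a + b) / 2| ^ (lam * p / 2)) =
              (b - a)⁻¹ * ((b - a) ^ (lam * p / 2) /
                ((b - a) ^ (lam * p / 2) + |x - (a + b) / 2| ^ (lam * p / 2))) * U x := by
            rw [Real.rpow_sub_one hl.ne']
            ring
          have e2 : (b - a)⁻¹ * (2 ^ (lam * p / 2) / c ^ p) *
              (c ^ p * ((b - a) / ((b - a) + |x - (a + b) / 2|)) ^ (lam * p / 2)) * U x =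
              (b - a)⁻¹ * (2 ^ (lam * p / 2) *
                ((b - a) / ((b - a) + |x - (a + b) / 2|)) ^ (lam * p / 2)) * U x := by
            field_simp
          rw [e1, e2]
          exact mul_le_mul_of_nonneg_right (mul_le_mul_of_nonneg_left h1 (by positivity))
            (hU.nonneg x)
      _ = (ENNReal.ofReal (b - a)⁻¹ * ENNReal.ofReal (2 ^ (lam * p / 2) / c ^ p)) *
          (ENNReal.ofReal (c ^ p * ((b - a) / ((b - a) + |x - (a + b) / 2|)) ^ (lam * p / 2)) *
            ENNReal.ofReal (U x)) := by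
          rw [ENNReal.ofReal_mul (by positivity), ENNReal.ofReal_mul (by positivity),
            ENNReal.ofReal_mul (by positivity), mul_assoc]
      _ ≤ _ := by gcongr
  have hfin : ENNReal.ofReal (b - a)⁻¹ * ENNReal.ofReal (2 ^ (lam * p / 2) / c ^ p) ≠ ∞ :=
    ENNReal.mul_ne_top ENNReal.ofReal_ne_top ENNReal.ofReal_ne_top
  calc ∫⁻ x, ENNReal.ofReal ((b - a) ^ (lam * p / 2 - 1) * U x /
        ((b - a) ^ (lam * p / 2) + |x - (a + b) / 2| ^ (lam * p / 2)))
      ≤ ∫⁻ x, (ENNReal.ofReal (b - a)⁻¹ * ENNReal.ofReal (2 ^ (lam * p / 2) / c ^ p)) *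
        (gStar lam (indicator (Ioo a b) (fun _ => (1:ℝ))) x ^ p * ENNReal.ofReal (U x)) :=
        lintegral_mono hpt
    _ = (ENNReal.ofReal (b - a)⁻¹ * ENNReal.ofReal (2 ^ (lam * p / 2) / c ^ p)) *
        ∫⁻ x, gStar lam (indicator (Ioo a b) (fun _ => (1:ℝ))) x ^ p * ENNReal.ofReal (U x) :=
        lintegral_const_mul' _ _ hfin
    _ ≤ (ENNReal.ofReal (b - a)⁻¹ * ENNReal.ofReal (2 ^ (lam * p / 2) / c ^ p)) *
        (C * ∫⁻ x in Ioo a b, ENNReal.ofReal (U x)) := by gcongr
    _ = _ := by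
        rw [ENNReal.div_eq_inv_mul, ← ENNReal.ofReal_inv_of_pos hl, ENNReal.coe_mul]
        show _ = ENNReal.ofReal (2 ^ (lam * p / 2) / c ^ p) * _ * _
        ring

end Pool.Agent.N305.GL
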