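import Pool.Agent.N305.GL.Stm

/-!
# GL/NG: pointwise lower bound of `g_λ^*` for nonnegative functions on an interval
-/

set_option autoImplicit false

open MeasureTheory Set Filter Topology
open scoped ENNReal NNReal

namespace Pool.Agent.N305.GL

theorem ng_integrable {f : ℝ → ℝ} (hf : BS f) : Integrable f := by
  obtain ⟨R, hR⟩ := hf.bd
  have h1 : IntegrableOn f (Icc (-R) R) := by
    refine Measure.integrableOn_of_bounded (M := R) (by simp) hf.meas.aestronglyMeasurable ?_
    exact Eventually.of_forall fun x => (hR x).1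
  rwa [integrableOn_iff_integrable_of_support_subset] at h1
  intro x hx
  rw [Function.mem_support] at hx
  rw [mem_Icc, ← abs_le]
  by_contra hcon
  exact hx ((hR x).2 (not_le.1 hcon))

theorem ng_pInt {f : ℝ → ℝ} (hf : BS f) : PInt f := by
  unfold PInt
  refine (ng_integrable hf).mono (hf.meas.div (by fun_prop)).aestronglyMeasurable ?_
  refine Eventually.of_forall fun x => ?_
  rw [norm_div]
  have h1 : (1 : ℝ) ≤ ‖1 + x ^ 2‖ := by
    rw [Real.norm_eq_abs, abs_of_pos (by positivity)]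
    nlinarith [sq_nonneg x]
  exact div_le_self (norm_nonneg _) h1

theorem ng_re (u y : ℝ) (hy : 0 < y) (r : ℝ) :
    ((r : ℂ) / ((⟨u, y⟩ : ℂ)) ^ 2).re = r * (u ^ 2 - y ^ 2) / (u ^ 2 + y ^ 2) ^ 2 := by
  have h1 : (⟨u, y⟩ : ℂ) ^ 2 = ⟨u ^ 2 - y ^ 2, 2 * u * y⟩ := by
    apply Complex.ext
    · simp [pow_two]
    · simp [pow_two]
      ring
  have h2 : 0 < u ^ 2 + y ^ 2 := by positivity
  rw [h1, Complex.div_re]
  simp only [Complex.ofReal_re, Complex.ofReal_im, zero_mul, zero_div, add_zero,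
    Complex.normSq_mk]
  have h3 : (u ^ 2 - y ^ 2) * (u ^ 2 - y ^ 2) + 2 * u * y * (2 * u * y) = (u ^ 2 + y ^ 2) ^ 2 := by
    ring
  rw [h3]

theorem ng_hre {f : ℝ → ℝ} (hf : BS f) (z y : ℝ) (hy : 0 < y) :
    (Hh f ⟨z, y⟩).re =
      1 / Real.pi * ∫ t, f t * ((z - t) ^ 2 - y ^ 2) / ((z - t) ^ 2 + y ^ 2) ^ 2 := by
  unfold Hh
  have hint : Integrable (fun t : ℝ => (f t : ℂ) / ((⟨z, y⟩ : ℂ) - t) ^ 2) := by
    have hb : Integrable (fun t => |f t| / y ^ 2) := (ng_integrable hf).abs.div_const _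
    refine hb.mono' ?_ (Eventually.of_forall fun t => ?_)
    · apply Measurable.aestronglyMeasurable
      exact (Complex.measurable_ofReal.comp hf.meas).div
        ((measurable_const.sub Complex.measurable_ofReal).pow_const 2)
    · rw [norm_div, Complex.norm_real, norm_pow, Real.norm_eq_abs]
      have h1 : y ≤ ‖(⟨z, y⟩ : ℂ) - t‖ := by
        have h2 := Complex.abs_im_le_norm ((⟨z, y⟩ : ℂ) - t)
        simp only [Complex.sub_im, Complex.ofReal_im, sub_zero] at h2
        rwa [abs_of_pos hy] at h2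
      exact div_le_div_of_nonneg_left (abs_nonneg _) (by positivity)
        (pow_le_pow_left₀ hy.le h1 2)
  have h3 : (1 / (Real.pi : ℂ) * ∫ t : ℝ, (f t : ℂ) / ((⟨z, y⟩ : ℂ) - t) ^ 2).re =
      1 / Real.pi * (∫ t : ℝ, (f t : ℂ) / ((⟨z, y⟩ : ℂ) - t) ^ 2).re := by
    have e : (1 / (Real.pi : ℂ)) = ((1 / Real.pi : ℝ) : ℂ) := by push_cast; rfl
    rw [e, Complex.re_ofReal_mul]
  rw [h3]
  congr 1
  have h4 := integral_re hint
  refine Eq.trans ?_ (Eq.trans h4.symm ?_)
  · rfl
  · apply integral_congr_ae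
    refine Eventually.of_forall fun t => ?_
    have h5 : ((⟨z, y⟩ : ℂ) - t) = ⟨z - t, y⟩ := by
      apply Complex.ext <;> simp
    show ((f t : ℂ) / ((⟨z, y⟩ : ℂ) - t) ^ 2).re = _
    rw [h5, ng_re _ _ hy]

theorem ng_lower {f : ℝ → ℝ} (hf : BS f) (h0 : ∀ x, 0 ≤ f x) {a b : ℝ}
    (hs : ∀ x, x ∉ Ioo a b → f x = 0) {z y : ℝ} (hz : z ∈ Ioo a b)
    (hy : 10 * (b - a) < y) (hy2 : y < 20 * (b - a)) :
    (∫ t, f t) / (800 * Real.pi * (b - a) ^ 2) ≤ |(Hh f ⟨z, y⟩).re| := by
  have hab : 0 < b - a := by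
    have := hz.1.trans hz.2
    linarith
  have hy0 : 0 < y := by linarith
  rw [ng_hre hf z y hy0, ← abs_neg]
  refine le_trans ?_ (le_abs_self _)
  rw [← mul_neg, ← integral_neg]
  have h1 : (∫ t, f t) / (800 * Real.pi * (b - a) ^ 2) =
      1 / Real.pi * ∫ t, f t / (800 * (b - a) ^ 2) := by
    rw [integral_div]
    field_simp
  rw [h1]
  apply mul_le_mul_of_nonneg_left _ (by positivity)
  have hi : Integrable (fun t => -(f t * ((z - t) ^ 2 - y ^ 2) / ((z - t) ^ 2 + y ^ 2) ^ 2)) := by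
    have hb : Integrable (fun t => |f t| / y ^ 2) := (ng_integrable hf).abs.div_const _
    refine hb.mono' ?_ (Eventually.of_forall fun t => ?_)
    · apply Measurable.aestronglyMeasurable
      have hfm := hf.meas
      fun_prop
    · rw [norm_neg, norm_div, norm_mul, Real.norm_eq_abs, Real.norm_eq_abs, Real.norm_eq_abs]
      have h2 : |(z - t) ^ 2 - y ^ 2| ≤ (z - t) ^ 2 + y ^ 2 := by
        rw [abs_le]
        constructor <;> nlinarith [sq_nonneg (z - t), sq_nonneg y]
      have h3 : 0 < (z - t) ^ 2 + y ^ 2 := by positivity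
      rw [abs_of_pos (by positivity : 0 < ((z - t) ^ 2 + y ^ 2) ^ 2)]
      rw [div_le_div_iff₀ (by positivity) (by positivity)]
      calc |f t| * |(z - t) ^ 2 - y ^ 2| * y ^ 2
          ≤ |f t| * ((z - t) ^ 2 + y ^ 2) * ((z - t) ^ 2 + y ^ 2) := by
            apply mul_le_mul (mul_le_mul_of_nonneg_left h2 (abs_nonneg _)) _ (by positivity)
              (by positivity)
            nlinarith [sq_nonneg (z - t)]
        _ = |f t| * ((z - t) ^ 2 + y ^ 2) ^ 2 := by ring
  refine integral_mono ((ng_integrable hf).div_const _) hi fun t => ?_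
  by_cases ht : t ∈ Ioo a b
  · have hft := h0 t
    have hd : (z - t) ^ 2 ≤ (b - a) ^ 2 := by
      have h2 : |z - t| ≤ b - a := by
        rw [abs_le]
        constructor <;> linarith [hz.1, hz.2, ht.1, ht.2]
      rw [← sq_abs (z - t)]
      exact pow_le_pow_left₀ (abs_nonneg _) h2 2
    have hy100 : 100 * (b - a) ^ 2 ≤ y ^ 2 := by nlinarith
    have hy400 : y ^ 2 ≤ 400 * (b - a) ^ 2 := by nlinarith
    set D := (z - t) ^ 2 with hD
    have hD0 : 0 ≤ D := sq_nonneg _
    set Y := y ^ 2 with hY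
    set l := (b - a) ^ 2 with hl
    have hl0 : 0 < l := by positivity
    have hY0 : 0 < Y := by positivity
    show f t / (800 * l) ≤ -(f t * (D - Y) / (D + Y) ^ 2)
    rw [← neg_div, ← mul_neg, neg_sub, mul_div_assoc, div_eq_mul_one_div]
    apply mul_le_mul_of_nonneg_left _ hft
    rw [div_le_div_iff₀ (by positivity) (by positivity)]
    nlinarith [mul_nonneg hD0 hD0, mul_nonneg hD0 hY0.le, mul_nonneg hD0 hl0.le]
  · show f t / (800 * (b - a) ^ 2) ≤ -(f t * ((z - t) ^ 2 - y ^ 2) / ((z - t) ^ 2 + y ^ 2) ^ 2)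
    rw [hs t ht]
    simp

/-- the pointwise lower bound -/
theorem ng (h : S_GRAD) : S_NG := by
  intro lam hlam
  refine ⟨(10 / 21) ^ (lam / 2) / (800 * Real.pi), by positivity, ?_⟩
  intro a b hab f hf h0 hs x
  set l : ℝ := b - a with hl
  have hl0 : 0 < l := by rw [hl]; linarith
  set d : ℝ := |x - (a + b) / 2| with hd
  have hd0 : 0 ≤ d := abs_nonneg _
  set A : ℝ := ∫ t, f t with hA
  have hA0 : 0 ≤ A := integral_nonneg h0
  set q : ℝ := 10 / 21 * (l / (l + d)) with hq
  have hq0 : 0 < q := by positivity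
  set κ : ℝ := q ^ lam * (A / (800 * Real.pi * l ^ 2)) ^ 2 with hκ
  have hκ0 : 0 ≤ κ := by positivity
  have hkey : ∀ z ∈ Ioo a b, ∀ y ∈ Ioo (10 * l) (20 * l),
      κ ≤ (y / (|x - z| + y)) ^ lam * gradSq f z y := by
    intro z hz y hy
    have hy0 : 0 < y := by linarith [hy.1]
    have h1 : q ≤ y / (|x - z| + y) := by
      have h2 : |x - z| ≤ d + l / 2 := by
        have h3 : |(a + b) / 2 - z| ≤ l / 2 := by
          rw [abs_le]
          constructor <;> linarith [hz.1, hz.2]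
        calc |x - z| = |(x - (a + b) / 2) + ((a + b) / 2 - z)| := by congr 1; ring
          _ ≤ _ := (abs_add_le _ _).trans (add_le_add le_rfl h3)
      have h4 : 0 < |x - z| + y := by positivity
      rw [le_div_iff₀ h4, hq]
      have h5 : |x - z| + y ≤ 21 * (l + d) := by linarith [hy.2]
      calc 10 / 21 * (l / (l + d)) * (|x - z| + y)
          ≤ 10 / 21 * (l / (l + d)) * (21 * (l + d)) :=
            mul_le_mul_of_nonneg_left h5 (by positivity)
        _ = 10 * l := by field_simp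
        _ ≤ y := hy.1.le
    have h6 : (A / (800 * Real.pi * l ^ 2)) ^ 2 ≤ gradSq f z y := by
      have h7 := ng_lower hf h0 hs hz hy.1 hy.2
      have h8 := (h f (ng_pInt hf) z y hy0).2.deriv
      unfold gradSq
      rw [h8]
      have h9 : (A / (800 * Real.pi * l ^ 2)) ^ 2 ≤ ((Hh f ⟨z, y⟩).re) ^ 2 := by
        rw [← sq_abs (Hh f ⟨z, y⟩).re]
        exact pow_le_pow_left₀ (by positivity) h7 2
      nlinarith [sq_nonneg (deriv (fun z' => Po f z' y) z)]
    exact mul_le_mul (Real.rpow_le_rpow hq0.le h1 hlam.le) h6 (sq_nonneg _)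
      (Real.rpow_nonneg (by positivity) _)
  have hint : ENNReal.ofReal (κ * l ^ 2) ≤ ∫⁻ z : ℝ, ∫⁻ y in Ioi (0:ℝ),
      ENNReal.ofReal ((y / (|x - z| + y)) ^ lam * gradSq f z y) := by
    have hin : ∀ z ∈ Ioo a b, ENNReal.ofReal (κ * l) ≤ ∫⁻ y in Ioi (0:ℝ),
        ENNReal.ofReal ((y / (|x - z| + y)) ^ lam * gradSq f z y) := by
      intro z hz
      calc ENNReal.ofReal (κ * l) ≤ ENNReal.ofReal κ * volume (Ioo (10 * l) (20 * l)) := by
            rw [Real.volume_Ioo, ← ENNReal.ofReal_mul hκ0]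
            apply ENNReal.ofReal_le_ofReal
            nlinarith
        _ = ∫⁻ _y in Ioo (10 * l) (20 * l), ENNReal.ofReal κ := by
            rw [setLIntegral_const]
        _ ≤ ∫⁻ y in Ioo (10 * l) (20 * l),
            ENNReal.ofReal ((y / (|x - z| + y)) ^ lam * gradSq f z y) := by
            refine setLIntegral_mono' measurableSet_Ioo fun y hy => ?_
            exact ENNReal.ofReal_le_ofReal (hkey z hz y hy)
        _ ≤ _ := lintegral_mono_set fun y hy => by
            have : 10 * l < y := hy.1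
            exact mem_Ioi.2 (by linarith)
    calc ENNReal.ofReal (κ * l ^ 2) = ENNReal.ofReal (κ * l) * volume (Ioo a b) := by
          rw [Real.volume_Ioo, ← ENNReal.ofReal_mul (by positivity)]
          congr 1
          rw [← hl]
          ring
      _ = ∫⁻ _z in Ioo a b, ENNReal.ofReal (κ * l) := by rw [setLIntegral_const]
      _ ≤ ∫⁻ z in Ioo a b, ∫⁻ y in Ioi (0:ℝ),
            ENNReal.ofReal ((y / (|x - z| + y)) ^ lam * gradSq f z y) :=
          setLIntegral_mono' measurableSet_Ioo fun z hz => hin z hz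
      _ ≤ _ := setLIntegral_le_lintegral _ _
  unfold gStar
  refine le_trans (le_of_eq ?_) (ENNReal.rpow_le_rpow hint (by norm_num : (0:ℝ) ≤ 1 / 2))
  rw [ENNReal.ofReal_rpow_of_nonneg (by positivity) (by norm_num)]
  congr 1
  have e1 : κ * l ^ 2 = (q ^ (lam / 2) * (A / (800 * Real.pi * l))) ^ 2 := by
    rw [hκ, mul_pow, ← Real.rpow_natCast (q ^ (lam / 2)) 2, ← Real.rpow_mul hq0.le]
    have : lam / 2 * ((2 : ℕ) : ℝ) = lam := by push_cast; ring
    rw [this]
    field_simp
  rw [e1, ← Real.sqrt_eq_rpow, Real.sqrt_sq (by positivity), hq,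
    Real.mul_rpow (by norm_num) (by positivity)]
  field_simp

end Pool.Agent.N305.GL
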