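import Pool.Agent.N305.GL.Stm

/-!
# GL/P2: the Poisson form of `A_2`

Project GL (helper305); this file by helper403.
-/

set_option autoImplicit false

open MeasureTheory Set Filter Topology
open scoped ENNReal NNReal

namespace Pool.Agent.N305.GL

/-- lower bound of the maximal function of the indicator function of an interval -/
theorem MX_lower {z y : ℝ} (hy : 0 < y) (t : ℝ) :
    ENNReal.ofReal (2 * y / (|t - z| + 2 * y)) ≤
      MX volume (indicator (Ioo (z - y) (z + y)) 1) t := by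
  have ha : min z t - y < t := by have := min_le_right z t; linarith
  have hb : t < max z t + y := by have := le_max_right z t; linarith
  refine le_trans ?_ (le_iSup_of_le (min z t - y) (le_iSup_of_le (max z t + y)
    (le_iSup_of_le ⟨ha, hb⟩ le_rfl)))
  have hsub : Ioo (z - y) (z + y) ⊆ Ioo (min z t - y) (max z t + y) := by
    apply Ioo_subset_Ioo
    · have := min_le_left z t; linarith
    · have := le_max_left z t; linarith
  rw [lintegral_indicator_one measurableSet_Ioo, Measure.restrict_apply measurableSet_Ioo,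
    inter_eq_left.2 hsub, Real.volume_Ioo, Real.volume_Ioo]
  have h1 : max z t + y - (min z t - y) = |t - z| + 2 * y := by
    have := max_sub_min_eq_abs z t
    linarith
  have h2 : z + y - (z - y) = 2 * y := by ring
  rw [h1, h2, ENNReal.ofReal_div_of_pos (by positivity), ENNReal.div_eq_inv_mul]

/-- upper bound of the Poisson kernel -/
theorem kern_le {z y : ℝ} (hy : 0 < y) (t : ℝ) :
    ENNReal.ofReal (1 / Real.pi * (y / ((z - t) ^ 2 + y ^ 2))) ≤
      ENNReal.ofReal (2 / (Real.pi * y)) *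
        MX volume (indicator (Ioo (z - y) (z + y)) 1) t ^ (2 : ℝ) := by
  have hpi := Real.pi_pos
  calc ENNReal.ofReal (1 / Real.pi * (y / ((z - t) ^ 2 + y ^ 2)))
      ≤ ENNReal.ofReal (2 / (Real.pi * y) * (2 * y / (|t - z| + 2 * y)) ^ 2) := by
        apply ENNReal.ofReal_le_ofReal
        have h1 : (z - t) ^ 2 = |t - z| ^ 2 := by rw [sq_abs]; ring
        rw [h1]
        have hs : 0 ≤ |t - z| := abs_nonneg _
        obtain ⟨s, hsd⟩ : ∃ s, s = |t - z| := ⟨_, rfl⟩
        rw [← hsd] at hs ⊢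
        have h2 : 1 / Real.pi * (y / (s ^ 2 + y ^ 2)) = (y / Real.pi) * (1 / (s ^ 2 + y ^ 2)) := by
          field_simp
        have h3 : 2 / (Real.pi * y) * (2 * y / (s + 2 * y)) ^ 2 =
            (y / Real.pi) * (8 / (s + 2 * y) ^ 2) := by
          field_simp
          ring
        rw [h2, h3]
        refine mul_le_mul_of_nonneg_left ?_ (by positivity)
        rw [div_le_div_iff₀ (by positivity) (by positivity)]
        nlinarith [sq_nonneg (s - y)]
    _ = ENNReal.ofReal (2 / (Real.pi * y)) *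
        ENNReal.ofReal (2 * y / (|t - z| + 2 * y)) ^ (2 : ℝ) := by
        rw [ENNReal.ofReal_mul (by positivity), ENNReal.ofReal_pow (by positivity)]
        congr 1
        rw [← ENNReal.rpow_natCast]
        norm_num
    _ ≤ _ := by
        gcongr
        exact MX_lower hy t

/-- the Poisson integral of an `A_2` weight -/
theorem PE_le {C : ℝ≥0} {u : ℝ → ℝ≥0∞}
    (h : ∀ g : ℝ → ℝ≥0∞, Measurable g →
      ∫⁻ x, MX volume g x ^ (2 : ℝ) * u x ≤ C * ∫⁻ x, g x ^ (2 : ℝ) * u x)
    {z y : ℝ} (hy : 0 < y) :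
    PE u z y ≤ ENNReal.ofReal (2 / (Real.pi * y)) * (C * ∫⁻ x in Ioo (z - y) (z + y), u x) := by
  calc PE u z y ≤ ∫⁻ t, ENNReal.ofReal (2 / (Real.pi * y)) *
        (MX volume (indicator (Ioo (z - y) (z + y)) 1) t ^ (2 : ℝ) * u t) := by
        refine lintegral_mono fun t => ?_
        rw [← mul_assoc]
        exact mul_le_mul_left (kern_le hy t) _
    _ = ENNReal.ofReal (2 / (Real.pi * y)) *
        ∫⁻ t, MX volume (indicator (Ioo (z - y) (z + y)) 1) t ^ (2 : ℝ) * u t :=
        lintegral_const_mul' _ _ ENNReal.ofReal_ne_top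
    _ ≤ ENNReal.ofReal (2 / (Real.pi * y)) *
        (C * ∫⁻ t, (indicator (Ioo (z - y) (z + y)) 1 : ℝ → ℝ≥0∞) t ^ (2 : ℝ) * u t) := by
        gcongr
        exact h _ (measurable_one.indicator measurableSet_Ioo)
    _ = _ := by
        congr 2
        rw [← lintegral_indicator measurableSet_Ioo]
        congr 1
        funext t
        by_cases ht : t ∈ Ioo (z - y) (z + y)
        · simp [indicator_of_mem ht]
        · rw [indicator_of_notMem ht, indicator_of_notMem ht,
            ENNReal.zero_rpow_of_pos (by norm_num), zero_mul]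

theorem APc2_iff {Q : ℝ≥0} {u : ℝ → ℝ≥0∞} : APc 2 Q u ↔ ∀ a b : ℝ, a < b →
    (∫⁻ x in Ioo a b, u x) * (∫⁻ x in Ioo a b, (u x)⁻¹) ≤ Q * ENNReal.ofReal (b - a) ^ (2 : ℝ) := by
  unfold APc
  have h1 : (-1 / 1 : ℝ) = -1 := by norm_num
  have h2 : ((2 : ℝ) - 1) = 1 := by norm_num
  simp only [h2, h1, ENNReal.rpow_neg_one, ENNReal.rpow_one]

theorem APc2_inv {Q : ℝ≥0} {u : ℝ → ℝ≥0∞} (h : APc 2 Q u) : APc 2 Q (fun x => (u x)⁻¹) := by
  rw [APc2_iff] at h ⊢
  intro a b hab
  have := h a b hab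
  simp only [inv_inv]
  rw [mul_comm]
  exact this

/-- **The Poisson form of `A_2`.** -/
theorem p2 (h : S_MUCK) : S_P2 := by
  intro Q
  obtain ⟨C, hC1, hC⟩ := h 2 (by norm_num) Q
  refine ⟨1 + C * C * (Q * 4), le_self_add, ?_⟩
  intro u hu hQ z y hy
  have h1 := PE_le (hC u hu hQ) hy (z := z)
  have h2 := PE_le (hC _ hu.inv (APc2_inv hQ)) hy (z := z)
  have h3 := (APc2_iff.1 hQ) (z - y) (z + y) (by linarith)
  have hpi := Real.pi_gt_three
  have h4 : ENNReal.ofReal (2 / (Real.pi * y)) * ENNReal.ofReal (z + y - (z - y)) ≤ 2 := by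
    rw [← ENNReal.ofReal_mul (by positivity)]
    have h5 : (2 : ℝ≥0∞) = ENNReal.ofReal 2 := by simp
    rw [h5]
    apply ENNReal.ofReal_le_ofReal
    have h6 : 2 / (Real.pi * y) * (z + y - (z - y)) = 4 / Real.pi := by
      field_simp
      ring
    rw [h6, div_le_iff₀ (by positivity)]
    linarith
  calc PE u z y * PE (fun x => (u x)⁻¹) z y
      ≤ (ENNReal.ofReal (2 / (Real.pi * y)) * (C * ∫⁻ x in Ioo (z - y) (z + y), u x)) *
        (ENNReal.ofReal (2 / (Real.pi * y)) * (C * ∫⁻ x in Ioo (z - y) (z + y), (u x)⁻¹)) :=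
        mul_le_mul' h1 h2
    _ = (C * C * ENNReal.ofReal (2 / (Real.pi * y)) ^ (2 : ℝ)) *
        ((∫⁻ x in Ioo (z - y) (z + y), u x) * ∫⁻ x in Ioo (z - y) (z + y), (u x)⁻¹) := by
        rw [ENNReal.rpow_two]
        ring
    _ ≤ (C * C * ENNReal.ofReal (2 / (Real.pi * y)) ^ (2 : ℝ)) *
        (Q * ENNReal.ofReal (z + y - (z - y)) ^ (2 : ℝ)) := by gcongr
    _ = C * C * (Q * (ENNReal.ofReal (2 / (Real.pi * y)) *
        ENNReal.ofReal (z + y - (z - y))) ^ (2 : ℝ)) := by
        rw [ENNReal.mul_rpow_of_nonneg _ _ (by norm_num)]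
        ring
    _ ≤ C * C * (Q * 2 ^ (2 : ℝ)) := by gcongr
    _ = C * C * (Q * 4) := by
        rw [ENNReal.rpow_two]
        norm_num
    _ ≤ ((1 + C * C * (Q * 4) : ℝ≥0) : ℝ≥0∞) := by
        push_cast
        exact le_add_self

end Pool.Agent.N305.GL
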