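import Pool.Agent.N305.GL.Stm

/-!
# Project GL: convergence of the Poisson integral on `L^p(A_p)` (helper521)
-/

set_option autoImplicit false

open MeasureTheory Set Filter Topology
open scoped ENNReal NNReal

namespace Pool.Agent.N305.GL

namespace Pconv

lemma dual_rpow {p : ℝ} (hp : 1 < p) {c : ℝ≥0∞} (h0 : c ≠ 0) (hT : c ≠ ∞) :
    (c ^ (-1 / (p - 1))) ^ (-1 / (p / (p - 1) - 1)) = c := by
  rw [← ENNReal.rpow_mul]
  have h1 : -1 / (p - 1) * (-1 / (p / (p - 1) - 1)) = 1 := by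
    have h2 : p - 1 ≠ 0 := by linarith
    have h3 : p / (p - 1) - 1 = 1 / (p - 1) := by
      field_simp
      ring
    rw [h3]
    field_simp
  rw [h1, ENNReal.rpow_one]

lemma dual_APc {p : ℝ} (hp : 1 < p) {Q : ℝ≥0} {u : ℝ → ℝ≥0∞} (hu : Wt u) (h : APc p Q u) :
    APc (p / (p - 1)) ((Q ^ (1 / (p - 1)) : ℝ≥0) : ℝ≥0∞) (fun x => u x ^ (-1 / (p - 1))) := by
  have hp1 : 0 < p - 1 := by linarith
  have h3 : p / (p - 1) - 1 = 1 / (p - 1) := by
    field_simp
    ring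
  intro a b hab
  have h1 : ∀ x, (u x ^ (-1 / (p - 1))) ^ (-1 / (p / (p - 1) - 1)) = u x := fun x =>
    dual_rpow hp (hu.ne0 x) (hu.neT x)
  simp only [h1]
  rw [h3]
  have h2 := ENNReal.rpow_le_rpow (h a b hab) (show 0 ≤ 1 / (p - 1) by positivity)
  rw [ENNReal.mul_rpow_of_nonneg _ _ (by positivity), ENNReal.mul_rpow_of_nonneg _ _ (by positivity),
    ← ENNReal.rpow_mul, ← ENNReal.rpow_mul, mul_one_div_cancel hp1.ne', ENNReal.rpow_one,
    mul_one_div] at h2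
  rw [ENNReal.coe_rpow_of_nonneg _ (by positivity), mul_comm]
  exact h2

lemma MX_ge (x : ℝ) : ENNReal.ofReal (1 / (1 + x ^ 2)) ≤
    2 * MX volume (indicator (Ioo (-1) 1) 1) x := by
  have hx0 : 0 ≤ |x| := abs_nonneg x
  have h1 : (volume (Ioo (-(|x| + 1)) (|x| + 1)))⁻¹ *
      ∫⁻ y in Ioo (-(|x| + 1)) (|x| + 1), indicator (Ioo (-1) 1) 1 y ≤
      MX volume (indicator (Ioo (-1) 1) 1) x := by
    unfold MX
    have hx : -(|x| + 1) < x ∧ x < |x| + 1 := by
      constructor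
      · linarith [neg_abs_le x]
      · linarith [le_abs_self x]
    exact le_iSup_of_le (-(|x| + 1)) (le_iSup_of_le (|x| + 1) (le_iSup_of_le hx le_rfl))
  have h2 : ∫⁻ y in Ioo (-(|x| + 1)) (|x| + 1), indicator (Ioo (-1) 1) 1 y = 2 := by
    rw [lintegral_indicator_one measurableSet_Ioo, Measure.restrict_apply measurableSet_Ioo,
      inter_eq_left.2 (Ioo_subset_Ioo (by linarith) (by linarith)), Real.volume_Ioo]
    norm_num
  rw [h2, Real.volume_Ioo] at h1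
  refine le_trans ?_ (mul_le_mul_right h1 2)
  have h3 : |x| + 1 - -(|x| + 1) = 2 * (|x| + 1) := by ring
  rw [h3]
  have h4 : (2 : ℝ≥0∞) * ((ENNReal.ofReal (2 * (|x| + 1)))⁻¹ * 2) = ENNReal.ofReal (2 / (|x| + 1)) := by
    rw [← ENNReal.ofReal_inv_of_pos (by positivity)]
    have h5 : (2 : ℝ≥0∞) = ENNReal.ofReal 2 := by norm_num
    rw [h5, ← ENNReal.ofReal_mul (by positivity), ← ENNReal.ofReal_mul (by norm_num)]
    congr 1
    field_simp
  rw [h4]
  apply ENNReal.ofReal_le_ofReal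
  rw [div_le_div_iff₀ (by positivity) (by positivity)]
  nlinarith [sq_nonneg (|x| - 1), sq_abs x]

end Pconv

open Pconv in
theorem pconv (h : S_MUCK) : S_PCONV := by
  intro p hp Q u hu hA f hf hN
  have hp1 : 0 < p - 1 := by linarith
  have hp0 : 0 < p := by linarith
  have hpq : p.HolderConjugate (p / (p - 1)) := Real.HolderConjugate.conjExponent hp
  have hq1 : 1 < p / (p - 1) := by
    rw [lt_div_iff₀ hp1]
    linarith
  have hq0 : 0 < p / (p - 1) := by linarith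
  have hs : Wt (fun x => u x ^ (-1 / (p - 1))) := hu.rpow _
  obtain ⟨C, -, hC⟩ := h (p / (p - 1)) hq1 (Q ^ (1 / (p - 1)))
  have h1 := hC _ hs (dual_APc hp hu hA) (indicator (Ioo (-1) 1) 1)
    (measurable_one.indicator measurableSet_Ioo)
  have h2 : ∫⁻ x, (indicator (Ioo (-1 : ℝ) 1) (1 : ℝ → ℝ≥0∞) x) ^ (p / (p - 1)) *
      u x ^ (-1 / (p - 1)) = ∫⁻ x in Ioo (-1 : ℝ) 1, u x ^ (-1 / (p - 1)) := by
    rw [← lintegral_indicator measurableSet_Ioo]
    refine lintegral_congr fun x => ?_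
    by_cases hx : x ∈ Ioo (-1 : ℝ) 1
    · rw [indicator_of_mem hx, indicator_of_mem hx, Pi.one_apply, ENNReal.one_rpow, one_mul]
    · rw [indicator_of_notMem hx, indicator_of_notMem hx, ENNReal.zero_rpow_of_pos hq0, zero_mul]
  rw [h2] at h1
  have h3 : ∫⁻ x in Ioo (-1 : ℝ) 1, u x ^ (-1 / (p - 1)) ≠ ∞ :=
    hA.fin_right hp ENNReal.coe_ne_top hu (by norm_num)
  have h4 : ∫⁻ x, MX volume (indicator (Ioo (-1) 1) 1) x ^ (p / (p - 1)) *
      u x ^ (-1 / (p - 1)) ≠ ∞ :=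
    ne_top_of_le_ne_top (ENNReal.mul_ne_top ENNReal.coe_ne_top h3) h1
  -- the integral of the dual function
  have h5 : ∫⁻ x, ENNReal.ofReal (1 / (1 + x ^ 2)) ^ (p / (p - 1)) * u x ^ (-1 / (p - 1)) ≠ ∞ := by
    refine ne_top_of_le_ne_top (b := 2 ^ (p / (p - 1)) * ∫⁻ x,
      MX volume (indicator (Ioo (-1) 1) 1) x ^ (p / (p - 1)) * u x ^ (-1 / (p - 1))) ?_ ?_
    · exact ENNReal.mul_ne_top (ENNReal.rpow_ne_top_of_nonneg hq0.le (by norm_num)) h4
    · rw [← lintegral_const_mul' _ _ (ENNReal.rpow_ne_top_of_nonneg hq0.le (by norm_num))]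
      refine lintegral_mono fun x => ?_
      rw [← mul_assoc, ← ENNReal.mul_rpow_of_nonneg _ _ hq0.le]
      exact mul_le_mul_left (ENNReal.rpow_le_rpow (MX_ge x) hq0.le) _
  -- Hoelder
  have hHo := ENNReal.lintegral_mul_le_Lp_mul_Lq volume hpq
    (f := fun x => ENNReal.ofReal |f x| * u x ^ (1 / p))
    (g := fun x => ENNReal.ofReal (1 / (1 + x ^ 2)) * u x ^ (-(1 / p)))
    ((hf.abs.ennreal_ofReal.mul (hu.meas.pow_const _)).aemeasurable)
    (by
      refine Measurable.aemeasurable ?_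
      refine Measurable.mul ?_ (hu.meas.pow_const _)
      exact Measurable.ennreal_ofReal (by fun_prop))
  have h6 : ∀ x, (ENNReal.ofReal |f x| * u x ^ (1 / p)) ^ p = ENNReal.ofReal |f x| ^ p * u x := by
    intro x
    rw [ENNReal.mul_rpow_of_nonneg _ _ hp0.le, ← ENNReal.rpow_mul, one_div_mul_cancel hp0.ne',
      ENNReal.rpow_one]
  have h7 : ∀ x : ℝ, (ENNReal.ofReal (1 / (1 + x ^ 2)) * u x ^ (-(1 / p))) ^ (p / (p - 1)) =
      ENNReal.ofReal (1 / (1 + x ^ 2)) ^ (p / (p - 1)) * u x ^ (-1 / (p - 1)) := by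
    intro x
    rw [ENNReal.mul_rpow_of_nonneg _ _ hq0.le, ← ENNReal.rpow_mul]
    congr 2
    field_simp
  have h8 : ∀ x : ℝ, ((fun x => ENNReal.ofReal |f x| * u x ^ (1 / p)) *
      (fun x => ENNReal.ofReal (1 / (1 + x ^ 2)) * u x ^ (-(1 / p)))) x =
      ENNReal.ofReal |f x| * ENNReal.ofReal (1 / (1 + x ^ 2)) := by
    intro x
    rw [Pi.mul_apply]
    have h9 : u x ^ (1 / p) * u x ^ (-(1 / p)) = 1 := by
      rw [← ENNReal.rpow_add _ _ (hu.ne0 x) (hu.neT x), add_neg_cancel, ENNReal.rpow_zero]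
    calc ENNReal.ofReal |f x| * u x ^ (1 / p) * (ENNReal.ofReal (1 / (1 + x ^ 2)) *
          u x ^ (-(1 / p))) = ENNReal.ofReal |f x| * ENNReal.ofReal (1 / (1 + x ^ 2)) *
          (u x ^ (1 / p) * u x ^ (-(1 / p))) := by ring
      _ = _ := by rw [h9, mul_one]
  simp only [h6, h7, h8] at hHo
  have h10 : ∫⁻ x, ENNReal.ofReal |f x| * ENNReal.ofReal (1 / (1 + x ^ 2)) ≠ ∞ := by
    refine ne_top_of_le_ne_top ?_ hHo
    exact ENNReal.mul_ne_top (ENNReal.rpow_ne_top_of_nonneg (by positivity) hN)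
      (ENNReal.rpow_ne_top_of_nonneg (by positivity) h5)
  refine ⟨(hf.div (by fun_prop)).aestronglyMeasurable, ?_⟩
  rw [hasFiniteIntegral_iff_enorm]
  refine lt_top_iff_ne_top.2 ?_
  convert h10 using 3 with x
  rw [← ofReal_norm, ← ENNReal.ofReal_mul (abs_nonneg _)]
  congr 1
  rw [norm_div, Real.norm_eq_abs, Real.norm_of_nonneg (by positivity)]
  ring

end Pool.Agent.N305.GL
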