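import Pool.Agent.N305.GL.Stm

/-!
The Rubio de Francia algorithm (project GL of helper305, by helper543).
-/

set_option autoImplicit false

open MeasureTheory Set Filter Topology
open scoped ENNReal NNReal

namespace Pool.Agent.N305.GL

namespace RdfAux

/-- iterates of the maximal function -/
noncomputable def It (h : ℝ → ℝ≥0∞) (k : ℕ) : ℝ → ℝ≥0∞ := (MX volume)^[k] h

theorem It_zero (h : ℝ → ℝ≥0∞) : It h 0 = h := rfl

theorem It_succ (h : ℝ → ℝ≥0∞) (k : ℕ) : It h (k + 1) = MX volume (It h k) :=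
  Function.iterate_succ_apply' _ _ _

theorem le_MX (g : ℝ → ℝ≥0∞) {a b x : ℝ} (ha : a < x) (hb : x < b) :
    (volume (Ioo a b))⁻¹ * ∫⁻ y in Ioo a b, g y ≤ MX volume g x := by
  unfold MX
  exact le_iSup_of_le a (le_iSup_of_le b (le_iSup_of_le ⟨ha, hb⟩ le_rfl))

theorem half_add (n : ℕ) : (2:ℝ≥0∞)⁻¹ ^ (n + 1) + (2:ℝ≥0∞)⁻¹ ^ (n + 1) = (2:ℝ≥0∞)⁻¹ ^ n := by
  rw [pow_succ, ← mul_add, ENNReal.inv_two_add_inv_two, mul_one]

theorem sum_half (n : ℕ) :
    ∑ k ∈ Finset.range n, (2:ℝ≥0∞)⁻¹ ^ (k + 1) + (2:ℝ≥0∞)⁻¹ ^ n = 1 := by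
  induction n with
  | zero => simp
  | succ n ih =>
    rw [Finset.sum_range_succ, add_assoc, half_add, ih]

theorem jensen {p : ℝ} (hp : 1 < p) (g : ℕ → ℝ≥0∞) :
    (∑' k, (2:ℝ≥0∞)⁻¹ ^ (k + 1) * g k) ^ p ≤ ∑' k, (2:ℝ≥0∞)⁻¹ ^ (k + 1) * g k ^ p := by
  have hp0 : 0 < p := by linarith
  have hn : ∀ n, ∑ k ∈ Finset.range n, (2:ℝ≥0∞)⁻¹ ^ (k + 1) * g k ≤
      (∑' k, (2:ℝ≥0∞)⁻¹ ^ (k + 1) * g k ^ p) ^ (1 / p) := by
    intro n
    have h1 := ENNReal.rpow_arith_mean_le_arith_mean_rpow (Finset.range (n + 1))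
      (fun k => if k < n then (2:ℝ≥0∞)⁻¹ ^ (k + 1) else (2:ℝ≥0∞)⁻¹ ^ n)
      (fun k => if k < n then g k else 0) (by
        rw [Finset.sum_range_succ, if_neg (lt_irrefl n), ← sum_half n]
        congr 1
        refine Finset.sum_congr rfl fun k hk => ?_
        rw [if_pos (Finset.mem_range.1 hk)]) hp.le
    rw [Finset.sum_range_succ, Finset.sum_range_succ] at h1
    simp only [lt_irrefl, if_false, mul_zero, add_zero, ENNReal.zero_rpow_of_pos hp0] at h1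
    have h2 : ∀ k ∈ Finset.range n, (if k < n then (2:ℝ≥0∞)⁻¹ ^ (k + 1) else (2:ℝ≥0∞)⁻¹ ^ n) *
        (if k < n then g k else 0) = (2:ℝ≥0∞)⁻¹ ^ (k + 1) * g k := fun k hk => by
      rw [if_pos (Finset.mem_range.1 hk), if_pos (Finset.mem_range.1 hk)]
    have h3 : ∀ k ∈ Finset.range n, (if k < n then (2:ℝ≥0∞)⁻¹ ^ (k + 1) else (2:ℝ≥0∞)⁻¹ ^ n) *
        (if k < n then g k else 0) ^ p = (2:ℝ≥0∞)⁻¹ ^ (k + 1) * g k ^ p := fun k hk => by
      rw [if_pos (Finset.mem_range.1 hk), if_pos (Finset.mem_range.1 hk)]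
    rw [Finset.sum_congr rfl h2, Finset.sum_congr rfl h3] at h1
    have h4 := h1.trans (ENNReal.sum_le_tsum (Finset.range n))
    rw [one_div]
    exact (ENNReal.le_rpow_inv_iff hp0).2 h4
  have h5 : ∑' k, (2:ℝ≥0∞)⁻¹ ^ (k + 1) * g k ≤
      (∑' k, (2:ℝ≥0∞)⁻¹ ^ (k + 1) * g k ^ p) ^ (1 / p) := by
    rw [ENNReal.tsum_eq_iSup_nat]
    exact iSup_le hn
  rw [one_div] at h5
  exact (ENNReal.le_rpow_inv_iff hp0).1 h5

theorem tsum_half : ∑' k : ℕ, (2:ℝ≥0∞)⁻¹ ^ (k + 1) ≤ 1 := by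
  rw [ENNReal.tsum_eq_iSup_nat]
  refine iSup_le fun n => ?_
  rw [← sum_half n]
  exact le_self_add

end RdfAux

open RdfAux in
/-- The Rubio de Francia algorithm. -/
theorem rdf (hWT : S_WT) : S_RDF := by
  intro p C hp hC
  have hp0 : 0 < p := by linarith
  have hB1 : 1 ≤ C ^ (1 / p) := NNReal.one_le_rpow hC (by positivity)
  refine ⟨2 * C ^ (1 / p), ?_, ?_⟩
  · calc (1:ℝ≥0) ≤ 2 * 1 := by norm_num
      _ ≤ 2 * C ^ (1 / p) := by gcongr
  intro u hu hbd h hh hfin hne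
  obtain ⟨B, hB⟩ : ∃ B : ℝ≥0∞, B = ((C ^ (1 / p) : ℝ≥0) : ℝ≥0∞) := ⟨_, rfl⟩
  have hB0 : B ≠ 0 := by
    rw [hB]
    exact_mod_cast (lt_of_lt_of_le one_pos hB1).ne'
  have hBT : B ≠ ∞ := by rw [hB]; exact ENNReal.coe_ne_top
  have hBp : B ^ p = C := by
    rw [hB, ENNReal.coe_rpow_of_nonneg _ (by positivity), ← ENNReal.rpow_mul]
    rw [one_div, inv_mul_cancel₀ hp0.ne', ENNReal.rpow_one]
  have hK : ((2 * C ^ (1 / p) : ℝ≥0) : ℝ≥0∞) = 2 * B := by
    rw [ENNReal.coe_mul, hB]; rfl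
  rw [hK]
  have hK0 : (2:ℝ≥0∞) * B ≠ 0 := mul_ne_zero two_ne_zero hB0
  have hKT : (2:ℝ≥0∞) * B ≠ ∞ := ENNReal.mul_ne_top ENNReal.ofNat_ne_top hBT
  -- measurability of the iterates
  have hm : ∀ k, Measurable (It h k) := by
    intro k
    cases k with
    | zero => exact hh
    | succ k => rw [It_succ]; exact hWT.1 _ _
  obtain ⟨R, hR⟩ : ∃ R : ℝ → ℝ≥0∞, R = fun x => ∑' k, (2 * B)⁻¹ ^ k * It h k x := ⟨_, rfl⟩
  have hRx : ∀ x, R x = ∑' k, (2 * B)⁻¹ ^ k * It h k x := fun x => by rw [hR]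
  have hRm : Measurable R := by
    rw [hR]
    exact Measurable.tsum fun k => (hm k).const_mul _
  have hterm : ∀ k x, (2 * B)⁻¹ ^ k * It h k x ≤ R x := by
    intro k x
    rw [hRx]
    exact ENNReal.le_tsum k
  refine ⟨R, hRm, ?_, ?_, ?_, ?_⟩
  · intro x
    have := hterm 0 x
    rwa [pow_zero, one_mul, It_zero] at this
  · intro x hx0
    have h1 := hterm 1 x
    rw [hx0, nonpos_iff_eq_zero, mul_eq_zero, pow_one] at h1
    have h2 : It h 1 x = 0 := h1.resolve_left (ENNReal.inv_ne_zero.2 hKT)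
    rw [It_succ, It_zero] at h2
    apply hne
    have h3 : ∀ n : ℕ, ∀ᵐ y ∂(volume.restrict (Ioo (x - (n + 1)) (x + (n + 1)))), h y = 0 := by
      intro n
      have hn : (0:ℝ) < n + 1 := by positivity
      have h4 := le_MX h (a := x - (n + 1)) (b := x + (n + 1)) (x := x) (by linarith) (by linarith)
      rw [h2, nonpos_iff_eq_zero, mul_eq_zero] at h4
      have h5 : (volume (Ioo (x - (n + 1)) (x + (n + 1 : ℝ))))⁻¹ ≠ 0 := by
        rw [Real.volume_Ioo]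
        exact ENNReal.inv_ne_zero.2 ENNReal.ofReal_ne_top
      have h6 := h4.resolve_left h5
      rw [lintegral_eq_zero_iff hh] at h6
      exact h6
    have h7 := (ae_restrict_iUnion_iff _ _).2 h3
    have h8 : (⋃ n : ℕ, Ioo (x - ((n:ℝ) + 1)) (x + ((n:ℝ) + 1))) = univ := by
      rw [eq_univ_iff_forall]
      intro y
      obtain ⟨n, hn⟩ := exists_nat_gt |y - x|
      rw [mem_iUnion]
      refine ⟨n, ?_⟩
      have := abs_lt.1 hn
      constructor <;> linarith [this.1, this.2]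
    rw [h8, Measure.restrict_univ] at h7
    exact h7
  · intro x
    unfold MX
    refine iSup_le fun a => iSup_le fun b => iSup_le fun hab => ?_
    have h1 : ∫⁻ y in Ioo a b, R y = ∑' k, (2 * B)⁻¹ ^ k * ∫⁻ y in Ioo a b, It h k y := by
      rw [hR]
      rw [lintegral_tsum fun k => ((hm k).const_mul _).aemeasurable]
      refine tsum_congr fun k => ?_
      rw [lintegral_const_mul _ (hm k)]
    rw [h1, ← ENNReal.tsum_mul_left]
    have h2 : ∀ k, (volume (Ioo a b))⁻¹ * ((2 * B)⁻¹ ^ k * ∫⁻ y in Ioo a b, It h k y) ≤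
        (2 * B) * ((2 * B)⁻¹ ^ (k + 1) * It h (k + 1) x) := by
      intro k
      have h3 := le_MX (It h k) hab.1 hab.2
      rw [← It_succ] at h3
      calc (volume (Ioo a b))⁻¹ * ((2 * B)⁻¹ ^ k * ∫⁻ y in Ioo a b, It h k y)
          = (2 * B)⁻¹ ^ k * ((volume (Ioo a b))⁻¹ * ∫⁻ y in Ioo a b, It h k y) := by ring
        _ ≤ (2 * B)⁻¹ ^ k * It h (k + 1) x := by gcongr
        _ = ((2 * B) * (2 * B)⁻¹) * ((2 * B)⁻¹ ^ k * It h (k + 1) x) := by
            rw [ENNReal.mul_inv_cancel hK0 hKT, one_mul]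
        _ = (2 * B) * ((2 * B)⁻¹ ^ (k + 1) * It h (k + 1) x) := by
            rw [pow_succ]; ring
    refine (ENNReal.tsum_le_tsum h2).trans ?_
    rw [ENNReal.tsum_mul_left]
    gcongr
    rw [hRx]
    exact ENNReal.tsum_comp_le_tsum_of_injective (f := fun k : ℕ => k + 1)
      (fun a b h => by simpa using h) (fun k => (2 * B)⁻¹ ^ k * It h k x)
  · -- the norm
    have hI : ∀ k, ∫⁻ x, It h k x ^ p * u x ≤ (C:ℝ≥0∞) ^ k * ∫⁻ x, h x ^ p * u x := by
      intro k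
      induction k with
      | zero => rw [It_zero, pow_zero, one_mul]
      | succ k ih =>
        rw [It_succ]
        refine (hbd _ (hm k)).trans ?_
        rw [pow_succ', mul_assoc]
        gcongr
    obtain ⟨g, hg⟩ : ∃ g : ℕ → ℝ → ℝ≥0∞, g = fun k x => B⁻¹ ^ k * It h k x := ⟨_, rfl⟩
    have hgx : ∀ k x, g k x = B⁻¹ ^ k * It h k x := fun k x => by rw [hg]
    have hgm : ∀ k, Measurable (g k) := fun k => by
      rw [hg]; exact (hm k).const_mul _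
    have hRg : ∀ x, R x = 2 * ∑' k, (2:ℝ≥0∞)⁻¹ ^ (k + 1) * g k x := by
      intro x
      rw [hRx, ← ENNReal.tsum_mul_left]
      refine tsum_congr fun k => ?_
      rw [hgx, ENNReal.mul_inv (Or.inl two_ne_zero) (Or.inl ENNReal.ofNat_ne_top), mul_pow]
      calc (2:ℝ≥0∞)⁻¹ ^ k * B⁻¹ ^ k * It h k x
          = (2 * (2:ℝ≥0∞)⁻¹) * ((2:ℝ≥0∞)⁻¹ ^ k * B⁻¹ ^ k * It h k x) := by
            rw [ENNReal.mul_inv_cancel two_ne_zero ENNReal.ofNat_ne_top, one_mul]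
        _ = 2 * ((2:ℝ≥0∞)⁻¹ ^ (k + 1) * (B⁻¹ ^ k * It h k x)) := by
            rw [pow_succ]; ring
    have hgp : ∀ k, ∫⁻ x, g k x ^ p * u x ≤ ∫⁻ x, h x ^ p * u x := by
      intro k
      have h1 : ∀ x, g k x ^ p * u x = (C:ℝ≥0∞)⁻¹ ^ k * (It h k x ^ p * u x) := by
        intro x
        rw [hgx, ENNReal.mul_rpow_of_nonneg _ _ hp0.le]
        have h2 : (B⁻¹ ^ k) ^ p = (C:ℝ≥0∞)⁻¹ ^ k := by
          rw [← ENNReal.rpow_natCast, ← ENNReal.rpow_mul, mul_comm (k:ℝ) p, ENNReal.rpow_mul,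
            ENNReal.inv_rpow, hBp, ENNReal.rpow_natCast]
        rw [h2, mul_assoc]
      simp only [h1]
      have hm1 : Measurable (fun x => It h k x ^ p * u x) := ((hm k).pow_const p).mul hu.meas
      rw [lintegral_const_mul _ hm1]
      refine (mul_le_mul_right (hI k) _).trans ?_
      have hC0 : (C:ℝ≥0∞) ≠ 0 := by
        exact_mod_cast (lt_of_lt_of_le one_pos hC).ne'
      rw [← mul_assoc, ← mul_pow, ENNReal.inv_mul_cancel hC0 ENNReal.coe_ne_top, one_pow, one_mul]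
    have hm2 : ∀ k, Measurable (fun x => g k x ^ p * u x) := fun k =>
      ((hgm k).pow_const p).mul hu.meas
    have hm3 : ∀ k, Measurable (fun x => (2:ℝ≥0∞)⁻¹ ^ (k + 1) * (g k x ^ p * u x)) := fun k =>
      (hm2 k).const_mul _
    calc ∫⁻ x, R x ^ p * u x
        ≤ ∫⁻ x, 2 ^ p * ∑' k, (2:ℝ≥0∞)⁻¹ ^ (k + 1) * (g k x ^ p * u x) := by
          refine lintegral_mono fun x => ?_
          rw [hRg, ENNReal.mul_rpow_of_nonneg _ _ hp0.le, mul_assoc]
          gcongr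
          calc (∑' k, (2:ℝ≥0∞)⁻¹ ^ (k + 1) * g k x) ^ p * u x
              ≤ (∑' k, (2:ℝ≥0∞)⁻¹ ^ (k + 1) * g k x ^ p) * u x := by
                gcongr
                exact jensen hp _
            _ = ∑' k, (2:ℝ≥0∞)⁻¹ ^ (k + 1) * (g k x ^ p * u x) := by
                rw [← ENNReal.tsum_mul_right]
                exact tsum_congr fun k => by ring
      _ = 2 ^ p * ∑' k, (2:ℝ≥0∞)⁻¹ ^ (k + 1) * ∫⁻ x, g k x ^ p * u x := by
          rw [lintegral_const_mul _ (Measurable.tsum hm3)]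
          rw [lintegral_tsum fun k => (hm3 k).aemeasurable]
          congr 1
          refine tsum_congr fun k => ?_
          rw [lintegral_const_mul _ (hm2 k)]
      _ ≤ 2 ^ p * ∑' k : ℕ, (2:ℝ≥0∞)⁻¹ ^ (k + 1) * ∫⁻ x, h x ^ p * u x := by
          refine mul_le_mul_right (ENNReal.tsum_le_tsum fun k => ?_) _
          exact mul_le_mul_right (hgp k) _
      _ ≤ 2 ^ p * ∫⁻ x, h x ^ p * u x := by
          gcongr
          rw [ENNReal.tsum_mul_right]
          exact (mul_le_mul_left tsum_half _).trans (by rw [one_mul])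

end Pool.Agent.N305.GL
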