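import Pool.Agent.N305.GL.Stm

/-!
# Strong type of the uncentered maximal function
-/

set_option autoImplicit false

open MeasureTheory Set Filter Topology
open scoped ENNReal NNReal

namespace Pool.Agent.N305.GL

/-- layer cake for a constant -/
theorem cake (p : ℝ) (hp : 0 < p) (c : ℝ≥0∞) :
    ∫⁻ t in Ioi (0:ℝ), (if ENNReal.ofReal t < c then ENNReal.ofReal (p * t ^ (p - 1)) else 0) =
      c ^ p := by
  have hfin : ∀ r : ℝ, 0 ≤ r →
      ∫⁻ t in Ioi (0:ℝ), (if t < r then ENNReal.ofReal (p * t ^ (p - 1)) else 0) =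
        ENNReal.ofReal r ^ p := by
    intro r hr
    have h1 := lintegral_rpow_eq_lintegral_meas_lt_mul (Measure.dirac ()) (f := fun _ : Unit => r)
      (Eventually.of_forall fun _ => hr) measurable_const.aemeasurable hp
    rw [lintegral_dirac] at h1
    rw [ENNReal.ofReal_rpow_of_nonneg hr hp.le, h1,
      ← lintegral_const_mul' _ _ ENNReal.ofReal_ne_top]
    refine setLIntegral_congr_fun measurableSet_Ioi fun t ht => ?_
    by_cases h : t < r
    · have h2 : {a : Unit | t < r} = univ := by
        ext a
        simp [h]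
      simp only [h2]
      rw [if_pos h, measure_univ, one_mul, ENNReal.ofReal_mul hp.le]
    · have h2 : {a : Unit | t < r} = ∅ := by
        ext a
        simp [h]
      simp only [h2]
      rw [if_neg h, measure_empty, zero_mul, mul_zero]
  rcases eq_or_ne c ∞ with rfl | hc
  · rw [ENNReal.top_rpow_of_pos hp]
    refine ENNReal.eq_top_of_forall_nnreal_le fun r => ?_
    have h1 := hfin ((r : ℝ) ^ (1 / p)) (by positivity)
    rw [ENNReal.ofReal_rpow_of_nonneg (by positivity) hp.le, ← Real.rpow_mul r.coe_nonneg,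
      one_div_mul_cancel hp.ne', Real.rpow_one, ENNReal.ofReal_coe_nnreal] at h1
    rw [← h1]
    refine lintegral_mono fun t => ?_
    rw [if_pos ENNReal.ofReal_lt_top]
    split_ifs
    · exact le_rfl
    · exact zero_le
  · rw [← ENNReal.ofReal_toReal hc, ← hfin _ ENNReal.toReal_nonneg]
    refine setLIntegral_congr_fun measurableSet_Ioi fun t ht => ?_
    rw [mem_Ioi] at ht
    simp only [ENNReal.ofReal_toReal hc, ENNReal.ofReal_lt_iff_lt_toReal ht.le hc]

theorem MX_trunc (μ : Measure ℝ) (g : ℝ → ℝ≥0∞) (hg : Measurable g) (s : ℝ≥0∞) (x : ℝ) :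
    MX μ g x ≤ MX μ ({y | s < g y}.indicator g) x + s := by
  refine iSup_le fun a => iSup_le fun b => iSup_le fun hab => ?_
  have hm : MeasurableSet {y | s < g y} := measurableSet_lt measurable_const hg
  have h1 : ∫⁻ y in Ioo a b, g y ∂μ ≤
      ∫⁻ y in Ioo a b, {y | s < g y}.indicator g y ∂μ + s * μ (Ioo a b) := by
    have h2 : ∫⁻ y in Ioo a b, g y ∂μ ≤ ∫⁻ y in Ioo a b, ({y | s < g y}.indicator g y + s) ∂μ := by
      refine lintegral_mono fun y => ?_
      by_cases h : s < g y
      · rw [indicator_of_mem (show y ∈ {y | s < g y} from h)]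
        exact le_self_add
      · rw [indicator_of_notMem (show y ∉ {y | s < g y} from h), zero_add]
        exact not_lt.1 h
    refine h2.trans (le_of_eq ?_)
    rw [lintegral_add_right _ measurable_const, setLIntegral_const]
  calc (μ (Ioo a b))⁻¹ * ∫⁻ y in Ioo a b, g y ∂μ ≤
        (μ (Ioo a b))⁻¹ * (∫⁻ y in Ioo a b, {y | s < g y}.indicator g y ∂μ + s * μ (Ioo a b)) := by
        gcongr
    _ = (μ (Ioo a b))⁻¹ * ∫⁻ y in Ioo a b, {y | s < g y}.indicator g y ∂μ +
        s * ((μ (Ioo a b))⁻¹ * μ (Ioo a b)) := by ring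
    _ ≤ MX μ ({y | s < g y}.indicator g) x + s * 1 := by
        gcongr
        · exact le_iSup_of_le a (le_iSup_of_le b (le_iSup_of_le hab le_rfl))
        · exact ENNReal.inv_mul_le_one _
    _ = _ := by rw [mul_one]

/-- GL/ST. -/
theorem st (h : S_WT) : S_ST := by
  obtain ⟨hmeas, hweak⟩ := h
  intro q hq
  have hq1 : 0 < q - 1 := by linarith
  have hq0 : 0 < q := by linarith
  refine ⟨1 + Real.toNNReal (4 * q / (q - 1) * 2 ^ (q - 1)), by simp, fun μ _ g hg => ?_⟩
  obtain ⟨M, hM⟩ : ∃ M, M = MX μ g := ⟨_, rfl⟩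
  have hMm : Measurable M := by
    rw [hM]
    exact hmeas μ g
  rw [← hM]
  have key : ∀ t : ℝ, 0 < t → μ {x | ENNReal.ofReal t < M x} ≤
      ENNReal.ofReal (4 / t) * ∫⁻ x, (if ENNReal.ofReal t < 2 * g x then g x else 0) ∂μ := by
    intro t ht
    have hs : ENNReal.ofReal t = ENNReal.ofReal (t / 2) + ENNReal.ofReal (t / 2) := by
      rw [← ENNReal.ofReal_add (by positivity) (by positivity)]
      congr 1
      ring
    have h2s : ENNReal.ofReal t = 2 * ENNReal.ofReal (t / 2) := by rw [hs, two_mul]
    have h1 : {x | ENNReal.ofReal t < M x} ⊆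
        {x | ENNReal.ofReal (t / 2) < MX μ ({y | ENNReal.ofReal (t / 2) < g y}.indicator g) x} := by
      intro x hx
      by_contra hc
      have hc' : MX μ ({y | ENNReal.ofReal (t / 2) < g y}.indicator g) x ≤
          ENNReal.ofReal (t / 2) := not_lt.1 hc
      have h2 := MX_trunc μ g hg (ENNReal.ofReal (t / 2)) x
      rw [← hM] at h2
      have h3 : M x ≤ ENNReal.ofReal t := by
        rw [hs]
        refine h2.trans ?_
        gcongr
      exact absurd hx (not_lt.2 h3)
    have hm : MeasurableSet {y | ENNReal.ofReal (t / 2) < g y} := measurableSet_lt measurable_const hg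
    have h2 := hweak μ _ (hg.indicator hm) (ENNReal.ofReal (t / 2))
    have h3 : ∫⁻ x, {y | ENNReal.ofReal (t / 2) < g y}.indicator g x ∂μ =
        ∫⁻ x, (if ENNReal.ofReal t < 2 * g x then g x else 0) ∂μ := by
      refine lintegral_congr fun x => ?_
      rw [indicator_apply]
      have h4 : x ∈ {y | ENNReal.ofReal (t / 2) < g y} ↔ ENNReal.ofReal t < 2 * g x := by
        rw [h2s, ENNReal.mul_lt_mul_iff_right two_ne_zero ENNReal.ofNat_ne_top]
        rfl
      simp only [h4]
    rw [h3] at h2
    have h5 : ENNReal.ofReal (2 / t) * ENNReal.ofReal (t / 2) = 1 := by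
      rw [← ENNReal.ofReal_mul (by positivity)]
      rw [show 2 / t * (t / 2) = 1 by field_simp, ENNReal.ofReal_one]
    calc μ {x | ENNReal.ofReal t < M x} ≤
          μ {x | ENNReal.ofReal (t / 2) <
            MX μ ({y | ENNReal.ofReal (t / 2) < g y}.indicator g) x} := measure_mono h1
      _ = ENNReal.ofReal (2 / t) * (ENNReal.ofReal (t / 2) * μ {x | ENNReal.ofReal (t / 2) <
            MX μ ({y | ENNReal.ofReal (t / 2) < g y}.indicator g) x}) := by
          rw [← mul_assoc, h5, one_mul]
      _ ≤ ENNReal.ofReal (2 / t) *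
          (2 * ∫⁻ x, (if ENNReal.ofReal t < 2 * g x then g x else 0) ∂μ) := by gcongr
      _ = _ := by
          rw [← mul_assoc]
          congr 1
          rw [show (2 : ℝ≥0∞) = ENNReal.ofReal 2 by simp, ← ENNReal.ofReal_mul (by positivity)]
          congr 1
          ring
  -- measurability
  have hF1 : Measurable (Function.uncurry fun (x : ℝ) (t : ℝ) =>
      (if ENNReal.ofReal t < M x then ENNReal.ofReal (q * t ^ (q - 1)) else 0)) := by
    refine Measurable.ite (measurableSet_lt ?_ ?_) ?_ measurable_const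
    · exact ENNReal.measurable_ofReal.comp measurable_snd
    · exact hMm.comp measurable_fst
    · exact ENNReal.measurable_ofReal.comp ((measurable_snd.pow_const _).const_mul _)
  have hF2 : Measurable (Function.uncurry fun (t : ℝ) (x : ℝ) =>
      ENNReal.ofReal (4 * q / (q - 1)) * (g x * (if ENNReal.ofReal t < 2 * g x then
        ENNReal.ofReal ((q - 1) * t ^ (q - 1 - 1)) else 0))) := by
    refine Measurable.const_mul (Measurable.mul (hg.comp measurable_snd) ?_) _
    refine Measurable.ite (measurableSet_lt ?_ ?_) ?_ measurable_const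
    · exact ENNReal.measurable_ofReal.comp measurable_fst
    · exact (hg.comp measurable_snd).const_mul _
    · exact ENNReal.measurable_ofReal.comp ((measurable_fst.pow_const _).const_mul _)
  calc ∫⁻ x, M x ^ q ∂μ = ∫⁻ x, (∫⁻ t in Ioi (0:ℝ), (if ENNReal.ofReal t < M x then
          ENNReal.ofReal (q * t ^ (q - 1)) else 0)) ∂μ :=
        lintegral_congr fun x => (cake q hq0 (M x)).symm
    _ = ∫⁻ t in Ioi (0:ℝ), ∫⁻ x, (if ENNReal.ofReal t < M x then
          ENNReal.ofReal (q * t ^ (q - 1)) else 0) ∂μ :=
        lintegral_lintegral_swap hF1.aemeasurable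
    _ ≤ ∫⁻ t in Ioi (0:ℝ), ∫⁻ x, ENNReal.ofReal (4 * q / (q - 1)) * (g x *
          (if ENNReal.ofReal t < 2 * g x then
            ENNReal.ofReal ((q - 1) * t ^ (q - 1 - 1)) else 0)) ∂μ := by
        refine setLIntegral_mono' measurableSet_Ioi fun t ht => ?_
        rw [mem_Ioi] at ht
        have h1 : ∫⁻ x, (if ENNReal.ofReal t < M x then ENNReal.ofReal (q * t ^ (q - 1)) else 0) ∂μ =
            ENNReal.ofReal (q * t ^ (q - 1)) * μ {x | ENNReal.ofReal t < M x} := by
          have h2 : (fun x => if ENNReal.ofReal t < M x then ENNReal.ofReal (q * t ^ (q - 1))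
              else 0) = {x | ENNReal.ofReal t < M x}.indicator
                fun _ => ENNReal.ofReal (q * t ^ (q - 1)) := by
            funext x
            rw [indicator_apply]
            rfl
          rw [h2, lintegral_indicator_const (measurableSet_lt measurable_const hMm)]
        have h3 : ENNReal.ofReal (q * t ^ (q - 1)) * ENNReal.ofReal (4 / t) =
            ENNReal.ofReal (4 * q / (q - 1)) * ENNReal.ofReal ((q - 1) * t ^ (q - 1 - 1)) := by
          rw [← ENNReal.ofReal_mul (by positivity), ← ENNReal.ofReal_mul (by positivity)]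
          congr 1
          rw [Real.rpow_sub_one ht.ne' (q - 1)]
          field_simp
        rw [h1]
        calc ENNReal.ofReal (q * t ^ (q - 1)) * μ {x | ENNReal.ofReal t < M x} ≤
              ENNReal.ofReal (q * t ^ (q - 1)) * (ENNReal.ofReal (4 / t) *
                ∫⁻ x, (if ENNReal.ofReal t < 2 * g x then g x else 0) ∂μ) := by
              gcongr
              exact key t ht
          _ = (ENNReal.ofReal (4 * q / (q - 1)) * ENNReal.ofReal ((q - 1) * t ^ (q - 1 - 1))) *
                ∫⁻ x, (if ENNReal.ofReal t < 2 * g x then g x else 0) ∂μ := by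
              rw [← mul_assoc, h3]
          _ = ∫⁻ x, ENNReal.ofReal (4 * q / (q - 1)) * (g x *
                (if ENNReal.ofReal t < 2 * g x then
                ENNReal.ofReal ((q - 1) * t ^ (q - 1 - 1)) else 0)) ∂μ := by
              rw [← lintegral_const_mul' _ _ (ENNReal.mul_ne_top ENNReal.ofReal_ne_top
                ENNReal.ofReal_ne_top)]
              refine lintegral_congr fun x => ?_
              split_ifs
              · ring
              · simp
          _ ≤ _ := le_rfl
    _ = ∫⁻ x, (∫⁻ t in Ioi (0:ℝ), ENNReal.ofReal (4 * q / (q - 1)) * (g x *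
          (if ENNReal.ofReal t < 2 * g x then
            ENNReal.ofReal ((q - 1) * t ^ (q - 1 - 1)) else 0))) ∂μ :=
        lintegral_lintegral_swap hF2.aemeasurable
    _ = ∫⁻ x, ENNReal.ofReal (4 * q / (q - 1) * 2 ^ (q - 1)) * g x ^ q ∂μ := by
        refine lintegral_congr fun x => ?_
        have hm2 : Measurable fun t : ℝ => (if ENNReal.ofReal t < 2 * g x then
            ENNReal.ofReal ((q - 1) * t ^ (q - 1 - 1)) else 0) := by
          refine Measurable.ite (measurableSet_lt ENNReal.measurable_ofReal measurable_const) ?_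
            measurable_const
          exact ENNReal.measurable_ofReal.comp ((measurable_id.pow_const _).const_mul _)
        rw [lintegral_const_mul _ (hm2.const_mul _), lintegral_const_mul _ hm2,
          cake (q - 1) hq1 (2 * g x), ENNReal.mul_rpow_of_nonneg _ _ hq1.le,
          ENNReal.ofReal_mul (by positivity), ← ENNReal.ofReal_rpow_of_nonneg (by norm_num) hq1.le]
        have h4 : g x ^ q = g x * g x ^ (q - 1) := by
          conv_lhs => rw [show q = 1 + (q - 1) by ring]
          rw [ENNReal.rpow_add_of_nonneg _ _ zero_le_one hq1.le, ENNReal.rpow_one]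
        rw [h4, ENNReal.ofReal_ofNat]
        ring
    _ = ENNReal.ofReal (4 * q / (q - 1) * 2 ^ (q - 1)) * ∫⁻ x, g x ^ q ∂μ :=
        lintegral_const_mul _ (hg.pow_const q)
    _ ≤ _ := by
        gcongr
        push_cast
        exact le_add_self

end Pool.Agent.N305.GL
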