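import Pool.Agent.N305.GL.Stm

/-!
# GL/SUM: decomposition of `g_λ^*` by apertures

Project GL (helper305); this file by helper692.
-/

set_option autoImplicit false

open MeasureTheory Set Filter Topology
open scoped ENNReal NNReal

namespace Pool.Agent.N305.GL

namespace SumAux

/-- the dyadic bound of the kernel -/
theorem ker_le {lam s y : ℝ} (hl : 0 < lam) (hs : 0 ≤ s) (hy : 0 < y) :
    ∃ k : ℕ, s < 2 ^ k * y ∧ (y / (s + y)) ^ lam ≤ 2 ^ lam * 2 ^ (-((k:ℝ) * lam)) := by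
  classical
  have hex : ∃ k : ℕ, s < 2 ^ k * y := by
    obtain ⟨k, hk⟩ := pow_unbounded_of_one_lt (s / y) (one_lt_two (α := ℝ))
    exact ⟨k, by rwa [div_lt_iff₀ hy] at hk⟩
  refine ⟨Nat.find hex, Nat.find_spec hex, ?_⟩
  have hsy : 0 < s + y := by linarith
  have h1 : y / (s + y) ≤ 2 * 2 ^ (-((Nat.find hex : ℕ) : ℝ)) := by
    rcases Nat.eq_zero_or_pos (Nat.find hex) with h0 | h0
    · rw [h0]
      have h2 : y / (s + y) ≤ 1 := by
        rw [div_le_one hsy]
        linarith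
      simp only [Nat.cast_zero, neg_zero, Real.rpow_zero]
      linarith
    · obtain ⟨m, hm⟩ : ∃ m, Nat.find hex = m + 1 := ⟨Nat.find hex - 1, by omega⟩
      have h2 : ¬ s < 2 ^ m * y := Nat.find_min hex (by omega)
      push Not at h2
      rw [hm]
      have h3 : (2 : ℝ) * 2 ^ (-((m + 1 : ℕ) : ℝ)) = (2 ^ m)⁻¹ := by
        rw [Real.rpow_neg (by norm_num), Real.rpow_natCast, pow_succ]
        field_simp
      rw [h3, ← one_div, div_le_div_iff₀ hsy (by positivity)]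
      have h4 : (1 : ℝ) ≤ 2 ^ m := one_le_pow₀ (by norm_num)
      nlinarith
  calc (y / (s + y)) ^ lam ≤ (2 * 2 ^ (-((Nat.find hex : ℕ) : ℝ))) ^ lam :=
        Real.rpow_le_rpow (by positivity) h1 hl.le
    _ = 2 ^ lam * 2 ^ (-(((Nat.find hex : ℕ) : ℝ) * lam)) := by
        rw [Real.mul_rpow (by norm_num) (by positivity), ← Real.rpow_mul (by norm_num)]
        congr 2
        ring

/-- the pointwise inequality -/
theorem pw {lam : ℝ} (hl : 0 < lam) (F : ℝ → ℝ → ℝ≥0∞) (x z y : ℝ) (hy : 0 < y) :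
    ENNReal.ofReal ((y / (|x - z| + y)) ^ lam) * F z y ≤
      ∑' k : ℕ, ENNReal.ofReal (2 ^ lam * 2 ^ (-((k:ℝ) * lam))) *
        (if |x - z| < 2 ^ k * y then F z y else 0) := by
  obtain ⟨k, h1, h2⟩ := ker_le hl (abs_nonneg (x - z)) hy
  refine le_trans ?_ (ENNReal.le_tsum k)
  rw [if_pos h1]
  gcongr

end SumAux

theorem sum : S_SUM := by
  intro lam hl F hF x
  have hm : ∀ k : ℕ, Measurable (fun p : ℝ × ℝ =>
      ENNReal.ofReal (2 ^ lam * 2 ^ (-((k:ℝ) * lam))) *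
        (if |x - p.1| < 2 ^ k * p.2 then F p.1 p.2 else 0)) := by
    intro k
    refine Measurable.const_mul (Measurable.ite ?_ hF measurable_const) _
    refine measurableSet_lt ?_ ?_
    · fun_prop
    · fun_prop
  have h1 : ∀ k : ℕ, ENNReal.ofReal (2 ^ lam * 2 ^ (-((k:ℝ) * lam))) * Aa (2 ^ k) F x =
      ∫⁻ z : ℝ, ∫⁻ y in Ioi (0:ℝ), ENNReal.ofReal (2 ^ lam * 2 ^ (-((k:ℝ) * lam))) *
        (if |x - z| < 2 ^ k * y then F z y else 0) := by
    intro k
    unfold Aa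
    rw [← lintegral_const_mul' _ _ ENNReal.ofReal_ne_top]
    refine lintegral_congr fun z => ?_
    rw [← lintegral_const_mul' _ _ ENNReal.ofReal_ne_top]
  calc ∫⁻ z : ℝ, ∫⁻ y in Ioi (0:ℝ), ENNReal.ofReal ((y / (|x - z| + y)) ^ lam) * F z y
      ≤ ∫⁻ z : ℝ, ∫⁻ y in Ioi (0:ℝ), ∑' k : ℕ,
          ENNReal.ofReal (2 ^ lam * 2 ^ (-((k:ℝ) * lam))) *
            (if |x - z| < 2 ^ k * y then F z y else 0) := by
        refine lintegral_mono fun z => ?_
        exact setLIntegral_mono' measurableSet_Ioi fun y hy => SumAux.pw hl F x z y hy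
    _ = ∫⁻ z : ℝ, ∑' k : ℕ, ∫⁻ y in Ioi (0:ℝ),
          ENNReal.ofReal (2 ^ lam * 2 ^ (-((k:ℝ) * lam))) *
            (if |x - z| < 2 ^ k * y then F z y else 0) := by
        refine lintegral_congr fun z => ?_
        exact lintegral_tsum fun k => ((hm k).comp measurable_prodMk_left).aemeasurable
    _ = ∑' k : ℕ, ∫⁻ z : ℝ, ∫⁻ y in Ioi (0:ℝ),
          ENNReal.ofReal (2 ^ lam * 2 ^ (-((k:ℝ) * lam))) *
            (if |x - z| < 2 ^ k * y then F z y else 0) := by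
        exact lintegral_tsum fun k => ((hm k).lintegral_prod_right').aemeasurable
    _ = ∑' k : ℕ, ENNReal.ofReal (2 ^ lam * 2 ^ (-((k:ℝ) * lam))) * Aa (2 ^ k) F x :=
        tsum_congr fun k => (h1 k).symm

end Pool.Agent.N305.GL
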