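import Pool.Agent.N305.GL.Stm

/-!
# GL/TRUNC: the area integral on `L²(A_2)`: truncation of the weight
-/

set_option autoImplicit false

open MeasureTheory Set Filter Topology
open scoped ENNReal NNReal

namespace Pool.Agent.N305.GL

/-- the simplified form of `A_2` -/
def A2s (Q : ℝ≥0∞) (u : ℝ → ℝ≥0∞) : Prop :=
  ∀ a b : ℝ, a < b → (∫⁻ x in Ioo a b, u x) * (∫⁻ x in Ioo a b, (u x)⁻¹) ≤
    Q * ENNReal.ofReal (b - a) ^ (2:ℝ)

theorem a2s_iff (Q : ℝ≥0∞) (u : ℝ → ℝ≥0∞) : APc 2 Q u ↔ A2s Q u := by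
  unfold APc A2s
  have h1 : (-1 / (2 - 1) : ℝ) = -1 := by norm_num
  have h2 : (2 - 1 : ℝ) = 1 := by norm_num
  simp only [h1, ENNReal.rpow_neg_one]
  simp only [h2, ENNReal.rpow_one]

theorem A2s.inv {Q : ℝ≥0∞} {u : ℝ → ℝ≥0∞} (h : A2s Q u) : A2s Q (fun x => (u x)⁻¹) := by
  intro a b hab
  have := h a b hab
  simp only [inv_inv]
  rw [mul_comm]
  exact this

theorem inv_min' (a b : ℝ≥0∞) : (min a b)⁻¹ = max a⁻¹ b⁻¹ := by
  rcases le_total a b with h | h
  · rw [min_eq_left h, max_eq_left (ENNReal.inv_le_inv.2 h)]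
  · rw [min_eq_right h, max_eq_right (ENNReal.inv_le_inv.2 h)]

theorem A2s.upper {Q : ℝ≥0∞} {u : ℝ → ℝ≥0∞} (hu : Measurable u) (h : A2s Q u) {N : ℝ≥0∞}
    (hN0 : N ≠ 0) (hNT : N ≠ ∞) : A2s (Q + 1) (fun x => min (u x) N) := by
  intro a b hab
  set L := ENNReal.ofReal (b - a) with hL
  have hvol : volume.restrict (Ioo a b) univ = L := by
    rw [Measure.restrict_apply_univ, Real.volume_Ioo]
  have h1 : ∫⁻ x in Ioo a b, min (u x) N ≤ ∫⁻ x in Ioo a b, u x :=
    lintegral_mono fun x => min_le_left _ _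
  have h2 : ∫⁻ x in Ioo a b, min (u x) N ≤ N * L := by
    calc ∫⁻ x in Ioo a b, min (u x) N ≤ ∫⁻ _ in Ioo a b, N :=
          lintegral_mono fun x => min_le_right _ _
      _ = N * L := by rw [lintegral_const, hvol]
  have h3 : ∫⁻ x in Ioo a b, (min (u x) N)⁻¹ ≤ (∫⁻ x in Ioo a b, (u x)⁻¹) + N⁻¹ * L := by
    calc ∫⁻ x in Ioo a b, (min (u x) N)⁻¹ ≤ ∫⁻ x in Ioo a b, ((u x)⁻¹ + N⁻¹) := by
          refine lintegral_mono fun x => ?_
          simp only [inv_min']
          exact max_le le_self_add le_add_self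
      _ = (∫⁻ x in Ioo a b, (u x)⁻¹) + N⁻¹ * L := by
          have hm : Measurable fun x => (u x)⁻¹ := hu.inv
          rw [lintegral_add_left hm, lintegral_const, hvol]
  calc (∫⁻ x in Ioo a b, min (u x) N) * (∫⁻ x in Ioo a b, (min (u x) N)⁻¹)
      ≤ (∫⁻ x in Ioo a b, min (u x) N) * ((∫⁻ x in Ioo a b, (u x)⁻¹) + N⁻¹ * L) := by gcongr
    _ = (∫⁻ x in Ioo a b, min (u x) N) * (∫⁻ x in Ioo a b, (u x)⁻¹) +
        (∫⁻ x in Ioo a b, min (u x) N) * (N⁻¹ * L) := mul_add _ _ _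
    _ ≤ (∫⁻ x in Ioo a b, u x) * (∫⁻ x in Ioo a b, (u x)⁻¹) + (N * L) * (N⁻¹ * L) := by
        gcongr
    _ ≤ Q * L ^ (2:ℝ) + L ^ (2:ℝ) := by
        refine add_le_add (h a b hab) ?_
        · apply le_of_eq
          have : (N * L) * (N⁻¹ * L) = (N * N⁻¹) * (L * L) := by ring
          rw [this, ENNReal.mul_inv_cancel hN0 hNT, one_mul]
          rw [show (2:ℝ) = ((2:ℕ) : ℝ) by norm_num, ENNReal.rpow_natCast, pow_two]
    _ = (Q + 1) * L ^ (2:ℝ) := by ring

theorem A2s.lower {Q : ℝ≥0∞} {u : ℝ → ℝ≥0∞} (hu : Measurable u) (h : A2s Q u) {N : ℝ≥0∞}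
    (hN0 : N ≠ 0) (hNT : N ≠ ∞) : A2s (Q + 1) (fun x => max (u x) N⁻¹) := by
  have h1 := (h.inv.upper hu.inv hN0 hNT).inv
  refine cast ?_ h1
  congr 1
  funext x
  simp only [inv_min', Pi.inv_apply, inv_inv]

/-- the truncated weight -/
noncomputable def tU (u : ℝ → ℝ≥0∞) (n : ℕ) (x : ℝ) : ℝ≥0∞ :=
  max (min (u x) ((n:ℝ≥0∞) + 1)) ((n:ℝ≥0∞) + 1)⁻¹

theorem nn0 (n : ℕ) : ((n:ℝ≥0∞) + 1) ≠ 0 := by simp

theorem nnT (n : ℕ) : ((n:ℝ≥0∞) + 1) ≠ ∞ := by
  simp

theorem tU_meas {u : ℝ → ℝ≥0∞} (hu : Measurable u) (n : ℕ) : Measurable (tU u n) :=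
  (hu.min measurable_const).max measurable_const

theorem tU_ge (u : ℝ → ℝ≥0∞) (n : ℕ) (x : ℝ) : ((n:ℝ≥0∞) + 1)⁻¹ ≤ tU u n x := le_max_right _ _

theorem tU_ge' (u : ℝ → ℝ≥0∞) (n : ℕ) (x : ℝ) : min (u x) ((n:ℝ≥0∞) + 1) ≤ tU u n x :=
  le_max_left _ _

theorem tU_le (u : ℝ → ℝ≥0∞) (n : ℕ) (x : ℝ) : tU u n x ≤ (n:ℝ≥0∞) + 1 := by
  refine max_le (min_le_right _ _) ?_
  have h1 : (1:ℝ≥0∞) ≤ (n:ℝ≥0∞) + 1 := le_add_self
  exact (ENNReal.inv_le_one.2 h1).trans h1

theorem tU_le' (u : ℝ → ℝ≥0∞) (n : ℕ) (x : ℝ) : tU u n x ≤ u x + ((n:ℝ≥0∞) + 1)⁻¹ :=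
  max_le ((min_le_left _ _).trans le_self_add) le_add_self

theorem tU_wt {u : ℝ → ℝ≥0∞} (hu : Measurable u) (n : ℕ) : Wt (tU u n) where
  meas := tU_meas hu n
  ne0 := fun x h => by
    have h1 := tU_ge u n x
    rw [h, nonpos_iff_eq_zero, ENNReal.inv_eq_zero] at h1
    exact nnT n h1
  neT := fun x => ((tU_le u n x).trans_lt (lt_top_iff_ne_top.2 (nnT n))).ne

theorem tU_apc {u : ℝ → ℝ≥0∞} (hu : Measurable u) {Q : ℝ≥0∞} (h : APc 2 Q u) (n : ℕ) :
    APc 2 (Q + 2) (tU u n) := by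
  rw [a2s_iff] at h ⊢
  have h1 := (h.upper hu (nn0 n) (nnT n)).lower (hu.min measurable_const) (nn0 n) (nnT n)
  have h2 : Q + 1 + 1 = Q + 2 := by rw [add_assoc, one_add_one_eq_two]
  rw [h2] at h1
  exact h1

theorem Po_nonneg {f : ℝ → ℝ} (hf : ∀ x, 0 ≤ f x) {z y : ℝ} (hy : 0 < y) : 0 ≤ Po f z y := by
  unfold Po
  refine mul_nonneg (by positivity) (integral_nonneg fun x => ?_)
  have := hf (z - x)
  simp only [Pi.zero_apply]
  positivity

theorem gradSq_nonneg (f : ℝ → ℝ) (z y : ℝ) : 0 ≤ gradSq f z y := by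
  unfold gradSq; positivity

theorem Aa_meas (a : ℝ) {F : ℝ → ℝ → ℝ≥0∞} (hF : Measurable (Function.uncurry F)) :
    Measurable (Aa a F) := by
  unfold Aa
  refine Measurable.lintegral_prod_right' (f := fun p : ℝ × ℝ =>
    ∫⁻ y in Ioi (0:ℝ), if |p.1 - p.2| < a * y then F p.2 y else 0) ?_
  refine Measurable.lintegral_prod_right' (f := fun q : (ℝ × ℝ) × ℝ =>
    if |q.1.1 - q.1.2| < a * q.2 then F q.1.2 q.2 else 0) ?_
  refine Measurable.ite ?_ ?_ measurable_const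
  · refine measurableSet_lt ?_ ?_
    · exact (continuous_abs.measurable).comp
        ((measurable_fst.comp measurable_fst).sub (measurable_snd.comp measurable_fst))
    · exact measurable_const.mul measurable_snd
  · exact hF.comp (((measurable_snd.comp measurable_fst)).prodMk measurable_snd)

theorem BS.sq_fin {f : ℝ → ℝ} (hf : BS f) : ∫⁻ x, ENNReal.ofReal |f x| ^ (2:ℝ) ≠ ∞ := by
  obtain ⟨R, hR⟩ := hf.bd
  have h1 : ∫⁻ x, ENNReal.ofReal |f x| ^ (2:ℝ) ≤
      ∫⁻ x, (Icc (-R) R).indicator (fun _ => ENNReal.ofReal R ^ (2:ℝ)) x := by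
    refine lintegral_mono fun x => ?_
    by_cases hx : x ∈ Icc (-R) R
    · simp only [indicator_of_mem hx]
      exact ENNReal.rpow_le_rpow (ENNReal.ofReal_le_ofReal (hR x).1) (by norm_num)
    · have h2 : R < |x| := by
        by_contra h3
        exact hx (abs_le.1 (not_lt.1 h3))
      simp [indicator_of_notMem hx, (hR x).2 h2]
  refine (h1.trans_lt ?_).ne
  rw [lintegral_indicator measurableSet_Icc, lintegral_const, Measure.restrict_apply_univ,
    Real.volume_Icc]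
  exact ENNReal.mul_lt_top (ENNReal.rpow_lt_top_of_nonneg (by norm_num) ENNReal.ofReal_ne_top)
    ENNReal.ofReal_lt_top

/-- the inequality for the truncated weights -/
theorem trunc_step (h2 : S_AREA) (h3 : S_MEAS) (h4 : S_BEL) {W : ℝ → ℝ} {c Q : ℝ}
    (hW : Measurable W) (hc : 0 < c) (hWc : ∀ x, c ≤ W x ∧ W x ≤ 1 / c)
    (hQ : ∀ z y : ℝ, 0 < y → Po (fun x => 1 / W x) z y * Po W z y ≤ Q) {f : ℝ → ℝ} (hf : BS f)
    (hpf : PInt f) :
    ∫⁻ x, Aa 1 (Fg f) x * ENNReal.ofReal (W x) ≤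
      ENNReal.ofReal (2 * Real.pi) * (ENNReal.ofReal (52 * Q ^ 3) *
        ∫⁻ x, ENNReal.ofReal (f x ^ 2 * W x)) := by
  have hW0 : ∀ x, 0 ≤ W x := fun x => hc.le.trans (hWc x).1
  have h5 := h2.2.1 (fun x => ENNReal.ofReal (W x)) hW.ennreal_ofReal (Fg f) (h3 f hpf).1
  refine h5.trans ?_
  have h6 := h4 W c Q hW hc hWc hQ f hf
  refine le_trans ?_ (mul_le_mul_right h6 _)
  rw [← lintegral_const_mul' _ _ ENNReal.ofReal_ne_top]
  refine lintegral_mono fun z => ?_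
  rw [← lintegral_const_mul' _ _ ENNReal.ofReal_ne_top]
  refine setLIntegral_mono' measurableSet_Ioi fun y hy => ?_
  have hy' : (0:ℝ) < y := hy
  have h7 := h2.2.2 W hW hW0 ⟨1 / c, fun x => (hWc x).2⟩ z y hy'
  rw [← h7]
  unfold Fg
  rw [if_pos hy']
  have hP := Po_nonneg hW0 (z := z) hy'
  have hg := gradSq_nonneg f z y
  rw [← ENNReal.ofReal_mul (by positivity), ← ENNReal.ofReal_mul hg,
    ← ENNReal.ofReal_mul (by positivity)]
  apply ENNReal.ofReal_le_ofReal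
  apply le_of_eq
  ring

theorem trunc (h1 : S_P2) (h2 : S_AREA) (h3 : S_MEAS) (h4 : S_BEL) : S_A2 := by
  intro Q
  obtain ⟨Q', hQ'1, hQ'⟩ := h1 (Q + 2)
  set C : ℝ≥0∞ := ENNReal.ofReal (2 * Real.pi) * ENNReal.ofReal (52 * (Q':ℝ) ^ 3) with hC
  have hCT : C ≠ ∞ := ENNReal.mul_ne_top ENNReal.ofReal_ne_top ENNReal.ofReal_ne_top
  refine ⟨C.toNNReal, fun u hu hap f hf => ?_⟩
  rw [ENNReal.coe_toNNReal hCT]
  -- f is Poisson integrable
  have hpf : PInt f := by
    obtain ⟨R, hR⟩ := hf.bd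
    unfold PInt
    have hi : Integrable (fun x : ℝ => (Icc (-R) R).indicator (fun _ => R) x) := by
      rw [integrable_indicator_iff measurableSet_Icc]
      exact integrableOn_const (by simp) (by simp)
    refine hi.mono' ?_ ?_
    · have hm := hf.meas
      exact (hm.div (by fun_prop)).aestronglyMeasurable
    · refine Eventually.of_forall fun x => ?_
      rw [norm_div, Real.norm_eq_abs, Real.norm_eq_abs, abs_of_pos (by positivity : (0:ℝ) < 1 + x ^ 2)]
      by_cases hx : x ∈ Icc (-R) R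
      · simp only [indicator_of_mem hx]
        refine (div_le_self (abs_nonneg _) ?_).trans (hR x).1
        nlinarith [sq_nonneg x]
      · have h2 : R < |x| := by
          by_contra h3
          exact hx (abs_le.1 (not_lt.1 h3))
        simp [indicator_of_notMem hx, (hR x).2 h2]
  set A : ℝ≥0∞ := ∫⁻ x, ENNReal.ofReal |f x| ^ (2:ℝ) * u x with hA
  set B : ℝ≥0∞ := ∫⁻ x, ENNReal.ofReal |f x| ^ (2:ℝ) with hB
  have hBT : B ≠ ∞ := hf.sq_fin
  -- the inequality for the truncated weights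
  have key : ∀ n : ℕ, ∫⁻ x, Aa 1 (Fg f) x * min (u x) ((n:ℝ≥0∞) + 1) ≤
      C * (A + B * ((n:ℝ≥0∞) + 1)⁻¹) := by
    intro n
    have hwt := tU_wt hu.meas n
    have hapn := tU_apc hu.meas hap n
    set W : ℝ → ℝ := fun x => (tU u n x).toReal with hWdef
    have hWm : Measurable W := (tU_meas hu.meas n).ennreal_toReal
    have hWU : ∀ x, ENNReal.ofReal (W x) = tU u n x := fun x => ENNReal.ofReal_toReal (hwt.neT x)
    have hc : (0:ℝ) < 1 / ((n:ℝ) + 1) := by positivity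
    have hnR : ((n:ℝ≥0∞) + 1) = ENNReal.ofReal ((n:ℝ) + 1) := by
      rw [ENNReal.ofReal_add (by positivity) zero_le_one]
      simp
    have hWc : ∀ x, 1 / ((n:ℝ) + 1) ≤ W x ∧ W x ≤ 1 / (1 / ((n:ℝ) + 1)) := by
      intro x
      rw [one_div_one_div]
      constructor
      · have := tU_ge u n x
        rw [hnR, ← ENNReal.ofReal_inv_of_pos (by positivity)] at this
        have h9 := (ENNReal.ofReal_le_iff_le_toReal (hwt.neT x)).1 this
        rw [one_div]
        exact h9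
      · have := tU_le u n x
        rw [hnR] at this
        exact ENNReal.toReal_le_of_le_ofReal (by positivity) this
    have hWpos : ∀ x, 0 < W x := fun x => hc.trans_le (hWc x).1
    have hWI : ∀ x, ENNReal.ofReal (1 / W x) = (tU u n x)⁻¹ := fun x => by
      rw [one_div, ENNReal.ofReal_inv_of_pos (hWpos x), hWU]
    have hQb : ∀ z y : ℝ, 0 < y → Po (fun x => 1 / W x) z y * Po W z y ≤ (Q':ℝ) := by
      intro z y hy
      have e1 := h2.2.2 W hWm (fun x => (hWpos x).le) ⟨_, fun x => (hWc x).2⟩ z y hy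
      have e2 := h2.2.2 (fun x => 1 / W x) (hWm.const_div 1) (fun x => by
        have := hWpos x
        positivity) ⟨1 / (1 / ((n:ℝ) + 1)), fun x => by
          exact one_div_le_one_div_of_le hc (hWc x).1⟩ z y hy
      simp only [hWU] at e1
      simp only [hWI] at e2
      have hap2 : APc 2 ((Q + 2 : ℝ≥0) : ℝ≥0∞) (tU u n) := by
        have : ((Q + 2 : ℝ≥0) : ℝ≥0∞) = (Q:ℝ≥0∞) + 2 := by push_cast; rfl
        rw [this]
        exact hapn
      have e3 := hQ' (tU u n) hwt hap2 z y hy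
      have hP1 : 0 ≤ Po (fun x => 1 / W x) z y := Po_nonneg (fun x => by
        have := hWpos x
        positivity) hy
      rw [show PE (tU u n) z y = PE (fun x => tU u n x) z y from rfl, ← e1, ← e2, mul_comm,
        ← ENNReal.ofReal_mul hP1] at e3
      have e5 := (ENNReal.ofReal_le_iff_le_toReal ENNReal.coe_ne_top).1 e3
      simpa using e5
    have h6 := trunc_step h2 h3 h4 hWm hc hWc hQb hf hpf
    calc ∫⁻ x, Aa 1 (Fg f) x * min (u x) ((n:ℝ≥0∞) + 1)
        ≤ ∫⁻ x, Aa 1 (Fg f) x * ENNReal.ofReal (W x) := by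
          refine lintegral_mono fun x => ?_
          rw [hWU]
          exact mul_le_mul_right (tU_ge' u n x) _
      _ ≤ _ := h6
      _ = C * ∫⁻ x, ENNReal.ofReal (f x ^ 2 * W x) := by rw [hC, mul_assoc]
      _ ≤ C * (A + B * ((n:ℝ≥0∞) + 1)⁻¹) := by
          gcongr
          have hm : Measurable fun x => ENNReal.ofReal |f x| ^ (2:ℝ) * u x := by
            refine Measurable.mul ?_ hu.meas
            exact ((continuous_abs.measurable.comp hf.meas).ennreal_ofReal).pow_const _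
          rw [hA, hB, ← lintegral_mul_const' _ _ (ENNReal.inv_ne_top.2 (nn0 n)),
            ← lintegral_add_left hm]
          refine lintegral_mono fun x => ?_
          have e1 : ENNReal.ofReal (f x ^ 2 * W x) = ENNReal.ofReal |f x| ^ (2:ℝ) * tU u n x := by
            rw [ENNReal.ofReal_mul (sq_nonneg _), hWU]
            congr 1
            rw [show (2:ℝ) = ((2:ℕ) : ℝ) by norm_num, ENNReal.rpow_natCast,
              ← ENNReal.ofReal_pow (abs_nonneg _), sq_abs]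
          rw [e1, ← mul_add]
          exact mul_le_mul_right (tU_le' u n x) _
  -- the limit
  have hFm := (h3 f hpf).1
  have hAm := Aa_meas 1 hFm
  have hlim : Tendsto (fun n : ℕ => ∫⁻ x, Aa 1 (Fg f) x * min (u x) ((n:ℝ≥0∞) + 1)) atTop
      (𝓝 (∫⁻ x, Aa 1 (Fg f) x * u x)) := by
    refine lintegral_tendsto_of_tendsto_of_monotone ?_ ?_ ?_
    · intro n
      exact (hAm.mul (hu.meas.min measurable_const)).aemeasurable
    · refine Eventually.of_forall fun x => ?_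
      intro n m hnm
      have : (n:ℝ≥0∞) + 1 ≤ (m:ℝ≥0∞) + 1 := by gcongr
      exact mul_le_mul_right (min_le_min_left _ this) _
    · refine Eventually.of_forall fun x => ?_
      obtain ⟨n0, hn0⟩ := ENNReal.exists_nat_gt (hu.neT x)
      refine tendsto_const_nhds.congr' ?_
      filter_upwards [eventually_ge_atTop n0] with n hn
      have : u x ≤ (n:ℝ≥0∞) + 1 := by
        refine hn0.le.trans ?_
        have : (n0:ℝ≥0∞) ≤ n := by exact_mod_cast hn
        exact this.trans le_self_add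
      rw [min_eq_left this]
  have hlim2 : Tendsto (fun n : ℕ => C * (A + B * ((n:ℝ≥0∞) + 1)⁻¹)) atTop
      (𝓝 (C * (A + B * 0))) := by
    refine ENNReal.Tendsto.const_mul ?_ (Or.inr hCT)
    refine Tendsto.const_add _ ?_
    refine ENNReal.Tendsto.const_mul ?_ (Or.inr hBT)
    have := (tendsto_add_atTop_iff_nat 1).2 ENNReal.tendsto_inv_nat_nhds_zero
    simpa using this
  have := le_of_tendsto_of_tendsto' hlim hlim2 key
  simpa using this

end Pool.Agent.N305.GL
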