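import Pool.Agent.N305.GL.Stm

/-!
# Weak type (1,1) of the uncentered maximal function of an arbitrary measure
-/

set_option autoImplicit false

open MeasureTheory Set Filter Topology
open scoped ENNReal NNReal

namespace Pool.Agent.N305.GL

/-- the level sets of the maximal function are unions of open intervals -/
theorem MX_level (μ : Measure ℝ) (g : ℝ → ℝ≥0∞) (t : ℝ≥0∞) :
    {x | t < MX μ g x} = ⋃ i ∈ {i : ℝ × ℝ | t < (μ (Ioo i.1 i.2))⁻¹ * ∫⁻ y in Ioo i.1 i.2, g y ∂μ},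
      Ioo i.1 i.2 := by
  ext x
  simp only [mem_ofPred_eq, mem_iUnion, exists_prop, Prod.exists, MX, lt_iSup_iff]
  constructor
  · rintro ⟨a, b, hab, h⟩
    exact ⟨a, b, h, hab⟩
  · rintro ⟨a, b, h, hab⟩
    exact ⟨a, b, hab, h⟩

/-- a finite family of intervals has a subfamily with the same union, in which no point is
covered more than twice -/
theorem exists_sub (F : Finset (ℝ × ℝ)) : ∃ F' ⊆ F,
    (⋃ i ∈ F', Ioo i.1 i.2) = ⋃ i ∈ F, Ioo i.1 i.2 ∧
    ∀ x : ℝ, (F'.filter fun i => x ∈ Ioo i.1 i.2).card ≤ 2 := by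
  classical
  obtain ⟨F', hF', hmin⟩ := Finset.exists_min_image
    (F.powerset.filter fun G => (⋃ i ∈ G, Ioo i.1 i.2) = ⋃ i ∈ F, Ioo i.1 i.2) Finset.card
    ⟨F, by simp⟩
  rw [Finset.mem_filter, Finset.mem_powerset] at hF'
  refine ⟨F', hF'.1, hF'.2, fun x => ?_⟩
  by_contra hc
  push Not at hc
  obtain ⟨G, hG⟩ : ∃ G, G = F'.filter fun i => x ∈ Ioo i.1 i.2 := ⟨_, rfl⟩
  rw [← hG] at hc
  have hne : G.Nonempty := by
    rw [← Finset.card_pos]
    omega
  obtain ⟨i, hi, himin⟩ := Finset.exists_min_image G Prod.fst hne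
  obtain ⟨j, hj, hjmax⟩ := Finset.exists_max_image G Prod.snd hne
  obtain ⟨l, hl, hl2⟩ : ∃ l ∈ G, l ∉ ({i, j} : Finset (ℝ × ℝ)) := by
    by_contra hcon
    push Not at hcon
    have h1 := Finset.card_le_card (show G ⊆ {i, j} from fun l hl => hcon l hl)
    have h2 := Finset.card_le_two (a := i) (b := j)
    omega
  rw [Finset.mem_insert, Finset.mem_singleton, not_or] at hl2
  have hi' := hi
  have hj' := hj
  have hl' := hl
  rw [hG, Finset.mem_filter] at hi' hj' hl'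
  have hcov : Ioo l.1 l.2 ⊆ Ioo i.1 i.2 ∪ Ioo j.1 j.2 := by
    intro y hy
    rcases le_or_gt y x with h | h
    · exact Or.inl ⟨(himin l hl).trans_lt hy.1, h.trans_lt hi'.2.2⟩
    · exact Or.inr ⟨hj'.2.1.trans h, hy.2.trans_le (hjmax l hl)⟩
  have hun : (⋃ i ∈ F'.erase l, Ioo i.1 i.2) = ⋃ i ∈ F, Ioo i.1 i.2 := by
    rw [← hF'.2]
    apply Subset.antisymm
    · exact biUnion_subset_biUnion_left fun k hk => Finset.mem_of_mem_erase hk
    · intro y hy
      simp only [mem_iUnion, exists_prop] at hy ⊢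
      obtain ⟨k, hk, hyk⟩ := hy
      by_cases hkl : k = l
      · subst hkl
        rcases hcov hyk with h | h
        · exact ⟨i, Finset.mem_erase.2 ⟨fun h => hl2.1 h.symm, hi'.1⟩, h⟩
        · exact ⟨j, Finset.mem_erase.2 ⟨fun h => hl2.2 h.symm, hj'.1⟩, h⟩
      · exact ⟨k, Finset.mem_erase.2 ⟨hkl, hk⟩, hyk⟩
  have h3 := hmin (F'.erase l) (by
    rw [Finset.mem_filter, Finset.mem_powerset]
    exact ⟨(Finset.erase_subset _ _).trans hF'.1, hun⟩)
  have h4 := Finset.card_erase_lt_of_mem hl'.1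
  omega

theorem weak_fin (μ : Measure ℝ) (g : ℝ → ℝ≥0∞) (hg : Measurable g) (t : ℝ≥0∞)
    (F : Finset (ℝ × ℝ))
    (hF : ∀ i ∈ F, t < (μ (Ioo i.1 i.2))⁻¹ * ∫⁻ y in Ioo i.1 i.2, g y ∂μ) :
    t * μ (⋃ i ∈ F, Ioo i.1 i.2) ≤ 2 * ∫⁻ x, g x ∂μ := by
  classical
  obtain ⟨F', hF', hun, hcard⟩ := exists_sub F
  rw [← hun]
  have h1 : ∀ i ∈ F', t * μ (Ioo i.1 i.2) ≤ ∫⁻ y in Ioo i.1 i.2, g y ∂μ := by
    intro i hi
    have h2 := hF i (hF' hi)
    have h3 : μ (Ioo i.1 i.2) ≠ ∞ := by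
      intro h
      rw [h, ENNReal.inv_top, zero_mul] at h2
      exact not_lt_zero h2
    have h4 : μ (Ioo i.1 i.2) ≠ 0 := by
      intro h
      rw [Measure.restrict_eq_zero.2 h, lintegral_zero_measure, mul_zero] at h2
      exact not_lt_zero h2
    calc t * μ (Ioo i.1 i.2) ≤ ((μ (Ioo i.1 i.2))⁻¹ * ∫⁻ y in Ioo i.1 i.2, g y ∂μ) *
          μ (Ioo i.1 i.2) := mul_le_mul_left h2.le _
      _ = ∫⁻ y in Ioo i.1 i.2, g y ∂μ := by
          rw [mul_comm, ← mul_assoc, ENNReal.mul_inv_cancel h4 h3, one_mul]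
  calc t * μ (⋃ i ∈ F', Ioo i.1 i.2) ≤ t * ∑ i ∈ F', μ (Ioo i.1 i.2) := by
        gcongr
        exact measure_biUnion_finset_le _ _
    _ = ∑ i ∈ F', t * μ (Ioo i.1 i.2) := Finset.mul_sum _ _ _
    _ ≤ ∑ i ∈ F', ∫⁻ y in Ioo i.1 i.2, g y ∂μ := Finset.sum_le_sum h1
    _ = ∫⁻ y, ∑ i ∈ F', (Ioo i.1 i.2).indicator g y ∂μ := by
        rw [lintegral_finsetSum _ fun i _ => hg.indicator measurableSet_Ioo]
        exact Finset.sum_congr rfl fun i _ => (lintegral_indicator measurableSet_Ioo _).symm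
    _ ≤ ∫⁻ y, 2 * g y ∂μ := by
        refine lintegral_mono fun y => ?_
        have h5 : ∑ i ∈ F', (Ioo i.1 i.2).indicator g y =
            ((F'.filter fun i => y ∈ Ioo i.1 i.2).card : ℝ≥0∞) * g y := by
          rw [← nsmul_eq_mul, ← Finset.sum_const, Finset.sum_filter]
          refine Finset.sum_congr rfl fun i _ => ?_
          rw [indicator_apply]
        change ∑ i ∈ F', (Ioo i.1 i.2).indicator g y ≤ 2 * g y
        rw [h5]
        gcongr
        exact_mod_cast hcard y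
    _ = 2 * ∫⁻ y, g y ∂μ := lintegral_const_mul _ hg

/-- GL/WT. -/
theorem wt : S_WT := by
  refine ⟨fun μ g => ?_, fun μ g hg t => ?_⟩
  · refine measurable_of_Ioi fun t => ?_
    change MeasurableSet {x | t < MX μ g x}
    rw [MX_level]
    exact (isOpen_biUnion fun i _ => isOpen_Ioo).measurableSet
  · rw [MX_level]
    obtain ⟨T, hT, hTc, hTu⟩ := TopologicalSpace.isOpen_biUnion_countable
      {i : ℝ × ℝ | t < (μ (Ioo i.1 i.2))⁻¹ * ∫⁻ y in Ioo i.1 i.2, g y ∂μ}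
      (fun i => Ioo i.1 i.2) fun i _ => isOpen_Ioo
    rw [← hTu]
    have : Countable T := hTc.to_subtype
    have h1 : (⋃ i ∈ T, Ioo i.1 i.2) = ⋃ F : Finset T, ⋃ i ∈ F, Ioo i.1.1 i.1.2 := by
      ext x
      simp only [mem_iUnion, exists_prop]
      constructor
      · rintro ⟨i, hi, hx⟩
        exact ⟨{⟨i, hi⟩}, ⟨i, hi⟩, Finset.mem_singleton_self _, hx⟩
      · rintro ⟨F, i, -, hx⟩
        exact ⟨i.1, i.2, hx⟩
    have hdir : Directed (· ⊆ ·) fun F : Finset T => ⋃ i ∈ F, Ioo i.1.1 i.1.2 := by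
      classical
      intro F G
      exact ⟨F ∪ G, biUnion_subset_biUnion_left fun i hi => Finset.mem_union_left _ hi,
        biUnion_subset_biUnion_left fun i hi => Finset.mem_union_right _ hi⟩
    rw [h1, hdir.measure_iUnion, ENNReal.mul_iSup]
    refine iSup_le fun F => ?_
    have h2 : (⋃ i ∈ F, Ioo i.1.1 i.1.2) = ⋃ i ∈ F.map (Function.Embedding.subtype _), Ioo i.1 i.2 := by
      ext x
      simp
    rw [h2]
    refine weak_fin μ g hg t _ fun i hi => ?_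
    rw [Finset.mem_map] at hi
    obtain ⟨j, -, rfl⟩ := hi
    exact hT j.2

end Pool.Agent.N305.GL
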